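import Pool.Agent.ACG.Defs

set_option autoImplicit false

/-!
RED: property (C) implies reducedness; elementary facts on reduced rings.
-/

namespace ACG

namespace RedAux

/-- `ℓ²` with the zero product. -/
def ZB : Type := lp (fun _ : ℕ => ℂ) 2

noncomputable instance : NormedAddCommGroup ZB :=
  inferInstanceAs (NormedAddCommGroup (lp (fun _ : ℕ => ℂ) 2))

noncomputable instance : NormedSpace ℂ ZB :=
  inferInstanceAs (NormedSpace ℂ (lp (fun _ : ℕ => ℂ) 2))

instance : CompleteSpace ZB :=
  inferInstanceAs (CompleteSpace (lp (fun _ : ℕ => ℂ) 2))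

noncomputable instance : NonUnitalNormedRing ZB :=
  { (inferInstance : NormedAddCommGroup ZB) with
    mul := fun _ _ => 0
    left_distrib := fun _ _ _ => (add_zero (0 : ZB)).symm
    right_distrib := fun _ _ _ => (add_zero (0 : ZB)).symm
    zero_mul := fun _ => rfl
    mul_zero := fun _ => rfl
    mul_assoc := fun _ _ _ => rfl
    norm_mul_le := fun a b => by
      show ‖(0 : ZB)‖ ≤ ‖a‖ * ‖b‖
      rw [norm_zero]
      positivity }

theorem ZB.mul_eq (a b : ZB) : a * b = 0 := rfl

instance : IsScalarTower ℂ ZB ZB := ⟨fun c a b => by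
  show (c • a) * b = c • (a * b)
  rw [ZB.mul_eq, ZB.mul_eq, smul_zero]⟩

instance : SMulCommClass ℂ ZB ZB := ⟨fun c a b => by
  show c • (a * b) = a * (c • b)
  rw [ZB.mul_eq, ZB.mul_eq, smul_zero]⟩

/-- unit vectors -/
noncomputable def v (n : ℕ) : ZB := (lp.single 2 n (1 : ℂ) : lp (fun _ : ℕ => ℂ) 2)

theorem norm_v (n : ℕ) : ‖v n‖ = 1 := by
  have h := lp.norm_single (E := fun _ : ℕ => ℂ) (p := 2) (by norm_num) n (1 : ℂ)
  rw [norm_one] at h
  exact h

/-- coordinates -/
noncomputable def co (j : ℕ) : ZB →ₗ[ℂ] ℂ where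
  toFun x := (show lp (fun _ : ℕ => ℂ) 2 from x) j
  map_add' _ _ := rfl
  map_smul' _ _ := rfl

theorem co_v (j n : ℕ) : co j (v n) = if j = n then 1 else 0 := by
  show (lp.single 2 n (1 : ℂ) : lp (fun _ : ℕ => ℂ) 2) j = _
  by_cases h : j = n
  · subst h
    rw [if_pos rfl]
    exact lp.single_apply_self (p := 2) (E := fun _ : ℕ => ℂ) j (1 : ℂ)
  · rw [if_neg h]
    exact lp.single_apply_ne (p := 2) (E := fun _ : ℕ => ℂ) n (1 : ℂ) h

theorem li : LinearIndependent ℂ v := by
  rw [linearIndependent_iff']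
  intro s g h j hj
  have h1 := congrArg (co j) h
  rw [map_sum, map_zero] at h1
  have h2 : ∀ i ∈ s, co j (g i • v i) = if j = i then g j else 0 := by
    intro i _
    rw [map_smul, co_v]
    by_cases hji : j = i
    · subst hji; simp
    · simp [hji]
  rw [Finset.sum_congr rfl h2, Finset.sum_ite_eq, if_pos hj] at h1
  exact h1

theorem exists_phi : ∃ φ : ZB →ₗ[ℂ] ℂ, ∀ n, φ (v n) = n := by
  let b := Module.Basis.span li
  let f : Submodule.span ℂ (Set.range v) →ₗ[ℂ] ℂ := b.constr ℂ (fun n => (n : ℂ))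
  obtain ⟨g, hg⟩ := f.exists_extend
  refine ⟨g, fun n => ?_⟩
  have h1 : ((b n : Submodule.span ℂ (Set.range v)) : ZB) = v n :=
    congrArg Subtype.val (Module.Basis.span_apply li n)
  have h2 : f (b n) = n := b.constr_basis ℂ _ n
  rw [← h2, ← hg, ← h1]
  rfl

end RedAux

theorem red_of_propC {A : Type} [NonUnitalNormedRing A] [NormedSpace ℂ A] [IsScalarTower ℂ A A]
    [SMulCommClass ℂ A A] (hC : PropC A) : Red A := by
  refine ⟨fun a ha => ?_⟩
  obtain ⟨φ, hφ⟩ := RedAux.exists_phi
  let θ : RedAux.ZB →ₙₐ[ℂ] A :=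
    { toFun := fun b => φ b • a
      map_smul' := fun c b => by
        show φ (c • b) • a = c • (φ b • a)
        rw [map_smul, smul_eq_mul, mul_smul]
      map_zero' := by
        show φ 0 • a = 0
        rw [map_zero, zero_smul]
      map_add' := fun b c => by
        show φ (b + c) • a = φ b • a + φ c • a
        rw [map_add, add_smul]
      map_mul' := fun b c => by
        show φ (b * c) • a = (φ b • a) * (φ c • a)
        rw [RedAux.ZB.mul_eq, map_zero, zero_smul, smul_mul_smul_comm, ha, smul_zero] }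
  have hθ : ∀ b, θ b = φ b • a := fun _ => rfl
  have hcont : Continuous θ := by
    refine hC RedAux.ZB θ (fun x y => ?_)
    rw [hθ, hθ, smul_mul_smul_comm, smul_mul_smul_comm, mul_comm]
  have h1 : Filter.Tendsto (fun n : ℕ => (((n : ℂ) + 1)⁻¹) • RedAux.v (n + 1))
      Filter.atTop (nhds 0) := by
    rw [tendsto_zero_iff_norm_tendsto_zero]
    have h2 := tendsto_one_div_add_atTop_nhds_zero_nat (𝕜 := ℝ)
    refine h2.congr (fun n => ?_)
    rw [norm_smul, RedAux.norm_v, mul_one, norm_inv, one_div]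
    congr 1
    have : ((n : ℂ) + 1) = ((n + 1 : ℝ) : ℂ) := by push_cast; ring
    rw [this, Complex.norm_real, Real.norm_of_nonneg (by positivity)]
  have h3 := (hcont.tendsto 0).comp h1
  rw [map_zero] at h3
  have h4 : Filter.Tendsto (fun _ : ℕ => a) Filter.atTop (nhds 0) := by
    refine h3.congr (fun n => ?_)
    show θ _ = a
    rw [hθ, map_smul, hφ]
    have h5 : ((n : ℂ) + 1)⁻¹ • (((n + 1 : ℕ)) : ℂ) = 1 := by
      rw [smul_eq_mul]
      push_cast
      exact inv_mul_cancel₀ (Nat.cast_add_one_ne_zero n)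
    rw [h5, one_smul]
  exact tendsto_nhds_unique tendsto_const_nhds h4

section
variable {A : Type} [NonUnitalRing A] [Red A]

theorem Red.comm0 {x y : A} (h : x * y = 0) : y * x = 0 := by
  apply Red.red
  rw [mul_assoc, ← mul_assoc x y x, h, zero_mul, mul_zero]

theorem Red.mid0 {x y : A} (h : x * y = 0) (a : A) : x * a * y = 0 := by
  apply Red.red
  have h2 := Red.comm0 h
  calc x * a * y * (x * a * y) = x * a * ((y * x) * (a * y)) := by simp only [mul_assoc]
    _ = 0 := by rw [h2, zero_mul, mul_zero]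

theorem Red.sq0 {x y : A} (h : x * (x * y) = 0) : x * y = 0 := by
  apply Red.red
  have h2 := Red.comm0 h
  rw [← mul_assoc, h2, zero_mul]

theorem Red.idem {e : A} (h : e * e = e) : Cen e := by
  intro x
  have h1 : e * x - e * x * e = 0 := by
    apply Red.red
    have : (e * x - e * x * e) * (e * x - e * x * e) =
        e * x * (e * x) - e * x * (e * x) * e - e * x * (e * e) * x + e * x * (e * e) * x * e := by
      simp only [sub_mul, mul_sub, mul_assoc]
      abel
    rw [this, h]
    simp only [mul_assoc]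
    abel
  have h2 : x * e - e * x * e = 0 := by
    apply Red.red
    have : (x * e - e * x * e) * (x * e - e * x * e) =
        x * (e * x) * e - x * (e * e) * x * e - e * (x * (e * x)) * e + e * x * (e * e) * x * e := by
      simp only [sub_mul, mul_sub, mul_assoc]
      abel
    rw [this, h]
    simp only [mul_assoc]
    abel
  rw [sub_eq_zero] at h1 h2
  rw [h1, h2]

end
end ACG
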