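import Pool.Agent.ACG.Core
import Pool.Agent.ACG.RedC

set_option autoImplicit false

/-!
ALLAN: if `A` has property (C), a commuting quasi-nilpotent divisible pair is trivial.
-/

namespace ACG
open PowerSeries

section
variable {R : Type} [NonUnitalNormedRing R] [NormedSpace ℂ R] 

/-- normed space structure of a non-unital subalgebra -/
noncomputable instance nuNormedSpace (S : NonUnitalSubalgebra ℂ R) : NormedSpace ℂ S :=
  { (inferInstance : Module ℂ S) with
    norm_smul_le := fun c x => norm_smul_le c (x : R) }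

end

section
variable {A : Type} [NonUnitalNormedRing A] [NormedSpace ℂ A] [IsScalarTower ℂ A A]
    [SMulCommClass ℂ A A]

/-- embedding of `A` in its unitization -/
noncomputable def inU : A →ₗ[ℂ] WithLp 1 (Unitization ℂ A) :=
  (WithLp.linearEquiv 1 ℂ (Unitization ℂ A)).symm.toLinearMap ∘ₗ (Unitization.inrHom ℂ ℂ A)

theorem inU_apply (x : A) : inU x = WithLp.toLp 1 (x : Unitization ℂ A) := rfl

theorem norm_inU (x : A) : ‖inU x‖ = ‖x‖ := WithLp.unitization_norm_inr x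

theorem inU_injective : Function.Injective (inU : A → _) := by
  intro x y h
  have : ‖inU (x - y)‖ = 0 := by rw [map_sub, h, sub_self, norm_zero]
  rw [norm_inU, norm_eq_zero, sub_eq_zero] at this
  exact this

theorem inU_mul (x y : A) : inU (x * y) = inU x * inU y := by
  apply WithLp.ofLp_injective
  rw [WithLp.unitization_mul]
  exact Unitization.inr_mul ℂ x y

/-- first coordinate -/
noncomputable def fsU : WithLp 1 (Unitization ℂ A) →ₐ[ℂ] ℂ :=
  (Unitization.fstHom ℂ A).comp (WithLp.unitizationAlgEquiv ℂ).toAlgHom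

theorem fsU_inU (x : A) : fsU (inU x) = 0 := rfl

theorem norm_fsU (x : WithLp 1 (Unitization ℂ A)) : ‖fsU x‖ ≤ ‖x‖ := by
  rw [WithLp.unitization_norm_def]
  exact le_add_of_nonneg_right (norm_nonneg _)

theorem exists_inU (x : WithLp 1 (Unitization ℂ A)) (hx : fsU x = 0) : ∃ y, inU y = x := by
  refine ⟨(WithLp.ofLp x).snd, ?_⟩
  apply WithLp.ofLp_injective
  refine Unitization.ext ?_ ?_
  · exact hx.symm
  · rfl

theorem fsU_ev [CompleteSpace A] (a : WithLp 1 (Unitization ℂ A)) (h : ∃ K : ℝ, ∀ n : ℕ, ‖a ^ n‖ ≤ K)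
    (ha : fsU a = 0) (f : WPS ℂ) : fsU (WPS.ev a h f) = coeff 0 (WPS.val f) := by
  have h1 := WPS.hasSum_ev a h f
  have hc : Continuous (fsU : WithLp 1 (Unitization ℂ A) → ℂ) :=
    (LinearMap.mkContinuous (fsU : WithLp 1 (Unitization ℂ A) →ₐ[ℂ] ℂ).toLinearMap 1
      (fun x => by simpa using norm_fsU x)).continuous
  have h2 := h1.map (fsU : WithLp 1 (Unitization ℂ A) →ₐ[ℂ] ℂ) hc
  have h3 : HasSum ((fsU : WithLp 1 (Unitization ℂ A) →ₐ[ℂ] ℂ) ∘
      fun n => coeff n (WPS.val f) • a ^ n) (coeff 0 (WPS.val f)) := by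
    have := hasSum_single (f := (fsU : WithLp 1 (Unitization ℂ A) →ₐ[ℂ] ℂ) ∘
      fun n => coeff n (WPS.val f) • a ^ n) 0 (fun n hn => by
        simp [ha, hn])
    simpa using this
  exact h2.unique h3


/-- second coordinate -/
noncomputable def snU : WithLp 1 (Unitization ℂ A) →ₗ[ℂ] A :=
  (Unitization.sndHom ℂ ℂ A) ∘ₗ (WithLp.linearEquiv 1 ℂ (Unitization ℂ A)).toLinearMap

theorem norm_snU (x : WithLp 1 (Unitization ℂ A)) : ‖snU x‖ ≤ ‖x‖ := by
  rw [WithLp.unitization_norm_def]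
  exact le_add_of_nonneg_left (norm_nonneg _)

theorem inU_snU (x : WithLp 1 (Unitization ℂ A)) (hx : fsU x = 0) : inU (snU x) = x := by
  apply WithLp.ofLp_injective
  refine Unitization.ext ?_ ?_
  · exact hx.symm
  · rfl

/-- `inU` as an isometry -/
noncomputable def inUi : A →ₗᵢ[ℂ] WithLp 1 (Unitization ℂ A) := ⟨inU, norm_inU⟩

variable {E : Type} [NonUnitalNormedCommRing E] [NormedSpace ℂ E] [IsScalarTower ℂ E E]
  [SMulCommClass ℂ E E]

theorem pow_mul_inU (i : E →ₗᵢ[ℂ] A) (a : A) (b : Mult E) (hab : ∀ x, a * i x = i (b.ap x))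
    (n : ℕ) (x : E) : (inU a) ^ n * inU (i x) = inU (i ((b ^ n).ap x)) := by
  induction n with
  | zero => simp
  | succ n ih =>
    rw [pow_succ', mul_assoc, ih, ← inU_mul, hab, ← Mult.ap_pow_succ']

theorem inU_mul_pow (i : E →ₗᵢ[ℂ] A) (a : A) (b : Mult E) (hab : ∀ x, i x * a = i (b.ap x))
    (n : ℕ) (x : E) : inU (i x) * (inU a) ^ n = inU (i ((b ^ n).ap x)) := by
  induction n with
  | zero => simp
  | succ n ih =>
    rw [pow_succ, ← mul_assoc, ih, ← inU_mul, hab, ← Mult.ap_pow_succ']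

theorem hasSum_inU [CompleteSpace E] (i : E →ₗᵢ[ℂ] A) (b : Mult E) (hb : ∃ K : ℝ, ∀ n : ℕ, ‖b ^ n‖ ≤ K)
    (f : WPS ℂ) (x : E) :
    HasSum (fun n => coeff n (WPS.val f) • inU (i ((b ^ n).ap x)))
      (inU (i ((WPS.ev b hb f).ap x))) := by
  have h1 := WPS.hasSum_ev b hb f
  have h2 := h1.mapL ((inUi : A →ₗᵢ[ℂ] _).toContinuousLinearMap ∘L i.toContinuousLinearMap ∘L
    Mult.apL x)
  simpa [inUi] using h2

theorem ev_mul_inU [CompleteSpace A] [CompleteSpace E] (i : E →ₗᵢ[ℂ] A) (a : A) (b : Mult E)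
    (ha : ∃ K : ℝ, ∀ n : ℕ, ‖(inU a) ^ n‖ ≤ K) (hb : ∃ K : ℝ, ∀ n : ℕ, ‖b ^ n‖ ≤ K)
    (hab : ∀ x, a * i x = i (b.ap x)) (f : WPS ℂ) (x : E) :
    WPS.ev (inU a) ha f * inU (i x) = inU (i ((WPS.ev b hb f).ap x)) := by
  have h1 := (WPS.hasSum_ev (inU a) ha f).mul_right (inU (i x))
  simp only [smul_mul_assoc, pow_mul_inU i a b hab] at h1
  exact h1.unique (hasSum_inU i b hb f x)

theorem inU_mul_ev [CompleteSpace A] [CompleteSpace E] (i : E →ₗᵢ[ℂ] A) (a : A) (b : Mult E)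
    (ha : ∃ K : ℝ, ∀ n : ℕ, ‖(inU a) ^ n‖ ≤ K) (hb : ∃ K : ℝ, ∀ n : ℕ, ‖b ^ n‖ ≤ K)
    (hab : ∀ x, i x * a = i (b.ap x)) (f : WPS ℂ) (x : E) :
    inU (i x) * WPS.ev (inU a) ha f = inU (i ((WPS.ev b hb f).ap x)) := by
  have h1 := (WPS.hasSum_ev (inU a) ha f).mul_left (inU (i x))
  simp only [mul_smul_comm, inU_mul_pow i a b hab] at h1
  exact h1.unique (hasSum_inU i b hb f x)

/-- series without constant term -/
def D0 : NonUnitalSubalgebra ℂ (WPS ℂ) where
  carrier := {f | coeff 0 (WPS.val f) = 0}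
  zero_mem' := by simp
  add_mem' := by
    intro f g hf hg
    simp only [Set.mem_ofPred_eq] at hf hg ⊢
    rw [map_add, map_add, hf, hg, add_zero]
  mul_mem' := by
    intro f g hf hg
    simp only [Set.mem_ofPred_eq] at hf hg ⊢
    rw [coeff_zero_eq_constantCoeff_apply] at hf ⊢
    rw [map_mul, map_mul, hf, zero_mul]
  smul_mem' := by
    intro c f hf
    simp only [Set.mem_ofPred_eq] at hf ⊢
    rw [map_smul, map_smul, hf, smul_zero]

theorem mem_D0 (f : WPS ℂ) : f ∈ D0 ↔ coeff 0 (WPS.val f) = 0 := Iff.rfl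

instance : CompleteSpace D0 := by
  have : IsClosed (D0 : Set (WPS ℂ)) := by
    have hc : Continuous (fun f : WPS ℂ => coeff 0 (WPS.val f)) := by
      refine (LinearMap.mkContinuous
        ((coeff 0).restrictScalars ℂ ∘ₗ (WPS.val : WPS ℂ →ₐ[ℂ] _).toLinearMap) 1
        (fun f => ?_)).continuous
      simpa using WPS.norm_coeff_le f 0
    exact isClosed_singleton.preimage hc
  exact this.isComplete.completeSpace_coe


theorem allan_core [CompleteSpace A] [CompleteSpace E] (hC : PropC A) (i : E →ₗᵢ[ℂ] A)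
    (hi : ∀ x y, i (x * y) = i x * i y) (a : A) (ha1 : ‖a‖ ≤ 1) (b : Mult E)
    (hab : ∀ x, a * i x = i (b.ap x)) (hba : ∀ x, i x * a = i (b.ap x)) (hqn : QN b)
    (hd : ∀ x : E, ∀ ε : ℝ, 0 < ε → ∃ y, ‖x - b.ap y‖ < ε) (x : E) : x = 0 := by
  by_contra hx
  have hA : Red A := red_of_propC hC
  have hE : Red E := ⟨fun x hx => by
    have h1 : i x * i x = 0 := by rw [← hi, hx, map_zero]
    have h2 := hA.red _ h1
    exact i.injective (by rw [h2, map_zero])⟩
  have hb : ∃ K : ℝ, ∀ n : ℕ, ‖b ^ n‖ ≤ K := by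
    obtain ⟨C, hK⟩ := hqn 1 one_pos
    exact ⟨C, fun n => by simpa using hK n⟩
  have ha : ∃ K : ℝ, ∀ n : ℕ, ‖(inU a) ^ n‖ ≤ K := by
    refine ⟨‖(1 : WithLp 1 (Unitization ℂ A))‖ + 1, fun n => ?_⟩
    rcases Nat.eq_zero_or_pos n with rfl | hn
    · rw [pow_zero]
      linarith
    · refine (norm_pow_le' _ hn).trans ?_
      rw [norm_inU]
      have := pow_le_one₀ (n := n) (norm_nonneg a) ha1
      have := norm_nonneg (1 : WithLp 1 (Unitization ℂ A))
      linarith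
  obtain ⟨lam, hmul, hX, f0, hf0⟩ := core b hqn hb hd ⟨x, hx⟩
  have key : ∀ f : WPS ℂ, coeff 0 (WPS.val f) = 0 →
      inU (snU (WPS.ev (inU a) ha f)) = WPS.ev (inU a) ha f := fun f hf =>
    inU_snU _ (by rw [fsU_ev _ _ (fsU_inU a), hf])
  -- the homomorphism
  let Φ : WPS ℂ →ₗ[ℂ] A := snU ∘ₗ (WPS.ev (inU a) ha).toLinearMap + i.toLinearMap ∘ₗ lam
  have hΦ : ∀ f, Φ f = snU (WPS.ev (inU a) ha f) + i (lam f) := fun f => rfl
  have hΦm : ∀ f ∈ D0, ∀ g ∈ D0, Φ (f * g) = Φ f * Φ g := by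
    intro f hf g hg
    apply inU_injective
    rw [inU_mul, hΦ, hΦ, hΦ, map_add, map_add, map_add, key f hf, key g hg,
      key (f * g) (D0.mul_mem hf hg), hmul, map_mul, map_add, map_add, map_add, map_add, hi,
      inU_mul, add_mul, mul_add, mul_add, ev_mul_inU i a b ha hb hab,
      inU_mul_ev i a b ha hb hba]
    abel
  let Θ : D0 →ₙₐ[ℂ] A :=
    { toFun := fun f => Φ (f : WPS ℂ)
      map_smul' := fun c f => Φ.map_smul c _
      map_zero' := Φ.map_zero
      map_add' := fun f g => Φ.map_add _ _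
      map_mul' := fun f g => hΦm _ f.2 _ g.2 }
  have hcont : Continuous Θ := by
    refine hC D0 Θ (fun f g => ?_)
    rw [← map_mul, ← map_mul]
    congr 1
    exact Subtype.ext (mul_comm (f : WPS ℂ) g)
  have hcont2 : Continuous (fun f : D0 => i (lam (f : WPS ℂ))) := by
    have h1 : Continuous (fun f : WPS ℂ => snU (WPS.ev (inU a) ha f)) := by
      obtain ⟨K, hK⟩ := ha
      refine (LinearMap.mkContinuous (snU ∘ₗ (WPS.ev (inU a) ⟨K, hK⟩).toLinearMap) K
        (fun f => ?_)).continuous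
      exact (norm_snU _).trans (WPS.norm_ev_le _ ⟨K, hK⟩ hK f)
    have h2 := hcont.sub (h1.comp (continuous_subtype_val (p := fun f => f ∈ D0)))
    refine h2.congr (fun f => ?_)
    show Φ (f : WPS ℂ) - snU (WPS.ev (inU a) ha f) = i (lam (f : WPS ℂ))
    rw [hΦ, add_sub_cancel_left]
  have hlam0 : ∀ f ∈ D0, lam f = 0 := by
    intro f hf
    have h0 : ∀ η : ℝ, 0 < η → ‖lam f‖ < η := by
      intro η hη
      have h1 := Metric.continuous_iff.1 hcont2 0 η hη
      obtain ⟨δ, hδ, h2⟩ := h1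
      obtain ⟨N, hN⟩ := WPS.dense_X f hf δ hδ
      set p : WPS ℂ := ∑ n ∈ Finset.range N, coeff (n + 1) (WPS.val f) • WPS.X ^ (n + 1) with hp
      have hp0 : lam p = 0 := by
        rw [hp, map_sum]
        refine Finset.sum_eq_zero (fun n _ => ?_)
        rw [map_smul, hX, smul_zero]
      have hpD : p ∈ D0 := by
        rw [hp]
        refine D0.sum_mem (fun n _ => D0.smul_mem _ ?_)
        show coeff 0 (WPS.val (WPS.X ^ (n + 1))) = 0
        rw [map_pow, WPS.val_X]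
        simp
      have h3 := h2 ⟨f - p, D0.sub_mem hf hpD⟩ (by
        rw [dist_zero_right]
        exact hN)
      have h4 : lam (f - p) = lam f := by rw [map_sub, hp0, sub_zero]
      simpa [h4] using h3
    by_contra hne
    exact lt_irrefl _ (h0 _ (norm_pos_iff.2 hne))
  apply hf0
  have h1 : lam (f0 - coeff 0 (WPS.val f0) • 1) = 0 := by
    apply hlam0
    rw [mem_D0, map_sub, map_smul, map_one, map_sub, map_smul]
    simp
  have h2 : lam 1 = 0 := by simpa using hX 0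
  rw [map_sub, map_smul, h2, smul_zero, sub_zero] at h1
  exact h1


end

/-- the closed subalgebra given by a subspace closed under multiplication -/
def nuOf {A : Type} [NonUnitalNormedRing A] [NormedSpace ℂ A] (I : Submodule ℂ A)
    (hmul : ∀ x ∈ I, ∀ y ∈ I, x * y ∈ I) : NonUnitalSubalgebra ℂ A :=
  { I with mul_mem' := fun {x y} hx hy => hmul x hx y hy }

theorem allan {A : Type} [NonUnitalNormedRing A] [NormedSpace ℂ A] [IsScalarTower ℂ A A]
    [SMulCommClass ℂ A A] [CompleteSpace A] (hC : PropC A) (a : A) (I : Submodule ℂ A)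
    (hcl : IsClosed (I : Set A)) (hmul : ∀ x ∈ I, ∀ y ∈ I, x * y ∈ I)
    (hcomm : ∀ x ∈ I, ∀ y ∈ I, x * y = y * x) (ha : ∀ x ∈ I, a * x ∈ I)
    (hac : ∀ x ∈ I, a * x = x * a)
    (hd : ∀ x ∈ I, ∀ ε : ℝ, 0 < ε → ∃ y ∈ I, ‖x - a * y‖ < ε)
    (hqn : ∀ ε : ℝ, 0 < ε → ∃ C : ℝ, ∀ n : ℕ, ∀ x ∈ I,
      ‖(fun y => a * y)^[n] x‖ ≤ C * ε ^ n * ‖x‖) : I = ⊥ := by
  set S : NonUnitalSubalgebra ℂ A := nuOf I hmul with hS
  let instE : NonUnitalNormedCommRing S :=
    { (inferInstance : NonUnitalNormedRing S) with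
      mul_comm := fun x y => Subtype.ext (hcomm _ x.2 _ y.2) }
  have : CompleteSpace S := by
    have : IsClosed (S : Set A) := hcl
    exact this.isComplete.completeSpace_coe
  let i : S →ₗᵢ[ℂ] A := ⟨⟨⟨fun x => (x : A), fun _ _ => rfl⟩, fun _ _ => rfl⟩, fun _ => rfl⟩
  -- scaling
  set c : ℂ := ((1 + ‖a‖ : ℝ) : ℂ)⁻¹ with hc
  have hc0 : (0 : ℝ) < 1 + ‖a‖ := by positivity
  have hcn : ‖c‖ = (1 + ‖a‖)⁻¹ := by
    rw [hc, norm_inv, Complex.norm_real, Real.norm_of_nonneg hc0.le]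
  have hcne : c ≠ 0 := by
    rw [← norm_ne_zero_iff, hcn]
    positivity
  have ha1 : ‖c • a‖ ≤ 1 := by
    rw [norm_smul, hcn, inv_mul_le_one₀ hc0]
    linarith
  let b0 : S →L[ℂ] S := LinearMap.mkContinuous
    (⟨⟨fun x => ⟨(c • a) * (x : A), by
          rw [smul_mul_assoc]
          exact S.smul_mem _ (ha _ x.2)⟩,
        fun x y => Subtype.ext (mul_add _ _ _)⟩,
        fun r x => Subtype.ext (mul_smul_comm _ _ _)⟩ : S →ₗ[ℂ] S) ‖c • a‖
    (fun x => norm_mul_le (c • a) (x : A))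
  let b : Mult S := (⟨b0, fun x y => Subtype.ext (mul_assoc _ _ _).symm⟩ : multSub S)
  have hbap : ∀ x : S, i (b.ap x) = (c • a) * i x := fun x => rfl
  have hiter : ∀ (n : ℕ) (x : S), i ((b ^ n).ap x) = c ^ n • (fun y => a * y)^[n] (x : A) := by
    intro n x
    induction n with
    | zero => simp [i]
    | succ n ih =>
      rw [Mult.ap_pow_succ', hbap, ih, Function.iterate_succ_apply', pow_succ', smul_mul_smul_comm]
  have hres : ∀ x : S, x = 0 := by
    refine allan_core hC i (fun _ _ => rfl) (c • a) ha1 b (fun x => (hbap x).symm) (fun x => ?_)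
      ?_ ?_
    · rw [hbap, smul_mul_assoc, mul_smul_comm]
      congr 1
      exact (hac _ x.2).symm
    · intro ε hε
      obtain ⟨C, hC'⟩ := hqn (ε / ‖c‖) (div_pos hε (norm_pos_iff.2 hcne))
      refine ⟨max C 0, fun n => ?_⟩
      rw [← Mult.norm_ap]
      refine ContinuousLinearMap.opNorm_le_bound _ (by positivity) (fun x => ?_)
      have h1 : ‖(b ^ n).ap x‖ = ‖i ((b ^ n).ap x)‖ := rfl
      rw [h1, hiter, norm_smul, norm_pow]
      have h2 := hC' n (x : A) x.2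
      calc ‖c‖ ^ n * ‖(fun y => a * y)^[n] (x : A)‖
          ≤ ‖c‖ ^ n * (C * (ε / ‖c‖) ^ n * ‖(x : A)‖) := by gcongr
        _ ≤ ‖c‖ ^ n * (max C 0 * (ε / ‖c‖) ^ n * ‖(x : A)‖) := by
            gcongr
            exact le_max_left _ _
        _ = max C 0 * ε ^ n * ‖x‖ := by
            have : ‖c‖ ≠ 0 := norm_ne_zero_iff.2 hcne
            rw [div_pow]
            have h3 : ‖x‖ = ‖(x : A)‖ := rfl
            rw [h3]
            field_simp
    · intro x ε hε
      obtain ⟨y, hy, hy2⟩ := hd (x : A) x.2 ε hε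
      refine ⟨⟨c⁻¹ • y, S.smul_mem _ hy⟩, ?_⟩
      have h1 : ‖x - b.ap ⟨c⁻¹ • y, S.smul_mem _ hy⟩‖
          = ‖(x : A) - (c • a) * (c⁻¹ • y)‖ := rfl
      rw [h1, smul_mul_smul_comm, mul_inv_cancel₀ hcne, one_smul]
      exact hy2
  rw [Submodule.eq_bot_iff]
  intro x hx
  have := hres ⟨x, hx⟩
  exact congrArg Subtype.val this

end ACG
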