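import Pool.Agent.ACG.Allan

set_option autoImplicit false

/-!
SEMI: analytic semigroups in algebras with a bounded approximate identity (Sinclair).
Everything happens in the unital Banach algebra `𝔻 = WithLp 1 (Unitization ℂ B)`
(`inU`, `snU`, `fsU`, `inUi` of Allan.lean); `𝒟 = inU '' D` is closed (isometry).

`expmix`. `w m = (x + h) ^ m - x ^ m - h ^ m` satisfies, for `m ≥ 1`,
`w (m+1) = x h^m + h x^m + (x + h) w m`, so `‖w (m+1)‖ ≤ 2 δ C^(m-1) + 2 C ‖w m‖`, `w 1 = 0`, hence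
`‖w m‖ ≤ δ (4C)^m` for `m ≥ 1`; sum `t^m / m!` (the terms `m = 0` give `1 - 1 - 1 + 1 = 0`).

`exists_semi`. `M ≥ 1` wlog. Choose `e 0, e 1, …` in `D`, `‖e n‖ ≤ M`, inductively: put
`x n = ∑_{k<n} inU (e k)`, `h n = inU (e n) - 1`, `s n = ∑_{k<n} h k = x n - n`,
`C n = ‖x n‖ + M + 2` (so `‖h n‖ ≤ C n`), `δ n = 2^(-n) exp (-(n+1) (n + 4 C n))`, and let `e n` be
such that `‖x n * h n‖, ‖h n * x n‖, ‖h n * inU b‖ ≤ δ n` (approximate identity for the finite set
`{∑_{k<n} e k, b}`). `G n t = exp (t • s n) = exp (-t n) • exp (t • x n)`. `expmix` gives for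
`|t| ≤ n + 1`
 (1) `‖G (n+1) t - G n t - exp (-t n) • (exp (t • h n) - 1)‖ ≤ exp (|t| n) δ n exp (4 |t| C n) ≤ 2^(-n)`.
So for `Re t ≥ r > 0`, `|t| ≤ n+1`: `‖G (n+1) t - G n t‖ ≤ 2^(-n) + exp (-n r) (exp (|t| (M+2)) + 1)`,
summable, uniformly on compact subsets of `{Re t > 0}`. `a t := lim G n t`.
 * `a (s + t) = a s * a t` (exponents of commuting elements);
 * `a t ∈ 𝒟`: `exp (t • x n) - 1 ∈ 𝒟` (closed, all powers `≥ 1` of `x n` are in `𝒟`), and the scalar
   part `exp (-t n)` tends to 0;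
 * `a` is differentiable on `{Re t > 0}` (`TendstoLocallyUniformlyOn.differentiableOn`). Let `N` be
   the closure of the span of `a s`, `s > 1` real, in `𝔻`; the map `q ∘ a` into `𝔻 ⧸ N` is
   differentiable (analytic) on the half plane and vanishes on `(1, ∞)`, so it vanishes
   (`AnalyticOnNhd.eqOn_zero_of_preconnected_of_frequently_eq_zero` at `z₀ = 2`); so `a t ∈ N`.
 * `b n := exp (- s n) * inU b` (in `𝒟`): by (1) for `t = -1` and
   `‖(exp (-h) - 1) * β‖ ≤ ‖h * β‖ exp ‖h‖`, `‖b (n+1) - b n‖ ≤ 2^(-n) ‖b‖ + 2^(-n)`; the limit `b'`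
   is in `𝒟` and `a 1 * b' = lim exp (s n) * exp (- s n) * inU b = inU b`.
-/

namespace ACG

open Filter Topology

theorem expmix {S : Type} [NormedRing S] [NormedAlgebra ℂ S] [CompleteSpace S] (x h : S)
    (C δ : ℝ) (hC : 1 ≤ C) (hx : ‖x‖ ≤ C) (hh : ‖h‖ ≤ C) (h1 : ‖x * h‖ ≤ δ) (h2 : ‖h * x‖ ≤ δ)
    (t : ℂ) :
    ‖NormedSpace.exp (t • (x + h)) - NormedSpace.exp (t • x) - NormedSpace.exp (t • h) + 1‖ ≤
      δ * Real.exp (4 * ‖t‖ * C) := by
  have hδ : 0 ≤ δ := (norm_nonneg _).trans h1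
  have hC0 : 0 ≤ C := by linarith
  have hpow : ∀ (a c : S) (m : ℕ), ‖c‖ ≤ C → ‖a‖ ≤ δ → ‖a * c ^ m‖ ≤ δ * C ^ m := by
    intro a c m hc ha
    induction m with
    | zero => simpa using ha
    | succ m ih =>
      rw [pow_succ, ← mul_assoc, pow_succ, ← mul_assoc]
      exact (norm_mul_le _ _).trans (mul_le_mul ih hc (norm_nonneg _) (by positivity))
  set w : ℕ → S := fun m => (x + h) ^ m - x ^ m - h ^ m with hw
  have hrec : ∀ m, w (m + 1) = (x + h) * w m + x * h ^ m + h * x ^ m := by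
    intro m
    simp only [hw, pow_succ' _ m]
    noncomm_ring
  have hwb : ∀ m, ‖w (m + 1)‖ ≤ δ * (4 * C) ^ (m + 1) := by
    intro m
    induction m with
    | zero =>
      have : w 1 = 0 := by simp [hw]
      rw [zero_add, this, norm_zero]
      positivity
    | succ m ih =>
      rw [hrec]
      have e1 : ‖x * h ^ (m + 1)‖ ≤ δ * C ^ m := by
        rw [pow_succ', ← mul_assoc]
        exact hpow _ _ _ hh h1
      have e2 : ‖h * x ^ (m + 1)‖ ≤ δ * C ^ m := by
        rw [pow_succ', ← mul_assoc]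
        exact hpow _ _ _ hx h2
      have e3 : ‖(x + h) * w (m + 1)‖ ≤ (2 * C) * (δ * (4 * C) ^ (m + 1)) := by
        refine (norm_mul_le _ _).trans (mul_le_mul ?_ ih (norm_nonneg _) (by positivity))
        exact (norm_add_le _ _).trans (by linarith)
      have e4 : δ * C ^ m ≤ C * (δ * (4 * C) ^ (m + 1)) := by
        have : C ^ m ≤ C * (4 * C) ^ (m + 1) := by
          calc C ^ m ≤ (4 * C) ^ m := by
                apply pow_le_pow_left₀ hC0
                linarith
            _ = 1 * (4 * C) ^ m * 1 := by ring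
            _ ≤ C * (4 * C) ^ m * (4 * C) := by
                apply mul_le_mul (mul_le_mul_of_nonneg_right hC (by positivity)) (by linarith)
                  zero_le_one (by positivity)
            _ = C * (4 * C) ^ (m + 1) := by rw [pow_succ]; ring
        calc δ * C ^ m ≤ δ * (C * (4 * C) ^ (m + 1)) := mul_le_mul_of_nonneg_left this hδ
          _ = _ := by ring
      calc ‖(x + h) * w (m + 1) + x * h ^ (m + 1) + h * x ^ (m + 1)‖
          ≤ (2 * C) * (δ * (4 * C) ^ (m + 1)) + δ * C ^ m + δ * C ^ m :=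
            norm_add₃_le.trans (add_le_add (add_le_add e3 e1) e2)
        _ ≤ (2 * C) * (δ * (4 * C) ^ (m + 1)) + C * (δ * (4 * C) ^ (m + 1)) +
            C * (δ * (4 * C) ^ (m + 1)) := by gcongr
        _ = δ * (4 * C) ^ (m + 1 + 1) := by rw [pow_succ _ (m + 1)]; ring
  have hs : HasSum (fun m : ℕ => ((m.factorial : ℂ)⁻¹) • (t ^ m • w m))
      (NormedSpace.exp (t • (x + h)) - NormedSpace.exp (t • x) - NormedSpace.exp (t • h)) := by
    have a1 := NormedSpace.exp_series_hasSum_exp' (𝕂 := ℂ) (t • (x + h))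
    have a2 := NormedSpace.exp_series_hasSum_exp' (𝕂 := ℂ) (t • x)
    have a3 := NormedSpace.exp_series_hasSum_exp' (𝕂 := ℂ) (t • h)
    refine ((a1.sub a2).sub a3).congr_fun ?_
    intro m
    simp only [hw, smul_pow, smul_sub]
  have hs0 : ((Nat.factorial 0 : ℂ)⁻¹) • (t ^ 0 • w 0) = -1 := by simp [hw]
  have hs1 : HasSum (fun m : ℕ => (((m + 1).factorial : ℂ)⁻¹) • (t ^ (m + 1) • w (m + 1)))
      (NormedSpace.exp (t • (x + h)) - NormedSpace.exp (t • x) - NormedSpace.exp (t • h) + 1) := by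
    have := (hasSum_nat_add_iff' (f := fun m : ℕ => ((m.factorial : ℂ)⁻¹) • (t ^ m • w m)) 1).2 hs
    rw [Finset.sum_range_one, hs0, sub_neg_eq_add] at this
    exact this
  have hg : HasSum (fun m : ℕ => (4 * ‖t‖ * C) ^ m / m.factorial) (Real.exp (4 * ‖t‖ * C)) := by
    rw [Real.exp_eq_exp_ℝ]
    exact NormedSpace.expSeries_div_hasSum_exp (4 * ‖t‖ * C)
  have hg1 := (hasSum_nat_add_iff' 1).2 hg
  have hg2 := hg1.mul_left δ
  rw [← hs1.tsum_eq]
  refine (tsum_of_norm_bounded hg2 (fun m => ?_)).trans ?_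
  · rw [norm_smul, norm_smul, norm_inv, norm_pow, Complex.norm_natCast]
    calc ((m + 1).factorial : ℝ)⁻¹ * (‖t‖ ^ (m + 1) * ‖w (m + 1)‖)
        ≤ ((m + 1).factorial : ℝ)⁻¹ * (‖t‖ ^ (m + 1) * (δ * (4 * C) ^ (m + 1))) := by
          gcongr
          exact hwb m
      _ = δ * ((4 * ‖t‖ * C) ^ (m + 1) / (m + 1).factorial) := by
          rw [show 4 * ‖t‖ * C = ‖t‖ * (4 * C) by ring, mul_pow]
          ring
  · apply mul_le_mul_of_nonneg_left _ hδ
    have : (0 : ℝ) ≤ ∑ i ∈ Finset.range 1, (4 * ‖t‖ * C) ^ i / (i.factorial : ℝ) := by positivity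
    linarith

theorem exp_addc {S : Type} [NormedRing S] [NormedAlgebra ℂ S] [CompleteSpace S] {x y : S}
    (h : Commute x y) : NormedSpace.exp (x + y) = NormedSpace.exp x * NormedSpace.exp y :=
  NormedSpace.exp_add_of_commute_of_mem_ball (𝕂 := ℂ) h
    ((NormedSpace.expSeries_radius_eq_top ℂ S).symm ▸ edist_lt_top _ _)
    ((NormedSpace.expSeries_radius_eq_top ℂ S).symm ▸ edist_lt_top _ _)

theorem hasSum_exp_sub_one {S : Type} [NormedRing S] [NormedAlgebra ℂ S] [CompleteSpace S]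
    (x : S) : HasSum (fun m : ℕ => (((m + 1).factorial : ℂ)⁻¹) • x ^ (m + 1))
      (NormedSpace.exp x - 1) := by
  have a1 := NormedSpace.exp_series_hasSum_exp' (𝕂 := ℂ) x
  have := (hasSum_nat_add_iff' 1).2 a1
  simpa using this

theorem norm_exp_sub_one_mul {S : Type} [NormedRing S] [NormedAlgebra ℂ S] [CompleteSpace S]
    (y c : S) : ‖(NormedSpace.exp y - 1) * c‖ ≤ ‖y * c‖ * Real.exp ‖y‖ := by
  have h1 := (hasSum_exp_sub_one y).mul_right c
  have hg : HasSum (fun m : ℕ => ‖y‖ ^ m / m.factorial) (Real.exp ‖y‖) := by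
    rw [Real.exp_eq_exp_ℝ]
    exact NormedSpace.expSeries_div_hasSum_exp ‖y‖
  rw [← h1.tsum_eq]
  refine tsum_of_norm_bounded (hg.mul_left _) (fun m => ?_)
  rw [smul_mul_assoc, norm_smul, norm_inv, Complex.norm_natCast, pow_succ, mul_assoc]
  have h2 : ‖y ^ m * (y * c)‖ ≤ ‖y‖ ^ m * ‖y * c‖ := by
    clear h1
    induction m with
    | zero => simp
    | succ m ih =>
      rw [pow_succ', mul_assoc, pow_succ', mul_assoc]
      exact (norm_mul_le _ _).trans (mul_le_mul_of_nonneg_left ih (norm_nonneg _))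
  have h3 : ((m + 1).factorial : ℝ)⁻¹ ≤ (m.factorial : ℝ)⁻¹ := by
    gcongr
    omega
  calc ((m + 1).factorial : ℝ)⁻¹ * ‖y ^ m * (y * c)‖
      ≤ (m.factorial : ℝ)⁻¹ * (‖y‖ ^ m * ‖y * c‖) := by gcongr
    _ = ‖y * c‖ * (‖y‖ ^ m / m.factorial) := by ring

theorem norm_exp_le {S : Type} [NormedRing S] [NormedAlgebra ℂ S] [CompleteSpace S]
    (h1 : ‖(1 : S)‖ = 1) (y : S) : ‖NormedSpace.exp y - 1‖ ≤ ‖y‖ * Real.exp ‖y‖ := by
  simpa using norm_exp_sub_one_mul y 1

theorem exp_sub_one_mem {S : Type} [NormedRing S] [NormedAlgebra ℂ S] [CompleteSpace S]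
    (E : NonUnitalSubalgebra ℂ S) (hE : IsClosed (E : Set S)) (x : S) (hx : x ∈ E) :
    NormedSpace.exp x - 1 ∈ E := by
  have hp : ∀ m : ℕ, x ^ (m + 1) ∈ E := by
    intro m
    induction m with
    | zero => simpa using hx
    | succ m ih =>
      rw [pow_succ]
      exact E.mul_mem ih hx
  exact hE.mem_of_tendsto (hasSum_exp_sub_one x)
    (Eventually.of_forall fun s => E.sum_mem fun m _ => E.smul_mem _ (hp m))


/-- The inductive choice of the approximate units. -/
theorem semi_choice {S : Type} [NormedRing S] [NormedAlgebra ℂ S]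
    (E : NonUnitalSubalgebra ℂ S) (M : ℝ)
    (hM : ∀ F : Finset S, (∀ x ∈ F, x ∈ E) → ∀ ε : ℝ, 0 < ε → ∃ e ∈ E, ‖e‖ ≤ M ∧
      ∀ x ∈ F, ‖e * x - x‖ < ε ∧ ‖x * e - x‖ < ε) (b : S) (hb : b ∈ E)
    (δ : ℕ → ℝ → ℝ) (hδ : ∀ n r, 0 < δ n r) :
    ∃ x e : ℕ → S, x 0 = 0 ∧ (∀ n, x (n + 1) = x n + e n) ∧ (∀ n, x n ∈ E) ∧
      (∀ n, ‖e n‖ ≤ M) ∧ (∀ n, ‖x n * (e n - 1)‖ ≤ δ n ‖x n‖) ∧
      (∀ n, ‖(e n - 1) * x n‖ ≤ δ n ‖x n‖) ∧ (∀ n, ‖(e n - 1) * b‖ ≤ δ n ‖x n‖) := by
  classical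
  have hstep : ∀ (n : ℕ) (x : E), ∃ e : E, ‖(e : S)‖ ≤ M ∧
      ‖(x : S) * ((e : S) - 1)‖ ≤ δ n ‖(x : S)‖ ∧
      ‖((e : S) - 1) * (x : S)‖ ≤ δ n ‖(x : S)‖ ∧ ‖((e : S) - 1) * b‖ ≤ δ n ‖(x : S)‖ := by
    intro n x
    obtain ⟨e, he, heM, h⟩ := hM {(x : S), b} (by
      intro y hy
      rcases Finset.mem_insert.1 hy with rfl | hy
      · exact x.2
      · rw [Finset.mem_singleton.1 hy]
        exact hb) (δ n ‖(x : S)‖) (hδ _ _)
    refine ⟨⟨e, he⟩, heM, ?_, ?_, ?_⟩
    · rw [mul_sub, mul_one]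
      exact (h x (by simp)).2.le
    · rw [sub_mul, one_mul]
      exact (h x (by simp)).1.le
    · rw [sub_mul, one_mul]
      exact (h b (by simp)).1.le
  choose stp hs1 hs2 hs3 hs4 using hstep
  let X : ℕ → E := fun n => Nat.rec (0 : E) (fun n x => x + stp n x) n
  let x : ℕ → S := fun n => (X n).1
  let e : ℕ → S := fun n => (stp n (X n)).1
  exact ⟨x, e, rfl, fun n => rfl, fun n => (X n).2,
    fun n => hs1 n (X n), fun n => hs2 n (X n), fun n => hs3 n (X n), fun n => hs4 n (X n)⟩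

theorem exp_smul_sub {S : Type} [NormedRing S] [NormedAlgebra ℂ S] [CompleteSpace S]
    (t c : ℂ) (y : S) : NormedSpace.exp (t • (y - c • (1 : S))) =
      Complex.exp (-(t * c)) • NormedSpace.exp (t • y) := by
  have e1 : t • (y - c • (1 : S)) = algebraMap ℂ S (-(t * c)) + t • y := by
    rw [Algebra.algebraMap_eq_smul_one, smul_sub, smul_smul, neg_smul]
    abel
  rw [e1, exp_addc (Algebra.commutes _ _), ← NormedSpace.algebraMap_exp_comm,
    ← Complex.exp_eq_exp_ℂ, ← Algebra.smul_def]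

theorem semi_unital {S : Type} [NormedRing S] [NormedAlgebra ℂ S] [CompleteSpace S]
    (h1 : ‖(1 : S)‖ = 1) (E : NonUnitalSubalgebra ℂ S) (hE : IsClosed (E : Set S)) (M : ℝ)
    (hM : ∀ F : Finset S, (∀ x ∈ F, x ∈ E) → ∀ ε : ℝ, 0 < ε → ∃ e ∈ E, ‖e‖ ≤ M ∧
      ∀ x ∈ F, ‖e * x - x‖ < ε ∧ ‖x * e - x‖ < ε) (b : S) (hb : b ∈ E) :
    ∃ (a : ℂ → S) (b' : S), (∀ t, 0 < t.re → a t ∈ E) ∧
      (∀ s t, 0 < s.re → 0 < t.re → a (s + t) = a s * a t) ∧
      (DifferentiableOn ℂ a {t | 0 < t.re}) ∧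
      b' ∈ E ∧ b = a 1 * b' := by
  have hM0 : 0 ≤ M := by
    obtain ⟨e, -, he, -⟩ := hM ∅ (by simp) 1 one_pos
    exact (norm_nonneg _).trans he
  obtain ⟨x, e, hx0, hxs, hxE, heM, hxh, hhx, hhb⟩ := semi_choice E M hM b hb
    (fun n r => (1 / 2) ^ n * Real.exp (-((n + 1) * (n + 4 * (r + M + 2)))))
    (fun n r => by positivity)
  set h : ℕ → S := fun n => e n - 1 with hh
  have hhM : ∀ n, ‖h n‖ ≤ M + 1 := fun n => by
    refine (norm_sub_le _ _).trans ?_
    rw [h1]
    linarith [heM n]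
  set G : ℕ → ℂ → S := fun n t => NormedSpace.exp (t • (x n - (n : ℂ) • (1 : S))) with hG
  have hG1 : ∀ n t, G n t = Complex.exp (-(t * n)) • NormedSpace.exp (t • x n) :=
    fun n t => exp_smul_sub _ _ _
  have hG2 : ∀ n t, G (n + 1) t = Complex.exp (-(t * n)) • NormedSpace.exp (t • (x n + h n)) := by
    intro n t
    rw [← exp_smul_sub]
    simp only [hG, hh, hxs]
    congr 2
    rw [Nat.cast_add, Nat.cast_one, add_smul, one_smul]
    abel
  have hGadd : ∀ n s t, G n (s + t) = G n s * G n t := by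
    intro n s t
    simp only [hG]
    rw [add_smul, exp_addc]
    exact ((Commute.refl _).smul_left _).smul_right _
  set f : ℕ → ℂ → S := fun n t => G (n + 1) t - G n t with hf
  -- the basic estimate
  have key : ∀ (n : ℕ) (t : ℂ), ‖t‖ ≤ n + 1 →
      ‖f n t - Complex.exp (-(t * n)) • (NormedSpace.exp (t • h n) - 1)‖ ≤ (1 / 2) ^ n := by
    intro n t ht
    have e1 : f n t - Complex.exp (-(t * n)) • (NormedSpace.exp (t • h n) - 1) =
        Complex.exp (-(t * n)) • (NormedSpace.exp (t • (x n + h n)) - NormedSpace.exp (t • x n) -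
          NormedSpace.exp (t • h n) + 1) := by
      simp only [hf]
      rw [hG2, hG1]
      module
    set C : ℝ := ‖x n‖ + M + 2 with hC
    have hxn := norm_nonneg (x n)
    have e2 := expmix (x n) (h n) C _ (by linarith) (by linarith) (by linarith [hhM n])
      (hxh n) (hhx n) t
    rw [e1, norm_smul, Complex.norm_exp]
    have e3 : (-(t * (n : ℂ))).re ≤ ‖t‖ * n := by
      have : (-(t * (n : ℂ))).re ≤ ‖-(t * (n : ℂ))‖ := Complex.re_le_norm _
      rwa [norm_neg, norm_mul, Complex.norm_natCast] at this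
    calc Real.exp (-(t * (n : ℂ))).re * ‖NormedSpace.exp (t • (x n + h n)) -
          NormedSpace.exp (t • x n) - NormedSpace.exp (t • h n) + 1‖
        ≤ Real.exp (‖t‖ * n) * ((1 / 2) ^ n * Real.exp (-((n + 1) * (n + 4 * C))) *
            Real.exp (4 * ‖t‖ * C)) :=
          mul_le_mul (Real.exp_le_exp.2 e3) e2 (norm_nonneg _) (Real.exp_pos _).le
      _ = (1 / 2) ^ n * Real.exp (‖t‖ * n + -((n + 1) * (n + 4 * C)) + 4 * ‖t‖ * C) := by
          rw [Real.exp_add, Real.exp_add]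
          ring
      _ ≤ (1 / 2) ^ n * 1 := by
          gcongr
          rw [Real.exp_le_one_iff]
          have : 0 ≤ (n + 1 - ‖t‖) * (n + 4 * C) :=
            mul_nonneg (by linarith) (by positivity)
          nlinarith
      _ = (1 / 2) ^ n := mul_one _
  -- uniform bounds
  have hsumh : Summable (fun n : ℕ => (1 / 2 : ℝ) ^ n) := summable_geometric_two
  have hu : ∀ r K : ℝ, 0 < r → Summable (fun n : ℕ => (1 / 2 : ℝ) ^ n + Real.exp (-r) ^ n * K) := by
    intro r K hr
    refine hsumh.add ((summable_geometric_of_lt_one (Real.exp_pos _).le ?_).mul_right K)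
    rw [Real.exp_lt_one_iff]
    linarith
  have hbd : ∀ (r R : ℝ), 0 < r → ∀ (n : ℕ) (t : ℂ), R ≤ n + 1 → r ≤ t.re → ‖t‖ ≤ R →
      ‖f n t‖ ≤ (1 / 2) ^ n + Real.exp (-r) ^ n * (R * (M + 1) * Real.exp (R * (M + 1))) := by
    intro r R hr n t hn hrt htR
    have e1 := key n t (htR.trans hn)
    have e2 : ‖Complex.exp (-(t * n)) • (NormedSpace.exp (t • h n) - 1)‖ ≤
        Real.exp (-r) ^ n * (R * (M + 1) * Real.exp (R * (M + 1))) := by
      rw [norm_smul, Complex.norm_exp]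
      have hR : 0 ≤ R := (norm_nonneg _).trans htR
      have e3 : ‖t • h n‖ ≤ R * (M + 1) := by
        rw [norm_smul]
        exact mul_le_mul htR (hhM n) (norm_nonneg _) hR
      have e4 : ‖NormedSpace.exp (t • h n) - 1‖ ≤ R * (M + 1) * Real.exp (R * (M + 1)) := by
        refine (norm_exp_le h1 _).trans ?_
        gcongr
      refine mul_le_mul ?_ e4 (norm_nonneg _) (by positivity)
      rw [← Real.exp_nat_mul]
      apply Real.exp_le_exp.2
      simp only [Complex.neg_re, Complex.mul_re, Complex.natCast_re, Complex.natCast_im, mul_zero,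
        sub_zero]
      have : (n : ℝ) * r ≤ n * t.re := mul_le_mul_of_nonneg_left hrt (Nat.cast_nonneg n)
      nlinarith
    calc ‖f n t‖ = ‖(f n t - Complex.exp (-(t * n)) • (NormedSpace.exp (t • h n) - 1)) +
          Complex.exp (-(t * n)) • (NormedSpace.exp (t • h n) - 1)‖ := by rw [sub_add_cancel]
      _ ≤ _ := (norm_add_le _ _).trans (add_le_add e1 e2)
  have hsum : ∀ t : ℂ, 0 < t.re → Summable (fun n => f n t) := by
    intro t ht
    refine Summable.of_norm_bounded_eventually_nat (hu t.re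
      (‖t‖ * (M + 1) * Real.exp (‖t‖ * (M + 1))) ht) ?_
    filter_upwards [eventually_ge_atTop ⌈‖t‖⌉₊] with n hn
    refine hbd t.re ‖t‖ ht n t ?_ le_rfl le_rfl
    have := (Nat.ceil_le.1 hn)
    linarith
  set a : ℂ → S := fun t => G 0 t + ∑' n, f n t with ha
  have hlim : ∀ t : ℂ, 0 < t.re → Tendsto (fun n => G n t) atTop (𝓝 (a t)) := by
    intro t ht
    have := (hsum t ht).hasSum.tendsto_sum_nat.const_add (G 0 t)
    refine this.congr (fun n => ?_)
    simp only [hf]
    rw [Finset.sum_range_sub (fun n => G n t)]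
    abel
  have hGdiff : ∀ n, Differentiable ℂ (G n) := by
    intro n t
    have e1 : DifferentiableAt ℂ (NormedSpace.exp : S → S) (t • (x n - (n : ℂ) • (1 : S))) :=
      (NormedSpace.exp_analytic (𝕂 := ℂ) _).differentiableAt
    exact e1.comp t ((differentiableAt_id).smul_const _)
  have hdiff : DifferentiableOn ℂ a {t | 0 < t.re} := by
    intro t₀ ht₀
    apply DifferentiableAt.differentiableWithinAt
    have ht₀' : 0 < t₀.re := ht₀
    set U : Set ℂ := {t | t₀.re / 2 < t.re} ∩ Metric.ball 0 (‖t₀‖ + 1) with hU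
    have hUo : IsOpen U :=
      (isOpen_lt continuous_const Complex.continuous_re).inter Metric.isOpen_ball
    have htU : t₀ ∈ U := ⟨by show t₀.re / 2 < t₀.re; linarith, by
      rw [mem_ball_zero_iff]; linarith⟩
    set N := ⌈‖t₀‖ + 1⌉₊ with hN
    have hNR : ‖t₀‖ + 1 ≤ N := Nat.le_ceil _
    have e1 : DifferentiableOn ℂ (fun t => ∑' n, f (n + N) t) U := by
      have hu1 := (summable_nat_add_iff N).2 (hu (t₀.re / 2)
        ((‖t₀‖ + 1) * (M + 1) * Real.exp ((‖t₀‖ + 1) * (M + 1))) (by linarith))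
      refine Complex.differentiableOn_tsum_of_summable_norm hu1 (fun n => ?_) hUo
        (fun n t ht => ?_)
      · exact ((hGdiff _).sub (hGdiff _)).differentiableOn
      · refine hbd (t₀.re / 2) (‖t₀‖ + 1) (by linarith) (n + N) t ?_ ht.1.le ?_
        · push_cast
          have : (0 : ℝ) ≤ n := Nat.cast_nonneg n
          linarith
        · exact (mem_ball_zero_iff.1 ht.2).le
    have e2 : DifferentiableOn ℂ (fun t => G N t + ∑' n, f (n + N) t) U :=
      (hGdiff N).differentiableOn.add e1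
    have e3 : ∀ t ∈ U, G N t + ∑' n, f (n + N) t = a t := by
      intro t ht
      have ht0 : 0 < t.re := by
        have : t₀.re / 2 < t.re := ht.1
        linarith
      have e4 := (hsum t ht0).sum_add_tsum_nat_add N
      simp only [ha]
      rw [← e4]
      have e5 : ∑ i ∈ Finset.range N, f i t = G N t - G 0 t := by
        simp only [hf]
        rw [Finset.sum_range_sub (fun n => G n t)]
      rw [e5]
      abel
    have e4 : DifferentiableAt ℂ (fun t => G N t + ∑' n, f (n + N) t) t₀ :=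
      e2.differentiableAt (hUo.mem_nhds htU)
    exact e4.congr_of_eventuallyEq
      (Filter.eventuallyEq_of_mem (hUo.mem_nhds htU) (fun t ht => (e3 t ht).symm))
  have hmemE : ∀ n t, G n t - Complex.exp (-(t * n)) • (1 : S) ∈ E := by
    intro n t
    rw [hG1, ← smul_sub]
    exact E.smul_mem _ (exp_sub_one_mem E hE _ (E.smul_mem _ (hxE n)))
  have haE : ∀ t : ℂ, 0 < t.re → a t ∈ E := by
    intro t ht
    have e1 : Tendsto (fun n : ℕ => Complex.exp (-(t * n))) atTop (𝓝 0) := by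
      have : Tendsto (fun n : ℕ => (Complex.exp (-t)) ^ n) atTop (𝓝 0) := by
        apply tendsto_pow_atTop_nhds_zero_of_norm_lt_one
        rw [Complex.norm_exp, Real.exp_lt_one_iff]
        simpa using ht
      refine this.congr (fun n => ?_)
      rw [← Complex.exp_nat_mul]
      congr 1
      ring
    have e2 := (hlim t ht).sub (e1.smul_const (1 : S))
    rw [zero_smul, sub_zero] at e2
    exact hE.mem_of_tendsto e2 (Eventually.of_forall fun n => hmemE n t)
  have hamul : ∀ s t : ℂ, 0 < s.re → 0 < t.re → a (s + t) = a s * a t := by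
    intro s t hs ht
    have e1 := hlim (s + t) (by rw [Complex.add_re]; linarith)
    have e2 := (hlim s hs).mul (hlim t ht)
    refine tendsto_nhds_unique e1 (e2.congr (fun n => (hGadd n s t).symm))
  -- the quotient
  set β : ℕ → S := fun n => G n (-1) * b with hβ
  have hβE : ∀ n, β n ∈ E := by
    intro n
    have e1 : β n = (G n (-1) - Complex.exp (-((-1) * n)) • (1 : S)) * b +
        Complex.exp (-((-1) * n)) • b := by
      simp only [hβ]
      rw [sub_mul, smul_mul_assoc, one_mul, sub_add_cancel]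
    rw [e1]
    exact E.add_mem (E.mul_mem (hmemE n (-1)) hb) (E.smul_mem _ hb)
  have hexp3 : ∀ A B D : ℝ, Real.exp (A + B + D) = Real.exp A * Real.exp B * Real.exp D :=
    fun A B D => by rw [Real.exp_add, Real.exp_add]
  have hβb : ∀ n, ‖β (n + 1) - β n‖ ≤ (1 / 2) ^ n * ‖b‖ + (1 / 2) ^ n := by
    intro n
    have e1 : β (n + 1) - β n =
        (f n (-1) - Complex.exp (-((-1) * n)) • (NormedSpace.exp ((-1 : ℂ) • h n) - 1)) * b +
        Complex.exp (-((-1) * n)) • ((NormedSpace.exp ((-1 : ℂ) • h n) - 1) * b) := by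
      simp only [hβ, hf]
      rw [sub_mul (_ - _), smul_mul_assoc, sub_add_cancel, sub_mul]
    rw [e1]
    have e2 := key n (-1) (by
      rw [norm_neg, norm_one]
      have : (0 : ℝ) ≤ n := Nat.cast_nonneg n
      linarith)
    refine (norm_add_le _ _).trans (add_le_add ?_ ?_)
    · exact (norm_mul_le _ _).trans (mul_le_mul_of_nonneg_right e2 (norm_nonneg _))
    · rw [norm_smul, Complex.norm_exp]
      have e3 : (-((-1) * (n : ℂ))).re = n := by simp
      rw [e3]
      have e4 := norm_exp_sub_one_mul ((-1 : ℂ) • h n) b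
      have e5 : ‖(-1 : ℂ) • h n * b‖ ≤
          (1 / 2) ^ n * Real.exp (-((n + 1) * (n + 4 * (‖x n‖ + M + 2)))) := by
        rw [smul_mul_assoc, norm_smul, norm_neg, norm_one, one_mul]
        exact hhb n
      have e6 : ‖(-1 : ℂ) • h n‖ ≤ M + 1 := by
        rw [norm_smul, norm_neg, norm_one, one_mul]
        exact hhM n
      have hxn := norm_nonneg (x n)
      calc Real.exp n * ‖(NormedSpace.exp ((-1 : ℂ) • h n) - 1) * b‖
          ≤ Real.exp n * (((1 / 2) ^ n * Real.exp (-((n + 1) * (n + 4 * (‖x n‖ + M + 2))))) *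
              Real.exp (M + 1)) := by
            refine mul_le_mul_of_nonneg_left (e4.trans ?_) (Real.exp_pos _).le
            exact mul_le_mul e5 (Real.exp_le_exp.2 e6) (Real.exp_pos _).le (by positivity)
        _ = (1 / 2) ^ n * Real.exp (n + -((n + 1) * (n + 4 * (‖x n‖ + M + 2))) + (M + 1)) := by
            rw [hexp3]
            ring
        _ ≤ (1 / 2) ^ n * 1 := by
            gcongr
            rw [Real.exp_le_one_iff]
            have hn0 : (0 : ℝ) ≤ n := Nat.cast_nonneg n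
            have : 0 ≤ (n : ℝ) * (n + 4 * (‖x n‖ + M + 2)) := by positivity
            nlinarith
        _ = (1 / 2) ^ n := mul_one _
  have hβs : Summable (fun n => β (n + 1) - β n) :=
    Summable.of_norm_bounded ((hsumh.mul_right ‖b‖).add hsumh) hβb
  have hβlim : Tendsto β atTop (𝓝 (β 0 + ∑' n, (β (n + 1) - β n))) := by
    have := hβs.hasSum.tendsto_sum_nat.const_add (β 0)
    refine this.congr (fun n => ?_)
    rw [Finset.sum_range_sub]
    abel
  refine ⟨a, β 0 + ∑' n, (β (n + 1) - β n), haE, hamul, hdiff,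
    hE.mem_of_tendsto hβlim (Eventually.of_forall hβE), ?_⟩
  have e1 := (hlim 1 (by simp)).mul hβlim
  refine tendsto_nhds_unique (tendsto_const_nhds.congr (fun n => ?_)) e1
  simp only [hβ]
  rw [← mul_assoc, ← hGadd]
  simp [hG]


theorem mem_closure_span_of_diff {S : Type} [NormedAddCommGroup S] [NormedSpace ℂ S]
    [CompleteSpace S] (a : ℂ → S) (ha : DifferentiableOn ℂ a {t | 0 < t.re}) (t : ℂ)
    (ht : 0 < t.re) :
    a t ∈ closure (Submodule.span ℂ ((fun r : ℝ => a r) '' Set.Ioi 1) : Set S) := by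
  set N : Submodule ℂ S :=
    (Submodule.span ℂ ((fun r : ℝ => a r) '' Set.Ioi 1)).topologicalClosure with hN
  have hNc : IsClosed (N : Set S) := Submodule.isClosed_topologicalClosure _
  have hopen : IsOpen {t : ℂ | 0 < t.re} := isOpen_lt continuous_const Complex.continuous_re
  have hq : DifferentiableOn ℂ (fun z => N.mkQL (a z)) {t | 0 < t.re} :=
    N.mkQL.differentiable.comp_differentiableOn ha
  have hq2 : AnalyticOnNhd ℂ (fun z => N.mkQL (a z)) {t | 0 < t.re} := hq.analyticOnNhd hopen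
  have hpre : IsPreconnected {t : ℂ | 0 < t.re} := (convex_halfSpace_re_gt 0).isPreconnected
  have hz : ∀ r : ℝ, 1 < r → N.mkQL (a r) = 0 := by
    intro r hr
    rw [Submodule.mkQL_apply, Submodule.mkQ_apply, Submodule.Quotient.mk_eq_zero]
    exact Submodule.le_topologicalClosure _ (Submodule.subset_span ⟨r, hr, rfl⟩)
  have hfreq : ∃ᶠ z in 𝓝[≠] (2 : ℂ), N.mkQL (a z) = 0 := by
    have ht : Tendsto (fun n : ℕ => ((2 + 1 / ((n : ℝ) + 1) : ℝ) : ℂ)) atTop (𝓝[≠] (2 : ℂ)) := by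
      rw [tendsto_nhdsWithin_iff]
      constructor
      · have h1 : Tendsto (fun n : ℕ => (2 + 1 / ((n : ℝ) + 1) : ℝ)) atTop (𝓝 (2 + 0)) :=
          tendsto_one_div_add_atTop_nhds_zero_nat.const_add 2
        rw [add_zero] at h1
        exact (Complex.continuous_ofReal.tendsto 2).comp h1
      · refine Eventually.of_forall (fun n => ?_)
        simp only [Set.mem_compl_iff, Set.mem_singleton_iff]
        intro h
        have h2 : (2 + 1 / ((n : ℝ) + 1) : ℝ) = 2 := by exact_mod_cast h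
        have h3 : (0 : ℝ) < 1 / ((n : ℝ) + 1) := by positivity
        linarith
    refine ht.frequently (Frequently.of_forall (fun n => ?_))
    apply hz
    have h3 : (0 : ℝ) < 1 / ((n : ℝ) + 1) := by positivity
    linarith
  have h := hq2.eqOn_zero_of_preconnected_of_frequently_eq_zero hpre
    (z₀ := 2) (by simp) hfreq ht
  have h2 : N.mkQL (a t) = 0 := h
  rw [Submodule.mkQL_apply, Submodule.mkQ_apply, Submodule.Quotient.mk_eq_zero] at h2
  rw [← Submodule.topologicalClosure_coe]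
  exact h2

/-- Every element of an algebra with a bounded approximate identity is divisible by an element
of an analytic semigroup. -/
theorem exists_semi {B : Type} [NonUnitalNormedRing B] [NormedSpace ℂ B] [IsScalarTower ℂ B B]
    [SMulCommClass ℂ B B] [CompleteSpace B] (D : NonUnitalSubalgebra ℂ B)
    (hD : IsClosed (D : Set B)) (M : ℝ)
    (hM : ∀ F : Finset B, (∀ x ∈ F, x ∈ D) → ∀ ε : ℝ, 0 < ε → ∃ e ∈ D, ‖e‖ ≤ M ∧
      ∀ x ∈ F, ‖e * x - x‖ < ε ∧ ‖x * e - x‖ < ε) (b : B) (hb : b ∈ D) :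
    ∃ (a : ℝ → B) (b' : B), (∀ t, 0 < t → a t ∈ D) ∧
      (∀ s t, 0 < s → 0 < t → a (s + t) = a s * a t) ∧
      (∀ t, 0 < t → a t ∈ closure (Submodule.span ℂ (a '' Set.Ioi 1) : Set B)) ∧
      b' ∈ D ∧ b = a 1 * b' := by
  classical
  let E : NonUnitalSubalgebra ℂ (WithLp 1 (Unitization ℂ B)) :=
    { carrier := inU '' (D : Set B)
      add_mem' := by
        rintro _ _ ⟨x, hx, rfl⟩ ⟨y, hy, rfl⟩
        exact ⟨x + y, D.add_mem hx hy, map_add _ _ _⟩
      zero_mem' := ⟨0, D.zero_mem, map_zero _⟩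
      mul_mem' := by
        rintro _ _ ⟨x, hx, rfl⟩ ⟨y, hy, rfl⟩
        exact ⟨x * y, D.mul_mem hx hy, inU_mul _ _⟩
      smul_mem' := by
        rintro c _ ⟨x, hx, rfl⟩
        exact ⟨c • x, D.smul_mem _ hx, map_smul _ _ _⟩ }
  have hmemE : ∀ y, y ∈ E ↔ ∃ x ∈ D, inU x = y := fun y => Iff.rfl
  have hEc : IsClosed (E : Set (WithLp 1 (Unitization ℂ B))) := by
    have h1 : IsComplete ((inUi : B →ₗᵢ[ℂ] _) '' (D : Set B)) :=
      (inUi : B →ₗᵢ[ℂ] _).isometry.isUniformInducing.isComplete_iff.2 hD.isComplete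
    exact h1.isClosed
  have hn1 : ‖(1 : WithLp 1 (Unitization ℂ B))‖ = 1 := by
    rw [WithLp.unitization_norm_def]
    show ‖(1 : ℂ)‖ + ‖(0 : B)‖ = 1
    simp
  obtain ⟨a, b', ha, hmul, hdiff, hb', hbb⟩ := semi_unital hn1 E hEc M (by
    intro F hF ε hε
    have hF' : ∀ y : F, ∃ x ∈ D, inU x = (y : WithLp 1 (Unitization ℂ B)) := fun y => hF y y.2
    choose g hg1 hg2 using hF'
    obtain ⟨e, he, heM, hx⟩ := hM (Finset.univ.image g) (by
      intro x hx
      obtain ⟨y, -, rfl⟩ := Finset.mem_image.1 hx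
      exact hg1 y) ε hε
    refine ⟨inU e, ⟨e, he, rfl⟩, by rw [norm_inU]; exact heM, fun y hy => ?_⟩
    have h1 := hx (g ⟨y, hy⟩) (Finset.mem_image_of_mem _ (Finset.mem_univ _))
    have h2 : inU (g ⟨y, hy⟩) = y := hg2 ⟨y, hy⟩
    rw [← h2, ← inU_mul, ← inU_mul, ← map_sub, ← map_sub, norm_inU, norm_inU]
    exact h1) (inU b) ⟨b, hb, rfl⟩
  obtain ⟨b'', hb''D, rfl⟩ := hb'
  have hex : ∀ t : ℝ, ∃ x, 0 < t → x ∈ D ∧ inU x = a t := by
    intro t
    by_cases ht : 0 < t
    · obtain ⟨x, hx, hx2⟩ := ha t (by simpa using ht)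
      exact ⟨x, fun _ => ⟨hx, hx2⟩⟩
    · exact ⟨0, fun h => absurd h ht⟩
  choose α hα using hex
  refine ⟨α, b'', fun t ht => (hα t ht).1, fun s t hs ht => ?_, fun t ht => ?_, hb''D, ?_⟩
  · apply inU_injective
    rw [(hα (s + t) (add_pos hs ht)).2, inU_mul, (hα s hs).2, (hα t ht).2, Complex.ofReal_add,
      hmul _ _ (by simpa using hs) (by simpa using ht)]
  · have h1 := mem_closure_span_of_diff a hdiff t (by simpa using ht)
    rw [Metric.mem_closure_iff] at h1 ⊢
    intro ε hε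
    obtain ⟨y, hy, hy2⟩ := h1 ε hε
    have h2 : Submodule.span ℂ ((fun r : ℝ => a r) '' Set.Ioi 1) =
        (Submodule.span ℂ (α '' Set.Ioi 1)).map inU := by
      rw [Submodule.map_span, Set.image_image]
      congr 1
      apply Set.image_congr
      intro r hr
      exact ((hα r (lt_trans one_pos hr)).2).symm
    rw [h2] at hy
    obtain ⟨z, hz, rfl⟩ := hy
    refine ⟨z, hz, ?_⟩
    rw [← (hα t ht).2, dist_eq_norm, ← map_sub, norm_inU] at hy2
    rwa [dist_eq_norm]
  · apply inU_injective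
    rw [inU_mul, (hα 1 one_pos).2, hbb]
    simp

end ACG
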