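import Pool.Agent.ACG.Rans
import Pool.Agent.ACG.Semi
import Pool.Agent.ACG.RedC

set_option autoImplicit false

/-!
BAI: homomorphisms into algebras with property (C) on closed subalgebras with a bounded
approximate identity.
-/

namespace ACG

open Filter Topology

section
variable {A : Type} [NonUnitalNormedRing A] [NormedSpace ℂ A] [IsScalarTower ℂ A A]
  [SMulCommClass ℂ A A]

/-- right multiplication -/
noncomputable def rmul (y : A) : A →ₗ[ℂ] A where
  toFun x := x * y
  map_add' := fun x z => add_mul x z y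
  map_smul' := fun c x => smul_mul_assoc c x y

/-- left multiplication -/
noncomputable def lmul (y : A) : A →ₗ[ℂ] A where
  toFun x := y * x
  map_add' := fun x z => mul_add y x z
  map_smul' := fun c x => mul_smul_comm c y x

theorem continuous_rmul (y : A) : Continuous (rmul y : A → A) :=
  continuous_id.mul continuous_const

theorem continuous_lmul (y : A) : Continuous (lmul y : A → A) :=
  continuous_const.mul continuous_id

/-- closed span of a set -/
noncomputable def cspan (S : Set A) : Submodule ℂ A := (Submodule.span ℂ S).topologicalClosure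

theorem isClosed_cspan (S : Set A) : IsClosed (cspan S : Set A) :=
  Submodule.isClosed_topologicalClosure _

theorem subset_cspan (S : Set A) : S ⊆ cspan S := fun _ hx =>
  Submodule.le_topologicalClosure _ (Submodule.subset_span hx)

theorem cspan_le {S : Set A} {P : Submodule ℂ A} (hP : IsClosed (P : Set A)) (h : S ⊆ P) :
    cspan S ≤ P :=
  Submodule.topologicalClosure_minimal _ (Submodule.span_le.2 h) hP

theorem cspan_mul {S : Set A} (hS : ∀ x ∈ S, ∀ y ∈ S, x * y ∈ S) :
    ∀ x ∈ cspan S, ∀ y ∈ cspan S, x * y ∈ cspan S := by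
  have h1 : ∀ y ∈ S, ∀ x ∈ cspan S, x * y ∈ cspan S := by
    intro y hy
    have hc : IsClosed ((Submodule.comap (rmul y) (cspan S) : Submodule ℂ A) : Set A) :=
      (isClosed_cspan S).preimage (continuous_rmul y)
    exact cspan_le hc (fun x hx => subset_cspan S (hS x hx y hy))
  intro x hx
  have hc : IsClosed ((Submodule.comap (lmul x) (cspan S) : Submodule ℂ A) : Set A) :=
    (isClosed_cspan S).preimage (continuous_lmul x)
  exact cspan_le hc (fun y hy => h1 y hy x hx)

theorem cspan_comm {S : Set A} (hS : ∀ x ∈ S, ∀ y ∈ S, x * y = y * x) :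
    ∀ x ∈ cspan S, ∀ y ∈ cspan S, x * y = y * x := by
  have h0 : ∀ y : A, IsClosed ((LinearMap.ker (rmul y - lmul y) : Submodule ℂ A) : Set A) := by
    intro y
    have h : Continuous (fun x => (rmul y - lmul y) x) :=
      (continuous_rmul y).sub (continuous_lmul y)
    exact isClosed_singleton.preimage h
  have hm : ∀ x y : A, x ∈ LinearMap.ker (rmul y - lmul y) ↔ x * y = y * x := by
    intro x y
    rw [LinearMap.mem_ker]
    show x * y - y * x = 0 ↔ _
    exact sub_eq_zero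
  have h1 : ∀ y ∈ S, ∀ x ∈ cspan S, x * y = y * x := by
    intro y hy x hx
    exact (hm x y).1 (cspan_le (h0 y) (fun x hx => (hm x y).2 (hS x hx y hy)) hx)
  intro x hx y hy
  exact ((hm y x).1 (cspan_le (h0 x) (fun y hy => (hm y x).2 (h1 y hy x hx).symm) hy)).symm

end

section
variable {A B : Type} [NonUnitalNormedRing A] [NormedSpace ℂ A] [IsScalarTower ℂ A A]
  [SMulCommClass ℂ A A] [CompleteSpace A] [NonUnitalNormedRing B] [NormedSpace ℂ B]
  [IsScalarTower ℂ B B] [SMulCommClass ℂ B B] [CompleteSpace B]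

/-- double centraliser of a set -/
def DCs (T : Set B) : NonUnitalSubalgebra ℂ B where
  carrier := {x | ∀ y : B, (∀ z ∈ T, y * z = z * y) → y * x = x * y}
  zero_mem' := by
    intro y _
    rw [mul_zero, zero_mul]
  add_mem' := by
    intro x x' hx hx' y hy
    rw [mul_add, add_mul, hx y hy, hx' y hy]
  mul_mem' := by
    intro x x' hx hx' y hy
    rw [← mul_assoc, hx y hy, mul_assoc, hx' y hy, mul_assoc]
  smul_mem' := by
    intro c x hx y hy
    rw [mul_smul_comm, smul_mul_assoc, hx y hy]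

theorem mem_DCs {T : Set B} {x : B} :
    x ∈ DCs T ↔ ∀ y : B, (∀ z ∈ T, y * z = z * y) → y * x = x * y := Iff.rfl

theorem isClosed_DCs (T : Set B) : IsClosed (DCs T : Set B) := by
  have : (DCs T : Set B) = ⋂ y : {y : B // ∀ z ∈ T, y * z = z * y}, {x | (y : B) * x = x * y} := by
    ext x
    rw [SetLike.mem_coe, mem_DCs, Set.mem_iInter]
    exact ⟨fun h y => h y.1 y.2, fun h y hy => h ⟨y, hy⟩⟩
  rw [this]
  refine isClosed_iInter (fun y => ?_)
  exact isClosed_eq (continuous_const.mul continuous_id) (continuous_id.mul continuous_const)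

theorem subset_DCs (T : Set B) : T ⊆ DCs T := fun _ hx _ hy => hy _ hx

theorem DCs_comm {T : Set B} (hT : ∀ x ∈ T, ∀ y ∈ T, x * y = y * x) {x y : B} (hx : x ∈ DCs T)
    (hy : y ∈ DCs T) : x * y = y * x := by
  refine hy x (fun z hz => ?_)
  exact (hx z (fun w hw => hT z hz w hw)).symm

theorem DCs_cont (hC : PropC A) (θ : B →ₙₐ[ℂ] A) {T : Set B}
    (hT : ∀ x ∈ T, ∀ y ∈ T, x * y = y * x) : Continuous (fun x : DCs T => θ (x : B)) := by
  have : CompleteSpace (DCs T) := (isClosed_DCs T).completeSpace_coe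
  let θ₀ : DCs T →ₙₐ[ℂ] A :=
    { toFun := fun x => θ (x : B)
      map_smul' := fun c x => map_smul θ c (x : B)
      map_zero' := map_zero θ
      map_add' := fun x y => map_add θ (x : B) y
      map_mul' := fun x y => map_mul θ (x : B) y }
  refine hC (DCs T) θ₀ (fun x y => ?_)
  show θ (x : B) * θ (y : B) = θ (y : B) * θ (x : B)
  rw [← map_mul, ← map_mul, DCs_comm hT x.2 y.2]

theorem bai (hC : PropC A) (θ : B →ₙₐ[ℂ] A) (D : NonUnitalSubalgebra ℂ B)
    (hD : IsClosed (D : Set B)) (M : ℝ)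
    (hM : ∀ F : Finset B, (∀ x ∈ F, x ∈ D) → ∀ ε : ℝ, 0 < ε → ∃ e ∈ D, ‖e‖ ≤ M ∧
      ∀ x ∈ F, ‖e * x - x‖ < ε ∧ ‖x * e - x‖ < ε)
    (hq : ∀ d ∈ D, QN (inU (θ d))) : ∀ d ∈ D, θ d = 0 := by
  intro b hb
  obtain ⟨a, b', haD, hadd, hspan, hb', hbb⟩ := exists_semi D hD M hM b hb
  -- the commutative subalgebra
  set T : Set B := a '' Set.Ioi 0 with hTdef
  have hTc : ∀ x ∈ T, ∀ y ∈ T, x * y = y * x := by
    rintro _ ⟨s, hs, rfl⟩ _ ⟨t, ht, rfl⟩
    rw [← hadd s t hs ht, ← hadd t s ht hs, add_comm]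
  have hcont := DCs_cont hC θ hTc
  -- the ideal
  set S : Set A := (fun t => θ (a t)) '' Set.Ioi 0 with hS
  have hSm : ∀ x ∈ S, ∀ y ∈ S, x * y ∈ S := by
    rintro _ ⟨s, hs, rfl⟩ _ ⟨t, ht, rfl⟩
    refine ⟨s + t, Set.mem_Ioi.2 (add_pos hs ht), ?_⟩
    show θ (a (s + t)) = θ (a s) * θ (a t)
    rw [hadd s t hs ht, map_mul]
  have hSc : ∀ x ∈ S, ∀ y ∈ S, x * y = y * x := by
    rintro _ ⟨s, hs, rfl⟩ _ ⟨t, ht, rfl⟩
    show θ (a s) * θ (a t) = θ (a t) * θ (a s)
    rw [← map_mul, ← map_mul, ← hadd s t hs ht, ← hadd t s ht hs, add_comm]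
  have ha1 : θ (a 1) ∈ cspan S := subset_cspan S ⟨1, Set.mem_Ioi.2 one_pos, rfl⟩
  -- divisibility
  have hdiv : ∀ x ∈ cspan S, ∀ ε : ℝ, 0 < ε → ∃ y ∈ cspan S, ‖x - θ (a 1) * y‖ < ε := by
    set Q : Submodule ℂ A := ((cspan S).map (lmul (θ (a 1)))).topologicalClosure with hQ
    have hQc : IsClosed (Q : Set A) := Submodule.isClosed_topologicalClosure _
    have hQ1 : ∀ s, 1 < s → θ (a s) ∈ Q := by
      intro s hs
      refine Submodule.le_topologicalClosure _ ?_
      refine ⟨θ (a (s - 1)), subset_cspan S ⟨s - 1, Set.mem_Ioi.2 (sub_pos.2 hs), rfl⟩, ?_⟩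
      show θ (a 1) * θ (a (s - 1)) = θ (a s)
      rw [← map_mul, ← hadd 1 (s - 1) one_pos (sub_pos.2 hs)]
      congr 2
      ring
    have hSQ : S ⊆ Q := by
      rintro _ ⟨t, ht, rfl⟩
      have ht' : a t ∈ closure (Submodule.span ℂ (a '' Set.Ioi 1) : Set B) := hspan t ht
      rw [mem_closure_iff_seq_limit] at ht'
      obtain ⟨v, hv, hlim⟩ := ht'
      have hvD : ∀ n, v n ∈ DCs T := by
        intro n
        have h1 : Submodule.span ℂ (a '' Set.Ioi 1) ≤ (DCs T).toSubmodule := by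
          rw [Submodule.span_le]
          rintro _ ⟨s, hs, rfl⟩
          exact subset_DCs T ⟨s, Set.mem_Ioi.2 (lt_trans one_pos (Set.mem_Ioi.1 hs)), rfl⟩
        exact h1 (hv n)
      have hvQ : ∀ n, θ (v n) ∈ Q := by
        intro n
        have h1 : Submodule.span ℂ (a '' Set.Ioi 1) ≤
            Submodule.comap (θ : B →ₗ[ℂ] A) Q := by
          rw [Submodule.span_le]
          rintro _ ⟨s, hs, rfl⟩
          exact hQ1 s hs
        exact h1 (hv n)
      have hlim' : Tendsto (fun n => (⟨v n, hvD n⟩ : DCs T)) atTop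
          (𝓝 ⟨a t, subset_DCs T ⟨t, ht, rfl⟩⟩) := tendsto_subtype_rng.2 hlim
      have h3 := (hcont.tendsto _).comp hlim'
      exact hQc.mem_of_tendsto h3 (Eventually.of_forall hvQ)
    intro x hx ε hε
    have hx' : x ∈ (Q : Set A) := cspan_le hQc hSQ hx
    rw [hQ, Submodule.topologicalClosure_coe, Metric.mem_closure_iff] at hx'
    obtain ⟨_, ⟨y, hy, rfl⟩, hd⟩ := hx' ε hε
    refine ⟨y, hy, ?_⟩
    rw [dist_eq_norm] at hd
    exact hd
  have hbot := allan hC (θ (a 1)) (cspan S) (isClosed_cspan S) (cspan_mul hSm) (cspan_comm hSc)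
    (fun x hx => cspan_mul hSm _ ha1 x hx) (fun x hx => cspan_comm hSc _ ha1 x hx) hdiv (by
      intro ε hε
      obtain ⟨C, hC'⟩ := hq (a 1) (haD 1 one_pos) ε hε
      refine ⟨C, fun n x _ => ?_⟩
      have h1 : inU ((fun y => θ (a 1) * y)^[n] x) = (inU (θ (a 1))) ^ n * inU x := by
        induction n with
        | zero => simp
        | succ n ih => rw [Function.iterate_succ_apply', inU_mul, ih, pow_succ', mul_assoc]
      rw [← norm_inU, h1, ← norm_inU x]
      exact (norm_mul_le _ _).trans (mul_le_mul_of_nonneg_right (hC' n) (norm_nonneg _)))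
  have h0 : θ (a 1) = 0 := by
    rw [hbot] at ha1
    exact (Submodule.mem_bot ℂ).1 ha1
  rw [hbb, map_mul, h0, zero_mul]

/-- The general form: each `d ∈ D` is of one of three kinds. -/
theorem bai_main (hC : PropC A) (θ : B →ₙₐ[ℂ] A) (D : NonUnitalSubalgebra ℂ B)
    (hD : IsClosed (D : Set B)) (M : ℝ)
    (hM : ∀ F : Finset B, (∀ x ∈ F, x ∈ D) → ∀ ε : ℝ, 0 < ε → ∃ e ∈ D, ‖e‖ ≤ M ∧
      ∀ x ∈ F, ‖e * x - x‖ < ε ∧ ‖x * e - x‖ < ε)
    (h : ∀ d ∈ D,
      (∃ x : ℕ → B, Tendsto x atTop (𝓝 0) ∧ Tendsto (fun n => θ (x n)) atTop (𝓝 (θ d))) ∨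
      d ∈ closure (Submodule.span ℂ {z : B | ∃ x b y : B, x * y = 0 ∧ z = x * b * y} : Set B)) :
    (∀ d ∈ D, θ d = 0) ∧
      ((∀ x y : B, x * y - y * x ∈ D) → Continuous θ ∧ ∀ x y : B, θ x * θ y = θ y * θ x) := by
  have hR : Red A := red_of_propC hC
  have hZ : ∀ z ∈ Submodule.span ℂ {z : B | ∃ x b y : B, x * y = 0 ∧ z = x * b * y}, θ z = 0 := by
    intro z hz
    have h1 : Submodule.span ℂ {z : B | ∃ x b y : B, x * y = 0 ∧ z = x * b * y} ≤
        LinearMap.ker (θ : B →ₗ[ℂ] A) := by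
      rw [Submodule.span_le]
      rintro _ ⟨x, b, y, hxy, rfl⟩
      show θ (x * b * y) = 0
      rw [map_mul, map_mul]
      refine Red.mid0 ?_ _
      rw [← map_mul, hxy, map_zero]
    exact h1 hz
  have hq : ∀ d ∈ D, QN (inU (θ d)) := by
    intro d hd
    rcases h d hd with ⟨x, hx, hθ⟩ | hcl
    · exact qn_of_sep hC θ d x hx hθ
    · rw [mem_closure_iff_seq_limit] at hcl
      obtain ⟨v, hv, hlim⟩ := hcl
      refine qn_of_sep hC θ d (fun n => d - v n) ?_ ?_
      · have := (tendsto_const_nhds (x := d)).sub hlim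
        rwa [sub_self] at this
      · have h1 : (fun n => θ (d - v n)) = fun _ => θ d := by
          funext n
          rw [map_sub, hZ _ (hv n), sub_zero]
        rw [h1]
        exact tendsto_const_nhds
  have hmain := bai hC θ D hD M hM hq
  refine ⟨hmain, fun hcomm => ?_⟩
  have hc : ∀ x y : B, θ x * θ y = θ y * θ x := by
    intro x y
    have := hmain _ (hcomm x y)
    rw [map_sub, sub_eq_zero, map_mul, map_mul] at this
    exact this
  exact ⟨hC B θ hc, hc⟩

end

end ACG
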