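import Mathlib

set_option autoImplicit false

/-!
SEP: the separating space of a linear map between Banach spaces and the stability lemma.
-/

namespace ACG

open Filter Topology

section
variable {X Y Z : Type} [NormedAddCommGroup X] [NormedSpace ℂ X]
  [NormedAddCommGroup Y] [NormedSpace ℂ Y] [NormedAddCommGroup Z] [NormedSpace ℂ Z]

/-- the separating space -/
def Sep (θ : X →ₗ[ℂ] Y) : Submodule ℂ Y where
  carrier := {y | ∃ x : ℕ → X, Tendsto x atTop (𝓝 0) ∧ Tendsto (fun n => θ (x n)) atTop (𝓝 y)}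
  zero_mem' := ⟨fun _ => 0, tendsto_const_nhds, by simp⟩
  add_mem' := by
    rintro y y' ⟨x, hx, hy⟩ ⟨x', hx', hy'⟩
    refine ⟨fun n => x n + x' n, by simpa using hx.add hx', ?_⟩
    simpa using hy.add hy'
  smul_mem' := by
    rintro c y ⟨x, hx, hy⟩
    refine ⟨fun n => c • x n, by simpa using hx.const_smul c, ?_⟩
    simpa using hy.const_smul c

private lemma mem_Sep_iff (θ : X →ₗ[ℂ] Y) (y : Y) :
    y ∈ Sep θ ↔ ∀ ε > 0, ∃ x : X, ‖x‖ < ε ∧ ‖θ x - y‖ < ε := by
  constructor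
  · rintro ⟨x, hx, hy⟩ ε hε
    have h1 : ∀ᶠ n in atTop, ‖x n‖ < ε := by
      have := (tendsto_zero_iff_norm_tendsto_zero.mp hx).eventually (gt_mem_nhds hε)
      exact this
    have h2 : ∀ᶠ n in atTop, ‖θ (x n) - y‖ < ε := by
      have := (tendsto_iff_norm_sub_tendsto_zero.mp hy).eventually (gt_mem_nhds hε)
      exact this
    obtain ⟨n, h3, h4⟩ := (h1.and h2).exists
    exact ⟨x n, h3, h4⟩
  · intro h
    choose x hx1 hx2 using fun n : ℕ => h (1 / ((n : ℝ) + 1)) (by positivity)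
    refine ⟨x, ?_, ?_⟩
    · rw [tendsto_zero_iff_norm_tendsto_zero]
      exact squeeze_zero (fun n => norm_nonneg _) (fun n => (hx1 n).le)
        tendsto_one_div_add_atTop_nhds_zero_nat
    · rw [tendsto_iff_norm_sub_tendsto_zero]
      exact squeeze_zero (fun n => norm_nonneg _) (fun n => (hx2 n).le)
        tendsto_one_div_add_atTop_nhds_zero_nat

theorem isClosed_Sep (θ : X →ₗ[ℂ] Y) : IsClosed (Sep θ : Set Y) := by
  rw [← closure_subset_iff_isClosed]
  intro y hy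
  show y ∈ Sep θ
  rw [mem_Sep_iff]
  intro ε hε
  obtain ⟨y', hy', hd⟩ := Metric.mem_closure_iff.mp hy (ε / 2) (by linarith)
  obtain ⟨x, hx1, hx2⟩ := (mem_Sep_iff θ y').mp hy' (ε / 2) (by linarith)
  refine ⟨x, by linarith, ?_⟩
  rw [dist_eq_norm] at hd
  calc ‖θ x - y‖ = ‖(θ x - y') - (y - y')‖ := by congr 1; abel
    _ ≤ ‖θ x - y'‖ + ‖y - y'‖ := norm_sub_le _ _
    _ < ε := by linarith

variable [CompleteSpace X] [CompleteSpace Y] [CompleteSpace Z]

theorem continuous_iff_Sep (θ : X →ₗ[ℂ] Y) : Continuous θ ↔ Sep θ = ⊥ := by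
  constructor
  · intro h
    rw [eq_bot_iff]
    rintro y ⟨x, hx, hy⟩
    have h1 : Tendsto (fun n => θ (x n)) atTop (𝓝 (θ 0)) := (h.tendsto 0).comp hx
    rw [map_zero] at h1
    rw [Submodule.mem_bot]
    exact tendsto_nhds_unique hy h1
  · intro h
    apply LinearMap.continuous_of_seq_closed_graph
    intro u x y hu hy
    have h1 : y - θ x ∈ Sep θ := by
      refine ⟨fun n => u n - x, ?_, ?_⟩
      · have := hu.sub_const x
        rwa [sub_self] at this
      · have := hy.sub_const (θ x)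
        simpa using this
    rw [h, Submodule.mem_bot, sub_eq_zero] at h1
    exact h1

/-- the composition with the quotient map is continuous -/
private lemma quot_cont (θ : X →ₗ[ℂ] Y) (x : ℕ → X) (hx : Tendsto x atTop (𝓝 0)) :
    ∃ s : ℕ → Y, (∀ n, s n ∈ Sep θ) ∧ Tendsto (fun n => θ (x n) - s n) atTop (𝓝 0) := by
  haveI hcl : IsClosed (Sep θ : Set Y) := isClosed_Sep θ
  have hc : Continuous ((Sep θ).mkQ ∘ₗ θ) := by
    rw [continuous_iff_Sep, eq_bot_iff]
    rintro y hy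
    obtain ⟨y, rfl⟩ := Submodule.mkQ_surjective _ y
    rw [Submodule.mem_bot, Submodule.mkQ_apply, Submodule.Quotient.mk_eq_zero, mem_Sep_iff]
    intro ε hε
    obtain ⟨a, ha1, ha2⟩ := (mem_Sep_iff _ _).mp hy (ε / 2) (by linarith)
    have e : ((Sep θ).mkQ ∘ₗ θ) a - (Sep θ).mkQ y = (Sep θ).mkQ (θ a - y) := by
      rw [LinearMap.comp_apply, map_sub]
    rw [e] at ha2
    obtain ⟨m, hm1, hm2⟩ := Submodule.Quotient.norm_mk_lt ((Sep θ).mkQ (θ a - y))
      (ε := ε / 2 - ‖(Sep θ).mkQ (θ a - y)‖) (by linarith)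
    have hs : m - (θ a - y) ∈ Sep θ := by
      rw [← Submodule.Quotient.mk_eq_zero, Submodule.Quotient.mk_sub, hm1]
      simp
    obtain ⟨b, hb1, hb2⟩ := (mem_Sep_iff _ _).mp hs (ε / 2) (by linarith)
    refine ⟨a + b, ?_, ?_⟩
    · calc ‖a + b‖ ≤ ‖a‖ + ‖b‖ := norm_add_le _ _
        _ < ε := by linarith
    · calc ‖θ (a + b) - y‖ = ‖m + (θ b - (m - (θ a - y)))‖ := by
            rw [map_add]
            congr 1
            abel
        _ ≤ ‖m‖ + ‖θ b - (m - (θ a - y))‖ := norm_add_le _ _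
        _ < ε := by linarith
  have h0 : Tendsto (fun n => ‖(Sep θ).mkQ (θ (x n))‖) atTop (𝓝 0) := by
    have h1 : Tendsto (fun n => ((Sep θ).mkQ ∘ₗ θ) (x n)) atTop (𝓝 (((Sep θ).mkQ ∘ₗ θ) 0)) :=
      (hc.tendsto 0).comp hx
    rw [map_zero, tendsto_zero_iff_norm_tendsto_zero] at h1
    exact h1
  have hex : ∀ n : ℕ, ∃ s ∈ Sep θ, ‖θ (x n) - s‖ < ‖(Sep θ).mkQ (θ (x n))‖ + 1 / ((n : ℝ) + 1) := by
    intro n
    obtain ⟨m, hm1, hm2⟩ := Submodule.Quotient.norm_mk_lt ((Sep θ).mkQ (θ (x n)))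
      (ε := 1 / ((n : ℝ) + 1)) (by positivity)
    refine ⟨θ (x n) - m, ?_, ?_⟩
    · rw [← Submodule.Quotient.mk_eq_zero, Submodule.Quotient.mk_sub, hm1]
      simp
    · rwa [sub_sub_cancel]
  choose s hs1 hs2 using hex
  refine ⟨s, hs1, ?_⟩
  rw [tendsto_zero_iff_norm_tendsto_zero]
  have h2 : Tendsto (fun n : ℕ => ‖(Sep θ).mkQ (θ (x n))‖ + 1 / ((n : ℝ) + 1)) atTop (𝓝 0) := by
    have := h0.add (tendsto_one_div_add_atTop_nhds_zero_nat (𝕜 := ℝ))
    simpa using this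
  exact squeeze_zero (fun n => norm_nonneg _) (fun n => (hs2 n).le) h2

/-- `S(R θ)` is the closure of `R S(θ)`. -/
theorem Sep_comp (θ : X →ₗ[ℂ] Y) (R : Y →L[ℂ] Z) :
    Sep (R.toLinearMap ∘ₗ θ) = ((Sep θ).map R.toLinearMap).topologicalClosure := by
  apply le_antisymm
  · rintro z ⟨x, hx, hz⟩
    obtain ⟨s, hs1, hs2⟩ := quot_cont θ x hx
    have h1 : Tendsto (fun n => R (s n)) atTop (𝓝 z) := by
      have h2 : Tendsto (fun n => R (θ (x n) - s n)) atTop (𝓝 0) := by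
        have := (R.continuous.tendsto 0).comp hs2
        rwa [map_zero] at this
      have h3 := hz.sub h2
      rw [sub_zero] at h3
      refine h3.congr fun n => ?_
      rw [map_sub]
      show R (θ (x n)) - (R (θ (x n)) - R (s n)) = R (s n)
      abel
    refine mem_closure_of_tendsto h1 (Eventually.of_forall fun n => ?_)
    exact ⟨s n, hs1 n, rfl⟩
  · refine Submodule.topologicalClosure_minimal _ ?_ (isClosed_Sep _)
    rintro _ ⟨y, ⟨x, hx, hy⟩, rfl⟩
    exact ⟨x, hx, (R.continuous.tendsto y).comp hy⟩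

end
end ACG
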