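import Pool.Agent.ACG.Star
import Pool.Agent.ACG.Sep

set_option autoImplicit false

/-!
BDD: the elements `z θ(δ g)` are bounded.
-/

namespace ACG

open Filter Topology

section cen

variable {A : Type} [NonUnitalNormedRing A] [NormedSpace ℂ A] [IsScalarTower ℂ A A]
  [SMulCommClass ℂ A A]

theorem bdd_cen_mul {a b : A} (ha : Cen a) (hb : Cen b) : Cen (a * b) := fun x => by
  rw [mul_assoc, hb x, ← mul_assoc, ha x, mul_assoc]

theorem bdd_cen_sub {a b : A} (ha : Cen a) (hb : Cen b) : Cen (a - b) := fun x => by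
  rw [sub_mul, mul_sub, ha x, hb x]

theorem bdd_cen_add {a b : A} (ha : Cen a) (hb : Cen b) : Cen (a + b) := fun x => by
  rw [add_mul, mul_add, ha x, hb x]

theorem bdd_cen_smul {a : A} (c : ℂ) (ha : Cen a) : Cen (c • a) := fun x => by
  rw [smul_mul_assoc, mul_smul_comm, ha x]

theorem bdd_cen_lim {s : ℕ → A} {a : A} (h : Tendsto s atTop (𝓝 a)) (hs : ∀ k, Cen (s k)) :
    Cen a := fun x => by
  have h1 : Tendsto (fun k => s k * x) atTop (𝓝 (a * x)) := h.mul_const x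
  have h2 : Tendsto (fun k => s k * x) atTop (𝓝 (x * a)) := by
    have : (fun k => s k * x) = fun k => x * s k := funext fun k => hs k x
    rw [this]
    exact h.const_mul x
  exact tendsto_nhds_unique h1 h2

end cen

section
variable {A B G : Type} [NonUnitalNormedRing A] [NormedSpace ℂ A] [IsScalarTower ℂ A A]
  [SMulCommClass ℂ A A] [NormedRing B] [NormedAlgebra ℂ B] [Group G]

/-- the annihilator of `NN`. -/
def bddL (θ : B →ₙₐ[ℂ] A) (δ : G →* B) (t : G → ℂ) : Submodule ℂ A where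
  carrier := {a | ∀ x ∈ NN θ δ t, a * x = 0}
  zero_mem' := fun x _ => zero_mul x
  add_mem' := fun ha hb x hx => by rw [add_mul, ha x hx, hb x hx, add_zero]
  smul_mem' := fun c a ha x hx => by rw [smul_mul_assoc, ha x hx, smul_zero]

theorem bdd_L_lim {θ : B →ₙₐ[ℂ] A} {δ : G →* B} {t : G → ℂ} {s : ℕ → A} {a : A}
    (h : Tendsto s atTop (𝓝 a)) (hs : ∀ k, s k ∈ bddL θ δ t) : a ∈ bddL θ δ t := by
  intro x hx
  have h1 : Tendsto (fun k => s k * x) atTop (𝓝 (a * x)) := h.mul_const x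
  have h2 : (fun k => s k * x) = fun _ => 0 := funext fun k => hs k x hx
  rw [h2] at h1
  exact (tendsto_nhds_unique h1 tendsto_const_nhds)

/-- the linear map `b ↦ z θ b`. -/
noncomputable def bddphi (θ : B →ₙₐ[ℂ] A) (z : A) : B →ₗ[ℂ] A where
  toFun := fun b => z * θ b
  map_add' := fun x y => by rw [map_add, mul_add]
  map_smul' := fun c x => by rw [map_smul, mul_smul_comm, RingHom.id_apply]

variable [CompleteSpace A] [CompleteSpace B]

/-- a continuous linear map which kills `NN` makes `z θ` continuous. -/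
theorem bdd_cont {θ : B →ₙₐ[ℂ] A} {δ : G →* B} {z : A} {t : G → ℂ} (hS : Sing θ δ z t)
    (R : A →L[ℂ] A) (hR : ∀ n ∈ NN θ δ t, R n = 0) : Continuous fun b => R (z * θ b) := by
  have h1 : Sep (R.toLinearMap ∘ₗ bddphi θ z) = ⊥ := by
    rw [Sep_comp]
    have h2 : (Sep (bddphi θ z)).map R.toLinearMap = ⊥ := by
      rw [eq_bot_iff]
      rintro _ ⟨y, hy, rfl⟩
      obtain ⟨x, hx, hxy⟩ := hy
      exact hR y (hS.sep x y hx hxy)
    rw [h2]
    exact IsClosed.submodule_topologicalClosure_eq (by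
      rw [Submodule.bot_coe]
      exact isClosed_singleton)
  exact (continuous_iff_Sep _).mpr h1

/-- the bound (10b). -/
theorem bdd_b (hred : Red A) {θ : B →ₙₐ[ℂ] A} {δ : G →* B} {z : A} {t : G → ℂ}
    (hS : Sing θ δ z t) : ∃ K : ℝ, 0 ≤ K ∧ ∀ (f : B) (y : A), y ∈ bddL θ δ t →
      ‖z * θ f * y‖ ≤ K * ‖f‖ * ‖y‖ := by
  have hcont : ∀ y ∈ bddL θ δ t, Continuous fun b => z * θ b * y := by
    intro y hy
    let R : A →L[ℂ] A :=
      { toFun := fun a => a * y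
        map_add' := fun a b => add_mul a b y
        map_smul' := fun c a => smul_mul_assoc c a y
        cont := continuous_id.mul continuous_const }
    exact bdd_cont hS R fun n hn => Red.comm0 (hy n hn)
  let ι : Type := {y : A // y ∈ bddL θ δ t ∧ ‖y‖ ≤ 1}
  let g : ι → B →L[ℂ] A := fun y =>
    { toFun := fun b => z * θ b * y.1
      map_add' := fun x x' => by rw [map_add, mul_add, add_mul]
      map_smul' := fun c x => by
        rw [map_smul, mul_smul_comm, smul_mul_assoc, RingHom.id_apply]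
      cont := hcont y.1 y.2.1 }
  obtain ⟨C, hC⟩ := banach_steinhaus (g := g) (fun b => ⟨‖z * θ b‖, fun y => by
    calc ‖z * θ b * y.1‖ ≤ ‖z * θ b‖ * ‖y.1‖ := norm_mul_le _ _
      _ ≤ ‖z * θ b‖ * 1 := by gcongr; exact y.2.2
      _ = _ := mul_one _⟩)
  have hC0 : 0 ≤ C := (norm_nonneg _).trans (hC ⟨0, Submodule.zero_mem _, by simp⟩)
  refine ⟨C, hC0, fun f y hy => ?_⟩
  by_cases h0 : y = 0
  · rw [h0, mul_zero, norm_zero, mul_zero]
  have hny : 0 < ‖y‖ := norm_pos_iff.mpr h0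
  have h1 : ‖((‖y‖⁻¹ : ℝ) : ℂ) • y‖ ≤ 1 := by
    rw [norm_smul, Complex.norm_real, norm_inv, norm_norm, inv_mul_cancel₀ hny.ne']
  have h2 := (g ⟨((‖y‖⁻¹ : ℝ) : ℂ) • y, Submodule.smul_mem _ _ hy, h1⟩).le_of_opNorm_le
    (hC _) f
  have h3 : g ⟨((‖y‖⁻¹ : ℝ) : ℂ) • y, Submodule.smul_mem _ _ hy, h1⟩ f =
      ((‖y‖⁻¹ : ℝ) : ℂ) • (z * θ f * y) := by
    change z * θ f * (((‖y‖⁻¹ : ℝ) : ℂ) • y) = _
    rw [mul_smul_comm]
  rw [h3, norm_smul, Complex.norm_real, norm_inv, norm_norm, inv_mul_le_iff₀ hny] at h2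
  linarith


omit [CompleteSpace A] [CompleteSpace B] in
theorem bdd_one {δ : G →* B} (hG : GA B G δ) : ‖(1 : B)‖ ≤ 1 := by
  have := hG.norm_le 1
  rwa [map_one] at this

/-- `d_g = 1 - conj (t g) δ g` -/
noncomputable def bddd (δ : G →* B) (t : G → ℂ) (g : G) : B :=
  1 - (starRingEnd ℂ) (t g) • δ g

omit [CompleteSpace A] [CompleteSpace B] in
theorem bddd_norm {δ : G →* B} (hG : GA B G δ) {t : G → ℂ} (ht : ∀ g, ‖t g‖ = 1) (g : G) :
    ‖bddd δ t g‖ ≤ 2 := by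
  have h2 : ‖(starRingEnd ℂ) (t g) • δ g‖ ≤ 1 := by
    rw [norm_smul, RCLike.norm_conj, ht g, one_mul]
    exact hG.norm_le g
  have h3 := norm_sub_le (1 : B) ((starRingEnd ℂ) (t g) • δ g)
  have h1 := bdd_one hG
  rw [bddd]
  linarith

omit [CompleteSpace A] [CompleteSpace B] in
theorem bddd_L {θ : B →ₙₐ[ℂ] A} {δ : G →* B} {z : A} {t : G → ℂ} (hS : Sing θ δ z t) (g : G) :
    z * θ (bddd δ t g) ∈ bddL θ δ t := by
  intro x hx
  have h : (starRingEnd ℂ) (t g) * t g = 1 := by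
    rw [← Complex.normSq_eq_conj_mul_self, Complex.normSq_eq_norm_sq, hS.norm_t g]
    simp
  rw [bddd, map_sub, map_smul, mul_assoc, sub_mul, smul_mul_assoc, hx.1, hx.2 g, smul_smul, h,
    one_smul, sub_self, mul_zero]

theorem bddd_cen (hC : PropC A) (θ : B →ₙₐ[ℂ] A) {δ : G →* B} (hG : GA B G δ) (t : G → ℂ)
    (g : G) : Cen (θ (bddd δ t g)) := by
  rw [bddd, map_sub, map_smul]
  refine bdd_cen_sub ?_ (bdd_cen_smul _ (cen_u hC θ δ hG.norm_le g))
  have := cen_u hC θ δ hG.norm_le 1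
  rwa [map_one] at this

/-- the partial sums. -/
noncomputable def bdds (θ : B →ₙₐ[ℂ] A) (δ : G →* B) (z : A) (t : G → ℂ) (v : ℕ → ℝ)
    (g : ℕ → G) (k : ℕ) : A :=
  ∑ i ∈ Finset.range k, (v i : ℂ) • (z * θ (bddd δ t (g i)))

omit [CompleteSpace A] [CompleteSpace B] in
theorem bdds_succ (θ : B →ₙₐ[ℂ] A) (δ : G →* B) (z : A) (t : G → ℂ) (v : ℕ → ℝ)
    (g : ℕ → G) (k : ℕ) : bdds θ δ z t v g (k + 1) =
      bdds θ δ z t v g k + (v k : ℂ) • (z * θ (bddd δ t (g k))) :=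
  Finset.sum_range_succ _ _

omit [CompleteSpace A] [CompleteSpace B] in
theorem bdds_L {θ : B →ₙₐ[ℂ] A} {δ : G →* B} {z : A} {t : G → ℂ} (hS : Sing θ δ z t)
    (v : ℕ → ℝ) (g : ℕ → G) (k : ℕ) : bdds θ δ z t v g k ∈ bddL θ δ t :=
  Submodule.sum_mem _ fun _ _ => Submodule.smul_mem _ _ (bddd_L hS _)

theorem bdds_cen (hC : PropC A) {θ : B →ₙₐ[ℂ] A} {δ : G →* B} (hG : GA B G δ) {z : A}
    {t : G → ℂ} (hS : Sing θ δ z t) (v : ℕ → ℝ) (g : ℕ → G) (k : ℕ) :
    Cen (bdds θ δ z t v g k) := by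
  induction k with
  | zero => intro x; simp [bdds]
  | succ k ih =>
    rw [bdds_succ]
    exact bdd_cen_add ih (bdd_cen_smul _ (bdd_cen_mul hS.cen (bddd_cen hC θ hG t _)))

omit [CompleteSpace A] [CompleteSpace B] in
theorem bdds_norm {θ : B →ₙₐ[ℂ] A} {δ : G →* B} {z : A} {t : G → ℂ} {v : ℕ → ℝ} {g : ℕ → G}
    (hv : ∀ i, 0 ≤ v i) (hvR : ∀ i, v i * ‖z * θ (bddd δ t (g i))‖ ≤ i + 1) (k : ℕ) :
    ‖bdds θ δ z t v g k‖ ≤ (k : ℝ) ^ 2 := by
  induction k with
  | zero => simp [bdds]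
  | succ k ih =>
    rw [bdds_succ]
    refine (norm_add_le _ _).trans ?_
    rw [norm_smul, Complex.norm_real, Real.norm_of_nonneg (hv k)]
    have h1 := hvR k
    have h2 : (0 : ℝ) ≤ k := Nat.cast_nonneg k
    push_cast
    nlinarith

theorem bdds_tendsto (hC : PropC A) {θ : B →ₙₐ[ℂ] A} {δ : G →* B} (hG : GA B G δ) {z : A}
    {t : G → ℂ} (hS : Sing θ δ z t) {K : ℝ} (hK0 : 0 ≤ K)
    (hK : ∀ (f : B) (y : A), y ∈ bddL θ δ t → ‖z * θ f * y‖ ≤ K * ‖f‖ * ‖y‖)
    {v : ℕ → ℝ} {g : ℕ → G} (hv : ∀ i, 0 ≤ v i)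
    (hvR : ∀ i, v i * ‖z * θ (bddd δ t (g i))‖ ≤ i + 1)
    (hv4 : ∀ i, v i * ((i : ℝ) + 1) ^ 2 ≤ (1 / 4) ^ (i + 1)) :
    ∃ Q, Tendsto (fun k => bdds θ δ z t v g k * bdds θ δ z t v g k) atTop (𝓝 Q) := by
  apply cauchySeq_tendsto_of_complete
  refine cauchySeq_of_le_geometric (1 / 4 : ℝ) K (by norm_num) fun k => ?_
  have hcomm := bdds_cen hC hG hS v g k (z * θ (bddd δ t (g k)))
  have hL := Submodule.add_mem _ (bdds_L hS v g k) (bdds_L hS v g (k + 1))
  have hn1 := bdds_norm (k := k) hv hvR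
  have hn2 := bdds_norm (k := k + 1) hv hvR
  have h1 := bdds_succ θ δ z t v g k
  have hd := bddd_norm hG hS.norm_t (g k)
  have hb := hK (bddd δ t (g k)) _ hL
  revert h1 hcomm hb hn1 hn2
  generalize bdds θ δ z t v g k = s
  generalize bdds θ δ z t v g (k + 1) = s'
  generalize z * θ (bddd δ t (g k)) = a
  intro hcomm hn1 hn2 h1 hb
  have h2 : s' * s' - s * s = (v k : ℂ) • (a * (s + s')) := by
    rw [h1]
    simp only [mul_add, add_mul, smul_mul_assoc, mul_smul_comm, hcomm, smul_add]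
    abel
  rw [dist_comm, dist_eq_norm, h2, norm_smul, Complex.norm_real, Real.norm_of_nonneg (hv k)]
  have h3 : ‖s + s'‖ ≤ 2 * ((k : ℝ) + 1) ^ 2 := by
    refine (norm_add_le _ _).trans ?_
    have h2 : (0 : ℝ) ≤ k := Nat.cast_nonneg k
    push_cast at hn2
    nlinarith
  have h4 : ‖a * (s + s')‖ ≤ K * 2 * (2 * ((k : ℝ) + 1) ^ 2) := by
    refine hb.trans ?_
    gcongr
  calc v k * ‖a * (s + s')‖ ≤ v k * (K * 2 * (2 * ((k : ℝ) + 1) ^ 2)) := by
        have := hv k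
        gcongr
    _ = 4 * K * (v k * ((k : ℝ) + 1) ^ 2) := by ring
    _ ≤ 4 * K * (1 / 4) ^ (k + 1) := by
        have := hv4 k
        gcongr
    _ = K * (1 / 4) ^ k := by
        rw [pow_succ]
        ring

/-- the probability weights. -/
noncomputable def bddp (v : ℕ → ℝ) : ℕ → ℝ
  | 0 => 1 - ∑' i, v i
  | n + 1 => v n

/-- the group elements. -/
def bddg (g : ℕ → G) : ℕ → G
  | 0 => 1
  | n + 1 => g n

theorem bddp_sum {v : ℕ → ℝ} (hv : Summable v) : Summable (bddp v) ∧ ∑' n, bddp v n = 1 := by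
  have h1 : Summable (bddp v) := by
    rw [← summable_nat_add_iff 1]
    exact hv
  refine ⟨h1, ?_⟩
  rw [h1.tsum_eq_zero_add]
  simp only [bddp]
  ring

omit [CompleteSpace A] in
theorem bdd_sumd {δ : G →* B} (hG : GA B G δ) {t : G → ℂ} (ht : ∀ g, ‖t g‖ = 1) {c : ℕ → ℂ}
    (hc : Summable fun i => ‖c i‖) (g : ℕ → G) : Summable fun i => c i • bddd δ t (g i) := by
  refine Summable.of_norm_bounded (hc.mul_right 2) fun i => ?_
  rw [norm_smul]
  have := bddd_norm hG ht (g i)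
  gcongr

omit [CompleteSpace A] in
theorem bdd_sumδ {δ : G →* B} (hG : GA B G δ) {c : ℕ → ℂ}
    (hc : Summable fun i => ‖c i‖) (g : ℕ → G) : Summable fun i => c i • δ (g i) := by
  refine Summable.of_norm_bounded (hc.mul_right 1) fun i => ?_
  rw [norm_smul]
  have := hG.norm_le (g i)
  gcongr

omit [CompleteSpace A] in
theorem bdd_pos {δ : G →* B} (hG : GA B G δ) {t : G → ℂ} (ht : ∀ g, ‖t g‖ = 1)
    (ht1 : t 1 = 1) {v : ℕ → ℝ} (hv : ∀ i, 0 ≤ v i) (hvs : Summable v) (g : ℕ → G) :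
    pos δ t (bddp v) (bddg g) = 1 - ∑' i, (v i : ℂ) • bddd δ t (g i) := by
  have hn : Summable fun i => ‖(v i : ℂ) * (starRingEnd ℂ) (t (g i))‖ := by
    have : (fun i => ‖(v i : ℂ) * (starRingEnd ℂ) (t (g i))‖) = v := by
      funext i
      rw [norm_mul, RCLike.norm_conj, ht, mul_one, Complex.norm_real,
        Real.norm_of_nonneg (hv i)]
    rw [this]
    exact hvs
  have hD := (bdd_sumδ hG hn g).hasSum
  have hV : HasSum (fun i => (v i : ℂ)) ((∑' i, v i : ℝ) : ℂ) :=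
    Complex.hasSum_ofReal.mpr hvs.hasSum
  have hV1 : HasSum (fun i => (v i : ℂ) • (1 : B)) (((∑' i, v i : ℝ) : ℂ) • (1 : B)) :=
    hV.smul_const 1
  have hh := (hV1.sub hD).tsum_eq
  have e1 : (fun i => (v i : ℂ) • (1 : B) - ((v i : ℂ) * (starRingEnd ℂ) (t (g i))) • δ (g i)) =
      fun i => (v i : ℂ) • bddd δ t (g i) := by
    funext i
    rw [bddd, smul_sub, smul_smul]
  rw [e1] at hh
  rw [hh, pos]
  have hs : Summable fun n => ((bddp v n : ℂ) * (starRingEnd ℂ) (t (bddg g n))) •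
      δ (bddg g n) := by
    rw [← summable_nat_add_iff 1]
    exact hD.summable
  rw [hs.tsum_eq_zero_add]
  simp only [bddp, bddg, ht1, map_one, mul_one]
  push_cast
  rw [sub_smul, one_smul]
  abel

/-- (10c). -/
theorem bdd_c (hC : PropC A) {θ : B →ₙₐ[ℂ] A} {δ : G →* B} (hG : GA B G δ) {z : A}
    {t : G → ℂ} (hS : Sing θ δ z t) (ht1 : t 1 = 1) {K : ℝ} (hK0 : 0 ≤ K)
    (hK : ∀ (f : B) (y : A), y ∈ bddL θ δ t → ‖z * θ f * y‖ ≤ K * ‖f‖ * ‖y‖)
    {v : ℕ → ℝ} {g : ℕ → G} (hv : ∀ i, 0 ≤ v i)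
    (hvR : ∀ i, v i * ‖z * θ (bddd δ t (g i))‖ ≤ i + 1)
    (hv4 : ∀ i, v i * ((i : ℝ) + 1) ^ 2 ≤ (1 / 4) ^ (i + 1)) :
    z * θ (∑' i, (v i : ℂ) • bddd δ t (g i)) ∈ bddL θ δ t := by
  have hred : Red A := red_of_propC hC
  have hz := hS.cen
  -- summability of v
  have hv5 : ∀ i, v i ≤ 1 / 4 * (1 / 4) ^ i := fun i => by
    have h1 := hv4 i
    have h2 := hv i
    have h3 : (0 : ℝ) ≤ i := Nat.cast_nonneg i
    have h4 : v i ≤ v i * ((i : ℝ) + 1) ^ 2 := le_mul_of_one_le_right h2 (by nlinarith)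
    rw [pow_succ (1 / 4 : ℝ)] at h1
    linarith
  have hgeo : Summable fun i : ℕ => (1 / 4 : ℝ) * (1 / 4) ^ i :=
    (summable_geometric_of_lt_one (by norm_num) (by norm_num)).mul_left _
  have hvs : Summable v := Summable.of_nonneg_of_le hv hv5 hgeo
  have hvn : Summable fun i => ‖(v i : ℂ)‖ := by
    simpa only [Complex.norm_real, Real.norm_eq_abs, abs_of_nonneg (hv _)] using hvs
  have hV1 : ∑' i, v i ≤ 1 := by
    refine (hvs.tsum_le_tsum hv5 hgeo).trans ?_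
    rw [tsum_mul_left, tsum_geometric_of_lt_one (by norm_num) (by norm_num)]
    norm_num
  have hp0 : ∀ n, 0 ≤ bddp v n := by
    intro n
    cases n with
    | zero => simp only [bddp]; linarith
    | succ n => exact hv n
  have hpos := bdd_pos hG hS.norm_t ht1 hv hvs g
  have hhs := (bdd_sumd hG hS.norm_t hvn g).hasSum.tendsto_sum_nat
  set h : B := ∑' i, (v i : ℂ) • bddd δ t (g i) with hh
  obtain ⟨Q, hQ⟩ := bdds_tendsto hC hG hS hK0 hK hv hvR hv4 (g := g)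
  have hQL : Q ∈ bddL θ δ t := bdd_L_lim hQ fun k => fun x hx => by
    rw [mul_assoc, bdds_L hS v g k x hx, mul_zero]
  have hQc : Cen Q := bdd_cen_lim hQ fun k =>
    bdd_cen_mul (bdds_cen hC hG hS v g k) (bdds_cen hC hG hS v g k)
  -- z commutes
  have hzz : ∀ f : B, z * θ f * (z * θ f) = z * (z * θ (f * f)) := fun f => by
    rw [map_mul, mul_assoc, ← mul_assoc (θ f) z (θ f), ← hz (θ f)]
    simp only [mul_assoc]
  set hk : ℕ → B := fun k => ∑ i ∈ Finset.range k, (v i : ℂ) • bddd δ t (g i) with hhk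
  have hsk : ∀ k, bdds θ δ z t v g k = z * θ (hk k) := fun k => by
    rw [bdds, hhk]
    simp only [map_sum, map_smul, Finset.mul_sum, mul_smul_comm]
  set X : A := z * (z * θ (h * h)) - Q with hX
  have hfk : Tendsto (fun k => h * h - hk k * hk k) atTop (𝓝 0) := by
    have := (hhs.mul hhs).const_sub (h * h)
    rwa [sub_self] at this
  have hXk : Tendsto (fun k => z * (z * θ (h * h - hk k * hk k))) atTop (𝓝 X) := by
    have h1 : (fun k => z * (z * θ (h * h - hk k * hk k))) =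
        fun k => z * (z * θ (h * h)) - bdds θ δ z t v g k * bdds θ δ z t v g k := by
      funext k
      rw [hsk, hzz, map_sub, mul_sub, mul_sub]
    rw [h1]
    exact hQ.const_sub _
  have hR : ∀ (u : A) (c : ℂ), (∀ n ∈ NN θ δ t, u * n = c • n) → u * X = c • X := by
    intro u c hu
    let R : A →L[ℂ] A :=
      { toFun := fun a => u * (z * a) - c • (z * a)
        map_add' := fun a b => by
          simp only [mul_add, smul_add]
          abel
        map_smul' := fun c' a => by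
          simp only [mul_smul_comm, RingHom.id_apply, smul_sub]
          rw [smul_comm c c']
        cont := ((continuous_const.mul (continuous_const.mul continuous_id))).sub
          (continuous_const.smul (continuous_const.mul continuous_id)) }
    have h1 : Continuous fun b => R (z * θ b) := by
      refine bdd_cont hS R fun n hn => ?_
      change u * (z * n) - c • (z * n) = 0
      rw [hz n, ← mul_assoc, hu n hn, smul_mul_assoc, sub_self]
    have h2 : Tendsto (fun k => R (z * θ (h * h - hk k * hk k))) atTop (𝓝 0) := by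
      have h5 := (h1.tendsto 0).comp hfk
      have e0 : R (z * θ 0) = 0 := by rw [map_zero, mul_zero, map_zero]
      rw [e0] at h5
      exact h5
    have h3 : Tendsto (fun k => R (z * θ (h * h - hk k * hk k))) atTop
        (𝓝 (u * X - c • X)) :=
      (hXk.const_mul u).sub (hXk.const_smul c)
    have := tendsto_nhds_unique h3 h2
    rwa [sub_eq_zero] at this
  have hXN : X ∈ NN θ δ t := by
    refine ⟨?_, fun g => hR _ _ fun n hn => hn.2 g⟩
    have := hR (θ 1) 1 fun n hn => by rw [hn.1, one_smul]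
    rwa [one_smul] at this
  have hzf : ∀ f f' : B, f * f' = f' * f → z * (z * θ f) * θ f' = θ f' * (z * (z * θ f)) := by
    intro f f' hff
    rw [← mul_assoc (θ f'), ← hz (θ f'), mul_assoc z, mul_assoc z (θ f') , ← mul_assoc (θ f') z,
      ← hz (θ f'), mul_assoc z, mul_assoc z, ← map_mul, ← map_mul, hff]
  have hXcomm : X * θ (pos δ t (bddp v) (bddg g)) = θ (pos δ t (bddp v) (bddg g)) * X := by
    rw [hX, sub_mul, mul_sub, hQc, hzf]
    rw [hpos]
    noncomm_ring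
  have hstar := star hC θ hG hS.norm_t (bddp v) hp0 (bddp_sum hvs).1 (bddp_sum hvs).2
    (bddg g) X hXN hXcomm
  have hTX : θ h * X = 0 := by
    rw [hpos, map_sub, sub_mul, hXN.1] at hstar
    simpa using hstar
  have hXX : X * X = 0 := by
    have h1 : z * (z * θ (h * h)) * X = 0 := by
      rw [map_mul, mul_assoc, mul_assoc, mul_assoc (θ h), hTX, mul_zero, mul_zero, mul_zero]
    have h2 : X * X = z * (z * θ (h * h)) * X - Q * X := by rw [← sub_mul]
    rw [h2, h1, hQL X hXN, sub_zero]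
  have hX0 : X = 0 := Red.red X hXX
  have hQe : z * (z * θ (h * h)) = Q := sub_eq_zero.mp hX0
  intro n hn
  apply Red.sq0
  rw [← mul_assoc, hzz, hQe]
  exact hQL n hn

/-- the sums with bounded coefficients. -/
noncomputable def bddh (δ : G →* B) (t : G → ℂ) (w : ℕ → ℝ) (g : ℕ → G) (ξ : ℕ → ℂ) : B :=
  ∑' i, (ξ i * w i) • bddd δ t (g i)

theorem bdd_d (hC : PropC A) {θ : B →ₙₐ[ℂ] A} {δ : G →* B} (hG : GA B G δ) {z : A}
    {t : G → ℂ} (hS : Sing θ δ z t) (ht1 : t 1 = 1) {K : ℝ} (hK0 : 0 ≤ K)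
    (hK : ∀ (f : B) (y : A), y ∈ bddL θ δ t → ‖z * θ f * y‖ ≤ K * ‖f‖ * ‖y‖)
    {w : ℕ → ℝ} {g : ℕ → G} (hw : ∀ i, 0 ≤ w i) (hws : Summable w)
    (hwR : ∀ i, w i * ‖z * θ (bddd δ t (g i))‖ ≤ i + 1)
    (hw4 : ∀ i, w i * ((i : ℝ) + 1) ^ 2 ≤ (1 / 4) ^ (i + 1)) (ξ : ℕ → ℂ) (C : ℝ)
    (hξ : ∀ i, ‖ξ i‖ ≤ C) :
    z * θ (bddh δ t w g ξ) ∈ bddL θ δ t := by
  -- real case
  have hreal : ∀ r : ℕ → ℝ, (∀ i, 0 ≤ r i) → (∀ i, r i ≤ 1) →
      z * θ (bddh δ t w g fun i => (r i : ℂ)) ∈ bddL θ δ t := by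
    intro r hr0 hr1
    have h1 := bdd_c hC hG hS ht1 hK0 hK (v := fun i => r i * w i) (g := g)
      (fun i => mul_nonneg (hr0 i) (hw i))
      (fun i => by
        refine le_trans ?_ (hwR i)
        gcongr
        exact mul_le_of_le_one_left (hw i) (hr1 i))
      (fun i => by
        refine le_trans ?_ (hw4 i)
        gcongr
        exact mul_le_of_le_one_left (hw i) (hr1 i))
    have h2 : bddh δ t w g (fun i => (r i : ℂ)) =
        ∑' i, (((r i * w i : ℝ)) : ℂ) • bddd δ t (g i) := by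
      rw [bddh]
      push_cast
      rfl
    rw [h2]
    exact h1
  have hsum : ∀ ζ : ℕ → ℂ, (∃ D : ℝ, ∀ i, ‖ζ i‖ ≤ D) →
      Summable fun i => (ζ i * w i) • bddd δ t (g i) := by
    rintro ζ ⟨D, hD⟩
    refine bdd_sumd hG hS.norm_t ?_ g
    refine Summable.of_nonneg_of_le (fun i => norm_nonneg _) (fun i => ?_) (hws.mul_left D)
    rw [norm_mul, Complex.norm_real, Real.norm_of_nonneg (hw i)]
    exact mul_le_mul_of_nonneg_right (hD i) (hw i)
  have hC0 : 0 ≤ C := (norm_nonneg _).trans (hξ 0)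
  have hC1 : 0 < C + 1 := by linarith
  set r1 : ℕ → ℝ := fun i => max ((ξ i).re / (C + 1)) 0 with hr1
  set r2 : ℕ → ℝ := fun i => max (-((ξ i).re / (C + 1))) 0 with hr2
  set r3 : ℕ → ℝ := fun i => max ((ξ i).im / (C + 1)) 0 with hr3
  set r4 : ℕ → ℝ := fun i => max (-((ξ i).im / (C + 1))) 0 with hr4
  have hre : ∀ i, |(ξ i).re / (C + 1)| ≤ 1 := fun i => by
    rw [abs_div, abs_of_pos hC1, div_le_one hC1]
    exact ((Complex.abs_re_le_norm _).trans (hξ i)).trans (by linarith)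
  have him : ∀ i, |(ξ i).im / (C + 1)| ≤ 1 := fun i => by
    rw [abs_div, abs_of_pos hC1, div_le_one hC1]
    exact ((Complex.abs_im_le_norm _).trans (hξ i)).trans (by linarith)
  have hr1' : ∀ i, 0 ≤ r1 i ∧ r1 i ≤ 1 := fun i =>
    ⟨le_max_right _ _, max_le (abs_le.mp (hre i)).2 zero_le_one⟩
  have hr2' : ∀ i, 0 ≤ r2 i ∧ r2 i ≤ 1 := fun i =>
    ⟨le_max_right _ _, max_le (by linarith [(abs_le.mp (hre i)).1]) zero_le_one⟩
  have hr3' : ∀ i, 0 ≤ r3 i ∧ r3 i ≤ 1 := fun i =>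
    ⟨le_max_right _ _, max_le (abs_le.mp (him i)).2 zero_le_one⟩
  have hr4' : ∀ i, 0 ≤ r4 i ∧ r4 i ≤ 1 := fun i =>
    ⟨le_max_right _ _, max_le (by linarith [(abs_le.mp (him i)).1]) zero_le_one⟩
  have hdec : ∀ i, ξ i = ((C + 1 : ℝ) : ℂ) *
      (((r1 i : ℂ) - (r2 i : ℂ)) + Complex.I * ((r3 i : ℂ) - (r4 i : ℂ))) := by
    intro i
    have hmx : ∀ a : ℝ, max a 0 - max (-a) 0 = a := fun a => by
      rcases le_total a 0 with h | h
      · rw [max_eq_right h, max_eq_left (by linarith)]; ring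
      · rw [max_eq_left h, max_eq_right (by linarith)]; ring
    have e1 : r1 i - r2 i = (ξ i).re / (C + 1) := hmx _
    have e2 : r3 i - r4 i = (ξ i).im / (C + 1) := hmx _
    rw [← Complex.ofReal_sub, ← Complex.ofReal_sub, e1, e2, mul_add, ← mul_assoc,
      mul_comm (((C + 1 : ℝ) : ℂ)) Complex.I, mul_assoc, ← Complex.ofReal_mul,
      ← Complex.ofReal_mul, mul_div_cancel₀ _ hC1.ne', mul_div_cancel₀ _ hC1.ne']
    rw [mul_comm Complex.I]
    exact (Complex.re_add_im _).symm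
  have hs : ∀ r : ℕ → ℝ, (∀ i, 0 ≤ r i ∧ r i ≤ 1) →
      HasSum (fun i => ((r i : ℂ) * w i) • bddd δ t (g i)) (bddh δ t w g fun i => (r i : ℂ)) :=
    fun r hr => (hsum _ ⟨1, fun i => by
      rw [Complex.norm_real, Real.norm_of_nonneg (hr i).1]; exact (hr i).2⟩).hasSum
  have hfin := (((hs r1 hr1').sub (hs r2 hr2')).add
    (((hs r3 hr3').sub (hs r4 hr4')).const_smul Complex.I)).const_smul (((C + 1 : ℝ)) : ℂ)
  have heq : bddh δ t w g ξ = (((C + 1 : ℝ)) : ℂ) •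
      ((bddh δ t w g fun i => (r1 i : ℂ)) - (bddh δ t w g fun i => (r2 i : ℂ)) +
      Complex.I • ((bddh δ t w g fun i => (r3 i : ℂ)) - bddh δ t w g fun i => (r4 i : ℂ))) := by
    rw [← hfin.tsum_eq, bddh]
    congr 1
    funext i
    rw [← sub_smul, ← sub_smul, smul_smul, ← add_smul, smul_smul]
    congr 1
    conv_lhs => rw [hdec i]
    ring
  rw [heq]
  simp only [map_smul, map_sub, map_add, mul_smul_comm, mul_sub, mul_add]
  refine Submodule.smul_mem _ _ (Submodule.add_mem _ (Submodule.sub_mem _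
    (hreal r1 (fun i => (hr1' i).1) fun i => (hr1' i).2)
    (hreal r2 (fun i => (hr2' i).1) fun i => (hr2' i).2)) (Submodule.smul_mem _ _
    (Submodule.sub_mem _ (hreal r3 (fun i => (hr3' i).1) fun i => (hr3' i).2)
    (hreal r4 (fun i => (hr4' i).1) fun i => (hr4' i).2))))


theorem bdd (hC : PropC A) (θ : B →ₙₐ[ℂ] A) {δ : G →* B} (hG : GA B G δ) {z : A} {t : G → ℂ}
    (hS : Sing θ δ z t) : ∃ M : ℝ, ∀ g, ‖z * θ (δ g)‖ ≤ M := by
  have hred : Red A := red_of_propC hC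
  by_cases hNN : NN θ δ t = ⊥
  · have h1 : Continuous (bddphi θ z) := by
      rw [continuous_iff_Sep, eq_bot_iff]
      rintro y ⟨x, hx, hxy⟩
      rw [← hNN]
      exact hS.sep x y hx hxy
    let T : B →L[ℂ] A := ⟨bddphi θ z, h1⟩
    refine ⟨‖T‖, fun g => ?_⟩
    calc ‖z * θ (δ g)‖ = ‖T (δ g)‖ := rfl
      _ ≤ ‖T‖ * ‖δ g‖ := T.le_opNorm _
      _ ≤ ‖T‖ * 1 := by
        gcongr
        exact hG.norm_le g
      _ = ‖T‖ := mul_one _
  obtain ⟨n, hn, hn0⟩ := Submodule.exists_mem_ne_zero_of_ne_bot hNN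
  have ht1 : t 1 = 1 := by
    have h1 := hn.2 1
    rw [map_one, hn.1] at h1
    have h2 : (t 1 - 1) • n = 0 := by rw [sub_smul, one_smul, ← h1, sub_self]
    rcases smul_eq_zero.mp h2 with h | h
    · exact sub_eq_zero.mp h
    · exact absurd h hn0
  obtain ⟨K, hK0, hK⟩ := bdd_b hred hS
  suffices h : ∃ M : ℝ, ∀ g, ‖z * θ (bddd δ t g)‖ ≤ M by
    obtain ⟨M, hM⟩ := h
    refine ⟨‖z * θ 1‖ + M, fun g => ?_⟩
    have hc : t g * (starRingEnd ℂ) (t g) = 1 := by
      rw [Complex.mul_conj, Complex.normSq_eq_norm_sq, hS.norm_t g]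
      simp
    have h1 : z * θ (δ g) = t g • (z * θ 1 - z * θ (bddd δ t g)) := by
      rw [← mul_sub, ← map_sub, bddd, sub_sub_cancel, map_smul, mul_smul_comm, smul_smul, hc,
        one_smul]
    rw [h1, norm_smul, hS.norm_t, one_mul]
    have := hM g
    exact (norm_sub_le _ _).trans (by gcongr)
  by_contra hcon
  push Not at hcon
  choose g hg using fun i : ℕ => hcon (((i : ℝ) + 1) ^ 3 * 4 ^ (i + 1))
  set R : ℕ → ℝ := fun i => ‖z * θ (bddd δ t (g i))‖ with hR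
  have hR0 : ∀ i, 0 < R i := fun i => lt_trans (by positivity) (hg i)
  set w : ℕ → ℝ := fun i => ((i : ℝ) + 1) / R i with hw
  have hw0 : ∀ i, 0 ≤ w i := fun i => div_nonneg (by positivity) (hR0 i).le
  have hwR : ∀ i, w i * R i = i + 1 := fun i => div_mul_cancel₀ _ (hR0 i).ne'
  have hw4 : ∀ i, w i * ((i : ℝ) + 1) ^ 2 ≤ (1 / 4) ^ (i + 1) := fun i => by
    rw [hw]
    simp only
    rw [div_mul_eq_mul_div, div_le_iff₀ (hR0 i)]
    have h1 : ((i : ℝ) + 1) ^ 3 * 4 ^ (i + 1) ≤ R i := (hg i).le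
    have h2 : ((1 : ℝ) / 4) ^ (i + 1) * 4 ^ (i + 1) = 1 := by
      rw [← mul_pow]
      norm_num
    calc ((i : ℝ) + 1) * ((i : ℝ) + 1) ^ 2 =
        (((1 : ℝ) / 4) ^ (i + 1) * 4 ^ (i + 1)) * ((i : ℝ) + 1) ^ 3 := by
          rw [h2]
          ring
      _ = (1 / 4) ^ (i + 1) * (((i : ℝ) + 1) ^ 3 * 4 ^ (i + 1)) := by ring
      _ ≤ (1 / 4) ^ (i + 1) * R i := by gcongr
  have hws : Summable w := by
    refine Summable.of_nonneg_of_le hw0 (fun i => ?_)
      ((summable_geometric_of_lt_one (r := (1 / 4 : ℝ)) (by norm_num)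
        (by norm_num)).mul_left (1 / 4))
    have h1 := hw4 i
    have h2 := hw0 i
    have h3 : (0 : ℝ) ≤ i := Nat.cast_nonneg i
    have h4 : w i ≤ w i * ((i : ℝ) + 1) ^ 2 := le_mul_of_one_le_right h2 (by nlinarith)
    rw [pow_succ (1 / 4 : ℝ)] at h1
    linarith
  have hsum : ∀ ξ : BoundedContinuousFunction ℕ ℂ,
      Summable fun i => ‖ξ i * (w i : ℂ)‖ := by
    intro ξ
    refine Summable.of_nonneg_of_le (fun i => norm_nonneg _) (fun i => ?_) (hws.mul_left ‖ξ‖)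
    rw [norm_mul, Complex.norm_real, Real.norm_of_nonneg (hw0 i)]
    exact mul_le_mul_of_nonneg_right (ξ.norm_coe_le_norm i) (hw0 i)
  let H0 : BoundedContinuousFunction ℕ ℂ →ₗ[ℂ] B :=
    { toFun := fun ξ => bddh δ t w g ξ
      map_add' := fun ξ η => by
        have h1 := (bdd_sumd hG hS.norm_t (hsum ξ) g).hasSum.add
          (bdd_sumd hG hS.norm_t (hsum η) g).hasSum
        rw [bddh, bddh, bddh, ← h1.tsum_eq]
        congr 1
        funext i
        rw [BoundedContinuousFunction.coe_add, Pi.add_apply, add_mul, add_smul]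
      map_smul' := fun c ξ => by
        have h1 := (bdd_sumd hG hS.norm_t (hsum ξ) g).hasSum.const_smul c
        rw [bddh, bddh, RingHom.id_apply, ← h1.tsum_eq]
        congr 1
        funext i
        change ((c * ξ i) * (w i : ℂ)) • bddd δ t (g i) = c • ((ξ i * (w i : ℂ)) • bddd δ t (g i))
        rw [mul_assoc, smul_smul] }
  let H : BoundedContinuousFunction ℕ ℂ →L[ℂ] B := H0.mkContinuous (2 * ∑' i, w i) (by
    intro ξ
    change ‖bddh δ t w g ξ‖ ≤ _
    rw [bddh]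
    have h1 : HasSum (fun i => w i * (2 * ‖ξ‖)) ((∑' i, w i) * (2 * ‖ξ‖)) :=
      hws.hasSum.mul_right _
    have h2 : (2 * ∑' i, w i) * ‖ξ‖ = (∑' i, w i) * (2 * ‖ξ‖) := by ring
    rw [h2]
    refine tsum_of_norm_bounded h1 fun i => ?_
    rw [norm_smul, norm_mul, Complex.norm_real, Real.norm_of_nonneg (hw0 i)]
    have e1 := ξ.norm_coe_le_norm i
    have e2 := bddd_norm hG hS.norm_t (g i)
    have e3 := hw0 i
    calc ‖ξ i‖ * w i * ‖bddd δ t (g i)‖ ≤ ‖ξ‖ * w i * 2 := by gcongr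
      _ = _ := by ring)
  have hΨL : ∀ ξ, (bddphi θ z ∘ₗ H.toLinearMap) ξ ∈ bddL θ δ t := fun ξ =>
    bdd_d hC hG hS ht1 hK0 hK hw0 hws (fun i => (hwR i).le) hw4 ξ ‖ξ‖
      (fun i => ξ.norm_coe_le_norm i)
  have hΨ : Continuous (bddphi θ z ∘ₗ H.toLinearMap) := by
    rw [continuous_iff_Sep, eq_bot_iff]
    rintro y ⟨x, hx, hxy⟩
    have h1 : y ∈ bddL θ δ t := bdd_L_lim hxy fun n => hΨL _
    have h2 : Tendsto (fun n => H (x n)) atTop (𝓝 0) := by
      have := (H.continuous.tendsto 0).comp hx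
      rwa [map_zero] at this
    have h3 : y ∈ NN θ δ t := hS.sep _ y h2 hxy
    exact Red.red y (h1 y h3)
  let T : BoundedContinuousFunction ℕ ℂ →L[ℂ] A := ⟨bddphi θ z ∘ₗ H.toLinearMap, hΨ⟩
  obtain ⟨i, hi⟩ := exists_nat_gt ‖T‖
  let e : BoundedContinuousFunction ℕ ℂ :=
    BoundedContinuousFunction.ofNormedAddCommGroupDiscrete
      (fun n => if n = i then (1 : ℂ) else 0) 1 (fun n => by split_ifs <;> simp)
  have he : ‖e‖ ≤ 1 := by
    rw [BoundedContinuousFunction.norm_le zero_le_one]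
    intro n
    change ‖if n = i then (1 : ℂ) else 0‖ ≤ 1
    split_ifs <;> simp
  have hTe : T e = (w i : ℂ) • (z * θ (bddd δ t (g i))) := by
    change z * θ (bddh δ t w g e) = _
    rw [bddh, tsum_eq_single i]
    · change z * θ (((if i = i then (1 : ℂ) else 0) * (w i : ℂ)) • bddd δ t (g i)) = _
      rw [if_pos rfl, one_mul, map_smul, mul_smul_comm]
    · intro n hn
      change ((if n = i then (1 : ℂ) else 0) * (w n : ℂ)) • bddd δ t (g n) = 0
      rw [if_neg hn, zero_mul, zero_smul]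
  have h1 : ‖T e‖ ≤ ‖T‖ * ‖e‖ := T.le_opNorm e
  rw [hTe, norm_smul, Complex.norm_real, Real.norm_of_nonneg (hw0 i)] at h1
  have h2 : w i * ‖z * θ (bddd δ t (g i))‖ = i + 1 := hwR i
  rw [h2] at h1
  have h3 : ‖T‖ * ‖e‖ ≤ ‖T‖ * 1 := by gcongr
  linarith

end
end ACG
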