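import Pool.Agent.ACG.Coef

set_option autoImplicit false

/-!
KER: kernels in the Wiener algebra.  `α` = Fourier coefficients of a bump `f`, `β` = Fourier
coefficients of a bump `F` with `F = 1` on the support of `f`, both at a small scale.
-/

namespace ACG

open MeasureTheory SchwartzMap FourierTransform
open scoped ContDiff

/-- Variation of a Schwartz function along an arithmetic progression. -/
theorem ker_var (g : 𝓢(ℝ, ℂ)) (a : ℝ) (ha : 0 < a) :
    Summable (fun n : ℤ => ‖g (a * n) - g (a * ((n - 1 : ℤ) : ℝ))‖) ∧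
    ∑' n : ℤ, ‖g (a * n) - g (a * ((n - 1 : ℤ) : ℝ))‖ ≤ ∫ x, ‖deriv g x‖ := by
  have hint : Integrable (fun x : ℝ => ‖deriv g x‖) := by
    have := (SchwartzMap.derivCLM ℂ ℂ g).integrable (μ := volume)
    refine this.norm.congr ?_
    refine Filter.Eventually.of_forall (fun x => ?_)
    simp [SchwartzMap.derivCLM_apply]
  set h : ℝ → ℝ := fun x => a * ‖deriv g (a * x)‖ with hh
  have hhi : Integrable h := (hint.comp_mul_left' ha.ne').const_mul a
  have hhI : ∫ x, h x = ∫ x, ‖deriv g x‖ := by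
    rw [hh, integral_const_mul, Measure.integral_comp_mul_left (fun x => ‖deriv g x‖) a,
      abs_of_pos (inv_pos.2 ha), smul_eq_mul, ← mul_assoc, mul_inv_cancel₀ ha.ne', one_mul]
  have hsum := hhi.hasSum_intervalIntegral (-1)
  have hcd : Continuous (fun x : ℝ => deriv g x) := by
    have := (SchwartzMap.derivCLM ℂ ℂ g).continuous
    refine this.congr (fun x => ?_)
    simp [SchwartzMap.derivCLM_apply]
  have hle : ∀ n : ℤ, ‖g (a * n) - g (a * ((n - 1 : ℤ) : ℝ))‖ ≤
      ∫ x in (-1 + (n : ℝ))..(-1 + (n : ℝ) + 1), h x := by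
    intro n
    have hd : ∀ x : ℝ, HasDerivAt (fun x : ℝ => g (a * x)) (a • deriv g (a * x)) x := by
      intro x
      have h1 : HasDerivAt (fun x : ℝ => a * x) a x := by
        simpa using (hasDerivAt_id x).const_mul a
      have h2 : HasDerivAt g (deriv g (a * x)) (a * x) := g.differentiableAt.hasDerivAt
      exact h2.scomp x h1
    have hc : Continuous (fun x : ℝ => a • deriv g (a * x)) :=
      (hcd.comp (continuous_const.mul continuous_id)).const_smul a
    have e := intervalIntegral.integral_eq_sub_of_hasDerivAt (a := -1 + (n : ℝ))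
      (b := -1 + (n : ℝ) + 1) (fun x _ => hd x) (hc.intervalIntegrable _ _)
    have e1 : (-1 + (n : ℝ) + 1) = n := by ring
    have e2 : (-1 + (n : ℝ)) = ((n - 1 : ℤ) : ℝ) := by push_cast; ring
    have e3 : g (a * n) - g (a * ((n - 1 : ℤ) : ℝ)) =
        ∫ x in (-1 + (n : ℝ))..(-1 + (n : ℝ) + 1), a • deriv g (a * x) := by
      rw [e, e1, e2]
    rw [e3]
    refine (intervalIntegral.norm_integral_le_integral_norm (by linarith)).trans (le_of_eq ?_)
    refine intervalIntegral.integral_congr (fun x _ => ?_)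
    simp [hh, abs_of_pos ha]
  have hS : Summable (fun n : ℤ => ‖g (a * n) - g (a * ((n - 1 : ℤ) : ℝ))‖) :=
    Summable.of_nonneg_of_le (fun n => norm_nonneg _) hle hsum.summable
  refine ⟨hS, ?_⟩
  rw [← hhI, ← hsum.tsum_eq]
  exact hS.tsum_le_tsum hle hsum.summable

/-- Bumps of all scales and their Fourier coefficients. -/
theorem ker_bump (r : ℝ) (hr : 0 < r) : ∃ g : 𝓢(ℝ, ℂ), g 0 ≠ 0 ∧ ∀ a : ℝ, 0 < a →
    ∃ p : ℝ → ℂ, (∀ x, |x| ≤ r * a → p x = 1) ∧ (∀ x, 2 * r * a ≤ |x| → p x = 0) ∧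
      Summable (fun n : ℤ => ‖(a : ℂ) * g (a * n)‖) ∧
      ∀ x : ℝ, ∑' n : ℤ, ((a : ℂ) * g (a * n)) * fourier n (x : UnitAddCircle) =
        ∑' n : ℤ, p (x + n) := by
  let b : ContDiffBump (0 : ℝ) := ⟨r, 2 * r, hr, by linarith⟩
  let q : ℝ → ℂ := fun x => ((b x : ℝ) : ℂ)
  have hq1 : ContDiff ℝ ∞ q := Complex.ofRealCLM.contDiff.comp b.contDiff
  have hq2 : HasCompactSupport q := b.hasCompactSupport.comp_left (g := ((↑) : ℝ → ℂ)) rfl
  let Q : 𝓢(ℝ, ℂ) := hq2.toSchwartzMap hq1
  have hQ : ∀ x, Q x = q x := fun x => rfl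
  refine ⟨𝓕 Q, ?_, fun a ha => ⟨fun x => q (a⁻¹ * x), ?_, ?_, ?_⟩⟩
  · rw [SchwartzMap.fourier_coe, Real.fourier_eq]
    have h1 : ∫ v : ℝ, Real.fourierChar (-(inner ℝ v (0:ℝ))) • Q v = ((∫ v, b v : ℝ) : ℂ) := by
      rw [← integral_complex_ofReal]
      refine integral_congr_ae (Filter.Eventually.of_forall (fun v => ?_))
      simp [hQ, q]
    rw [h1]
    have := b.integral_pos (μ := volume)
    exact_mod_cast this.ne'
  · intro x hx
    have : b (a⁻¹ * x) = 1 := by
      apply b.one_of_mem_closedBall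
      rw [Metric.mem_closedBall, dist_zero_right, Real.norm_eq_abs, abs_mul,
        abs_of_pos (inv_pos.2 ha), inv_mul_le_iff₀ ha]
      linarith
    simp [q, this]
  · intro x hx
    have : b (a⁻¹ * x) = 0 := by
      apply b.zero_of_le_dist
      rw [dist_zero_right, Real.norm_eq_abs, abs_mul,
        abs_of_pos (inv_pos.2 ha), le_inv_mul_iff₀ ha]
      change a * (2 * r) ≤ |x|
      linarith
    simp [q, this]
  · let e : ℝ ≃L[ℝ] ℝ := ContinuousLinearEquiv.unitsEquivAut ℝ (Units.mk0 a⁻¹ (inv_ne_zero ha.ne'))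
    have he : ∀ x : ℝ, e x = a⁻¹ * x := by
      intro x
      simp [e, mul_comm]
    let Qa : 𝓢(ℝ, ℂ) := SchwartzMap.compCLMOfContinuousLinearEquiv ℂ e Q
    have hQa : ∀ x, Qa x = q (a⁻¹ * x) := by
      intro x
      change Q (e x) = _
      rw [hQ, he]
    have hF : ∀ x : ℝ, (𝓕 Qa) x = (a : ℂ) * (𝓕 Q) (a * x) := by
      intro x
      rw [SchwartzMap.fourier_coe, SchwartzMap.fourier_coe, Real.fourier_eq', Real.fourier_eq']
      have h1 := Measure.integral_comp_mul_left
        (fun v : ℝ => Complex.exp (↑(-2 * Real.pi * inner ℝ v (a * x)) * Complex.I) • Q v) a⁻¹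
      have h2 : (fun v : ℝ => Complex.exp (↑(-2 * Real.pi * inner ℝ v x) * Complex.I) • Qa v) =
          fun v : ℝ => Complex.exp (↑(-2 * Real.pi * inner ℝ (a⁻¹ * v) (a * x)) * Complex.I) •
            Q (a⁻¹ * v) := by
        funext v
        rw [hQa, hQ]
        congr 4
        have hin : ∀ u w : ℝ, inner ℝ u w = w * u := by
          intro u w
          simp [inner]
        rw [hin, hin]
        field_simp
      rw [h2, h1, inv_inv, abs_of_pos ha]
      rw [Complex.real_smul]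
    constructor
    · have h1 : Summable (fun n : ℤ => ‖(𝓕 Qa) (n : ℝ)‖) := by
        have hO := ((𝓕 Qa).isBigO_cocompact_rpow (-2)).comp_tendsto Int.tendsto_coe_cofinite
        exact (summable_of_isBigO (Real.summable_abs_int_rpow one_lt_two) hO.norm_left)
      refine h1.congr (fun n => ?_)
      rw [hF]
    · intro x
      have h1 := SchwartzMap.tsum_eq_tsum_fourier Qa x
      simp only [hQa, hF] at h1
      exact h1.symm

/-- The periodisation of a function supported near `0` has one term. -/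
theorem ker_per (h : ℝ → ℂ) (hh : ∀ x, 1 / 2 ≤ |x| → h x = 0) (x : ℝ) :
    ∑' k : ℤ, h (x + k) = h (x - round x) := by
  rw [tsum_eq_single (-round x)]
  · congr 1
    push_cast
    ring
  · intro k hk
    apply hh
    have h1 : (1 : ℝ) ≤ |((k + round x : ℤ) : ℝ)| := by
      have h2 : k + round x ≠ 0 := by
        intro h3
        exact hk (by omega)
      exact_mod_cast Int.one_le_abs h2
    have h3 : |x - round x| ≤ 1 / 2 := abs_sub_round x
    have h4 : |((k + round x : ℤ) : ℝ)| ≤ |x + k| + |x - round x| := by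
      have : ((k + round x : ℤ) : ℝ) = (x + k) - (x - round x) := by push_cast; ring
      rw [this]
      exact abs_sub _ _
    linarith

/-- The product formula for absolutely convergent Fourier series. -/
theorem ker_conv (α β : ℤ → ℂ) (hα : Summable (fun n => ‖α n‖)) (hβ : Summable (fun n => ‖β n‖))
    (h : ∀ x : ℝ, (∑' n : ℤ, α n * fourier n (x : UnitAddCircle)) *
      (∑' n : ℤ, β n * fourier n (x : UnitAddCircle)) =
      ∑' n : ℤ, α n * fourier n (x : UnitAddCircle)) (N : ℤ) :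
    ∑' k, α k * β (N - k) = α N := by
  -- the double sum
  have hprod : Summable (fun z : ℤ × ℤ => ‖α z.1 * β z.2‖) := by
    refine (hα.mul_norm hβ).congr (fun z => ?_)
    simp
  let e : ℤ × ℤ ≃ ℤ × ℤ :=
    { toFun := fun z => (z.2, z.1 - z.2)
      invFun := fun z => (z.1 + z.2, z.1)
      left_inv := fun z => by ext <;> simp
      right_inv := fun z => by ext <;> simp }
  have hprod' : Summable (fun z : ℤ × ℤ => ‖α z.2 * β (z.1 - z.2)‖) :=
    (e.summable_iff (f := fun z : ℤ × ℤ => ‖α z.1 * β z.2‖)).2 hprod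
  set γ : ℤ → ℂ := fun n => ∑' k, α k * β (n - k) with hγ
  have hγn : Summable (fun n => ‖γ n‖) := by
    have h1 := hprod'.prod
    refine Summable.of_nonneg_of_le (fun n => norm_nonneg _) (fun n => ?_) h1
    exact norm_tsum_le_tsum_norm (hprod'.prod_factor n)
  set X : ℤ → ℂ := fun n => γ (n + N) - α (n + N) with hX
  have hXs : Summable (fun n => ‖X n‖) := by
    have h1 : Summable (fun n => ‖γ (n + N)‖) :=
      (Equiv.addRight N).summable_iff.2 hγn
    have h2 : Summable (fun n => ‖α (n + N)‖) :=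
      (Equiv.addRight N).summable_iff.2 hα
    exact Summable.of_nonneg_of_le (fun n => norm_nonneg _) (fun n => norm_sub_le _ _) (h1.add h2)
  have key : X 0 = 0 := by
    apply coef_zero X hXs
    intro y hy
    obtain ⟨x, hx⟩ : ∃ x : ℝ, ∀ n : ℤ, fourier n (x : UnitAddCircle) = y ^ n := by
      refine ⟨Complex.arg y / (2 * Real.pi), fun n => ?_⟩
      rw [fourier_coe_apply]
      have h1 : y = Complex.exp (Complex.arg y * Complex.I) := by
        have := Complex.norm_mul_exp_arg_mul_I y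
        rw [hy] at this
        simpa using this.symm
      conv_rhs => rw [h1]
      rw [← Complex.exp_int_mul]
      congr 1
      push_cast
      field_simp
    have hy0 : y ≠ 0 := by
      intro h0
      rw [h0] at hy
      simp at hy
    have hyn : ∀ n : ℤ, ‖y ^ n‖ = 1 := by
      intro n
      rw [norm_zpow, hy, one_zpow]
    have hx' := h x
    simp only [hx] at hx'
    have hsα : Summable (fun n => ‖α n * y ^ n‖) := by
      refine hα.congr (fun n => ?_)
      rw [norm_mul, hyn, mul_one]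
    have hsβ : Summable (fun n => ‖β n * y ^ n‖) := by
      refine hβ.congr (fun n => ?_)
      rw [norm_mul, hyn, mul_one]
    have hsγ : Summable (fun n => ‖γ n * y ^ n‖) := by
      refine hγn.congr (fun n => ?_)
      rw [norm_mul, hyn, mul_one]
    have h1 : (∑' n, α n * y ^ n) * (∑' n, β n * y ^ n) = ∑' n, γ n * y ^ n := by
      rw [tsum_mul_tsum_of_summable_norm hsα hsβ]
      rw [← e.tsum_eq (fun z : ℤ × ℤ => (α z.1 * y ^ z.1) * (β z.2 * y ^ z.2))]
      have h2 : ∀ z : ℤ × ℤ, (α (e z).1 * y ^ (e z).1) * (β (e z).2 * y ^ (e z).2) =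
          (α z.2 * β (z.1 - z.2)) * y ^ z.1 := by
        intro z
        change (α z.2 * y ^ z.2) * (β (z.1 - z.2) * y ^ (z.1 - z.2)) = _
        have : y ^ z.1 = y ^ z.2 * y ^ (z.1 - z.2) := by
          rw [← zpow_add₀ hy0]; congr 1; ring
        rw [this]; ring
      simp only [h2]
      have h3 : Summable (fun z : ℤ × ℤ => (α z.2 * β (z.1 - z.2)) * y ^ z.1) := by
        apply Summable.of_norm
        refine hprod'.congr (fun z => ?_)
        rw [norm_mul _ (y ^ z.1), hyn, mul_one]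
      rw [h3.tsum_prod]
      refine tsum_congr (fun n => ?_)
      change (∑' c, (α c * β (n - c)) * y ^ n) = _
      rw [tsum_mul_right]
    rw [h1] at hx'
    have h4 : ∀ n : ℤ, (y ^ n) • X n = (y ^ (-N)) * (γ (n + N) * y ^ (n + N) -
        α (n + N) * y ^ (n + N)) := by
      intro n
      simp only [hX, smul_eq_mul]
      have : y ^ (n + N) = y ^ n * y ^ N := zpow_add₀ hy0 _ _
      rw [this, zpow_neg]
      have hN : y ^ N ≠ 0 := zpow_ne_zero _ hy0
      field_simp
    simp only [h4]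
    rw [tsum_mul_left]
    have h5 : ∑' n : ℤ, (γ (n + N) * y ^ (n + N) - α (n + N) * y ^ (n + N)) =
        ∑' n : ℤ, (γ n * y ^ n - α n * y ^ n) :=
      (Equiv.addRight N).tsum_eq (fun n => γ n * y ^ n - α n * y ^ n)
    rw [h5, hsγ.of_norm.tsum_sub hsα.of_norm, hx', sub_self, mul_zero]
  have : γ (0 + N) - α (0 + N) = 0 := key
  rw [zero_add] at this
  exact sub_eq_zero.1 this

theorem kernels (ε : ℝ) (hε : 0 < ε) : ∃ α β : ℤ → ℂ, Summable (fun n => ‖α n‖) ∧
    Summable (fun n => ‖β n‖) ∧ (∀ n, ∑' k, α k * β (n - k) = α n) ∧ α 0 ≠ 0 ∧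
    (∑' n, ‖β n - β (n - 1)‖) ≤ ε ∧
    (∑' n, ‖α n * β (-n) - α (n - 1) * β (-(n - 1))‖) ≤ ε * ‖α 0‖ := by
  obtain ⟨g, hg0, hg⟩ := ker_bump 1 one_pos
  obtain ⟨G, -, hG⟩ := ker_bump 2 two_pos
  obtain ⟨Cg, hCg, hbg⟩ := g.decay 0 0
  obtain ⟨CG, hCG, hbG⟩ := G.decay 0 0
  simp only [pow_zero, one_mul, norm_iteratedFDeriv_zero] at hbg hbG
  set Vg : ℝ := ∫ x, ‖deriv g x‖ with hVg
  set VG : ℝ := ∫ x, ‖deriv G x‖ with hVG
  have hVg0 : 0 ≤ Vg := integral_nonneg (fun _ => norm_nonneg _)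
  have hVG0 : 0 ≤ VG := integral_nonneg (fun _ => norm_nonneg _)
  have hg0' : 0 < ‖g 0‖ := norm_pos_iff.2 hg0
  -- the scale
  obtain ⟨a, ha, ha8, haV, haC⟩ : ∃ a : ℝ, 0 < a ∧ a ≤ 1 / 8 ∧ a * VG ≤ ε ∧
      a * (Cg * VG + CG * Vg) ≤ ε * ‖g 0‖ := by
    refine ⟨min (1 / 8) (min (ε / (VG + 1)) (ε * ‖g 0‖ / (Cg * VG + CG * Vg + 1))), ?_, ?_, ?_, ?_⟩
    · positivity
    · exact min_le_left _ _
    · calc _ ≤ (ε / (VG + 1)) * VG := by
            apply mul_le_mul_of_nonneg_right _ hVG0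
            exact (min_le_right _ _).trans (min_le_left _ _)
        _ = ε * (VG / (VG + 1)) := by ring
        _ ≤ ε * 1 := by
            apply mul_le_mul_of_nonneg_left _ hε.le
            rw [div_le_one (by positivity)]; linarith
        _ = ε := mul_one _
    · calc _ ≤ (ε * ‖g 0‖ / (Cg * VG + CG * Vg + 1)) * (Cg * VG + CG * Vg) := by
            apply mul_le_mul_of_nonneg_right _ (by positivity)
            exact (min_le_right _ _).trans (min_le_right _ _)
        _ = (ε * ‖g 0‖) * ((Cg * VG + CG * Vg) / (Cg * VG + CG * Vg + 1)) := by ring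
        _ ≤ (ε * ‖g 0‖) * 1 := by
            apply mul_le_mul_of_nonneg_left _ (by positivity)
            rw [div_le_one (by positivity)]; linarith
        _ = _ := mul_one _
  obtain ⟨p, hp1, hp0, hps, hpp⟩ := hg a ha
  obtain ⟨P, hP1, hP0, hPs, hPP⟩ := hG a ha
  obtain ⟨hvg, hvg'⟩ := ker_var g a ha
  obtain ⟨hvG, hvG'⟩ := ker_var G a ha
  set α : ℤ → ℂ := fun n => (a : ℂ) * g (a * n) with hα
  set β : ℤ → ℂ := fun n => (a : ℂ) * G (a * n) with hβ
  have hna : ‖(a : ℂ)‖ = a := by rw [Complex.norm_real, Real.norm_of_nonneg ha.le]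
  have hdα : ∀ n : ℤ, ‖α n - α (n - 1)‖ = a * ‖g (a * n) - g (a * ((n - 1 : ℤ) : ℝ))‖ := by
    intro n
    simp only [hα]
    rw [← mul_sub, norm_mul, hna]
  have hdβ : ∀ n : ℤ, ‖β n - β (n - 1)‖ = a * ‖G (a * n) - G (a * ((n - 1 : ℤ) : ℝ))‖ := by
    intro n
    simp only [hβ]
    rw [← mul_sub, norm_mul, hna]
  have hsα : Summable (fun n => ‖α n - α (n - 1)‖) := by
    simp only [hdα]; exact hvg.mul_left a
  have hsβ : Summable (fun n => ‖β n - β (n - 1)‖) := by
    simp only [hdβ]; exact hvG.mul_left a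
  have hVα : ∑' n, ‖α n - α (n - 1)‖ ≤ a * Vg := by
    simp only [hdα]
    rw [tsum_mul_left]
    exact mul_le_mul_of_nonneg_left hvg' ha.le
  have hVβ : ∑' n, ‖β n - β (n - 1)‖ ≤ a * VG := by
    simp only [hdβ]
    rw [tsum_mul_left]
    exact mul_le_mul_of_nonneg_left hvG' ha.le
  have hnα : ∀ n, ‖α n‖ ≤ a * Cg := by
    intro n
    simp only [hα]
    rw [norm_mul, hna]
    exact mul_le_mul_of_nonneg_left (hbg _) ha.le
  have hnβ : ∀ n, ‖β n‖ ≤ a * CG := by
    intro n
    simp only [hβ]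
    rw [norm_mul, hna]
    exact mul_le_mul_of_nonneg_left (hbG _) ha.le
  refine ⟨α, β, hps, hPs, ?_, ?_, ?_, ?_⟩
  · refine ker_conv α β hps hPs (fun x => ?_)
    rw [hpp x, hPP x, ker_per p (fun y hy => hp0 y (by linarith)) x,
      ker_per P (fun y hy => hP0 y (by linarith)) x]
    by_cases hx : 2 * 1 * a ≤ |x - round x|
    · rw [hp0 _ hx, zero_mul]
    · rw [hP1 _ (by linarith), mul_one]
  · simp only [hα]
    simpa using ⟨ha.ne', hg0⟩
  · exact hVβ.trans haV
  · -- reflected variation of `β`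
    let σ : ℤ ≃ ℤ := (Equiv.neg ℤ).trans (Equiv.addRight 1)
    have hσ : ∀ n, σ n = -n + 1 := fun n => rfl
    have hrβ : ∀ n, ‖β (-n) - β (-(n - 1))‖ = ‖β (σ n) - β (σ n - 1)‖ := by
      intro n
      rw [norm_sub_rev, hσ]
      congr 3 <;> ring
    have hsr : Summable (fun n => ‖β (-n) - β (-(n - 1))‖) := by
      simp only [hrβ]
      exact σ.summable_iff (f := fun n => ‖β n - β (n - 1)‖).2 hsβ
    have hVr : ∑' n, ‖β (-n) - β (-(n - 1))‖ ≤ a * VG := by
      simp only [hrβ]
      rw [σ.tsum_eq (fun n => ‖β n - β (n - 1)‖)]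
      exact hVβ
    have hle : ∀ n, ‖α n * β (-n) - α (n - 1) * β (-(n - 1))‖ ≤
        (a * Cg) * ‖β (-n) - β (-(n - 1))‖ + (a * CG) * ‖α n - α (n - 1)‖ := by
      intro n
      have e : α n * β (-n) - α (n - 1) * β (-(n - 1)) =
          α n * (β (-n) - β (-(n - 1))) + β (-(n - 1)) * (α n - α (n - 1)) := by ring
      rw [e]
      refine (norm_add_le _ _).trans ?_
      rw [norm_mul (α n) _, norm_mul (β (-(n - 1))) _]
      exact add_le_add (mul_le_mul_of_nonneg_right (hnα _) (norm_nonneg _))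
        (mul_le_mul_of_nonneg_right (hnβ _) (norm_nonneg _))
    have hs1 := (hsr.mul_left (a * Cg)).add (hsα.mul_left (a * CG))
    have hs2 : Summable (fun n => ‖α n * β (-n) - α (n - 1) * β (-(n - 1))‖) :=
      Summable.of_nonneg_of_le (fun n => norm_nonneg _) hle hs1
    calc _ ≤ ∑' n, ((a * Cg) * ‖β (-n) - β (-(n - 1))‖ + (a * CG) * ‖α n - α (n - 1)‖) :=
          hs2.tsum_le_tsum hle hs1
      _ = (a * Cg) * ∑' n, ‖β (-n) - β (-(n - 1))‖ + (a * CG) * ∑' n, ‖α n - α (n - 1)‖ := by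
          rw [(hsr.mul_left (a * Cg)).tsum_add (hsα.mul_left (a * CG)), tsum_mul_left,
            tsum_mul_left]
      _ ≤ (a * Cg) * (a * VG) + (a * CG) * (a * Vg) := by
          gcongr
      _ = a * (a * (Cg * VG + CG * Vg)) := by ring
      _ ≤ a * (ε * ‖g 0‖) := mul_le_mul_of_nonneg_left haC ha.le
      _ = ε * ‖α 0‖ := by
          simp only [hα]
          rw [norm_mul, hna]
          simp
          ring

end ACG
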