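import Pool.Agent.ACG.RedC
import Pool.Agent.ACG.Ker

set_option autoImplicit false

/-!
CENT: in a reduced Banach algebra every doubly power bounded element is central.
-/

namespace ACG

section conv
variable {A : Type} [NonUnitalNormedRing A] [NormedSpace ℂ A]
    [IsScalarTower ℂ A A] [SMulCommClass ℂ A A] [CompleteSpace A]

/-- the change of variables `(s, m) ↦ (m, s - m)` -/
def Cent_e : ℤ × ℤ ≃ ℤ × ℤ where
  toFun p := (p.2, p.1 - p.2)
  invFun p := (p.1 + p.2, p.1)
  left_inv p := by ext <;> simp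
  right_inv p := by ext <;> simp

omit [NormedSpace ℂ A] [IsScalarTower ℂ A A] [SMulCommClass ℂ A A] [CompleteSpace A] in
theorem Cent_norm (f g : ℤ → A) (hf : Summable fun n => ‖f n‖) (hg : Summable fun n => ‖g n‖) :
    Summable fun p : ℤ × ℤ => ‖f p.1 * g p.2‖ :=
  .of_nonneg_of_le (fun _ => norm_nonneg _) (fun p => norm_mul_le (f p.1) (g p.2))
    (hf.mul_of_nonneg hg (fun x => norm_nonneg <| f x) fun x => norm_nonneg <| g x)

omit [NormedSpace ℂ A] [IsScalarTower ℂ A A] [SMulCommClass ℂ A A] [CompleteSpace A] in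
theorem Cent_norm_e (f g : ℤ → A) (hf : Summable fun n => ‖f n‖)
    (hg : Summable fun n => ‖g n‖) :
    Summable fun p : ℤ × ℤ => ‖f p.2 * g (p.1 - p.2)‖ :=
  (Equiv.summable_iff Cent_e).2 (Cent_norm f g hf hg)

omit [NormedSpace ℂ A] [IsScalarTower ℂ A A] [SMulCommClass ℂ A A] [CompleteSpace A] in
theorem Cent_fiber (f g : ℤ → A) (hf : Summable fun n => ‖f n‖)
    (hg : Summable fun n => ‖g n‖) (s : ℤ) : Summable fun m => ‖f m * g (s - m)‖ :=
  (Cent_norm_e f g hf hg).prod_factor s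

omit [NormedSpace ℂ A] [IsScalarTower ℂ A A] [SMulCommClass ℂ A A] [CompleteSpace A] in
theorem Cent_sum (f g : ℤ → A) (hf : Summable fun n => ‖f n‖)
    (hg : Summable fun n => ‖g n‖) : Summable fun s => ‖∑' m, f m * g (s - m)‖ := by
  refine .of_nonneg_of_le (fun _ => norm_nonneg _) (fun s => ?_) (Cent_norm_e f g hf hg).prod
  exact norm_tsum_le_tsum_norm (Cent_fiber f g hf hg s)

theorem Cent_conv (f g : ℤ → A) (hf : Summable fun n => ‖f n‖)
    (hg : Summable fun n => ‖g n‖) (y : ℂ) (hy : ‖y‖ = 1) :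
    (∑' m, y ^ m • f m) * (∑' l, y ^ l • g l) = ∑' s, y ^ s • ∑' m, f m * g (s - m) := by
  have hy0 : y ≠ 0 := by
    rintro rfl
    simp at hy
  have hn : ∀ (h : ℤ → A) (m : ℤ), ‖y ^ m • h m‖ = ‖h m‖ := by
    intro h m
    rw [norm_smul, norm_zpow, hy, one_zpow, one_mul]
  have hf' : Summable fun m => ‖y ^ m • f m‖ := by simpa only [hn] using hf
  have hg' : Summable fun m => ‖y ^ m • g m‖ := by simpa only [hn] using hg
  rw [hf'.of_norm.tsum_mul_tsum hg'.of_norm (Cent_norm _ _ hf' hg').of_norm]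
  rw [← Cent_e.tsum_eq]
  have h1 : ∀ p : ℤ × ℤ, (y ^ (Cent_e p).1 • f (Cent_e p).1) * (y ^ (Cent_e p).2 • g (Cent_e p).2)
      = y ^ p.1 • (f p.2 * g (p.1 - p.2)) := by
    intro p
    show (y ^ p.2 • f p.2) * (y ^ (p.1 - p.2) • g (p.1 - p.2)) = _
    rw [smul_mul_smul_comm, ← zpow_add₀ hy0, add_sub_cancel]
  simp_rw [h1]
  have h2 : Summable fun p : ℤ × ℤ => y ^ p.1 • (f p.2 * g (p.1 - p.2)) := by
    refine Summable.of_norm ?_
    refine (Cent_norm_e f g hf hg).congr (fun p => ?_)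
    rw [norm_smul, norm_zpow, hy, one_zpow, one_mul]
  rw [h2.tsum_prod]
  exact tsum_congr fun s => (Cent_fiber f g hf hg s).of_norm.tsum_const_smul (y ^ s)

end conv

section
variable {A : Type} [NonUnitalNormedRing A] [NormedSpace ℂ A]
    [IsScalarTower ℂ A A] [SMulCommClass ℂ A A] [CompleteSpace A] [Red A]

/-- the key identity: `α₀ e a e = ∑ α_m β_{-m} u_m a u_{-m}` -/
theorem Cent_key (u : ℤ → A) (hu : ∀ m n, u (m + n) = u m * u n) (K : ℝ)
    (hK : ∀ n, ‖u n‖ ≤ K) (α β : ℤ → ℂ) (hα : Summable (fun n => ‖α n‖))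
    (hβ : Summable (fun n => ‖β n‖)) (hc : ∀ n, ∑' k, α k * β (n - k) = α n) (a : A) :
    ∑' m, (α m * β (-m)) • (u m * a * u (-m)) = α 0 • (u 0 * a * u 0) := by
  have hK0 : 0 ≤ K := (norm_nonneg _).trans (hK 0)
  have hb : ∀ (γ : ℤ → ℂ) (_ : Summable (fun n => ‖γ n‖)) (w : ℤ → A) (C : ℝ)
      (_ : ∀ n, ‖w n‖ ≤ C), Summable (fun n => ‖γ n • w n‖) := by
    intro γ hγ w C hw
    refine .of_nonneg_of_le (fun _ => norm_nonneg _) (fun n => ?_) (hγ.mul_right C)
    rw [norm_smul]
    exact mul_le_mul_of_nonneg_left (hw n) (norm_nonneg _)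
  have hαu : Summable (fun n => ‖α n • u n‖) := hb α hα u K hK
  have hβu : Summable (fun n => ‖β n • u n‖) := hb β hβ u K hK
  have hua : ∀ n, ‖u n * a‖ ≤ K * ‖a‖ := fun n =>
    (norm_mul_le _ _).trans (mul_le_mul_of_nonneg_right (hK n) (norm_nonneg _))
  have huae : ∀ n, ‖u n * a * u 0‖ ≤ K * ‖a‖ * K := fun n =>
    (norm_mul_le _ _).trans (mul_le_mul (hua n) (hK 0) (norm_nonneg _) (by positivity))
  have hαua : Summable (fun n => ‖α n • (u n * a)‖) := hb α hα _ _ hua
  have hαuae : Summable (fun n => ‖α n • (u n * a * u 0)‖) := hb α hα _ _ huae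
  -- summability of the convolution of the scalars
  have hab : ∀ s : ℤ, Summable fun m => α m * β (s - m) := fun s =>
    (Cent_fiber α β hα hβ s).of_norm
  -- the family
  set X : ℤ → A := fun s => (∑' m, (α m • (u m * a)) * (β (s - m) • u (s - m)))
    - α s • (u s * a * u 0) with hX
  have hXs : Summable (fun s => ‖X s‖) := by
    refine .of_nonneg_of_le (fun _ => norm_nonneg _) (fun s => ?_)
      ((Cent_sum _ _ hαua hβu).add hαuae)
    exact norm_sub_le _ _
  have hX0 : ∀ y : ℂ, ‖y‖ = 1 → ∑' n, (y ^ n) • X n = 0 := by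
    intro y hy
    have hn : ∀ (h : ℤ → A) (m : ℤ), ‖y ^ m • h m‖ = ‖h m‖ := by
      intro h m
      rw [norm_smul, norm_zpow, hy, one_zpow, one_mul]
    set P : A := ∑' m, y ^ m • (α m • u m) with hP
    set Q : A := ∑' m, y ^ m • (β m • u m) with hQ
    have hPs : Summable fun m => y ^ m • (α m • u m) := by
      refine Summable.of_norm ?_
      simpa only [hn (fun m => α m • u m)] using hαu
    -- `P Q = P`
    have hPQ : P * Q = P := by
      rw [hP, hQ, Cent_conv _ _ hαu hβu y hy]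
      refine tsum_congr fun s => ?_
      congr 1
      have h1 : ∀ m, (α m • u m) * (β (s - m) • u (s - m)) = (α m * β (s - m)) • u s := by
        intro m
        rw [smul_mul_smul_comm, ← hu, add_sub_cancel]
      simp_rw [h1]
      rw [(hab s).tsum_smul_const, hc s]
    have hPe : P * u 0 = P := by
      rw [hP, ← hPs.tsum_mul_right]
      refine tsum_congr fun s => ?_
      rw [smul_mul_assoc, smul_mul_assoc, ← hu, add_zero]
    have hPa : P * a = ∑' m, y ^ m • (α m • (u m * a)) := by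
      rw [hP, ← hPs.tsum_mul_right]
      refine tsum_congr fun s => ?_
      rw [smul_mul_assoc, smul_mul_assoc]
    have hPae : P * a * u 0 = ∑' m, y ^ m • (α m • (u m * a * u 0)) := by
      rw [mul_assoc, hP, ← hPs.tsum_mul_right]
      refine tsum_congr fun s => ?_
      rw [smul_mul_assoc, smul_mul_assoc, mul_assoc]
    have h0 : P * (u 0 - Q) = 0 := by rw [mul_sub, hPe, hPQ, sub_self]
    have h1 : P * a * (u 0 - Q) = 0 := Red.mid0 h0 a
    have h2 : P * a * Q = P * a * u 0 := by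
      rw [mul_sub] at h1
      exact (sub_eq_zero.1 h1).symm
    rw [hPae, hPa, hQ, Cent_conv _ _ hαua hβu y hy] at h2
    have hs1 : Summable fun s => y ^ s • ∑' m, (α m • (u m * a)) * (β (s - m) • u (s - m)) := by
      refine Summable.of_norm ?_
      simpa only [hn (fun s => ∑' m, (α m • (u m * a)) * (β (s - m) • u (s - m)))] using
        Cent_sum _ _ hαua hβu
    have hs2 : Summable fun m => y ^ m • (α m • (u m * a * u 0)) := by
      refine Summable.of_norm ?_
      simpa only [hn (fun m => α m • (u m * a * u 0))] using hαuae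
    simp_rw [hX, smul_sub]
    rw [hs1.tsum_sub hs2, h2, sub_self]
  have h := coef_zero X hXs hX0
  rw [hX] at h
  have h' := sub_eq_zero.1 h
  rw [← h']
  refine tsum_congr fun m => ?_
  rw [zero_sub, smul_mul_smul_comm]

theorem central_of_bdd (u : ℤ → A)
    (hu : ∀ m n, u (m + n) = u m * u n) (K : ℝ) (hK : ∀ n, ‖u n‖ ≤ K) : Cen (u 1) := by
  have hK0 : 0 ≤ K := (norm_nonneg _).trans (hK 0)
  have he : u 0 * u 0 = u 0 := by rw [← hu, add_zero]
  have hcen : Cen (u 0) := Red.idem he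
  intro a
  -- the main estimate
  have key : ∀ ε : ℝ, 0 < ε → ‖u 1 * (u 0 * a * u 0) * u (-1) - u 0 * a * u 0‖
      ≤ ε * (K * ‖a‖ * K) := by
    intro ε hε
    obtain ⟨α, β, hα, hβ, hc, h0, _, hd⟩ := kernels ε hε
    have hk := Cent_key u hu K hK α β hα hβ hc a
    set c : ℤ → ℂ := fun m => α m * β (-m) with hcdef
    set w : ℤ → A := fun m => u m * a * u (-m) with hw
    have hwb : ∀ m, ‖w m‖ ≤ K * ‖a‖ * K := fun m =>
      (norm_mul_le _ _).trans (mul_le_mul ((norm_mul_le _ _).trans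
        (mul_le_mul_of_nonneg_right (hK m) (norm_nonneg _))) (hK _) (norm_nonneg _)
        (by positivity))
    have hcs : Summable fun m => ‖c m‖ := by
      have := Cent_fiber α β hα hβ 0
      simpa only [zero_sub] using this
    have hcw : Summable fun m => c m • w m := by
      refine Summable.of_norm ?_
      refine .of_nonneg_of_le (fun _ => norm_nonneg _) (fun n => ?_) (hcs.mul_right (K * ‖a‖ * K))
      rw [norm_smul]
      exact mul_le_mul_of_nonneg_left (hwb n) (norm_nonneg _)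
    have hcs' : Summable fun m => ‖c (m - 1)‖ :=
      (Equiv.summable_iff (Equiv.subRight (1 : ℤ))).2 hcs
    have hcw' : Summable fun m => c (m - 1) • w m := by
      refine Summable.of_norm ?_
      refine .of_nonneg_of_le (fun _ => norm_nonneg _) (fun n => ?_) (hcs'.mul_right (K * ‖a‖ * K))
      rw [norm_smul]
      exact mul_le_mul_of_nonneg_left (hwb n) (norm_nonneg _)
    -- conjugate
    have h1 : ∑' m, c m • w (m + 1) = α 0 • (u 1 * (u 0 * a * u 0) * u (-1)) := by
      have e1 : ∀ m, c m • w (m + 1) = u 1 * (c m • w m) * u (-1) := by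
        intro m
        rw [mul_smul_comm, smul_mul_assoc]
        congr 1
        rw [hw]
        simp only []
        rw [show m + 1 = 1 + m by ring, hu 1 m, show -(1 + m) = -m + -1 by ring, hu (-m) (-1)]
        simp only [mul_assoc]
      simp_rw [e1]
      rw [(hcw.mul_left (u 1)).tsum_mul_right, hcw.tsum_mul_left, hk, mul_smul_comm,
        smul_mul_assoc]
    have h2 : ∑' m, c (m - 1) • w m = α 0 • (u 1 * (u 0 * a * u 0) * u (-1)) := by
      rw [← h1, ← (Equiv.addRight (1 : ℤ)).tsum_eq (fun m => c (m - 1) • w m)]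
      refine tsum_congr fun m => ?_
      show c (m + 1 - 1) • w (m + 1) = c m • w (m + 1)
      rw [add_sub_cancel_right]
    have h3 : α 0 • (u 1 * (u 0 * a * u 0) * u (-1) - u 0 * a * u 0)
        = ∑' m, (c (m - 1) - c m) • w m := by
      rw [smul_sub, ← h2, ← hk, ← hcw'.tsum_sub hcw]
      exact tsum_congr fun m => (sub_smul _ _ _).symm
    have hds : Summable fun n => ‖c n - c (n - 1)‖ :=
      .of_nonneg_of_le (fun _ => norm_nonneg _) (fun n => norm_sub_le _ _) (hcs.add hcs')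
    have h4 : ‖∑' m, (c (m - 1) - c m) • w m‖ ≤ (∑' n, ‖c n - c (n - 1)‖) * (K * ‖a‖ * K) := by
      rw [← hds.tsum_mul_right]
      have h5 : ∀ m, ‖(c (m - 1) - c m) • w m‖ ≤ ‖c m - c (m - 1)‖ * (K * ‖a‖ * K) := by
        intro m
        rw [norm_smul, norm_sub_rev]
        exact mul_le_mul_of_nonneg_left (hwb m) (norm_nonneg _)
      have h6 : Summable fun m => ‖(c (m - 1) - c m) • w m‖ :=
        .of_nonneg_of_le (fun _ => norm_nonneg _) h5 (hds.mul_right _)
      exact (norm_tsum_le_tsum_norm h6).trans (h6.tsum_le_tsum h5 (hds.mul_right _))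
    have h7 : ‖α 0‖ * ‖u 1 * (u 0 * a * u 0) * u (-1) - u 0 * a * u 0‖
        ≤ (ε * ‖α 0‖) * (K * ‖a‖ * K) := by
      rw [← norm_smul, h3]
      exact h4.trans (mul_le_mul_of_nonneg_right hd (by positivity))
    have h8 : 0 < ‖α 0‖ := norm_pos_iff.2 h0
    have h9 : ‖α 0‖ * ‖u 1 * (u 0 * a * u 0) * u (-1) - u 0 * a * u 0‖
        ≤ ‖α 0‖ * (ε * (K * ‖a‖ * K)) := by
      calc _ ≤ _ := h7
        _ = _ := by ring
    exact le_of_mul_le_mul_left h9 h8
  have hz : u 1 * (u 0 * a * u 0) * u (-1) - u 0 * a * u 0 = 0 := by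
    have hC : 0 ≤ K * ‖a‖ * K := by positivity
    have : ‖u 1 * (u 0 * a * u 0) * u (-1) - u 0 * a * u 0‖ ≤ 0 := by
      refine le_of_forall_pos_le_add fun δ hδ => ?_
      have h1 := key (δ / (K * ‖a‖ * K + 1)) (by positivity)
      rw [zero_add]
      refine h1.trans ?_
      rw [div_mul_eq_mul_div, div_le_iff₀ (by positivity)]
      nlinarith
    exact norm_le_zero_iff.1 this
  have h1 : u 1 * (u 0 * a * u 0) * u (-1) = u 0 * a * u 0 := sub_eq_zero.1 hz
  have h10 : u 1 * u 0 = u 1 := by rw [← hu, add_zero]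
  have h01 : u 0 * u 1 = u 1 := by rw [← hu, zero_add]
  have hinv : u (-1) * u 1 = u 0 := by rw [← hu, neg_add_cancel]
  -- multiply from the right
  have h2 : u 1 * (u 0 * a * u 0) * u (-1) * u 1 = u 0 * a * u 0 * u 1 := by rw [h1]
  have h3 : u 1 * (u 0 * a * u 0) * u (-1) * u 1 = u 1 * a := by
    calc u 1 * (u 0 * a * u 0) * u (-1) * u 1
        = (u 1 * u 0) * a * u 0 * (u (-1) * u 1) := by simp only [mul_assoc]
      _ = u 1 * a * u 0 * u 0 := by rw [h10, hinv]
      _ = u 1 * a * u 0 := by rw [mul_assoc (u 1 * a), he]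
      _ = u 1 * (a * u 0) := by rw [mul_assoc]
      _ = u 1 * (u 0 * a) := by rw [hcen a]
      _ = u 1 * a := by rw [← mul_assoc, h10]
  have h4 : u 0 * a * u 0 * u 1 = a * u 1 := by
    calc u 0 * a * u 0 * u 1 = (u 0 * a) * (u 0 * u 1) := by simp only [mul_assoc]
      _ = (a * u 0) * u 1 := by rw [h01, hcen a]
      _ = a * u 1 := by rw [mul_assoc, h01]
  rw [← h3, h2, h4]

end
end ACG
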