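import Mathlib

set_option autoImplicit false

/-!
COEF: an absolutely convergent Fourier series that vanishes on the circle has zero
coefficients.
-/

namespace ACG

theorem coef_zero {F : Type} [NormedAddCommGroup F] [NormedSpace ℂ F] [CompleteSpace F]
    (X : ℤ → F) (hX : Summable (fun n => ‖X n‖))
    (h : ∀ y : ℂ, ‖y‖ = 1 → ∑' n, (y ^ n) • X n = 0) : X 0 = 0 := by
  have key : ∀ M : ℕ, ∑' n : ℤ, (if ((M + 1 : ℕ) : ℤ) ∣ n then X n else 0) = 0 := by
    intro M
    have hζ := Complex.isPrimitiveRoot_exp (M + 1) (Nat.succ_ne_zero M)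
    set ζ := Complex.exp (2 * Real.pi * Complex.I / ((M + 1 : ℕ) : ℂ)) with hζd
    have hζ1 : ‖ζ‖ = 1 := hζ.norm'_eq_one (Nat.succ_ne_zero M)
    have hsum : ∀ j : ℕ, Summable (fun n : ℤ => ((ζ ^ j) ^ n) • X n) := by
      intro j
      refine Summable.of_norm ?_
      refine hX.congr (fun n => ?_)
      rw [norm_smul, norm_zpow, norm_pow, hζ1, one_pow, one_zpow, one_mul]
    have h1 : ∑ j ∈ Finset.range (M + 1), ∑' n : ℤ, ((ζ ^ j) ^ n) • X n = 0 :=
      Finset.sum_eq_zero (fun j _ => h _ (by rw [norm_pow, hζ1, one_pow]))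
    rw [← Summable.tsum_finsetSum (fun j _ => hsum j)] at h1
    have h2 : ∀ n : ℤ, ∑ j ∈ Finset.range (M + 1), ((ζ ^ j) ^ n) • X n =
        ((M : ℂ) + 1) • (if ((M + 1 : ℕ) : ℤ) ∣ n then X n else 0) := by
      intro n
      rw [← Finset.sum_smul]
      have h3 : ∀ j ∈ Finset.range (M + 1), (ζ ^ j) ^ n = (ζ ^ n) ^ j := by
        intro j _
        rw [← zpow_natCast, ← zpow_natCast, ← zpow_mul, ← zpow_mul, mul_comm]
      rw [Finset.sum_congr rfl h3]
      by_cases hd : ((M + 1 : ℕ) : ℤ) ∣ n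
      · rw [if_pos hd, (hζ.zpow_eq_one_iff_dvd n).2 hd]
        simp
      · rw [if_neg hd, smul_zero]
        have h4 : ζ ^ n ≠ 1 := fun h5 => hd ((hζ.zpow_eq_one_iff_dvd n).1 h5)
        have h6 : (ζ ^ n) ^ (M + 1) = 1 := by
          rw [← zpow_natCast, ← zpow_mul, mul_comm, zpow_mul, zpow_natCast, hζ.pow_eq_one,
            one_zpow]
        rw [geom_sum_eq h4, h6, sub_self, zero_div, zero_smul]
    rw [tsum_congr h2] at h1
    have h7 : Summable (fun n : ℤ => if ((M + 1 : ℕ) : ℤ) ∣ n then X n else 0) := by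
      refine Summable.of_norm_bounded hX (fun n => ?_)
      split_ifs
      · exact le_refl _
      · rw [norm_zero]; positivity
    rw [h7.tsum_const_smul] at h1
    exact (smul_eq_zero.1 h1).resolve_left (Nat.cast_add_one_ne_zero M)
  have hlim : Filter.Tendsto
      (fun M : ℕ => ∑' n : ℤ, (if ((M + 1 : ℕ) : ℤ) ∣ n then X n else 0)) Filter.atTop
      (nhds (∑' n : ℤ, (if n = 0 then X n else 0))) := by
    refine tendsto_tsum_of_dominated_convergence hX (fun n => ?_)
      (Filter.Eventually.of_forall (fun M n => ?_))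
    · refine tendsto_nhds_of_eventually_eq ?_
      filter_upwards [Filter.eventually_ge_atTop n.natAbs] with M hM
      by_cases hn : n = 0
      · subst hn; simp
      · rw [if_neg hn, if_neg]
        intro hd
        have := Int.natAbs_dvd_natAbs.2 hd
        have h8 := Nat.le_of_dvd (Int.natAbs_pos.2 hn) this
        rw [Int.natAbs_natCast] at h8
        omega
    · split_ifs
      · exact le_refl _
      · rw [norm_zero]; positivity
  simp_rw [key] at hlim
  have h9 := tendsto_nhds_unique hlim tendsto_const_nhds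
  rw [tsum_eq_single 0 (fun n hn => if_neg hn), if_pos rfl] at h9
  exact h9

end ACG
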