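import Pool.Agent.ACG.WPS

set_option autoImplicit false

/-!
DOM: algebra of `WPS ℂ`: it is a domain, `f = X ^ n * g` with `g(0) ≠ 0`, and polynomials are
dense.
-/

namespace ACG
namespace WPS

open PowerSeries Finset

instance : IsDomain (WPS ℂ) :=
  (val_injective (R := ℂ)).isDomain (val : WPS ℂ →ₐ[ℂ] PowerSeries ℂ).toRingHom

theorem factor (f : WPS ℂ) (hf : f ≠ 0) :
    ∃ (n : ℕ) (g : WPS ℂ), f = X ^ n * g ∧ coeff 0 (val g) ≠ 0 := by
  classical
  have hex : ∃ n, coeff n (val f) ≠ 0 := by
    by_contra h
    push Not at h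
    exact hf (ext fun n => by rw [h n, map_zero, map_zero])
  have hn : coeff (Nat.find hex) (val f) ≠ 0 := Nat.find_spec hex
  have hlt : ∀ k < Nat.find hex, coeff k (val f) = 0 := fun k hk => by
    simpa using Nat.find_min hex hk
  set n := Nat.find hex with hndef
  have hs : Summable fun k => ‖coeff k (PowerSeries.mk fun k => coeff (k + n) (val f))‖ := by
    have h := f.summable_coeff.comp_injective (add_left_injective n)
    refine h.congr fun k => ?_
    rw [PowerSeries.coeff_mk]
    rfl
  refine ⟨n, mk (PowerSeries.mk fun k => coeff (k + n) (val f)) hs, ?_, ?_⟩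
  · refine ext fun k => ?_
    rw [map_mul, map_pow, val_X, val_mk, PowerSeries.coeff_X_pow_mul']
    split_ifs with h
    · rw [PowerSeries.coeff_mk, Nat.sub_add_cancel h]
    · exact hlt k (not_le.1 h)
  · rw [val_mk, PowerSeries.coeff_mk, zero_add]
    exact hn

/-- truncations of series without constant term converge -/
theorem dense_X (f : WPS ℂ) (hf : coeff 0 (val f) = 0) (ε : ℝ) (hε : 0 < ε) :
    ∃ N : ℕ, ‖f - ∑ n ∈ range N, coeff (n + 1) (val f) • X ^ (n + 1)‖ < ε := by
  have ht := tendsto_sum_nat_add (fun k => ‖coeff k (val f)‖)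
  obtain ⟨N, hN⟩ := ((tendsto_order.1 ht).2 ε hε).exists_forall_of_atTop
  refine ⟨N, ?_⟩
  have hc : ∀ k, coeff k (val (f - ∑ n ∈ range N, coeff (n + 1) (val f) • X ^ (n + 1)))
      = if k ≤ N then 0 else coeff k (val f) := by
    intro k
    have h1 : coeff k (val (∑ n ∈ range N, coeff (n + 1) (val f) • (X : WPS ℂ) ^ (n + 1)))
        = if k ≤ N then coeff k (val f) else 0 := by
      rw [map_sum, map_sum]
      have h2 : ∀ n ∈ range N, coeff k (val (coeff (n + 1) (val f) • (X : WPS ℂ) ^ (n + 1)))
          = if k = n + 1 then coeff k (val f) else 0 := by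
        intro n _
        rw [map_smul, map_smul, map_pow, val_X, PowerSeries.coeff_X_pow]
        split_ifs with h
        · rw [h, smul_eq_mul, mul_one]
        · rw [smul_zero]
      rw [Finset.sum_congr rfl h2]
      rcases Nat.eq_zero_or_pos k with h | h
      · subst h
        rw [if_pos (Nat.zero_le _), hf]
        simp
      · obtain ⟨j, rfl⟩ : ∃ j, k = j + 1 := ⟨k - 1, by omega⟩
        by_cases hj : j + 1 ≤ N
        · rw [if_pos hj, Finset.sum_eq_single j]
          · simp
          · intro b _ hb
            rw [if_neg]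
            omega
          · intro h3
            exact absurd (Finset.mem_range.2 (by omega)) h3
        · rw [if_neg hj]
          refine Finset.sum_eq_zero fun b hb => ?_
          rw [if_neg]
          have := Finset.mem_range.1 hb
          omega
    rw [map_sub, map_sub, h1]
    split_ifs <;> simp
  rw [norm_def]
  have h3 : (∑' k, ‖coeff k (val (f - ∑ n ∈ range N, coeff (n + 1) (val f) • X ^ (n + 1)))‖)
      = ∑' k, ‖coeff (k + (N + 1)) (val f)‖ := by
    rw [← (summable_coeff (f - ∑ n ∈ range N, coeff (n + 1) (val f) • X ^ (n + 1))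
      ).sum_add_tsum_nat_add (N + 1)]
    have h4 : (∑ k ∈ range (N + 1),
        ‖coeff k (val (f - ∑ n ∈ range N, coeff (n + 1) (val f) • X ^ (n + 1)))‖) = 0 := by
      refine Finset.sum_eq_zero fun k hk => ?_
      rw [hc, if_pos (by have := Finset.mem_range.1 hk; omega), norm_zero]
    rw [h4, zero_add]
    refine tsum_congr fun k => ?_
    rw [hc, if_neg (by omega)]
  rw [h3]
  exact hN (N + 1) (by omega)

end WPS
end ACG
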