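import Pool.Agent.ACG.WPS

set_option autoImplicit false

/-!
EVAL: evaluation of absolutely convergent power series at power bounded elements.
-/

namespace ACG
namespace WPS

open PowerSeries Finset

section
variable {R : Type} [NormedCommRing R] [NormedAlgebra ℂ R] [CompleteSpace R]

private theorem summable_evR {m : R} {K : ℝ} (h : ∀ n : ℕ, ‖m ^ n‖ ≤ K) (f : WPS R) :
    Summable fun n => ‖coeff n (val f) * m ^ n‖ := by
  refine Summable.of_nonneg_of_le (fun n => norm_nonneg _) (fun n => ?_)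
    (f.summable_coeff.mul_right K)
  exact (norm_mul_le _ _).trans (mul_le_mul_of_nonneg_left (h n) (norm_nonneg _))

private theorem tsum_mulR {m : R} {K : ℝ} (h : ∀ n : ℕ, ‖m ^ n‖ ≤ K) (f g : WPS R) :
    ∑' n, coeff n (val (f * g)) * m ^ n
      = (∑' n, coeff n (val f) * m ^ n) * ∑' n, coeff n (val g) * m ^ n := by
  rw [tsum_mul_tsum_eq_tsum_sum_antidiagonal_of_summable_norm (summable_evR h f)
    (summable_evR h g)]
  refine tsum_congr fun n => ?_
  rw [map_mul, coeff_mul, Finset.sum_mul]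
  refine Finset.sum_congr rfl fun p hp => ?_
  rw [← mem_antidiagonal.mp hp, pow_add]
  ring

end

/-- Evaluation of series with coefficients in `R` at a power bounded element of `R`. -/
theorem exists_ev {R : Type} [NormedCommRing R] [NormedAlgebra ℂ R] [CompleteSpace R] (m : R)
    (K : ℝ) (h : ∀ n : ℕ, ‖m ^ n‖ ≤ K) :
    ∃ φ : WPS R →+* R, (∀ r, φ (C r) = r) ∧ φ X = m := by
  have hC : ∀ r : R, ∑' n, coeff n (val (C r)) * m ^ n = r := fun r => by
    rw [tsum_eq_single 0 (fun n hn => by rw [val_C, coeff_C, if_neg hn, zero_mul])]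
    rw [val_C, coeff_C, if_pos rfl, pow_zero, mul_one]
  refine ⟨{ toFun := fun f => ∑' n, coeff n (val f) * m ^ n
            map_one' := ?_
            map_mul' := tsum_mulR h
            map_zero' := ?_
            map_add' := fun f g => ?_ }, hC, ?_⟩
  · have := hC 1
    rwa [map_one] at this
  · have := hC 0
    rwa [map_zero] at this
  · rw [← (summable_evR h f).of_norm.tsum_add (summable_evR h g).of_norm]
    refine tsum_congr fun n => ?_
    rw [map_add, map_add, add_mul]
  · show ∑' n, coeff n (val (X : WPS R)) * m ^ n = m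
    rw [tsum_eq_single 1 (fun n hn => by rw [val_X, coeff_X, if_neg hn, zero_mul])]
    rw [val_X, coeff_X, if_pos rfl, pow_one, one_mul]

section
variable {S : Type} [NormedRing S] [NormedAlgebra ℂ S] [CompleteSpace S]

omit [CompleteSpace S] in
private theorem summable_evS {m : S} {K : ℝ} (h : ∀ n : ℕ, ‖m ^ n‖ ≤ K) (f : WPS ℂ) :
    Summable fun n => ‖coeff n (val f) • m ^ n‖ := by
  refine Summable.of_nonneg_of_le (fun n => norm_nonneg _) (fun n => ?_)
    (f.summable_coeff.mul_right K)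
  rw [norm_smul]
  exact mul_le_mul_of_nonneg_left (h n) (norm_nonneg _)

private theorem tsum_mulS {m : S} {K : ℝ} (h : ∀ n : ℕ, ‖m ^ n‖ ≤ K) (f g : WPS ℂ) :
    ∑' n, coeff n (val (f * g)) • m ^ n
      = (∑' n, coeff n (val f) • m ^ n) * ∑' n, coeff n (val g) • m ^ n := by
  rw [tsum_mul_tsum_eq_tsum_sum_antidiagonal_of_summable_norm (summable_evS h f)
    (summable_evS h g)]
  refine tsum_congr fun n => ?_
  rw [map_mul, coeff_mul, Finset.sum_smul]
  refine Finset.sum_congr rfl fun p hp => ?_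
  rw [← mem_antidiagonal.mp hp, pow_add, smul_mul_smul_comm]

omit [CompleteSpace S] in
private theorem tsum_algS (m : S) (c : ℂ) :
    ∑' n, coeff n (val (algebraMap ℂ (WPS ℂ) c)) • m ^ n = algebraMap ℂ S c := by
  have h0 : val (algebraMap ℂ (WPS ℂ) c) = PowerSeries.C c := by
    rw [AlgHom.commutes, PowerSeries.algebraMap_apply, Algebra.algebraMap_self, RingHom.id_apply]
  rw [h0, tsum_eq_single 0 (fun n hn => by rw [coeff_C, if_neg hn, zero_smul])]
  rw [coeff_C, if_pos rfl, pow_zero, Algebra.algebraMap_eq_smul_one]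

/-- Evaluation of scalar series at a power bounded element of a Banach algebra. -/
noncomputable def ev (m : S) (h : ∃ K : ℝ, ∀ n : ℕ, ‖m ^ n‖ ≤ K) : WPS ℂ →ₐ[ℂ] S where
  toFun f := ∑' n, coeff n (val f) • m ^ n
  map_one' := by
    have := tsum_algS m 1
    rwa [(algebraMap ℂ (WPS ℂ)).map_one, (algebraMap ℂ S).map_one] at this
  map_mul' f g := by
    obtain ⟨K, hK⟩ := h
    exact tsum_mulS hK f g
  map_zero' := by
    have := tsum_algS m 0
    rwa [(algebraMap ℂ (WPS ℂ)).map_zero, (algebraMap ℂ S).map_zero] at this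
  map_add' f g := by
    obtain ⟨K, hK⟩ := h
    rw [← (summable_evS hK f).of_norm.tsum_add (summable_evS hK g).of_norm]
    refine tsum_congr fun n => ?_
    rw [map_add, map_add, add_smul]
  commutes' c := tsum_algS m c

theorem hasSum_ev (m : S) (h : ∃ K : ℝ, ∀ n : ℕ, ‖m ^ n‖ ≤ K) (f : WPS ℂ) :
    HasSum (fun n => coeff n (val f) • m ^ n) (ev m h f) := by
  obtain ⟨K, hK⟩ := h
  exact (summable_evS hK f).of_norm.hasSum

theorem norm_ev_le (m : S) (h : ∃ K : ℝ, ∀ n : ℕ, ‖m ^ n‖ ≤ K) {K : ℝ}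
    (hK : ∀ n : ℕ, ‖m ^ n‖ ≤ K) (f : WPS ℂ) : ‖ev m h f‖ ≤ K * ‖f‖ := by
  show ‖∑' n, coeff n (val f) • m ^ n‖ ≤ K * ‖f‖
  rw [norm_def, mul_comm, ← tsum_mul_right]
  refine (norm_tsum_le_tsum_norm (summable_evS hK f)).trans ?_
  refine (summable_evS hK f).tsum_le_tsum (fun n => ?_) (f.summable_coeff.mul_right K)
  rw [norm_smul]
  exact mul_le_mul_of_nonneg_left (hK n) (norm_nonneg _)

theorem ev_X (m : S) (h : ∃ K : ℝ, ∀ n : ℕ, ‖m ^ n‖ ≤ K) : ev m h X = m := by
  show ∑' n, coeff n (val (X : WPS ℂ)) • m ^ n = m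
  rw [tsum_eq_single 1 (fun n hn => by rw [val_X, coeff_X, if_neg hn, zero_smul])]
  rw [val_X, coeff_X, if_pos rfl, pow_one, one_smul]

end

end WPS
end ACG
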