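import Pool.Agent.ACG.Wsp
import Pool.Agent.ACG.Eval
import Pool.Agent.ACG.Dom

set_option autoImplicit false

/-!
PHI: every nonzero `f : WPS ℂ` acts injectively on `E` and bijectively on `Wsub a`.
-/

namespace ACG
open PowerSeries

private theorem phi_unit {R : Type} [NormedCommRing R] [CompleteSpace R] (q : R)
    (hq : ∃ m : ℕ, ‖q ^ m‖ < 1) : IsUnit (1 + q) := by
  obtain ⟨m, hm⟩ := hq
  have h1 : ‖(-q) ^ m‖ < 1 := by
    rcases Nat.even_or_odd m with h | h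
    · rw [h.neg_pow]; exact hm
    · rw [h.neg_pow, norm_neg]; exact hm
  have h2 : IsUnit (1 - (-q) ^ m) := isUnit_one_sub_of_norm_lt_one h1
  have h3 : (1 : R) - (-q) ∣ 1 ^ m - (-q) ^ m := sub_dvd_pow_sub_pow 1 (-q) m
  rw [one_pow, sub_neg_eq_add] at h3
  exact isUnit_of_dvd_unit h3 h2

private theorem phi_split (f : WPS ℂ) :
    ∃ g : WPS ℂ, f = algebraMap ℂ (WPS ℂ) (coeff 0 (WPS.val f)) + WPS.X * g := by
  have hs : Summable fun n => ‖coeff n (PowerSeries.mk fun n => coeff (n + 1) (WPS.val f))‖ := by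
    have := (summable_nat_add_iff 1).2 f.summable_coeff
    simpa using this
  refine ⟨WPS.mk _ hs, ?_⟩
  apply WPS.ext
  intro n
  rw [map_add, map_mul, AlgHom.commutes, WPS.val_X, WPS.val_mk, map_add,
    PowerSeries.algebraMap_apply]
  cases n with
  | zero => simp
  | succ n => simp [coeff_succ_X_mul, coeff_C]

section
variable {E : Type} [NonUnitalNormedCommRing E] [NormedSpace ℂ E] [IsScalarTower ℂ E E]
  [SMulCommClass ℂ E E] [CompleteSpace E] [Red E]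

theorem isUnit_ev (a : Mult E) (ha : QN a) (hb : ∃ K : ℝ, ∀ n : ℕ, ‖a ^ n‖ ≤ K) (f : WPS ℂ)
    (hf : coeff 0 (WPS.val f) ≠ 0) : IsUnit (WPS.ev a hb f) := by
  obtain ⟨g, hg⟩ := phi_split f
  set c := coeff 0 (WPS.val f) with hc
  set G : Mult E := WPS.ev a hb g with hG
  have h1 : WPS.ev a hb f = algebraMap ℂ (Mult E) c * (1 + c⁻¹ • (a * G)) := by
    rw [hg, map_add, map_mul, WPS.ev_X, AlgHom.commutes, mul_add, mul_one, ← hG,
      ← Algebra.smul_def, smul_smul, mul_inv_cancel₀ hf, one_smul]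
  rw [h1]
  apply IsUnit.mul
  · exact (isUnit_iff_ne_zero.2 hf).map (algebraMap ℂ (Mult E))
  · apply phi_unit
    set d : ℝ := ‖c⁻¹‖ * ‖G‖ with hd
    have hd0 : 0 ≤ d := by positivity
    obtain ⟨C, hC⟩ := ha (1 / (2 * (d + 1))) (by positivity)
    have hbound : ∀ n : ℕ, 1 ≤ n → ‖(c⁻¹ • (a * G)) ^ n‖ ≤ |C| * (1 / 2) ^ n := by
      intro n hn
      have e1 : (c⁻¹ • (a * G)) ^ n = (c⁻¹) ^ n • (a ^ n * G ^ n) := by
        rw [smul_pow, mul_pow]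
      rw [e1, norm_smul, norm_pow]
      have e2 : ‖a ^ n * G ^ n‖ ≤ (|C| * (1 / (2 * (d + 1))) ^ n) * ‖G‖ ^ n := by
        refine (norm_mul_le _ _).trans ?_
        have e3 : ‖a ^ n‖ ≤ |C| * (1 / (2 * (d + 1))) ^ n :=
          (hC n).trans (mul_le_mul_of_nonneg_right (le_abs_self C) (by positivity))
        exact mul_le_mul e3 (norm_pow_le' G hn) (norm_nonneg _) (by positivity)
      calc ‖c⁻¹‖ ^ n * ‖a ^ n * G ^ n‖
          ≤ ‖c⁻¹‖ ^ n * ((|C| * (1 / (2 * (d + 1))) ^ n) * ‖G‖ ^ n) :=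
            mul_le_mul_of_nonneg_left e2 (by positivity)
        _ = |C| * (d / (2 * (d + 1))) ^ n := by
            have e4 : (d / (2 * (d + 1))) ^ n =
                ‖c⁻¹‖ ^ n * ‖G‖ ^ n * (1 / (2 * (d + 1))) ^ n := by
              rw [← mul_pow, ← mul_pow, ← hd]
              congr 1
              ring
            rw [e4]
            ring
        _ ≤ |C| * (1 / 2) ^ n := by
            apply mul_le_mul_of_nonneg_left _ (abs_nonneg C)
            apply pow_le_pow_left₀ (by positivity)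
            rw [div_le_div_iff₀ (by positivity) (by norm_num)]
            linarith
    have hlim : Filter.Tendsto (fun n : ℕ => |C| * (1 / 2 : ℝ) ^ n) Filter.atTop (nhds 0) := by
      have := (tendsto_pow_atTop_nhds_zero_of_lt_one (r := (1 / 2 : ℝ)) (by norm_num)
        (by norm_num)).const_mul |C|
      rwa [mul_zero] at this
    obtain ⟨N, hN⟩ := (hlim.eventually_lt_const (show (0 : ℝ) < 1 by norm_num)).exists_forall_of_atTop
    exact ⟨N + 1, (hbound (N + 1) (by omega)).trans_lt (hN (N + 1) (by omega))⟩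

private theorem phi_pow_inj (a : Mult E)
    (hd : ∀ x : E, ∀ ε : ℝ, 0 < ε → ∃ y, ‖x - a.ap y‖ < ε) (n : ℕ) (x : E)
    (h : (a ^ n).ap x = 0) : x = 0 := by
  induction n with
  | zero => rwa [pow_zero, Mult.ap_one] at h
  | succ n ih =>
    rw [Mult.ap_pow_succ'] at h
    exact ih (ap_inj a hd _ h)

private theorem phi_pow_div (a : Mult E)
    (hd : ∀ x : E, ∀ ε : ℝ, 0 < ε → ∃ y, ‖x - a.ap y‖ < ε) (n : ℕ) {w : E}
    (hw : w ∈ Wsub a) : ∃ w' ∈ Wsub a, (a ^ n).ap w' = w := by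
  induction n with
  | zero => exact ⟨w, hw, by rw [pow_zero, Mult.ap_one]⟩
  | succ n ih =>
    obtain ⟨w1, hw1, h1⟩ := ih
    obtain ⟨w2, hw2, h2⟩ := Wsub_div a hd hw1
    exact ⟨w2, hw2, by rw [Mult.ap_pow_succ, h2, h1]⟩

theorem ev_inj (a : Mult E) (ha : QN a) (hb : ∃ K : ℝ, ∀ n : ℕ, ‖a ^ n‖ ≤ K)
    (hd : ∀ x : E, ∀ ε : ℝ, 0 < ε → ∃ y, ‖x - a.ap y‖ < ε) (f : WPS ℂ) (hf : f ≠ 0) (x : E)
    (hx : (WPS.ev a hb f).ap x = 0) : x = 0 := by
  obtain ⟨n, g, hfg, hg⟩ := WPS.factor f hf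
  obtain ⟨u, hu⟩ := isUnit_ev a ha hb g hg
  rw [hfg, map_mul, map_pow, WPS.ev_X, Mult.ap_mul] at hx
  have h1 := phi_pow_inj a hd n _ hx
  have h2 : ((↑u⁻¹ : Mult E) * WPS.ev a hb g).ap x = x := by
    rw [← hu, Units.inv_mul, Mult.ap_one]
  rw [Mult.ap_mul, h1, map_zero] at h2
  exact h2.symm

theorem ev_surj (a : Mult E) (ha : QN a) (hb : ∃ K : ℝ, ∀ n : ℕ, ‖a ^ n‖ ≤ K)
    (hd : ∀ x : E, ∀ ε : ℝ, 0 < ε → ∃ y, ‖x - a.ap y‖ < ε) (f : WPS ℂ) (hf : f ≠ 0) {w : E}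
    (hw : w ∈ Wsub a) : ∃ w' ∈ Wsub a, (WPS.ev a hb f).ap w' = w := by
  obtain ⟨n, g, hfg, hg⟩ := WPS.factor f hf
  obtain ⟨u, hu⟩ := isUnit_ev a ha hb g hg
  obtain ⟨w1, hw1, h1⟩ := phi_pow_div a hd n hw
  refine ⟨(↑u⁻¹ : Mult E).ap w1, ap_mem_Wsub a _ hw1, ?_⟩
  rw [hfg, map_mul, map_pow, WPS.ev_X, Mult.ap_mul, ← Mult.ap_mul (WPS.ev a hb g), ← hu,
    Units.mul_inv, Mult.ap_one, h1]

end
end ACG
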