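import Pool.Agent.ACG.Defs
import Pool.Agent.ACG.Eval

set_option autoImplicit false

/-!
SOLVE: `k = 1 + m P(k)` is solvable in a commutative Banach algebra when `m` is quasi-nilpotent.
-/

namespace ACG

/-- Polynomial maps of a commutative normed ring are Lipschitz on bounded sets. -/
theorem poly_lip {W : Type} [NormedCommRing W] (M : ℝ) (hM : 0 ≤ M) (Q : Polynomial W) :
    ∃ L : ℝ, 0 ≤ L ∧ ∀ K K' : W, ‖K‖ ≤ M → ‖K'‖ ≤ M →
      ‖Q.eval K - Q.eval K'‖ ≤ L * ‖K - K'‖ := by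
  induction Q using Polynomial.induction_on' with
  | add p q hp hq =>
    obtain ⟨L1, h1, hp⟩ := hp
    obtain ⟨L2, h2, hq⟩ := hq
    refine ⟨L1 + L2, by positivity, fun K K' hK hK' => ?_⟩
    have e : (p + q).eval K - (p + q).eval K' =
        (p.eval K - p.eval K') + (q.eval K - q.eval K') := by
      rw [Polynomial.eval_add, Polynomial.eval_add]; ring
    rw [e]
    calc _ ≤ ‖p.eval K - p.eval K'‖ + ‖q.eval K - q.eval K'‖ := norm_add_le _ _
      _ ≤ L1 * ‖K - K'‖ + L2 * ‖K - K'‖ := add_le_add (hp K K' hK hK') (hq K K' hK hK')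
      _ = _ := by ring
  | monomial n a =>
    have key : ∃ L : ℝ, 0 ≤ L ∧ ∀ K K' : W, ‖K‖ ≤ M → ‖K'‖ ≤ M →
        ‖K ^ n - K' ^ n‖ ≤ L * ‖K - K'‖ := by
      induction n with
      | zero => exact ⟨0, le_rfl, fun K K' _ _ => by simp⟩
      | succ n ih =>
        obtain ⟨L, hL, ih⟩ := ih
        refine ⟨L * M + ‖(1 : W)‖ * M ^ n, by positivity, fun K K' hK hK' => ?_⟩
        have e : K ^ (n + 1) - K' ^ (n + 1) = (K ^ n - K' ^ n) * K + K' ^ n * (K - K') := by ring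
        have hpow : ‖K' ^ n‖ ≤ ‖(1 : W)‖ * M ^ n := by
          clear e ih
          induction n with
          | zero => simp
          | succ n ihn =>
            rw [pow_succ]
            calc ‖K' ^ n * K'‖ ≤ ‖K' ^ n‖ * ‖K'‖ := norm_mul_le _ _
              _ ≤ (‖(1 : W)‖ * M ^ n) * M := by
                  apply mul_le_mul ihn hK' (norm_nonneg _) (by positivity)
              _ = _ := by ring
        rw [e]
        calc _ ≤ ‖(K ^ n - K' ^ n) * K‖ + ‖K' ^ n * (K - K')‖ := norm_add_le _ _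
          _ ≤ ‖K ^ n - K' ^ n‖ * ‖K‖ + ‖K' ^ n‖ * ‖K - K'‖ :=
              add_le_add (norm_mul_le _ _) (norm_mul_le _ _)
          _ ≤ (L * ‖K - K'‖) * M + (‖(1 : W)‖ * M ^ n) * ‖K - K'‖ := by
              apply add_le_add
              · exact mul_le_mul (ih K K' hK hK') hK (norm_nonneg _) (by positivity)
              · exact mul_le_mul_of_nonneg_right hpow (norm_nonneg _)
          _ = _ := by ring
    obtain ⟨L, hL, key⟩ := key
    refine ⟨‖a‖ * L, by positivity, fun K K' hK hK' => ?_⟩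
    rw [Polynomial.eval_monomial, Polynomial.eval_monomial, ← mul_sub]
    calc _ ≤ ‖a‖ * ‖K ^ n - K' ^ n‖ := norm_mul_le _ _
      _ ≤ ‖a‖ * (L * ‖K - K'‖) := mul_le_mul_of_nonneg_left (key K K' hK hK') (norm_nonneg _)
      _ = _ := by ring

/-- A fixed point of `K ↦ 1 + c * Q(K)` for small `c` (`c` ranges over the multiples of a fixed
bound). -/
theorem fixed_small {W : Type} [NormedCommRing W] [CompleteSpace W] (Q : Polynomial W) :
    ∃ δ : ℝ, 0 < δ ∧ ∀ c : W, ‖c‖ ≤ δ → ∃ K : W, K = 1 + c * Q.eval K := by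
  obtain ⟨L, hL, hlip⟩ := poly_lip (‖(1 : W)‖ + 1) (by positivity) Q
  set B : ℝ := ‖Q.eval (1 : W)‖ + L with hB
  have hB0 : 0 ≤ B := by positivity
  refine ⟨1 / (2 * (B + L + 1)), by positivity, fun c hc => ?_⟩
  have hpos : 0 < B + L + 1 := by positivity
  have hc1 : ‖c‖ * (B + L + 1) ≤ 1 / 2 := by
    have := mul_le_mul_of_nonneg_right hc hpos.le
    calc _ ≤ 1 / (2 * (B + L + 1)) * (B + L + 1) := this
      _ = 1 / 2 := by field_simp
  set F : W → W := fun K => 1 + c * Q.eval K with hF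
  set s : Set W := Metric.closedBall (1 : W) 1 with hs
  have hsn : ∀ K ∈ s, ‖K‖ ≤ ‖(1 : W)‖ + 1 := by
    intro K hK
    rw [hs, Metric.mem_closedBall, dist_eq_norm] at hK
    calc ‖K‖ = ‖(K - 1) + 1‖ := by rw [sub_add_cancel]
      _ ≤ ‖K - 1‖ + ‖(1 : W)‖ := norm_add_le _ _
      _ ≤ _ := by linarith
  have h1s : (1 : W) ∈ s := Metric.mem_closedBall_self zero_le_one
  have hsc : IsComplete s := Metric.isClosed_closedBall.isComplete
  have hsf : Set.MapsTo F s s := by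
    intro K hK
    rw [hs, Metric.mem_closedBall, dist_eq_norm]
    have e : F K - 1 = c * Q.eval K := by simp [hF]
    rw [e]
    have hK1 : ‖K - 1‖ ≤ 1 := by
      rw [hs, Metric.mem_closedBall, dist_eq_norm] at hK
      exact hK
    have hb : ‖Q.eval K‖ ≤ B := by
      calc ‖Q.eval K‖ = ‖(Q.eval K - Q.eval 1) + Q.eval 1‖ := by rw [sub_add_cancel]
        _ ≤ ‖Q.eval K - Q.eval 1‖ + ‖Q.eval (1 : W)‖ := norm_add_le _ _
        _ ≤ L * ‖K - 1‖ + ‖Q.eval (1 : W)‖ :=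
            add_le_add (hlip K 1 (hsn K hK) (hsn 1 h1s)) le_rfl
        _ ≤ L * 1 + ‖Q.eval (1 : W)‖ := by gcongr
        _ = B := by rw [hB]; ring
    calc ‖c * Q.eval K‖ ≤ ‖c‖ * ‖Q.eval K‖ := norm_mul_le _ _
      _ ≤ ‖c‖ * (B + L + 1) := by
          apply mul_le_mul_of_nonneg_left _ (norm_nonneg _)
          linarith
      _ ≤ 1 := by linarith
  have hcon : ContractingWith (1 / 2 : NNReal) (hsf.restrict F s s) := by
    refine ⟨by norm_num [← NNReal.coe_lt_coe], ?_⟩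
    refine LipschitzWith.of_dist_le_mul (fun x y => ?_)
    have hx := x.2
    have hy := y.2
    change dist (F x.1) (F y.1) ≤ _ * dist x.1 y.1
    rw [dist_eq_norm, dist_eq_norm]
    have e : F x.1 - F y.1 = c * (Q.eval x.1 - Q.eval y.1) := by simp [hF]; ring
    rw [e]
    calc _ ≤ ‖c‖ * ‖Q.eval x.1 - Q.eval y.1‖ := norm_mul_le _ _
      _ ≤ ‖c‖ * (L * ‖x.1 - y.1‖) :=
          mul_le_mul_of_nonneg_left (hlip _ _ (hsn _ hx) (hsn _ hy)) (norm_nonneg _)
      _ = (‖c‖ * L) * ‖x.1 - y.1‖ := by ring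
      _ ≤ (‖c‖ * (B + L + 1)) * ‖x.1 - y.1‖ := by
          gcongr; linarith
      _ ≤ (1 / 2) * ‖x.1 - y.1‖ := by gcongr
      _ = _ := by norm_num
  obtain ⟨K, -, hK, -⟩ := hcon.exists_fixedPoint' hsc hsf h1s (edist_ne_top _ _)
  exact ⟨K, hK.symm⟩

theorem solve {R : Type} [NormedCommRing R] [NormedAlgebra ℂ R] [CompleteSpace R] (m : R)
    (hm : QN m) (P : Polynomial R) : ∃ k : R, k = 1 + m * P.eval k := by
  obtain ⟨δ, hδ, hfix⟩ := fixed_small (P.map (WPS.C : R →+* WPS R))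
  -- a small number
  set N : ℝ := ‖(1 : R)‖ with hN
  have hN0 : 0 ≤ N := norm_nonneg _
  set d : ℝ := δ / (N * N + 1) with hd
  have hd0 : 0 < d := by positivity
  have hd' : (d : ℂ) ≠ 0 := by exact_mod_cast hd0.ne'
  have hnd : ‖(WPS.C (algebraMap ℂ R d) * WPS.X : WPS R)‖ ≤ δ := by
    calc _ ≤ ‖WPS.C (algebraMap ℂ R d)‖ * ‖(WPS.X : WPS R)‖ := norm_mul_le _ _
      _ ≤ (d * N) * N := by
          apply mul_le_mul _ WPS.norm_X_le (norm_nonneg _) (by positivity)
          rw [WPS.norm_C, norm_algebraMap]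
          rw [Complex.norm_real, Real.norm_of_nonneg hd0.le]
      _ = δ * ((N * N) / (N * N + 1)) := by rw [hd]; ring
      _ ≤ δ * 1 := by
          apply mul_le_mul_of_nonneg_left _ hδ.le
          rw [div_le_one (by positivity)]
          linarith
      _ = δ := mul_one _
  obtain ⟨K, hK⟩ := hfix _ hnd
  -- evaluate
  obtain ⟨C0, hC0⟩ := hm d hd0
  have hpb : ∀ n : ℕ, ‖((d : ℂ)⁻¹ • m) ^ n‖ ≤ C0 := by
    intro n
    rw [smul_pow, norm_smul, norm_pow, norm_inv, Complex.norm_real, Real.norm_of_nonneg hd0.le]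
    calc (d⁻¹) ^ n * ‖m ^ n‖ ≤ (d⁻¹) ^ n * (C0 * d ^ n) :=
          mul_le_mul_of_nonneg_left (hC0 n) (by positivity)
      _ = C0 * (d⁻¹ * d) ^ n := by rw [mul_pow]; ring
      _ = C0 := by rw [inv_mul_cancel₀ hd0.ne', one_pow, mul_one]
  obtain ⟨φ, hφC, hφX⟩ := WPS.exists_ev ((d : ℂ)⁻¹ • m) C0 hpb
  refine ⟨φ K, ?_⟩
  have h := congrArg φ hK
  rw [map_add, map_one, map_mul, map_mul, hφC, hφX] at h
  have h2 : φ ((P.map (WPS.C : R →+* WPS R)).eval K) = P.eval (φ K) := by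
    rw [← Polynomial.eval₂_hom, ← Polynomial.eval_map, Polynomial.map_map]
    have h3 : φ.comp (WPS.C : R →+* WPS R) = RingHom.id R := by
      ext r
      exact hφC r
    rw [h3, Polynomial.map_id]
  have h4 : algebraMap ℂ R d * ((d : ℂ)⁻¹ • m) = m := by
    rw [← Algebra.smul_def, smul_smul, mul_inv_cancel₀ hd', one_smul]
  rw [h2, h4] at h
  exact h

end ACG
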