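import Pool.Agent.ACG.Pkg
import Pool.Agent.ACG.Phi
import Pool.Agent.ACG.Solve

set_option autoImplicit false

/-!
HENS: the local ring of the package satisfies Hensel's lemma.
-/

namespace ACG
open PowerSeries

section
variable {E : Type} [NonUnitalNormedCommRing E] [NormedSpace ℂ E] [IsScalarTower ℂ E E]
  [SMulCommClass ℂ E E] [CompleteSpace E] [Red E]

/-- iterated division in the divisible subspace -/
theorem hens_div (a : Mult E) (hd : ∀ x : E, ∀ ε : ℝ, 0 < ε → ∃ y, ‖x - a.ap y‖ < ε)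
    (n : ℕ) : ∀ w ∈ Wsub a, ∃ w' ∈ Wsub a, (a ^ n).ap w' = w := by
  induction n with
  | zero => exact fun w hw => ⟨w, hw, by simp⟩
  | succ n ih =>
    intro w hw
    obtain ⟨w1, hw1, h1⟩ := ih w hw
    obtain ⟨w2, hw2, h2⟩ := Wsub_div a hd hw1
    exact ⟨w2, hw2, by rw [Mult.ap_pow_succ, h2, h1]⟩

/-- powers of `j w` -/
theorem hens_pow (a : Mult E) (hb : ∃ K : ℝ, ∀ n : ℕ, ‖a ^ n‖ ≤ K) {L : Type} [CommRing L]
    [Algebra ℂ L] {π : L →ₐ[ℂ] FractionRing (WPS ℂ)} {ι : WPS ℂ →ₐ[ℂ] L}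
    {j : Wsub a →ₗ[ℂ] L} (hP : IsPkg a hb L π ι j) (w : Wsub a) (n : ℕ) :
    ∀ u : Wsub a, (u : E) = ((Mult.L (w : E)) ^ n).ap (w : E) → (j w) ^ (n + 1) = j u := by
  induction n with
  | zero =>
    intro u hu
    have : u = w := Subtype.ext (by rw [hu]; simp)
    rw [this]; simp
  | succ n ih =>
    intro u hu
    have hmem : ((Mult.L (w : E)) ^ n).ap (w : E) ∈ Wsub a := ap_mem_Wsub a _ w.2
    have h1 := ih ⟨_, hmem⟩ rfl
    rw [pow_succ', h1]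
    refine hP.j_mul w ⟨_, hmem⟩ u ?_
    rw [hu, Mult.ap_pow_succ', Mult.L_ap]

/-- common denominators -/
theorem hens_frac (a : Mult E) (hb : ∃ K : ℝ, ∀ n : ℕ, ‖a ^ n‖ ≤ K) {L : Type} [CommRing L]
    [Algebra ℂ L] {π : L →ₐ[ℂ] FractionRing (WPS ℂ)} {ι : WPS ℂ →ₐ[ℂ] L}
    {j : Wsub a →ₗ[ℂ] L} (hP : IsPkg a hb L π ι j) (c : ℕ → L) (M : ℕ) :
    ∃ (s : WPS ℂ) (f : ℕ → WPS ℂ) (w : ℕ → Wsub a), s ≠ 0 ∧
      ∀ i < M, ι s * c i = ι (f i) + j (w i) := by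
  induction M with
  | zero => exact ⟨1, fun _ => 0, fun _ => 0, one_ne_zero, fun i hi => absurd hi (by omega)⟩
  | succ M ih =>
    obtain ⟨s, f, w, hs, h⟩ := ih
    obtain ⟨s', f', w', hs', h'⟩ := hP.frac (c M)
    refine ⟨s * s', fun i => if i < M then s' * f i else s * f',
      fun i => if i < M then ⟨_, ap_mem_Wsub a (WPS.ev a hb s') (w i).2⟩
        else ⟨_, ap_mem_Wsub a (WPS.ev a hb s) w'.2⟩, mul_ne_zero hs hs', ?_⟩
    intro i hi
    by_cases him : i < M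
    · simp only [him, if_true]
      rw [map_mul, mul_comm (ι s), mul_assoc, h i him, mul_add, map_mul,
        hP.ι_j s' (w i) ⟨_, ap_mem_Wsub a (WPS.ev a hb s') (w i).2⟩ rfl]
    · have hiM : i = M := by omega
      subst hiM
      simp only [him, if_false]
      rw [map_mul, mul_assoc, h', mul_add, map_mul,
        hP.ι_j s w' ⟨_, ap_mem_Wsub a (WPS.ev a hb s) w'.2⟩ rfl]

/-- the operator identity -/
theorem hens_op {R : Type} [CommRing R] (A g G k m : R) (T : ℕ → R) (M : ℕ)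
    (hg : g * G = 1)
    (hk : k = 1 + m * ∑ i ∈ Finset.range M, (G * T i * A ^ i) * m ^ i * k ^ (i + 2)) :
    A * g * (A * k) = A * g * A + ∑ i ∈ Finset.range M,
      T i * ((A * (k * m)) ^ (i + 1) * (A * k)) := by
  have h1 : g * k = g + ∑ i ∈ Finset.range M, T i * A ^ i * m ^ (i + 1) * k ^ (i + 2) := by
    conv_lhs => rw [hk]
    rw [mul_add, mul_one, Finset.mul_sum, Finset.mul_sum]
    congr 1
    refine Finset.sum_congr rfl (fun i _ => ?_)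
    calc g * (m * ((G * T i * A ^ i) * m ^ i * k ^ (i + 2)))
        = (g * G) * (T i * A ^ i * m ^ (i + 1) * k ^ (i + 2)) := by ring
      _ = _ := by rw [hg, one_mul]
  calc A * g * (A * k) = A * A * (g * k) := by ring
    _ = A * A * g + ∑ i ∈ Finset.range M, A * A * (T i * A ^ i * m ^ (i + 1) * k ^ (i + 2)) := by
        rw [h1, mul_add, Finset.mul_sum]
    _ = _ := by
        congr 1
        · ring
        · exact Finset.sum_congr rfl (fun i _ => by ring)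

omit [CompleteSpace E] in
/-- `ap` of a finite sum -/
theorem hens_ap_sum (T : ℕ → Mult E) (M : ℕ) (x : E) :
    (∑ i ∈ Finset.range M, T i).ap x = ∑ i ∈ Finset.range M, (T i).ap x := by
  induction M with
  | zero => simp
  | succ M ih => rw [Finset.sum_range_succ, Finset.sum_range_succ, Mult.ap_add, ih]

/-- the fixed point equation -/
theorem hens_fix (a : Mult E) (ha : QN a) (hb : ∃ K : ℝ, ∀ n : ℕ, ‖a ^ n‖ ≤ K)
    (hd : ∀ x : E, ∀ ε : ℝ, 0 < ε → ∃ y, ‖x - a.ap y‖ < ε) {L : Type} [CommRing L]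
    [Algebra ℂ L] {π : L →ₐ[ℂ] FractionRing (WPS ℂ)} {ι : WPS ℂ →ₐ[ℂ] L}
    {j : Wsub a →ₗ[ℂ] L} (hP : IsPkg a hb L π ι j) (c : ℕ → L) (M : ℕ) (w0 : Wsub a) :
    ∃ v : Wsub a, j v = j w0 + ∑ i ∈ Finset.range M, c i * (j v) ^ (i + 2) := by
  obtain ⟨s, f, w, hs, hf⟩ := hens_frac a hb hP c M
  obtain ⟨N, g, hsg, hg0⟩ := WPS.factor s hs
  obtain ⟨w', hw', hw0⟩ := hens_div a hd N w0 w0.2
  have hgu := isUnit_ev a ha hb g hg0
  obtain ⟨G, hG⟩ := hgu.exists_right_inv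
  have hm : QN (Mult.L w') := QN_L a ha hw'
  set T : ℕ → Mult E := fun i => WPS.ev a hb (f i) + Mult.L (w i : E) with hT
  set A : Mult E := a ^ N with hA
  obtain ⟨k, hk⟩ := solve (Mult.L w') hm
    (∑ i ∈ Finset.range M, Polynomial.C ((G * T i * A ^ i) * (Mult.L w') ^ i) *
      Polynomial.X ^ (i + 2))
  have hk' : k = 1 + Mult.L w' * ∑ i ∈ Finset.range M,
      (G * T i * A ^ i) * (Mult.L w') ^ i * k ^ (i + 2) := by
    rw [Polynomial.eval_finsetSum] at hk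
    simpa using hk
  have hop := hens_op A (WPS.ev a hb g) G k (Mult.L w') T M hG hk'
  have hvm : (A * k).ap w' ∈ Wsub a := ap_mem_Wsub a _ hw'
  set v : Wsub a := ⟨(A * k).ap w', hvm⟩ with hv
  refine ⟨v, ?_⟩
  -- `ev s = A * ev g`
  have hevs : WPS.ev a hb s = A * WPS.ev a hb g := by
    rw [hsg, map_mul, map_pow, WPS.ev_X]
  -- `L v`
  have hLv : Mult.L (v : E) = A * (k * Mult.L w') := by
    show Mult.L ((A * k).ap w') = _
    rw [← Mult.mul_L, mul_assoc]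
  -- the powers
  have hvi : ∀ i : ℕ, ((Mult.L (v : E)) ^ (i + 1)).ap (v : E) ∈ Wsub a :=
    fun i => ap_mem_Wsub a _ v.2
  have hpow : ∀ i : ℕ, (j v) ^ (i + 2) = j ⟨_, hvi i⟩ :=
    fun i => hens_pow a hb hP v (i + 1) _ rfl
  -- action of `T i`
  have hTact : ∀ i < M, ∀ x : Wsub a, ι s * c i * j x =
      j ⟨(T i).ap (x : E), ap_mem_Wsub a _ x.2⟩ := by
    intro i hi x
    rw [hf i hi, add_mul, hP.ι_j (f i) x ⟨_, ap_mem_Wsub a (WPS.ev a hb (f i)) x.2⟩ rfl,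
      hP.j_mul (w i) x ⟨_, ap_mem_Wsub a (Mult.L (w i : E)) x.2⟩ rfl, ← map_add]
    rfl
  have hunit : IsUnit (ι s) := by
    refine hP.unit _ ?_
    rw [hP.π_ι]
    intro h
    exact hs ((IsFractionRing.injective (WPS ℂ) (FractionRing (WPS ℂ))) (by rw [h, map_zero]))
  refine hunit.mul_left_cancel ?_
  rw [mul_add, Finset.mul_sum, hP.ι_j s v ⟨_, ap_mem_Wsub a (WPS.ev a hb s) v.2⟩ rfl,
    hP.ι_j s w0 ⟨_, ap_mem_Wsub a (WPS.ev a hb s) w0.2⟩ rfl]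
  have hsum : ∑ i ∈ Finset.range M, ι s * (c i * (j v) ^ (i + 2)) =
      ∑ i ∈ Finset.range M, j ⟨(T i).ap (((Mult.L (v : E)) ^ (i + 1)).ap (v : E)),
        ap_mem_Wsub a _ (hvi i)⟩ := by
    refine Finset.sum_congr rfl (fun i hi => ?_)
    rw [← mul_assoc, hpow i, hTact i (Finset.mem_range.1 hi)]
  rw [hsum, ← map_sum, ← map_add]
  refine congrArg j (Subtype.ext ?_)
  have hcoe : ((∑ i ∈ Finset.range M, (⟨(T i).ap (((Mult.L (v : E)) ^ (i + 1)).ap (v : E)),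
      ap_mem_Wsub a _ (hvi i)⟩ : Wsub a) : Wsub a) : E) =
      ∑ i ∈ Finset.range M, (T i).ap (((Mult.L (v : E)) ^ (i + 1)).ap (v : E)) := by
    rw [Submodule.coe_sum]
  show (WPS.ev a hb s).ap (v : E) = (WPS.ev a hb s).ap (w0 : E) + _
  rw [hcoe, hevs, ← hw0]
  have h1 := congrArg (fun Z : Mult E => Z.ap w') hop
  simp only [Mult.ap_add, hens_ap_sum] at h1
  have h2 : ((A * WPS.ev a hb g) * (A * k)).ap w' = (A * WPS.ev a hb g).ap (v : E) := rfl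
  have h3 : ((A * WPS.ev a hb g) * A).ap w' = (A * WPS.ev a hb g).ap (A.ap w') := rfl
  rw [h2, h3] at h1
  rw [h1]
  congr 1
  refine Finset.sum_congr rfl (fun i _ => ?_)
  rw [hLv]
  rfl

theorem hensel (a : Mult E) (ha : QN a) (hb : ∃ K : ℝ, ∀ n : ℕ, ‖a ^ n‖ ≤ K)
    (hd : ∀ x : E, ∀ ε : ℝ, 0 < ε → ∃ y, ‖x - a.ap y‖ < ε) {L : Type} [CommRing L]
    [Algebra ℂ L] {π : L →ₐ[ℂ] FractionRing (WPS ℂ)} {ι : WPS ℂ →ₐ[ℂ] L}
    {j : Wsub a →ₗ[ℂ] L} (hP : IsPkg a hb L π ι j) (P : Polynomial L) (hm : P.Monic) (l₀ : L)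
    (h0 : π (P.eval l₀) = 0) (h1 : π (P.derivative.eval l₀) ≠ 0) :
    ∃ l, P.eval l = 0 ∧ π l = π l₀ := by
  set Q := Polynomial.taylor l₀ P with hQ
  have hQ0 : Q.coeff 0 = P.eval l₀ := Polynomial.taylor_coeff_zero l₀ P
  have hQ1 : Q.coeff 1 = P.derivative.eval l₀ := Polynomial.taylor_coeff_one l₀ P
  have hu : IsUnit (Q.coeff 1) := hP.unit _ (by rw [hQ1]; exact h1)
  obtain ⟨u, hu'⟩ := hu.exists_right_inv
  obtain ⟨w0, hw0⟩ := hP.ker (-(u * Q.coeff 0)) (by rw [map_neg, map_mul, hQ0, h0]; simp)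
  obtain ⟨v, hv⟩ := hens_fix a ha hb hd hP (fun i => -(u * Q.coeff (i + 2))) Q.natDegree w0
  refine ⟨j v + l₀, ?_, by rw [map_add, hP.π_j, zero_add]⟩
  rw [← Polynomial.taylor_eval, ← hQ, Polynomial.eval_eq_sum_range' (n := Q.natDegree + 2)
    (by omega), Finset.sum_range_succ', Finset.sum_range_succ']
  have hsum : ∑ i ∈ Finset.range Q.natDegree, -(u * Q.coeff (i + 2)) * (j v) ^ (i + 2) =
      -(u * ∑ i ∈ Finset.range Q.natDegree, Q.coeff (i + 2) * (j v) ^ (i + 2)) := by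
    rw [Finset.mul_sum, ← Finset.sum_neg_distrib]
    exact Finset.sum_congr rfl (fun i _ => by ring)
  rw [← hw0] at hv
  rw [hsum] at hv
  have h2 : Q.coeff 1 * j v = -(Q.coeff 0 +
      ∑ i ∈ Finset.range Q.natDegree, Q.coeff (i + 2) * (j v) ^ (i + 2)) := by
    conv_lhs => rw [hv]
    calc Q.coeff 1 * (-(u * Q.coeff 0) + -(u * ∑ i ∈ Finset.range Q.natDegree,
          Q.coeff (i + 2) * (j v) ^ (i + 2)))
        = -((Q.coeff 1 * u) * (Q.coeff 0 + ∑ i ∈ Finset.range Q.natDegree,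
          Q.coeff (i + 2) * (j v) ^ (i + 2))) := by ring
      _ = _ := by rw [hu', one_mul]
  have h3 : ∀ i, Q.coeff (i + 1 + 1) * (j v) ^ (i + 1 + 1) = Q.coeff (i + 2) * (j v) ^ (i + 2) :=
    fun i => rfl
  simp only [h3, zero_add, pow_one, pow_zero, mul_one]
  rw [h2]
  ring

end
end ACG
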