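import Mathlib

set_option autoImplicit false

/-!
LIFT: sections of the residue map of a Henselian local ring of residue characteristic zero.
-/

namespace ACG

open Polynomial

/-- admissible subalgebras: `π` is injective on them and they contain the `y i` -/
private def LiftAdm {F L K ι : Type} [Field F] [CommRing L] [Field K] [Algebra F L] [Algebra F K]
    (π : L →ₐ[F] K) (y : ι → L) : Set (Subalgebra F L) :=
  {S | (∀ s ∈ S, π s = 0 → s = 0) ∧ ∀ i, y i ∈ S}

private lemma lift_max {F L K ι : Type} [Field F] [CommRing L] [Field K] [Algebra F L]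
    [Algebra F K] (π : L →ₐ[F] K) (x : ι → K) (hx : AlgebraicIndependent F x) (y : ι → L)
    (hy : ∀ i, π (y i) = x i) : ∃ S : Subalgebra F L, Maximal (· ∈ LiftAdm π y) S := by
  classical
  have h0 : (MvPolynomial.aeval (R := F) y).range ∈ LiftAdm π y := by
    constructor
    · rintro s ⟨p, rfl⟩ hp
      have h1 : MvPolynomial.aeval x p = 0 := by
        have h2 : (π.comp (MvPolynomial.aeval (R := F) y)) = MvPolynomial.aeval x := by
          apply MvPolynomial.algHom_ext
          intro i
          simp [hy]
        rw [← h2]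
        exact hp
      have h3 : p = 0 := hx.eq_zero_of_aeval_eq_zero p h1
      simp [h3]
    · intro i
      exact ⟨MvPolynomial.X i, by simp⟩
  obtain ⟨S, -, hS⟩ := zorn_le_nonempty₀ (LiftAdm π y) (by
    intro c hc hchain s₀ hs₀
    have hne : Nonempty c := ⟨⟨s₀, hs₀⟩⟩
    have hdir : Directed (· ≤ ·) (fun s : c => (s : Subalgebra F L)) := by
      rintro ⟨a, ha⟩ ⟨b, hb⟩
      rcases hchain.total ha hb with h | h
      · exact ⟨⟨b, hb⟩, h, le_rfl⟩
      · exact ⟨⟨a, ha⟩, le_rfl, h⟩
    refine ⟨⨆ s : c, (s : Subalgebra F L), ⟨?_, ?_⟩, ?_⟩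
    · intro s hs hπs
      have hs' : s ∈ ((⨆ s : c, (s : Subalgebra F L) : Subalgebra F L) : Set L) := hs
      rw [Subalgebra.coe_iSup_of_directed hdir, Set.mem_iUnion] at hs'
      obtain ⟨⟨a, ha⟩, has⟩ := hs'
      exact (hc ha).1 s has hπs
    · intro i
      exact (le_iSup (fun s : c => (s : Subalgebra F L)) ⟨s₀, hs₀⟩) ((hc hs₀).2 i)
    · intro z hz
      exact le_iSup (fun s : c => (s : Subalgebra F L)) ⟨z, hz⟩) _ h0
  exact ⟨S, hS⟩

private lemma lift_ext {F L K ι : Type} [Field F] [CommRing L] [Field K] [Algebra F L]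
    [Algebra F K] (π : L →ₐ[F] K) (y : ι → L) {S : Subalgebra F L}
    (hS : Maximal (· ∈ LiftAdm π y) S) (l : L)
    (hl : ∀ p : S[X], π (aeval l p) = 0 → aeval l p = 0) : l ∈ S := by
  set T : Subalgebra F L := ((Polynomial.aeval l : S[X] →ₐ[S] L).range).restrictScalars F with hT
  have hle : S ≤ T := by
    intro s hs
    rw [hT, Subalgebra.mem_restrictScalars]
    exact ⟨C ⟨s, hs⟩, by simp [Subalgebra.algebraMap_def]⟩
  have hlT : l ∈ T := by
    rw [hT, Subalgebra.mem_restrictScalars]
    exact ⟨X, by simp⟩
  have hTA : T ∈ LiftAdm π y := by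
    constructor
    · intro s hs hπs
      rw [hT, Subalgebra.mem_restrictScalars] at hs
      obtain ⟨p, rfl⟩ := hs
      exact hl p hπs
    · intro i
      exact hle (hS.1.2 i)
  exact hS.2 hTA hle hlT

theorem lift {F L K ι : Type} [Field F] [CommRing L] [Field K] [Algebra F L] [Algebra F K]
    [CharZero K] (π : L →ₐ[F] K) (hπ : Function.Surjective π) (H0 : ∀ l, π l ≠ 0 → IsUnit l)
    (H1 : ∀ P : Polynomial L, P.Monic → ∀ l₀, π (P.eval l₀) = 0 →
      π (P.derivative.eval l₀) ≠ 0 → ∃ l, P.eval l = 0 ∧ π l = π l₀)
    (x : ι → K) (hx : AlgebraicIndependent F x) (y : ι → L) (hy : ∀ i, π (y i) = x i) :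
    ∃ σ : K →ₐ[F] L, (∀ k, π (σ k) = k) ∧ ∀ i, σ (x i) = y i := by
  classical
  obtain ⟨S, hS⟩ := lift_max π x hx y hy
  have hinj : ∀ s ∈ S, π s = 0 → s = 0 := hS.1.1
  -- inverses
  have hinv : ∀ s ∈ S, s ≠ 0 → ∃ t ∈ S, s * t = 1 := by
    intro s hs hs0
    have hπs : π s ≠ 0 := fun h => hs0 (hinj s hs h)
    obtain ⟨u, hu⟩ := H0 s hπs
    set t : L := ((u⁻¹ : Lˣ) : L) with ht
    have hst : s * t = 1 := by rw [← hu, ht]; exact u.mul_inv
    refine ⟨t, lift_ext π y hS t ?_, hst⟩
    intro p hp
    have hmem : s ^ p.natDegree * aeval t p ∈ S := by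
      rw [aeval_eq_sum_range, Finset.mul_sum]
      refine S.sum_mem fun i hi => ?_
      rw [Finset.mem_range] at hi
      have e : s ^ p.natDegree * (p.coeff i • t ^ i) =
          (p.coeff i : L) * s ^ (p.natDegree - i) := by
        have e1 : s ^ p.natDegree = s ^ (p.natDegree - i) * s ^ i := by
          rw [← pow_add]
          congr 1
          omega
        have e2 : s ^ i * t ^ i = 1 := by rw [← mul_pow, hst, one_pow]
        rw [Algebra.smul_def, Subalgebra.algebraMap_def, e1]
        calc s ^ (p.natDegree - i) * s ^ i * ((p.coeff i : L) * t ^ i)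
            = (p.coeff i : L) * s ^ (p.natDegree - i) * (s ^ i * t ^ i) := by ring
          _ = _ := by rw [e2, mul_one]
      rw [e]
      exact S.mul_mem (p.coeff i).2 (S.pow_mem hs _)
    have hz : s ^ p.natDegree * aeval t p = 0 := by
      apply hinj _ hmem
      rw [map_mul, hp, mul_zero]
    have : t ^ p.natDegree * (s ^ p.natDegree * aeval t p) = 0 := by rw [hz, mul_zero]
    rwa [← mul_assoc, ← mul_pow, mul_comm t s, hst, one_pow, one_mul] at this
  -- the restriction of `π` to `S`
  set e : S →+* K := (π : L →+* K).comp (S.subtype) with he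
  have heinj : Function.Injective e := by
    rw [injective_iff_map_eq_zero]
    intro s hs
    exact Subtype.ext (hinj s s.2 hs)
  have hev : ∀ (l : L) (p : S[X]), π (aeval l p) = p.eval₂ e (π l) := by
    intro l p
    rw [aeval_def, ← AlgHom.coe_toRingHom π, hom_eval₂]
    rfl
  have hsurj : ∀ f : K, ∃ s ∈ S, π s = f := by
    intro f
    obtain ⟨l₀, hl₀⟩ := hπ f
    by_cases halg : ∃ p : S[X], p ≠ 0 ∧ p.eval₂ e f = 0
    · -- choose a polynomial of minimal degree
      have hex : ∃ d, ∃ p : S[X], p ≠ 0 ∧ p.eval₂ e f = 0 ∧ p.natDegree = d := by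
        obtain ⟨p, hp0, hp⟩ := halg
        exact ⟨_, p, hp0, hp, rfl⟩
      have hspec := Nat.find_spec hex
      obtain ⟨p, hp0, hpf, hpd⟩ := hspec
      have hmin : ∀ q : S[X], q ≠ 0 → q.eval₂ e f = 0 → p.natDegree ≤ q.natDegree := by
        intro q hq0 hq
        rw [hpd]
        exact Nat.find_min' hex ⟨q, hq0, hq, rfl⟩
      -- make it monic
      have hlc : (p.leadingCoeff : L) ≠ 0 := by
        intro h
        apply hp0
        rw [← leadingCoeff_eq_zero]
        exact Subtype.ext h
      obtain ⟨t, htS, ht⟩ := hinv _ p.leadingCoeff.2 hlc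
      set m : S[X] := C (⟨t, htS⟩ : S) * p with hm
      have htt : (⟨t, htS⟩ : S) * p.leadingCoeff = 1 := by
        apply Subtype.ext
        show t * (p.leadingCoeff : L) = 1
        rw [mul_comm]
        exact ht
      have hmonic : m.Monic := monic_C_mul_of_mul_leadingCoeff_eq_one htt
      have hmf : m.eval₂ e f = 0 := by
        rw [hm, eval₂_mul, hpf, mul_zero]
      have hmdeg : m.natDegree ≤ p.natDegree := by
        rw [hm]
        exact natDegree_C_mul_le _ _
      have hntS : Nontrivial S := by
        refine ⟨⟨0, 1, fun h => ?_⟩⟩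
        have := congrArg e h
        rw [map_zero, map_one] at this
        exact zero_ne_one this
      -- divisibility
      have hdiv : ∀ q : S[X], q.eval₂ e f = 0 → ∃ r, q = m * r := by
        intro q hq
        refine ⟨q /ₘ m, ?_⟩
        have h1 := modByMonic_add_div q m
        have h2 : q %ₘ m = 0 := by
          by_contra hne
          have h3 : (q %ₘ m).eval₂ e f = 0 := by
            have := congrArg (fun r => r.eval₂ e f) h1
            simp only [eval₂_add, eval₂_mul, hmf, zero_mul, add_zero, hq] at this
            exact this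
          have h4 := hmin _ hne h3
          have h5 : (q %ₘ m).degree < m.degree := degree_modByMonic_lt q hmonic
          have h6 := natDegree_lt_natDegree hne h5
          omega
        rw [h2, zero_add] at h1
        exact h1.symm
      -- positive degree and separability
      have hpos : 0 < m.natDegree := by
        rw [Nat.pos_iff_ne_zero]
        intro h0
        have : m = 1 := hmonic.natDegree_eq_zero.mp h0
        rw [this, eval₂_one] at hmf
        exact one_ne_zero hmf
      have hder : m.derivative.eval₂ e f ≠ 0 := by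
        intro hd
        have hdlt : m.derivative.natDegree < m.natDegree := natDegree_derivative_lt hpos.ne'
        have hd0 : m.derivative ≠ 0 := by
          intro h
          have h1 := congrArg (fun r => e (r.coeff (m.natDegree - 1))) h
          simp only [coeff_derivative, coeff_zero, map_zero, map_mul] at h1
          rw [show m.natDegree - 1 + 1 = m.natDegree by omega, hmonic.coeff_natDegree, map_one,
            one_mul, map_add, map_natCast, map_one] at h1
          have h2 : ((m.natDegree : ℕ) : K) = 0 := by
            rw [← h1, Nat.cast_sub hpos]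
            push_cast
            ring
          rw [Nat.cast_eq_zero] at h2
          omega
        have := hmin _ hd0 hd
        omega
      -- Hensel
      set P : L[X] := m.map S.subtype with hP
      have hPm : P.Monic := hmonic.map _
      have hPev : ∀ l (q : S[X]), (q.map S.subtype).eval l = aeval l q := by
        intro l q
        rw [eval_map, aeval_def]
        rfl
      obtain ⟨l, hl1, hl2⟩ := H1 P hPm l₀ (by
          rw [hP, hPev, hev, hl₀]
          exact hmf) (by
          rw [hP, derivative_map, hPev, hev, hl₀]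
          exact hder)
      refine ⟨l, lift_ext π y hS l ?_, by rw [hl2, hl₀]⟩
      intro q hq
      rw [hev, hl2, hl₀] at hq
      obtain ⟨r, rfl⟩ := hdiv q hq
      rw [map_mul]
      have : aeval l m = 0 := by
        rw [← hPev]
        exact hl1
      rw [this, zero_mul]
    · -- transcendental
      push Not at halg
      refine ⟨l₀, lift_ext π y hS l₀ ?_, hl₀⟩
      intro p hp
      rw [hev, hl₀] at hp
      have : p = 0 := by
        by_contra hne
        exact halg p hne hp
      rw [this, map_zero]
  -- the inverse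
  set e' : S →ₐ[F] K := π.comp S.val with he'
  have hbij : Function.Bijective e' := by
    constructor
    · rw [injective_iff_map_eq_zero]
      intro s hs
      exact Subtype.ext (hinj s s.2 hs)
    · intro f
      obtain ⟨s, hs, hsf⟩ := hsurj f
      exact ⟨⟨s, hs⟩, hsf⟩
  set E : S ≃ₐ[F] K := AlgEquiv.ofBijective e' hbij with hE
  have hEap : ∀ s : S, E s = π s := fun s => rfl
  refine ⟨S.val.comp (E.symm : K →ₐ[F] S), ?_, ?_⟩
  · intro k
    show π ((E.symm k : S) : L) = k
    rw [← hEap, AlgEquiv.apply_symm_apply]
  · intro i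
    show ((E.symm (x i) : S) : L) = y i
    have : E ⟨y i, hS.1.2 i⟩ = x i := by
      rw [hEap]
      exact hy i
    rw [← this, AlgEquiv.symm_apply_apply]

end ACG
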