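import Pool.Agent.ACG.WPS

set_option autoImplicit false

/-!
TRANS: `X` and `exp X` are algebraically independent.
-/

namespace ACG
open PowerSeries

/-- the exponential series -/
noncomputable def expS : WPS ℂ := WPS.mk (PowerSeries.exp ℂ) (by
  have h := Real.summable_pow_div_factorial 1
  refine h.congr (fun n => ?_)
  rw [PowerSeries.coeff_exp, one_pow]
  simp)

private theorem val_expS : WPS.val expS = PowerSeries.exp ℂ := rfl

open Polynomial in
private theorem deriv_term (a : ℂ[X]) (k : ℕ) :
    PowerSeries.derivative ℂ ((a : PowerSeries ℂ) * PowerSeries.exp ℂ ^ k)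
      = ((Polynomial.derivative a + Polynomial.C (k : ℂ) * a : ℂ[X]) : PowerSeries ℂ)
        * PowerSeries.exp ℂ ^ k := by
  rw [Derivation.leibniz, Derivation.leibniz_pow, PowerSeries.derivative_coe,
    PowerSeries.derivative_exp, Polynomial.coe_add, Polynomial.coe_mul, Polynomial.coe_C]
  rcases k with _ | k
  · simp
  · simp only [smul_eq_mul, nsmul_eq_mul, Nat.add_sub_cancel, map_natCast]
    ring

open Polynomial in
private theorem indep (N : ℕ) : ∀ (s : Finset ℕ) (a : ℕ → ℂ[X]),
    (∑ k ∈ s, (if a k = 0 then 0 else (a k).natDegree + 1)) ≤ N →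
    (∑ k ∈ s, (a k : PowerSeries ℂ) * PowerSeries.exp ℂ ^ k) = 0 → ∀ k ∈ s, a k = 0 := by
  induction N with
  | zero =>
    intro s a hN _ k hk
    by_contra hne
    have h1 := (Finset.sum_eq_zero_iff.1 (Nat.le_zero.1 hN)) k hk
    rw [if_neg hne] at h1
    exact Nat.succ_ne_zero _ h1
  | succ N ih =>
    intro s a hN hsum
    by_contra hcon
    push Not at hcon
    obtain ⟨j, hj, hja⟩ := hcon
    obtain ⟨b, hb⟩ : ∃ b : ℕ → ℂ[X], ∀ k,
        b k = Polynomial.derivative (a k) + Polynomial.C ((k : ℂ) - j) * a k :=
      ⟨fun k => Polynomial.derivative (a k) + Polynomial.C ((k : ℂ) - j) * a k, fun _ => rfl⟩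
    have hbsum : (∑ k ∈ s, (b k : PowerSeries ℂ) * PowerSeries.exp ℂ ^ k) = 0 := by
      have h1 : PowerSeries.derivative ℂ
          (∑ k ∈ s, (a k : PowerSeries ℂ) * PowerSeries.exp ℂ ^ k) = 0 := by
        rw [hsum, map_zero]
      rw [map_sum, Finset.sum_congr rfl (fun k _ => deriv_term (a k) k)] at h1
      have h2 : (∑ k ∈ s, (b k : PowerSeries ℂ) * PowerSeries.exp ℂ ^ k)
          = (∑ k ∈ s, ((Polynomial.derivative (a k) + Polynomial.C (k : ℂ) * a k : ℂ[X]) :
              PowerSeries ℂ) * PowerSeries.exp ℂ ^ k)
            - PowerSeries.C (j : ℂ) *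
              ∑ k ∈ s, (a k : PowerSeries ℂ) * PowerSeries.exp ℂ ^ k := by
        rw [Finset.mul_sum, ← Finset.sum_sub_distrib]
        refine Finset.sum_congr rfl (fun k _ => ?_)
        rw [hb, Polynomial.coe_add, Polynomial.coe_add, Polynomial.coe_mul, Polynomial.coe_mul,
          Polynomial.coe_C, Polynomial.coe_C, map_sub]
        ring
      rw [h2, h1, hsum, mul_zero, sub_zero]
    have hle : ∀ k ∈ s, (if b k = 0 then 0 else (b k).natDegree + 1)
        ≤ (if a k = 0 then 0 else (a k).natDegree + 1) := by
      intro k _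
      by_cases hak : a k = 0
      · have : b k = 0 := by rw [hb, hak]; simp
        rw [if_pos this, if_pos hak]
      · rw [if_neg hak]
        split_ifs
        · exact Nat.zero_le _
        · have h1 : (b k).natDegree ≤ (a k).natDegree := by
            rw [hb]
            refine (Polynomial.natDegree_add_le _ _).trans (max_le ?_ ?_)
            · exact (Polynomial.natDegree_derivative_le _).trans (Nat.sub_le _ _)
            · exact Polynomial.natDegree_C_mul_le _ _
          omega
    have hlt : (if b j = 0 then 0 else (b j).natDegree + 1)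
        < (if a j = 0 then 0 else (a j).natDegree + 1) := by
      rw [if_neg hja]
      split_ifs with hbj
      · exact Nat.succ_pos _
      · have hbj' : b j = Polynomial.derivative (a j) := by
          rw [hb, sub_self, map_zero, zero_mul, add_zero]
        have hne : (a j).natDegree ≠ 0 := by
          intro h0
          apply hbj
          rw [hbj']
          exact Polynomial.derivative_of_natDegree_zero h0
        have := Polynomial.natDegree_derivative_lt hne
        rw [hbj']
        omega
    have hsumlt := Finset.sum_lt_sum hle ⟨j, hj, hlt⟩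
    have hbz := ih s b (by omega) hbsum
    have haz : ∀ k ∈ s, k ≠ j → a k = 0 := by
      intro k hk hkj
      by_contra hak
      have h1 : Polynomial.derivative (a k) = - (Polynomial.C ((k : ℂ) - j) * a k) := by
        have := hbz k hk
        rw [hb] at this
        exact eq_neg_of_add_eq_zero_left this
      have hkj' : (k : ℂ) - j ≠ 0 := sub_ne_zero.2 (by exact_mod_cast hkj)
      have h2 : (Polynomial.derivative (a k)).degree < (a k).degree :=
        Polynomial.degree_derivative_lt hak
      rw [h1, Polynomial.degree_neg, Polynomial.degree_C_mul hkj'] at h2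
      exact lt_irrefl _ h2
    have hfin : (a j : PowerSeries ℂ) * PowerSeries.exp ℂ ^ j = 0 := by
      have h1 := Finset.sum_eq_single_of_mem (s := s)
        (f := fun k => (a k : PowerSeries ℂ) * PowerSeries.exp ℂ ^ k) j hj (fun k hk hkj => by
          show (a k : PowerSeries ℂ) * PowerSeries.exp ℂ ^ k = 0
          rw [haz k hk hkj, Polynomial.coe_zero, zero_mul])
      exact h1.symm.trans hsum
    have hexp : PowerSeries.exp ℂ ^ j ≠ 0 := by
      refine pow_ne_zero j (fun h => ?_)
      have h1 := PowerSeries.constantCoeff_exp (A := ℂ)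
      rw [h, map_zero] at h1
      exact zero_ne_one h1
    have h3 := (mul_eq_zero.1 hfin).resolve_right hexp
    exact hja (Polynomial.coe_eq_zero_iff.1 h3)

open Polynomial in
private theorem indep_poly (q : ℂ[X][X])
    (h : q.eval₂ (Polynomial.coeToPowerSeries.ringHom) (PowerSeries.exp ℂ) = 0) : q = 0 := by
  rw [Polynomial.eval₂_eq_sum_range] at h
  have h1 := indep _ (Finset.range (q.natDegree + 1)) (fun k => q.coeff k) le_rfl (by
    simpa using h)
  ext1 k
  by_cases hk : k < q.natDegree + 1
  · rw [h1 k (Finset.mem_range.2 hk), Polynomial.coeff_zero]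
  · rw [Polynomial.coeff_eq_zero_of_natDegree_lt (by omega), Polynomial.coeff_zero]

theorem algInd : AlgebraicIndependent ℂ ![(WPS.X : WPS ℂ), expS] := by
  rw [algebraicIndependent_iff]
  intro p hp
  -- the two variable polynomial as a polynomial in `Y` with coefficients in `ℂ[X]`
  let θ : MvPolynomial (Fin 2) ℂ →+* Polynomial (Polynomial ℂ) :=
    MvPolynomial.eval₂Hom (Polynomial.C.comp Polynomial.C)
      ![Polynomial.C Polynomial.X, Polynomial.X]
  let θ' : Polynomial (Polynomial ℂ) →+* MvPolynomial (Fin 2) ℂ :=
    Polynomial.eval₂RingHom (Polynomial.eval₂RingHom MvPolynomial.C (MvPolynomial.X 0))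
      (MvPolynomial.X 1)
  have hθ : θ'.comp θ = RingHom.id _ := by
    apply MvPolynomial.ringHom_ext
    · intro c
      simp [θ, θ']
    · intro i
      fin_cases i <;> simp [θ, θ']
  have hev : (Polynomial.eval₂RingHom (Polynomial.coeToPowerSeries.ringHom (R := ℂ))
      (PowerSeries.exp ℂ)).comp θ
      = (WPS.val : WPS ℂ →ₐ[ℂ] PowerSeries ℂ).toRingHom.comp
        (MvPolynomial.aeval ![(WPS.X : WPS ℂ), expS]).toRingHom := by
    apply MvPolynomial.ringHom_ext
    · intro c
      simp [θ]
    · intro i
      fin_cases i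
      · simp [θ]
      · simp [θ, val_expS]
  have h1 : (θ p).eval₂ (Polynomial.coeToPowerSeries.ringHom (R := ℂ)) (PowerSeries.exp ℂ) = 0 := by
    have h2 := congrArg (fun g => g p) hev
    simp only [RingHom.comp_apply] at h2
    rw [Polynomial.coe_eval₂RingHom] at h2
    rw [h2]
    change WPS.val ((MvPolynomial.aeval ![(WPS.X : WPS ℂ), expS]) p) = 0
    rw [hp, map_zero]
  have h3 := indep_poly _ h1
  have h4 := congrArg (fun g => g p) hθ
  simp only [RingHom.comp_apply, RingHom.id_apply] at h4
  rw [← h4, h3, map_zero]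

end ACG
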