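import Pool.Agent.ACG.Rng
import Pool.Agent.ACG.Hens
import Pool.Agent.ACG.Lift
import Pool.Agent.ACG.Trans

set_option autoImplicit false

/-!
CORE: the wild perturbation of the functional calculus.
-/

namespace ACG
open PowerSeries

section
variable {E : Type} [NonUnitalNormedCommRing E] [NormedSpace ℂ E] [IsScalarTower ℂ E E]
  [SMulCommClass ℂ E E] [CompleteSpace E] [Red E]

/-- The residue field has characteristic zero. -/
theorem Core_charZero : CharZero (FractionRing (WPS ℂ)) :=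
  charZero_of_injective_algebraMap (algebraMap ℂ (FractionRing (WPS ℂ))).injective

/-- A section of the residue map which agrees with `ι` on `X` but not on `exp X`. -/
theorem Core_section (a : Mult E) (ha : QN a) (hb : ∃ K : ℝ, ∀ n : ℕ, ‖a ^ n‖ ≤ K)
    (hd : ∀ x : E, ∀ ε : ℝ, 0 < ε → ∃ y, ‖x - a.ap y‖ < ε) {L : Type} [CommRing L]
    [Algebra ℂ L] {π : L →ₐ[ℂ] FractionRing (WPS ℂ)} {ι : WPS ℂ →ₐ[ℂ] L}
    {j : Wsub a →ₗ[ℂ] L} (hP : IsPkg a hb L π ι j) (w₀ : Wsub a) :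
    ∃ σ : FractionRing (WPS ℂ) →ₐ[ℂ] L, (∀ k, π (σ k) = k) ∧
      σ (algebraMap (WPS ℂ) (FractionRing (WPS ℂ)) WPS.X) = ι WPS.X ∧
      σ (algebraMap (WPS ℂ) (FractionRing (WPS ℂ)) expS) = ι expS + j w₀ := by
  have : CharZero (FractionRing (WPS ℂ)) := Core_charZero
  have hinj : Function.Injective
      (IsScalarTower.toAlgHom ℂ (WPS ℂ) (FractionRing (WPS ℂ))) :=
    IsFractionRing.injective (WPS ℂ) (FractionRing (WPS ℂ))
  have hx : AlgebraicIndependent ℂ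
      ((IsScalarTower.toAlgHom ℂ (WPS ℂ) (FractionRing (WPS ℂ))) ∘ ![(WPS.X : WPS ℂ), expS]) :=
    algInd.map' hinj
  obtain ⟨σ, h1, h2⟩ := lift π hP.surj hP.unit
    (fun P hm l₀ h0 h1 => hensel a ha hb hd hP P hm l₀ h0 h1) _ hx
    ![ι WPS.X, ι expS + j w₀] (by
      intro i
      fin_cases i
      · exact hP.π_ι WPS.X
      · show π (ι expS + j w₀) = algebraMap (WPS ℂ) (FractionRing (WPS ℂ)) expS
        rw [map_add, hP.π_ι, hP.π_j, add_zero])
  exact ⟨σ, h1, h2 0, h2 1⟩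

theorem core (a : Mult E) (ha : QN a) (hb : ∃ K : ℝ, ∀ n : ℕ, ‖a ^ n‖ ≤ K)
    (hd : ∀ x : E, ∀ ε : ℝ, 0 < ε → ∃ y, ‖x - a.ap y‖ < ε) (hne : ∃ x : E, x ≠ 0) :
    ∃ lam : WPS ℂ →ₗ[ℂ] E,
      (∀ f g, lam (f * g) = (WPS.ev a hb f).ap (lam g) + (WPS.ev a hb g).ap (lam f) +
        lam f * lam g) ∧
      (∀ n : ℕ, lam (WPS.X ^ n) = 0) ∧ ∃ f, lam f ≠ 0 := by
  obtain ⟨L, _, _, π, ι, j, hP⟩ := exists_pkg a ha hb hd
  obtain ⟨w₀, hw₀, hw0⟩ := exists_Wsub_ne_zero a hd hne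
  obtain ⟨σ, hσ, hX, hexp⟩ := Core_section a ha hb hd hP ⟨w₀, hw₀⟩
  -- the difference of the two sections
  have hdiff : ∀ f : WPS ℂ, ∃ w : Wsub a,
      σ (algebraMap (WPS ℂ) (FractionRing (WPS ℂ)) f) = ι f + j w := by
    intro f
    obtain ⟨w, hw⟩ := hP.ker (σ (algebraMap (WPS ℂ) (FractionRing (WPS ℂ)) f) - ι f) (by
      rw [map_sub, hσ, hP.π_ι, sub_self])
    exact ⟨w, by rw [← hw]; ring⟩
  choose w hw using hdiff
  have hadd : ∀ f g, w (f + g) = w f + w g := by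
    intro f g
    apply hP.j_inj
    have h1 := hw (f + g)
    rw [map_add, map_add, hw f, hw g, map_add] at h1
    rw [map_add]
    linear_combination -h1
  have hsmul : ∀ (c : ℂ) f, w (c • f) = c • w f := by
    intro c f
    apply hP.j_inj
    have h1 := hw (c • f)
    have h2 : algebraMap (WPS ℂ) (FractionRing (WPS ℂ)) (c • f)
        = c • algebraMap (WPS ℂ) (FractionRing (WPS ℂ)) f :=
      map_smul (IsScalarTower.toAlgHom ℂ (WPS ℂ) (FractionRing (WPS ℂ))) c f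
    rw [h2, map_smul, hw f, map_smul, smul_add] at h1
    rw [map_smul]
    exact (add_left_cancel h1).symm
  have hmul : ∀ f g, ((w (f * g) : Wsub a) : E) = (WPS.ev a hb f).ap (w g : E)
      + (WPS.ev a hb g).ap (w f : E) + (w f : E) * (w g : E) := by
    intro f g
    have m1 : (WPS.ev a hb f).ap (w g : E) ∈ Wsub a := ap_mem_Wsub a _ (w g).2
    have m2 : (WPS.ev a hb g).ap (w f : E) ∈ Wsub a := ap_mem_Wsub a _ (w f).2
    have m3 : (w f : E) * (w g : E) ∈ Wsub a := ap_mem_Wsub a (Mult.L (w f : E)) (w g).2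
    have e1 : ι f * j (w g) = j ⟨_, m1⟩ := hP.ι_j f (w g) ⟨_, m1⟩ rfl
    have e2 : ι g * j (w f) = j ⟨_, m2⟩ := hP.ι_j g (w f) ⟨_, m2⟩ rfl
    have e3 : j (w f) * j (w g) = j ⟨_, m3⟩ := hP.j_mul (w f) (w g) ⟨_, m3⟩ rfl
    have h1 := hw (f * g)
    rw [map_mul, map_mul, hw f, hw g, map_mul] at h1
    have h2 : w (f * g) = (⟨_, m1⟩ : Wsub a) + ⟨_, m2⟩ + ⟨_, m3⟩ := by
      apply hP.j_inj
      rw [map_add, map_add, ← e1, ← e2, ← e3]
      linear_combination -h1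
    rw [h2]
    rfl
  have hXn : ∀ n : ℕ, w (WPS.X ^ n) = 0 := by
    intro n
    apply hP.j_inj
    have h1 := hw (WPS.X ^ n)
    rw [map_pow, map_pow, hX, map_pow] at h1
    rw [map_zero]
    exact (add_eq_left.1 h1.symm)
  let wl : WPS ℂ →ₗ[ℂ] Wsub a := { toFun := w, map_add' := hadd, map_smul' := hsmul }
  refine ⟨(Wsub a).subtype.comp wl, ?_, ?_, ?_⟩
  · intro f g
    exact hmul f g
  · intro n
    show ((w (WPS.X ^ n) : Wsub a) : E) = 0
    rw [hXn n]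
    rfl
  · refine ⟨expS, ?_⟩
    show ((w expS : Wsub a) : E) ≠ 0
    have h1 := hw expS
    rw [hexp] at h1
    have h2 := hP.j_inj (add_left_cancel h1)
    rw [← h2]
    exact hw0

end
end ACG
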