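import Mathlib

set_option autoImplicit false

/-!
Property (C) of MP_ae3269_an and small definitions used in all modules of the project ACG.
-/

namespace ACG

/-- Property (C): every homomorphism from a Banach algebra into `A` whose range is commutative
is continuous. -/
def PropC (A : Type) [NonUnitalNormedRing A] [NormedSpace ℂ A] [IsScalarTower ℂ A A]
    [SMulCommClass ℂ A A] : Prop :=
  ∀ (B : Type) [NonUnitalNormedRing B] [NormedSpace ℂ B] [IsScalarTower ℂ B B]
    [SMulCommClass ℂ B B] [CompleteSpace B] (θ : B →ₙₐ[ℂ] A),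
    (∀ x y : B, θ x * θ y = θ y * θ x) → Continuous θ

/-- A (non-unital) ring without nonzero elements of square zero. -/
class Red (A : Type) [NonUnitalRing A] : Prop where
  red : ∀ x : A, x * x = 0 → x = 0

/-- Central elements. -/
def Cen {A : Type} [NonUnitalRing A] (z : A) : Prop := ∀ a : A, z * a = a * z

/-- `B` is the `ℓ¹`-hull of the image of the group `G` (`B` is a quotient of `ℓ¹(G)`). -/
structure GA (B : Type) [NormedRing B] [NormedAlgebra ℂ B] (G : Type) [Group G]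
    (δ : G →* B) : Prop where
  norm_le : ∀ g, ‖δ g‖ ≤ 1
  span : ∀ b : B, ∃ (c : ℕ → ℂ) (g : ℕ → G), Summable (fun n => ‖c n‖) ∧
    (∑' n, ‖c n‖) ≤ 2 * ‖b‖ ∧ HasSum (fun n => c n • δ (g n)) b

/-- The elements of `A` on which every `θ (δ g)` acts as the scalar `t g`. -/
def NN {A B G : Type} [NonUnitalNormedRing A] [NormedSpace ℂ A] [IsScalarTower ℂ A A]
    [SMulCommClass ℂ A A] [NormedRing B] [NormedAlgebra ℂ B] [Group G] (θ : B →ₙₐ[ℂ] A)
    (δ : G →* B) (t : G → ℂ) : Submodule ℂ A where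
  carrier := {x | θ 1 * x = x ∧ ∀ g, θ (δ g) * x = t g • x}
  zero_mem' := by simp
  add_mem' := by
    rintro x y ⟨hx, hx'⟩ ⟨hy, hy'⟩
    refine ⟨by rw [mul_add, hx, hy], fun g => by rw [mul_add, hx', hy', smul_add]⟩
  smul_mem' := by
    rintro c x ⟨hx, hx'⟩
    refine ⟨by rw [mul_smul_comm, hx], fun g => ?_⟩
    rw [mul_smul_comm, hx' g, smul_comm]

/-- The situation after localisation: `z` is central, `|t| = 1`, and the separating space of
`b ↦ z θ(b)` is contained in `NN θ δ t`. -/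
structure Sing {A B G : Type} [NonUnitalNormedRing A] [NormedSpace ℂ A] [IsScalarTower ℂ A A]
    [SMulCommClass ℂ A A] [NormedRing B] [NormedAlgebra ℂ B] [Group G] (θ : B →ₙₐ[ℂ] A)
    (δ : G →* B) (z : A) (t : G → ℂ) : Prop where
  cen : Cen z
  norm_t : ∀ g, ‖t g‖ = 1
  sep : ∀ (x : ℕ → B) (y : A), Filter.Tendsto x Filter.atTop (nhds 0) →
    Filter.Tendsto (fun n => z * θ (x n)) Filter.atTop (nhds y) → y ∈ NN θ δ t

/-- Quasi-nilpotent elements, with explicit bounds. -/
def QN {R : Type} [NormedRing R] (m : R) : Prop :=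
  ∀ ε : ℝ, 0 < ε → ∃ C : ℝ, ∀ n : ℕ, ‖m ^ n‖ ≤ C * ε ^ n

/-- The (twisted) positive combinations `∑ p n * conj (t (g n)) * δ (g n)`. -/
noncomputable def pos {B G : Type} [NormedRing B] [NormedAlgebra ℂ B] [Group G]
    (δ : G →* B) (t : G → ℂ) (p : ℕ → ℝ) (g : ℕ → G) : B :=
  ∑' n, ((p n : ℂ) * (starRingEnd ℂ) (t (g n))) • δ (g n)

end ACG
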