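import Pool.Agent.ACG.Star
import Pool.Agent.ACG.Sep

set_option autoImplicit false

/-!
FIN: boundedness gives continuity of `b ↦ z θ(b)`.
-/

namespace ACG

open Filter Topology

section
variable {A B G : Type} [NonUnitalNormedRing A] [NormedSpace ℂ A] [IsScalarTower ℂ A A]
  [SMulCommClass ℂ A A] [CompleteSpace A] [NormedRing B] [NormedAlgebra ℂ B] [CompleteSpace B]
  [Group G]

omit [Group G] in
theorem fin_norm_conj {t : G → ℂ} (ht : ∀ g, ‖t g‖ = 1) (g : G) :
    ‖(starRingEnd ℂ) (t g)‖ = 1 := by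
  rw [RCLike.norm_conj, ht]

theorem fin_prob (hC : PropC A) (θ : B →ₙₐ[ℂ] A) {δ : G →* B} (hG : GA B G δ) {z : A} {t : G → ℂ}
    (hS : Sing θ δ z t) {M : ℝ} (hM : ∀ g, ‖z * θ (δ g)‖ ≤ M) (p : ℕ → ℝ) (hp : ∀ n, 0 ≤ p n)
    (hs : Summable p) (h1 : ∑' n, p n = 1) (g : ℕ → G) : ‖z * θ (pos δ t p g)‖ ≤ M := by
  have hred : Red A := red_of_propC hC
  -- the terms
  set c : ℕ → ℂ := fun n => (p n : ℂ) * (starRingEnd ℂ) (t (g n)) with hc
  have hcn : ∀ n, ‖c n‖ = p n := by
    intro n
    rw [hc]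
    simp only [norm_mul, fin_norm_conj hS.norm_t, mul_one, Complex.norm_real,
      Real.norm_eq_abs, abs_of_nonneg (hp n)]
  have hM0 : 0 ≤ M := (norm_nonneg _).trans (hM 1)
  have hbn : ∀ n, ‖c n • δ (g n)‖ ≤ p n := by
    intro n
    rw [norm_smul, hcn]
    exact mul_le_of_le_one_right (hp n) (hG.norm_le _)
  have hbs : Summable fun n => c n • δ (g n) := Summable.of_norm_bounded hs hbn
  have hbt : Tendsto (fun N => ∑ n ∈ Finset.range N, c n • δ (g n)) atTop (𝓝 (pos δ t p g)) :=
    hbs.hasSum.tendsto_sum_nat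
  have han : ∀ n, ‖c n • (z * θ (δ (g n)))‖ ≤ p n * M := by
    intro n
    rw [norm_smul, hcn]
    exact mul_le_mul_of_nonneg_left (hM _) (hp n)
  have has : Summable fun n => c n • (z * θ (δ (g n))) :=
    Summable.of_norm_bounded (hs.mul_right M) han
  set V : A := ∑' n, c n • (z * θ (δ (g n))) with hV
  have hVt : Tendsto (fun N => ∑ n ∈ Finset.range N, c n • (z * θ (δ (g n)))) atTop (𝓝 V) :=
    has.hasSum.tendsto_sum_nat
  have hVn : ‖V‖ ≤ M := by
    have h2 : ‖V‖ ≤ ∑' n, p n * M := tsum_of_norm_bounded (hs.mul_right M).hasSum han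
    rwa [tsum_mul_right, h1, one_mul] at h2
  have hu : ∀ g, Cen (θ (δ g)) := fun g => cen_u hC θ δ hG.norm_le g
  have hVc : Cen V := by
    intro a
    rw [hV, ← has.tsum_mul_right, ← has.tsum_mul_left]
    refine tsum_congr fun n => ?_
    rw [smul_mul_assoc, mul_smul_comm]
    congr 1
    rw [mul_assoc, hu, ← mul_assoc, hS.cen, mul_assoc]
  set Y : A := z * θ (pos δ t p g) - V with hY
  have hYmem : Y ∈ NN θ δ t := by
    refine hS.sep (fun N => pos δ t p g - ∑ n ∈ Finset.range N, c n • δ (g n)) Y ?_ ?_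
    · have := hbt.const_sub (pos δ t p g)
      rwa [sub_self] at this
    · have h2 : ∀ N, z * θ (pos δ t p g - ∑ n ∈ Finset.range N, c n • δ (g n)) =
          z * θ (pos δ t p g) - ∑ n ∈ Finset.range N, c n • (z * θ (δ (g n))) := by
        intro N
        rw [map_sub, mul_sub, map_sum, Finset.mul_sum]
        congr 1
        refine Finset.sum_congr rfl fun n _ => ?_
        rw [map_smul, mul_smul_comm]
      simp only [h2]
      exact hVt.const_sub _
  have hcomm : Y * θ (pos δ t p g) = θ (pos δ t p g) * Y := by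
    rw [hY, sub_mul, mul_sub, hVc, ← mul_assoc, ← hS.cen (θ (pos δ t p g))]
  have hst := star hC θ hG hS.norm_t p hp hs h1 g Y hYmem hcomm
  have hVY : V * Y = z * Y := by
    rw [hV, ← has.tsum_mul_right]
    have h3 : ∀ n, c n • (z * θ (δ (g n))) * Y = (p n : ℂ) • (z * Y) := by
      intro n
      rw [smul_mul_assoc, mul_assoc, hYmem.2 (g n), mul_smul_comm, smul_smul]
      congr 1
      rw [hc]
      simp only
      rw [mul_assoc, mul_comm ((starRingEnd ℂ) (t (g n))), Complex.mul_conj, Complex.normSq_eq_norm_sq,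
        hS.norm_t]
      simp
    simp only [h3]
    rw [(Complex.hasSum_ofReal.2 hs.hasSum).summable.tsum_smul_const, ← Complex.ofReal_tsum, h1]
    simp
  have hYY : Y * Y = 0 := by
    have h4 : z * Y = (V + Y) * Y := by
      have h5 : V + Y = z * θ (pos δ t p g) := by rw [hY]; abel
      rw [h5, mul_assoc, hst]
    rw [add_mul, hVY] at h4
    exact left_eq_add.1 h4
  have hY0 : Y = 0 := hred.red Y hYY
  have h6 : z * θ (pos δ t p g) = V := by
    rw [← sub_eq_zero]
    exact hY0
  rw [h6]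
  exact hVn

theorem fin_pos (hC : PropC A) (θ : B →ₙₐ[ℂ] A) {δ : G →* B} (hG : GA B G δ) {z : A} {t : G → ℂ}
    (hS : Sing θ δ z t) {M : ℝ} (hM : ∀ g, ‖z * θ (δ g)‖ ≤ M) (p : ℕ → ℝ) (hp : ∀ n, 0 ≤ p n)
    (hs : Summable p) (g : ℕ → G) : ‖z * θ (pos δ t p g)‖ ≤ M * ∑' n, p n := by
  rcases (tsum_nonneg hp).eq_or_lt with h0 | h0
  · have hp0 : ∀ n, p n = 0 := by
      intro n
      have := hs.le_tsum n (fun j _ => hp j)
      exact le_antisymm (this.trans h0.symm.le) (hp n)
    have : pos δ t p g = 0 := by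
      unfold pos
      simp [hp0]
    rw [this, map_zero, mul_zero, norm_zero, ← h0, mul_zero]
  · set s : ℝ := ∑' n, p n with hsd
    have hs' : Summable fun n => s⁻¹ * p n := hs.mul_left _
    have h1' : ∑' n, s⁻¹ * p n = 1 := by
      rw [tsum_mul_left]
      exact inv_mul_cancel₀ h0.ne'
    have h2 := fin_prob hC θ hG hS hM (fun n => s⁻¹ * p n)
      (fun n => mul_nonneg (inv_nonneg.2 h0.le) (hp n)) hs' h1' g
    have h3 : pos δ t p g = (s : ℂ) • pos δ t (fun n => s⁻¹ * p n) g := by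
      unfold pos
      rw [← tsum_const_smul'']
      refine tsum_congr fun n => ?_
      rw [smul_smul]
      congr 1
      push_cast
      have : (s : ℂ) ≠ 0 := by exact_mod_cast h0.ne'
      field_simp
    rw [h3, map_smul, mul_smul_comm, norm_smul, Complex.norm_real, Real.norm_eq_abs,
      abs_of_pos h0, mul_comm]
    exact mul_le_mul_of_nonneg_right h2 h0.le

theorem fin (hC : PropC A) (θ : B →ₙₐ[ℂ] A) {δ : G →* B} (hG : GA B G δ) {z : A} {t : G → ℂ}
    (hS : Sing θ δ z t) (hb : ∃ M : ℝ, ∀ g, ‖z * θ (δ g)‖ ≤ M) :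
    Continuous (fun b => z * θ b) := by
  obtain ⟨M, hM⟩ := hb
  have hM0 : 0 ≤ M := (norm_nonneg _).trans (hM 1)
  let L : B →ₗ[ℂ] A :=
    { toFun := fun b => z * θ b
      map_add' := fun a b => by rw [map_add, mul_add]
      map_smul' := fun r b => by rw [map_smul, mul_smul_comm]; rfl }
  have hbound : ∀ b, ‖L b‖ ≤ (8 * M) * ‖b‖ := by
    intro b
    change ‖z * θ b‖ ≤ _
    obtain ⟨c, g, hcs, hcb, hsum⟩ := hG.span b
    set d : ℕ → ℂ := fun n => c n * t (g n) with hd
    have hdn : ∀ n, ‖d n‖ = ‖c n‖ := by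
      intro n
      rw [hd]
      simp only [norm_mul, hS.norm_t, mul_one]
    have hdc : ∀ n, c n = d n * (starRingEnd ℂ) (t (g n)) := by
      intro n
      rw [hd]
      simp only
      rw [mul_assoc, Complex.mul_conj, Complex.normSq_eq_norm_sq, hS.norm_t]
      simp
    -- the four parts
    have hpart : ∀ q : ℕ → ℝ, (∀ n, 0 ≤ q n) → (∀ n, q n ≤ ‖c n‖) →
        Summable (fun n => ((q n : ℂ) * (starRingEnd ℂ) (t (g n))) • δ (g n)) ∧
        ‖z * θ (pos δ t q g)‖ ≤ M * ∑' n, ‖c n‖ := by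
      intro q hq0 hq1
      have hqs : Summable q := Summable.of_nonneg_of_le hq0 hq1 hcs
      constructor
      · refine Summable.of_norm_bounded hqs fun n => ?_
        rw [norm_smul, norm_mul, fin_norm_conj hS.norm_t, mul_one, Complex.norm_real,
          Real.norm_eq_abs, abs_of_nonneg (hq0 n)]
        exact mul_le_of_le_one_right (hq0 n) (hG.norm_le _)
      · refine (fin_pos hC θ hG hS hM q hq0 hqs g).trans ?_
        exact mul_le_mul_of_nonneg_left (hqs.tsum_le_tsum hq1 hcs) hM0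
    set q1 : ℕ → ℝ := fun n => max (d n).re 0 with hq1
    set q2 : ℕ → ℝ := fun n => max (-(d n).re) 0 with hq2
    set q3 : ℕ → ℝ := fun n => max (d n).im 0 with hq3
    set q4 : ℕ → ℝ := fun n => max (-(d n).im) 0 with hq4
    have hre : ∀ n, |(d n).re| ≤ ‖c n‖ := fun n => (Complex.abs_re_le_norm _).trans (hdn n).le
    have him : ∀ n, |(d n).im| ≤ ‖c n‖ := fun n => (Complex.abs_im_le_norm _).trans (hdn n).le
    obtain ⟨s1, b1⟩ := hpart q1 (fun n => le_max_right _ _)
      (fun n => max_le ((le_abs_self _).trans (hre n)) (norm_nonneg _))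
    obtain ⟨s2, b2⟩ := hpart q2 (fun n => le_max_right _ _)
      (fun n => max_le ((neg_le_abs _).trans (hre n)) (norm_nonneg _))
    obtain ⟨s3, b3⟩ := hpart q3 (fun n => le_max_right _ _)
      (fun n => max_le ((le_abs_self _).trans (him n)) (norm_nonneg _))
    obtain ⟨s4, b4⟩ := hpart q4 (fun n => le_max_right _ _)
      (fun n => max_le ((neg_le_abs _).trans (him n)) (norm_nonneg _))
    have hsplit : ∀ r : ℝ, max r 0 - max (-r) 0 = r := by
      intro r
      rcases le_total r 0 with h | h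
      · rw [max_eq_right h, max_eq_left (by linarith)]; ring
      · rw [max_eq_left h, max_eq_right (by linarith)]; ring
    have hdec : b = pos δ t q1 g - pos δ t q2 g + Complex.I • (pos δ t q3 g - pos δ t q4 g) := by
      have hH : HasSum (fun n => c n • δ (g n))
          (pos δ t q1 g - pos δ t q2 g + Complex.I • (pos δ t q3 g - pos δ t q4 g)) := by
        have h5 := (s1.hasSum.sub s2.hasSum).add ((s3.hasSum.sub s4.hasSum).const_smul Complex.I)
        have h6 : ∀ n, c n • δ (g n) =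
            ((q1 n : ℂ) * (starRingEnd ℂ) (t (g n))) • δ (g n) -
              ((q2 n : ℂ) * (starRingEnd ℂ) (t (g n))) • δ (g n) +
            Complex.I • (((q3 n : ℂ) * (starRingEnd ℂ) (t (g n))) • δ (g n) -
              ((q4 n : ℂ) * (starRingEnd ℂ) (t (g n))) • δ (g n)) := by
          intro n
          rw [← sub_smul, ← sub_smul, smul_smul, ← add_smul]
          congr 1
          have e1 : ((q1 n : ℝ) : ℂ) - ((q2 n : ℝ) : ℂ) = ((d n).re : ℂ) := by
            rw [← Complex.ofReal_sub, hq1, hq2, hsplit]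
          have e2 : ((q3 n : ℝ) : ℂ) - ((q4 n : ℝ) : ℂ) = ((d n).im : ℂ) := by
            rw [← Complex.ofReal_sub, hq3, hq4, hsplit]
          calc c n = ((d n).re + (d n).im * Complex.I) * (starRingEnd ℂ) (t (g n)) := by
                rw [Complex.re_add_im, ← hdc]
            _ = _ := by rw [← e1, ← e2]; ring
        simp only [h6]
        exact h5
      exact hsum.unique hH
    rw [hdec]
    rw [map_add, map_sub, map_smul, map_sub, mul_add, mul_sub, mul_smul_comm, mul_sub]
    have n1 : ‖z * θ (pos δ t q1 g) - z * θ (pos δ t q2 g)‖ ≤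
        M * ∑' n, ‖c n‖ + M * ∑' n, ‖c n‖ := (norm_sub_le _ _).trans (add_le_add b1 b2)
    have n2 : ‖z * θ (pos δ t q3 g) - z * θ (pos δ t q4 g)‖ ≤
        M * ∑' n, ‖c n‖ + M * ∑' n, ‖c n‖ := (norm_sub_le _ _).trans (add_le_add b3 b4)
    refine (norm_add_le _ _).trans ?_
    rw [norm_smul, Complex.norm_I, one_mul]
    have h7 : M * ∑' n, ‖c n‖ ≤ M * (2 * ‖b‖) := mul_le_mul_of_nonneg_left hcb hM0
    rw [← hdec]
    linarith
  exact (L.mkContinuous (8 * M) hbound).continuous

end
end ACG
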