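import Pool.Agent.ACG.Defs

set_option autoImplicit false

/-!
GAEX: the group algebra `ℓ¹(G)` and its universal property.

`ℓ¹(G)` is realised as the algebra of all bounded operators on the Banach space `ℓ¹(G)` which
commute with all right translations.
-/

namespace ACG

open scoped ENNReal

namespace GaEx

/-- The Banach space `ℓ¹(G)`. -/
abbrev L1 (G : Type) : Type := lp (fun _ : G => ℂ) 1

open Classical in
/-- The basis vectors. -/
noncomputable def bas {G : Type} (g : G) : L1 G := lp.single 1 g (1 : ℂ)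

section
variable {G : Type} {F : Type} [NormedAddCommGroup F] [NormedSpace ℂ F]

theorem bas_norm (g : G) : ‖bas g‖ = 1 := by
  classical
  unfold bas
  rw [lp.norm_single (by norm_num)]
  exact norm_one

theorem hasSum_norm' (f : L1 G) : HasSum (fun g => ‖f g‖) ‖f‖ := by
  have h := lp.hasSum_norm (p := 1) (by norm_num) f
  simpa using h

theorem hasSum_bas (f : L1 G) : HasSum (fun g => f g • bas g) f := by
  classical
  have h := lp.hasSum_single (p := 1) (by norm_num) f
  have h2 : (fun g => f g • bas g) = fun i => lp.single 1 i (f i) := by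
    funext g
    unfold bas
    rw [← lp.single_smul, smul_eq_mul, mul_one]
  rw [h2]
  exact h

/-- Continuous linear maps are determined by the values at the basis vectors. -/
theorem clm_ext {S T : L1 G →L[ℂ] F} (h : ∀ g, S (bas g) = T (bas g)) : S = T := by
  ext f
  have h1 := S.hasSum (hasSum_bas f)
  have h2 := T.hasSum (hasSum_bas f)
  have h3 : (fun g => S (f g • bas g)) = fun g => T (f g • bas g) := by
    funext g
    rw [map_smul, map_smul, h]
  rw [h3] at h1
  exact h1.unique h2

variable [CompleteSpace F]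

theorem summ_smul (v : G → F) (K : ℝ) (hv : ∀ g, ‖v g‖ ≤ K) (f : L1 G) :
    Summable fun g => f g • v g := by
  refine Summable.of_norm_bounded (g := fun g => ‖f g‖ * K)
    ((hasSum_norm' f).summable.mul_right K) fun g => ?_
  rw [norm_smul]
  exact mul_le_mul_of_nonneg_left (hv g) (norm_nonneg _)

/-- The linear map with given values at the basis vectors. -/
noncomputable def clm0 (v : G → F) (K : ℝ) (hv : ∀ g, ‖v g‖ ≤ K) : L1 G →ₗ[ℂ] F where
  toFun := fun f => ∑' g, f g • v g
  map_add' := fun f f' => by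
    rw [← (summ_smul v K hv f).tsum_add (summ_smul v K hv f')]
    exact tsum_congr fun g => by rw [lp.coeFn_add, Pi.add_apply, add_smul]
  map_smul' := fun c f => by
    rw [RingHom.id_apply, ← (summ_smul v K hv f).tsum_const_smul c]
    exact tsum_congr fun g => by rw [lp.coeFn_smul, Pi.smul_apply, smul_assoc]

theorem clm0_le (v : G → F) (K : ℝ) (hv : ∀ g, ‖v g‖ ≤ K) (f : L1 G) :
    ‖clm0 v K hv f‖ ≤ K * ‖f‖ := by
  show ‖∑' g, f g • v g‖ ≤ K * ‖f‖
  have h1 : HasSum (fun g => ‖f g‖ * K) (‖f‖ * K) := (hasSum_norm' f).mul_right K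
  rw [mul_comm]
  refine tsum_of_norm_bounded h1 fun g => ?_
  rw [norm_smul]
  exact mul_le_mul_of_nonneg_left (hv g) (norm_nonneg _)

/-- The continuous linear map with given values at the basis vectors. -/
noncomputable def clm (v : G → F) (K : ℝ) (hv : ∀ g, ‖v g‖ ≤ K) : L1 G →L[ℂ] F :=
  LinearMap.mkContinuous (clm0 v K hv) K (clm0_le v K hv)

theorem clm_norm (v : G → F) (K : ℝ) (hv : ∀ g, ‖v g‖ ≤ K) (hK : 0 ≤ K) :
    ‖clm v K hv‖ ≤ K :=
  LinearMap.mkContinuous_norm_le _ hK _

theorem clm_bas (v : G → F) (K : ℝ) (hv : ∀ g, ‖v g‖ ≤ K) (g : G) : clm v K hv (bas g) = v g := by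
  classical
  show ∑' h, (bas g) h • v h = v g
  rw [tsum_eq_single g]
  · unfold bas
    rw [lp.single_apply_self, one_smul]
  · intro h hh
    unfold bas
    rw [lp.single_apply_ne _ _ _ hh, zero_smul]

end

section
variable {G : Type} [Group G]

/-- right translations -/
noncomputable def rho (h : G) : L1 G →L[ℂ] L1 G :=
  clm (fun g => bas (g * h)) 1 fun _ => (bas_norm _).le

/-- left translations -/
noncomputable def lam (h : G) : L1 G →L[ℂ] L1 G :=
  clm (fun g => bas (h * g)) 1 fun _ => (bas_norm _).le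

theorem rho_bas (h g : G) : rho h (bas g) = bas (g * h) := clm_bas _ _ _ _
theorem lam_bas (h g : G) : lam h (bas g) = bas (h * g) := clm_bas _ _ _ _

variable (G) in
/-- The group algebra. -/
noncomputable abbrev Alg : Subalgebra ℂ (L1 G →L[ℂ] L1 G) :=
  Subalgebra.centralizer ℂ (Set.range rho)

theorem mem_Alg {T : L1 G →L[ℂ] L1 G} :
    T ∈ Alg G ↔ ∀ (h : G) (f : L1 G), T (rho h f) = rho h (T f) := by
  rw [Subalgebra.mem_centralizer_iff]
  constructor
  · intro h g f
    have h1 := h (rho g) ⟨g, rfl⟩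
    exact (congrArg (fun S : L1 G →L[ℂ] L1 G => S f) h1).symm
  · rintro h _ ⟨g, rfl⟩
    ext1 f
    exact (h g f).symm

theorem lam_mem (h : G) : lam h ∈ Alg G := by
  rw [mem_Alg]
  intro k f
  have : (lam h).comp (rho k) = (rho k).comp (lam h) := by
    refine clm_ext fun g => ?_
    rw [ContinuousLinearMap.comp_apply, ContinuousLinearMap.comp_apply, rho_bas, lam_bas,
      lam_bas, rho_bas, mul_assoc]
  exact congrArg (fun S : L1 G →L[ℂ] L1 G => S f) this

theorem alg_ext {S T : Alg G} (h : S.1 (bas 1) = T.1 (bas 1)) : S = T := by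
  refine Subtype.ext (clm_ext fun g => ?_)
  have h1 : bas g = rho g (bas 1) := by rw [rho_bas, one_mul]
  rw [h1, mem_Alg.1 S.2, mem_Alg.1 T.2, h]

/-- The embedding of the group. -/
noncomputable def dlt : G →* Alg G where
  toFun g := ⟨lam g, lam_mem g⟩
  map_one' := alg_ext (by
    show lam 1 (bas 1) = bas 1
    rw [lam_bas, one_mul])
  map_mul' g h := alg_ext (by
    show lam (g * h) (bas 1) = lam g (lam h (bas 1))
    rw [lam_bas, lam_bas, lam_bas, mul_assoc])

theorem dlt_ap (g : G) : (dlt g : Alg G).1 (bas 1) = bas g := by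
  show lam g (bas 1) = bas g
  rw [lam_bas, mul_one]

theorem dlt_norm (g : G) : ‖(dlt g : Alg G)‖ ≤ 1 := by
  show ‖lam g‖ ≤ 1
  exact clm_norm _ _ _ zero_le_one

theorem isClosed_Alg : IsClosed (Alg G : Set (L1 G →L[ℂ] L1 G)) := by
  have h : (Alg G : Set (L1 G →L[ℂ] L1 G)) = Set.centralizer (Set.range rho) := rfl
  rw [h]
  exact Set.isClosed_centralizer _

instance : CompleteSpace (Alg G) := isClosed_Alg.isComplete.completeSpace_coe

/-- evaluation at the unit vector -/
noncomputable def evl : Alg G →L[ℂ] L1 G :=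
  (ContinuousLinearMap.apply ℂ (L1 G) (bas 1)).comp (Alg G).toSubmodule.subtypeL

theorem evl_apply (T : Alg G) : evl T = T.1 (bas 1) := rfl

theorem hasSum_alg (T : Alg G) : HasSum (fun g => (T.1 (bas 1)) g • (dlt g : Alg G)) T := by
  have h1 : Summable fun g => (T.1 (bas 1)) g • (dlt g : Alg G) :=
    summ_smul (fun g => (dlt g : Alg G)) 1 dlt_norm (T.1 (bas 1))
  have h2 := h1.hasSum
  have h3 := evl.hasSum h2
  have h4 : (fun g => evl ((T.1 (bas 1)) g • (dlt g : Alg G))) =
      fun g => (T.1 (bas 1)) g • bas g := by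
    funext g
    rw [map_smul, evl_apply, dlt_ap]
  rw [h4] at h3
  have h5 := h3.unique (hasSum_bas (T.1 (bas 1)))
  have h6 : (∑' g, (T.1 (bas 1)) g • (dlt g : Alg G)) = T := alg_ext h5
  rw [h6] at h2
  exact h2

/-- enumeration of the support of an `ℓ¹` function -/
theorem exists_enum {F : Type} [NormedAddCommGroup F] [NormedSpace ℂ F] (f : G → ℂ) (M : ℝ)
    (hf : HasSum (fun g => ‖f g‖) M) (v : G → F) (b : F) (hb : HasSum (fun g => f g • v g) b) :
    ∃ (c : ℕ → ℂ) (g : ℕ → G), HasSum (fun n => ‖c n‖) M ∧ HasSum (fun n => c n • v (g n)) b := by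
  classical
  let S : Set G := Function.support fun g => ‖f g‖
  have hS : S.Countable := hf.summable.countable_support
  have : Countable S := hS.to_subtype
  obtain ⟨e, he⟩ := exists_injective_nat S
  refine ⟨Function.extend e (fun s : S => f s) 0, Function.extend e (fun s : S => (s : G))
    (fun _ => 1), ?_, ?_⟩
  · have h1 : (fun n => ‖Function.extend e (fun s : S => f s) 0 n‖) =
        Function.extend e (fun s : S => ‖f s‖) 0 := by
      funext n
      by_cases h : ∃ a, e a = n
      · obtain ⟨a, rfl⟩ := h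
        rw [he.extend_apply, he.extend_apply]
      · rw [Function.extend_apply' _ _ _ h, Function.extend_apply' _ _ _ h]
        simp
    rw [h1, hasSum_extend_zero he]
    exact (hasSum_subtype_iff_of_support_subset (f := fun g => ‖f g‖) (s := S) subset_rfl).2 hf
  · have h1 : (fun n => Function.extend e (fun s : S => f s) 0 n •
        v (Function.extend e (fun s : S => (s : G)) (fun _ => 1) n)) =
        Function.extend e (fun s : S => f s • v s) 0 := by
      funext n
      by_cases h : ∃ a, e a = n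
      · obtain ⟨a, rfl⟩ := h
        rw [he.extend_apply, he.extend_apply, he.extend_apply]
      · rw [Function.extend_apply' (fun s : S => f s) _ _ h,
          Function.extend_apply' (fun s : S => f s • v s) _ _ h]
        simp
    rw [h1, hasSum_extend_zero he]
    refine (hasSum_subtype_iff_of_support_subset (f := fun g => f g • v g) (s := S) ?_).2 hb
    intro g hg
    simp only [Function.mem_support, ne_eq, smul_eq_zero, not_or] at hg
    simpa [S] using hg.1

end
end GaEx

open GaEx

theorem exists_GA (G : Type) [Group G] :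
    ∃ (B₁ : Type) (_ : NormedRing B₁) (_ : NormedAlgebra ℂ B₁) (_ : CompleteSpace B₁)
      (δ : G →* B₁), GA B₁ G δ ∧
      ∀ (B : Type) [NormedRing B] [NormedAlgebra ℂ B] [CompleteSpace B] (u : G →* B) (K : ℝ),
        (∀ g, ‖u g‖ ≤ K) → ∃ φ : B₁ →ₐ[ℂ] B, Continuous φ ∧ ∀ g, φ (δ g) = u g := by
  refine ⟨Alg G, inferInstance, inferInstance, inferInstance, dlt, ⟨dlt_norm, fun b => ?_⟩, ?_⟩
  · obtain ⟨c, g, h1, h2⟩ := exists_enum (fun g => (b.1 (bas 1)) g) _ (hasSum_norm' (b.1 (bas 1)))
      (fun g => (dlt g : Alg G)) b (hasSum_alg b)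
    refine ⟨c, g, h1.summable, ?_, h2⟩
    rw [h1.tsum_eq]
    have h3 : ‖b.1 (bas 1)‖ ≤ ‖b.1‖ * ‖(bas 1 : L1 G)‖ := b.1.le_opNorm _
    rw [bas_norm, mul_one] at h3
    have h4 : ‖b.1‖ = ‖b‖ := rfl
    rw [h4] at h3
    linarith [norm_nonneg b]
  · intro B _ _ _ u K hu
    let Φ : L1 G →L[ℂ] B := clm (fun g => u g) K hu
    have hΦ : ∀ g, Φ (bas g) = u g := fun g => clm_bas _ _ _ g
    have hρ : ∀ (h : G) (f : L1 G), Φ (rho h f) = Φ f * u h := by
      intro h f
      have : Φ.comp (rho h) = ((ContinuousLinearMap.mul ℂ B).flip (u h)).comp Φ := by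
        refine clm_ext fun g => ?_
        rw [ContinuousLinearMap.comp_apply, ContinuousLinearMap.comp_apply, rho_bas, hΦ, hΦ,
          map_mul]
        rfl
      exact congrArg (fun S : L1 G →L[ℂ] B => S f) this
    have hmul : ∀ (S : Alg G) (f : L1 G), Φ (S.1 f) = Φ (S.1 (bas 1)) * Φ f := by
      intro S f
      have : Φ.comp S.1 = (ContinuousLinearMap.mul ℂ B (Φ (S.1 (bas 1)))).comp Φ := by
        refine clm_ext fun g => ?_
        rw [ContinuousLinearMap.comp_apply, ContinuousLinearMap.comp_apply,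
          ContinuousLinearMap.mul_apply', hΦ]
        have h1 : bas g = rho g (bas 1) := by rw [rho_bas, one_mul]
        rw [h1, mem_Alg.1 S.2, hρ]
      exact congrArg (fun S : L1 G →L[ℂ] B => S f) this
    let φ : Alg G →ₐ[ℂ] B := AlgHom.ofLinearMap (Φ.comp evl : Alg G →L[ℂ] B).toLinearMap
      (by
        show Φ (bas 1) = 1
        rw [hΦ, map_one])
      (by
        intro S T
        show Φ (S.1 (T.1 (bas 1))) = Φ (S.1 (bas 1)) * Φ (T.1 (bas 1))
        exact hmul S _)
    refine ⟨φ, (Φ.comp evl).continuous, fun g => ?_⟩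
    show Φ ((dlt g : Alg G).1 (bas 1)) = u g
    rw [dlt_ap, hΦ]

end ACG
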