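import Pool.Agent.ACG.SingEx
import Pool.Agent.ACG.Bdd
import Pool.Agent.ACG.Fin
import Pool.Agent.ACG.GaEx

set_option autoImplicit false

/-!
MAIN: assembly.
-/

namespace ACG

section
variable {A B G : Type} [NonUnitalNormedRing A] [NormedSpace ℂ A] [IsScalarTower ℂ A A]
  [SMulCommClass ℂ A A] [CompleteSpace A] [NormedRing B] [NormedAlgebra ℂ B] [CompleteSpace B]
  [Group G]

theorem cont_of_GA (hC : PropC A) (θ : B →ₙₐ[ℂ] A) {δ : G →* B} (hG : GA B G δ) :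
    Continuous θ := by
  by_contra hn
  obtain ⟨z, t, hS, hz⟩ := exists_sing hC θ hG hn
  exact hz (fin hC θ hG hS (bdd hC θ hG hS))

end

theorem main (A : Type) [NonUnitalNormedRing A] [NormedSpace ℂ A] [IsScalarTower ℂ A A]
    [SMulCommClass ℂ A A] [CompleteSpace A] (hC : PropC A)
    (B : Type) [NormedRing B] [NormedAlgebra ℂ B] [CompleteSpace B] (θ : B →ₙₐ[ℂ] A)
    (U : Subgroup Bˣ) (K : ℝ) (hK : ∀ u ∈ U, ‖(u : B)‖ ≤ K) :
    (∀ u ∈ U, ∀ a : A, θ (u : B) * a = a * θ (u : B)) ∧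
    (∃ M : ℝ, ∀ u ∈ U, ‖θ (u : B)‖ ≤ M) ∧
    (∀ (c : ℕ → ℂ) (u : ℕ → Bˣ), (∀ n, u n ∈ U) → Summable (fun n => ‖c n‖) →
      HasSum (fun n => c n • θ (u n : B)) (θ (∑' n, c n • (u n : B)))) ∧
    ((∀ b : B, ∃ (c : ℕ → ℂ) (u : ℕ → Bˣ), (∀ n, u n ∈ U) ∧ Summable (fun n => ‖c n‖) ∧
        HasSum (fun n => c n • (u n : B)) b) →
      Continuous θ ∧ ∀ x y : B, θ x * θ y = θ y * θ x) := by
  obtain ⟨B₁, _, _, _, δ, hG, huniv⟩ := exists_GA U
  -- the map `U → B`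
  obtain ⟨φ, hφc, hφ⟩ := huniv B ((Units.coeHom B).comp U.subtype) K
    (fun g => hK _ g.2)
  have hφ' : ∀ g : U, φ (δ g) = ((g : Bˣ) : B) := hφ
  let ψ : B₁ →ₙₐ[ℂ] A := θ.comp (φ : B₁ →ₙₐ[ℂ] B)
  have hψ : ∀ b, ψ b = θ (φ b) := fun b => rfl
  have hψc : Continuous ψ := cont_of_GA hC ψ hG
  -- centrality
  have hcen : ∀ g : U, Cen (θ ((g : Bˣ) : B)) := by
    intro g
    have h := cen_u hC ψ δ hG.norm_le g
    rw [hψ, hφ'] at h
    exact h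
  have hψL : ∃ M : ℝ, 0 ≤ M ∧ ∀ b, ‖ψ b‖ ≤ M * ‖b‖ := by
    let L : B₁ →L[ℂ] A :=
      ⟨{ toFun := ψ, map_add' := map_add ψ, map_smul' := fun c x => map_smul ψ c x }, hψc⟩
    exact ⟨‖L‖, norm_nonneg _, fun b => L.le_opNorm b⟩
  obtain ⟨M, hM0, hM⟩ := hψL
  have hsum : ∀ (c : ℕ → ℂ) (u : ℕ → Bˣ), (∀ n, u n ∈ U) → Summable (fun n => ‖c n‖) →
      HasSum (fun n => c n • θ (u n : B)) (θ (∑' n, c n • (u n : B))) := by
    intro c u hu hc
    have h1 : Summable (fun n => c n • δ (⟨u n, hu n⟩ : U)) := by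
      refine Summable.of_norm_bounded hc (fun n => ?_)
      calc ‖c n • δ (⟨u n, hu n⟩ : U)‖ ≤ ‖c n‖ * ‖δ (⟨u n, hu n⟩ : U)‖ := norm_smul_le _ _
        _ ≤ ‖c n‖ * 1 := mul_le_mul_of_nonneg_left (hG.norm_le _) (norm_nonneg _)
        _ = ‖c n‖ := mul_one _
    have h2 := h1.hasSum
    have h3 : HasSum (fun n => φ (c n • δ (⟨u n, hu n⟩ : U))) (φ (∑' n, c n • δ ⟨u n, hu n⟩)) :=
      h2.map φ.toLinearMap.toAddMonoidHom hφc
    have h4 : HasSum (fun n => ψ (c n • δ (⟨u n, hu n⟩ : U))) (ψ (∑' n, c n • δ ⟨u n, hu n⟩)) := by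
      exact h2.map (ψ : B₁ →+ A) hψc
    have h5 : φ (∑' n, c n • δ ⟨u n, hu n⟩) = ∑' n, c n • (u n : B) := by
      rw [← h3.tsum_eq]
      refine tsum_congr (fun n => ?_)
      rw [map_smul, hφ']
    rw [hψ, h5] at h4
    convert h4 using 2 with n
    rw [map_smul, hψ, hφ']
  refine ⟨fun u hu a => hcen ⟨u, hu⟩ a, ⟨M, fun u hu => ?_⟩, hsum, ?_⟩
  · have h := hM (δ ⟨u, hu⟩)
    rw [hψ, hφ'] at h
    refine h.trans ?_
    calc M * ‖δ (⟨u, hu⟩ : U)‖ ≤ M * 1 := mul_le_mul_of_nonneg_left (hG.norm_le _) hM0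
      _ = M := mul_one _
  · intro hspan
    have hcen2 : ∀ b : B, Cen (θ b) := by
      intro b a
      obtain ⟨c, u, hu, hc, hb⟩ := hspan b
      have h := hsum c u hu hc
      rw [hb.tsum_eq] at h
      have h1 := h.mul_right a
      have h2 := h.mul_left a
      have h3 : (fun n => c n • θ (u n : B) * a) = fun n => a * (c n • θ (u n : B)) := by
        funext n
        rw [smul_mul_assoc, mul_smul_comm, hcen ⟨u n, hu n⟩ a]
      rw [h3] at h1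
      exact h1.unique h2
    have hcomm : ∀ x y : B, θ x * θ y = θ y * θ x := fun x y => hcen2 x _
    exact ⟨hC B θ hcomm, hcomm⟩

end ACG
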