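import Pool.Agent.ACG.Defs

set_option autoImplicit false

/-!
The multiplier algebra of a commutative reduced Banach algebra `E` (a commutative unital Banach
algebra of operators on `E`).
-/

namespace ACG

section
variable (E : Type) [NonUnitalNormedCommRing E] [NormedSpace ℂ E] [IsScalarTower ℂ E E]
  [SMulCommClass ℂ E E]

/-- bounded operators with `T (x * y) = T x * y` -/
def multSub : Subalgebra ℂ (E →L[ℂ] E) where
  carrier := {T | ∀ x y, T (x * y) = T x * y}
  mul_mem' := by
    intro S T hS hT x y
    show S (T (x * y)) = S (T x) * y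
    rw [hT, hS]
  add_mem' := by
    intro S T hS hT x y
    show S (x * y) + T (x * y) = (S x + T x) * y
    rw [hT, hS, add_mul]
  algebraMap_mem' := by
    intro r x y
    show r • (x * y) = (r • x) * y
    rw [smul_mul_assoc]

/-- The multiplier algebra. -/
def Mult : Type := multSub E

end

section
variable {E : Type} [NonUnitalNormedCommRing E] [NormedSpace ℂ E] [IsScalarTower ℂ E E]
  [SMulCommClass ℂ E E]

noncomputable instance : NormedRing (Mult E) := inferInstanceAs (NormedRing (multSub E))
noncomputable instance : NormedAlgebra ℂ (Mult E) :=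
  inferInstanceAs (NormedAlgebra ℂ (multSub E))

namespace Mult

/-- the operator of a multiplier -/
noncomputable def ap (T : Mult E) : E →L[ℂ] E := (T : multSub E).1

theorem ap_injective {S T : Mult E} (h : ∀ x, S.ap x = T.ap x) : S = T :=
  Subtype.ext (ContinuousLinearMap.ext h)

@[simp] theorem ap_mul (S T : Mult E) (x : E) : (S * T).ap x = S.ap (T.ap x) := rfl
@[simp] theorem ap_add (S T : Mult E) (x : E) : (S + T).ap x = S.ap x + T.ap x := rfl
@[simp] theorem ap_sub (S T : Mult E) (x : E) : (S - T).ap x = S.ap x - T.ap x := rfl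
@[simp] theorem ap_neg (S : Mult E) (x : E) : (-S).ap x = -S.ap x := rfl
@[simp] theorem ap_smul (c : ℂ) (S : Mult E) (x : E) : (c • S).ap x = c • S.ap x := rfl
@[simp] theorem ap_one (x : E) : (1 : Mult E).ap x = x := rfl
@[simp] theorem ap_zero (x : E) : (0 : Mult E).ap x = 0 := rfl

theorem norm_ap (T : Mult E) : ‖T.ap‖ = ‖T‖ := rfl

theorem norm_ap_le (T : Mult E) (x : E) : ‖T.ap x‖ ≤ ‖T‖ * ‖x‖ := T.ap.le_opNorm x

theorem ap_prod (T : Mult E) (x y : E) : T.ap (x * y) = T.ap x * y := T.2 x y

theorem ap_prod' (T : Mult E) (x y : E) : T.ap (x * y) = x * T.ap y := by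
  rw [mul_comm x y, ap_prod, mul_comm]

/-- evaluation as a continuous linear map in the multiplier -/
noncomputable def apL (x : E) : Mult E →L[ℂ] E :=
  (ContinuousLinearMap.apply ℂ E x).comp (multSub E).toSubmodule.subtypeL

@[simp] theorem apL_apply (x : E) (T : Mult E) : apL x T = T.ap x := rfl

theorem comm [Red E] (S T : Mult E) : S * T = T * S := by
  refine ap_injective (fun x => ?_)
  rw [ap_mul, ap_mul]
  have h : ∀ y, (S.ap (T.ap x) - T.ap (S.ap x)) * y = 0 := by
    intro y
    rw [sub_mul, sub_eq_zero]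
    calc S.ap (T.ap x) * y = S.ap (T.ap x * y) := (S.ap_prod _ _).symm
      _ = S.ap (x * T.ap y) := by rw [← T.ap_prod, T.ap_prod']
      _ = S.ap x * T.ap y := S.ap_prod _ _
      _ = T.ap (S.ap x * y) := (T.ap_prod' _ _).symm
      _ = T.ap (S.ap x) * y := T.ap_prod _ _
  have h2 := Red.red _ (h (S.ap (T.ap x) - T.ap (S.ap x)))
  exact sub_eq_zero.1 h2

noncomputable instance [Red E] : NormedCommRing (Mult E) :=
  { (inferInstance : NormedRing (Mult E)) with mul_comm := comm }

example [Red E] : (inferInstance : NormedRing (Mult E)) =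
    (inferInstance : NormedCommRing (Mult E)).toNormedRing := rfl

theorem isClosed_multSub : IsClosed (multSub E : Set (E →L[ℂ] E)) := by
  have : (multSub E : Set (E →L[ℂ] E)) =
      ⋂ (x : E) (y : E), {T : E →L[ℂ] E | T (x * y) = T x * y} := by
    ext T
    simp only [Set.mem_iInter, Set.mem_setOf_eq]
    rfl
  rw [this]
  refine isClosed_iInter (fun x => isClosed_iInter (fun y => ?_))
  refine isClosed_eq ?_ ?_
  · exact (ContinuousLinearMap.apply ℂ E (x * y)).continuous
  · exact ((ContinuousLinearMap.apply ℂ E x).continuous).mul continuous_const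

instance [CompleteSpace E] : CompleteSpace (Mult E) :=
  isClosed_multSub.isComplete.completeSpace_coe

/-- left multiplication by `x` as a multiplier -/
noncomputable def L : E →ₗ[ℂ] Mult E where
  toFun x := (⟨ContinuousLinearMap.mul ℂ E x, fun y z => (mul_assoc x y z).symm⟩ : multSub E)
  map_add' x y := ap_injective (fun z => add_mul x y z)
  map_smul' c x := ap_injective (fun z => smul_mul_assoc c x z)

@[simp] theorem L_ap (x y : E) : (L x).ap y = x * y := rfl

theorem norm_L_le (x : E) : ‖L x‖ ≤ ‖x‖ := ContinuousLinearMap.opNorm_mul_apply_le ℂ E x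

theorem L_mul (x y : E) : L (x * y) = L x * L y := ap_injective (fun z => mul_assoc x y z)

theorem mul_L (T : Mult E) (x : E) : T * L x = L (T.ap x) :=
  ap_injective (fun z => T.ap_prod x z)

theorem L_injective [Red E] : Function.Injective (L : E → Mult E) := by
  intro x y h
  have h1 : ∀ z, x * z = y * z := fun z => by rw [← L_ap, h, L_ap]
  have h2 : (x - y) * (x - y) = 0 := by rw [sub_mul, h1, sub_self]
  exact sub_eq_zero.1 (Red.red _ h2)

theorem ap_pow_succ (T : Mult E) (n : ℕ) (x : E) : (T ^ (n + 1)).ap x = (T ^ n).ap (T.ap x) := by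
  rw [pow_succ, ap_mul]

theorem ap_pow_succ' (T : Mult E) (n : ℕ) (x : E) : (T ^ (n + 1)).ap x = T.ap ((T ^ n).ap x) := by
  rw [pow_succ', ap_mul]

end Mult
end
end ACG
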