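import Pool.Agent.ACG.Sep

set_option autoImplicit false

/-!
STAB: the stability lemma for separating spaces.
-/

namespace ACG

open Filter Topology

section
variable {X Y : Type} [NormedAddCommGroup X] [NormedSpace ℂ X]
  [NormedAddCommGroup Y] [NormedSpace ℂ Y] [CompleteSpace X] [CompleteSpace Y]

/-- products `R 0 * R 1 * ... * R (n - 1)` -/
noncomputable def RR (R : ℕ → Y →L[ℂ] Y) : ℕ → Y →L[ℂ] Y
  | 0 => ContinuousLinearMap.id ℂ Y
  | n + 1 => (RR R n).comp (R n)

omit [CompleteSpace Y] in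
private lemma RR_add (R : ℕ → Y →L[ℂ] Y) (i m : ℕ) (y : Y) :
    RR R (i + m) y = RR R i (RR (fun l => R (i + l)) m y) := by
  induction m generalizing y with
  | zero => simp [RR]
  | succ m ih =>
    rw [← Nat.add_assoc]
    simp only [RR, ContinuousLinearMap.comp_apply]
    exact ih _

omit [CompleteSpace X] [CompleteSpace Y] in
private lemma RR_inter (θ : X →ₗ[ℂ] Y) (T : ℕ → X →L[ℂ] X) (R : ℕ → Y →L[ℂ] Y)
    (h : ∀ n x, θ (T n x) = R n (θ x)) (n : ℕ) (x : X) : θ (RR T n x) = RR R n (θ x) := by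
  induction n generalizing x with
  | zero => simp [RR]
  | succ n ih =>
    simp only [RR, ContinuousLinearMap.comp_apply]
    rw [ih, h]

/-- the gliding hump -/
private lemma hump (θ : X →ₗ[ℂ] Y) (A : ℕ → X →L[ℂ] X) (B : ℕ → ℕ → X →L[ℂ] X)
    (hAB : ∀ i j, i ≤ j → ∀ x, A j x = A i (B i j x)) (p : ℕ → Y → ℝ)
    (hp : ∀ k y, p k y ≤ ‖y‖) (hp0 : ∀ k y, 0 ≤ p k y)
    (hpa : ∀ k y y', p k (y + y') ≤ p k y + p k y') (hpn : ∀ k y, p k (-y) = p k y)
    (C : ℕ → ℝ) (hC0 : ∀ k, 0 ≤ C k) (hC : ∀ k x, p k (θ (A (k + 1) x)) ≤ C k * ‖x‖)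
    (hbig : ∀ k (M δ : ℝ), 0 < δ → ∃ x : X, ‖x‖ ≤ δ ∧ M ≤ p k (θ (A k x))) : False := by
  -- the choice of the next vector
  have hch : ∀ (k : ℕ) (s : X), ∃ x : X, (∀ i ≤ k, ‖B i k x‖ ≤ (1 / 2 : ℝ) ^ k) ∧
      k + C k * 2 + p k (θ s) ≤ p k (θ (A k x)) := by
    intro k s
    set b : ℝ := ∑ i ∈ Finset.range (k + 1), ‖B i k‖ with hb
    have hb0 : 0 ≤ b := Finset.sum_nonneg fun i _ => norm_nonneg _
    obtain ⟨x, hx, hx2⟩ := hbig k (k + C k * 2 + p k (θ s)) ((1 / 2 : ℝ) ^ k / (1 + b))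
      (by positivity)
    refine ⟨x, fun i hi => ?_, hx2⟩
    have h1 : ‖B i k‖ ≤ b :=
      Finset.single_le_sum (f := fun i => ‖B i k‖) (fun i _ => norm_nonneg _)
        (Finset.mem_range.2 (by omega))
    calc ‖B i k x‖ ≤ ‖B i k‖ * ‖x‖ := ContinuousLinearMap.le_opNorm _ _
      _ ≤ (1 + b) * ((1 / 2 : ℝ) ^ k / (1 + b)) := by
          refine mul_le_mul (by linarith) hx (norm_nonneg _) (by linarith)
      _ = (1 / 2 : ℝ) ^ k := by field_simp
  choose f hf1 hf2 using hch
  let s : ℕ → X := fun k => Nat.rec (0 : X) (fun k s => s + A k (f k s)) k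
  have hs0 : s 0 = 0 := rfl
  have hss : ∀ k, s (k + 1) = s k + A k (f k (s k)) := fun k => rfl
  let x : ℕ → X := fun k => f k (s k)
  have hx1 : ∀ k, ∀ i ≤ k, ‖B i k (x k)‖ ≤ (1 / 2 : ℝ) ^ k := fun k => hf1 k (s k)
  have hx2 : ∀ k : ℕ, k + C k * 2 + p k (θ (s k)) ≤ p k (θ (A k (x k))) := fun k => hf2 k (s k)
  have hsum : ∀ k, s k = ∑ j ∈ Finset.range k, A j (x j) := by
    intro k
    induction k with
    | zero => simp [hs0]
    | succ k ih => rw [hss, Finset.sum_range_succ, ← ih]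
  -- tails
  have hgeo : Summable (fun j : ℕ => (1 / 2 : ℝ) ^ j) := summable_geometric_two
  have htail : ∀ i, Summable (fun j => B i (i + j) (x (i + j))) := by
    intro i
    refine Summable.of_norm_bounded (g := fun j => (1 / 2 : ℝ) ^ j) hgeo fun j => ?_
    refine (hx1 (i + j) i (by omega)).trans ?_
    exact pow_le_pow_of_le_one (by norm_num) (by norm_num) (by omega)
  let w : ℕ → X := fun i => ∑' j, B i (i + j) (x (i + j))
  have hw : ∀ i, ‖w i‖ ≤ 2 := by
    intro i
    have h1 : ∀ j, ‖B i (i + j) (x (i + j))‖ ≤ (1 / 2 : ℝ) ^ j := fun j =>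
      (hx1 (i + j) i (by omega)).trans
        (pow_le_pow_of_le_one (by norm_num) (by norm_num) (by omega))
    have h2 := tsum_of_norm_bounded (f := fun j => B i (i + j) (x (i + j)))
      (hasSum_geometric_two) h1
    exact h2
  have hAw : ∀ i, A i (w i) = ∑' j, A (i + j) (x (i + j)) := by
    intro i
    have h1 : A i (w i) = ∑' j, A i (B i (i + j) (x (i + j))) := (A i).map_tsum (htail i)
    rw [h1]
    refine tsum_congr fun j => ?_
    rw [hAB i (i + j) (by omega)]
  have hAs : Summable (fun j => A j (x j)) := by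
    have h1 := (htail 0).map (A 0).toLinearMap.toAddMonoidHom (A 0).continuous
    refine h1.congr fun j => ?_
    simp only [Function.comp]
    rw [hAB 0 j (by omega)]
    simp
  set z : X := ∑' j, A j (x j) with hz
  have hsplit : ∀ k, z = s k + A k (x k) + A (k + 1) (w (k + 1)) := by
    intro k
    rw [hAw (k + 1), ← hss, hsum (k + 1), hz]
    rw [← hAs.sum_add_tsum_nat_add (k + 1)]
    congr 1
    refine tsum_congr fun j => ?_
    rw [Nat.add_comm]
  have hfin : ∀ k : ℕ, (k : ℝ) ≤ ‖θ z‖ := by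
    intro k
    have h1 : θ (A k (x k)) = θ z + (-θ (s k)) + (-θ (A (k + 1) (w (k + 1)))) := by
      rw [hsplit k]
      simp only [map_add]
      abel
    have h2 : p k (θ (A k (x k))) ≤ p k (θ z) + p k (θ (s k)) + p k (θ (A (k + 1) (w (k + 1)))) := by
      rw [h1]
      refine (hpa k _ _).trans ?_
      rw [hpn]
      have := hpa k (θ z) (-θ (s k))
      rw [hpn] at this
      linarith
    have h3 : p k (θ (A (k + 1) (w (k + 1)))) ≤ C k * 2 :=
      (hC k _).trans (mul_le_mul_of_nonneg_left (hw _) (hC0 k))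
    have h4 := hx2 k
    have h5 := hp k (θ z)
    linarith
  obtain ⟨k, hk⟩ := exists_nat_gt ‖θ z‖
  exact absurd (hfin k) (not_le.2 hk)

omit [CompleteSpace X] [CompleteSpace Y] in
/-- images of the separating space decrease -/
private lemma SS_anti (θ : X →ₗ[ℂ] Y) (T : ℕ → X →L[ℂ] X) (R : ℕ → Y →L[ℂ] Y)
    (h : ∀ n x, θ (T n x) = R n (θ x)) (n : ℕ) :
    ((Sep θ).map (RR R (n + 1)).toLinearMap) ≤ ((Sep θ).map (RR R n).toLinearMap) := by
  rintro _ ⟨y, hy, rfl⟩
  refine ⟨R n y, ?_, rfl⟩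
  obtain ⟨x, hx, hxy⟩ := hy
  refine ⟨fun k => T n (x k), ?_, ?_⟩
  · have h1 := ((T n).continuous.tendsto 0).comp hx
    rw [map_zero] at h1
    exact h1
  · have h1 := ((R n).continuous.tendsto y).comp hxy
    refine h1.congr fun k => ?_
    simp only [Function.comp]
    rw [h]

theorem stability (θ : X →ₗ[ℂ] Y) (T : ℕ → X →L[ℂ] X) (R : ℕ → Y →L[ℂ] Y)
    (h : ∀ n x, θ (T n x) = R n (θ x)) :
    ∃ N, ∀ n, N ≤ n → ((Sep θ).map (RR R n).toLinearMap).topologicalClosure =
      ((Sep θ).map (RR R N).toLinearMap).topologicalClosure := by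
  classical
  by_contra hcon
  set S : ℕ → Submodule ℂ Y := fun n => ((Sep θ).map (RR R n).toLinearMap).topologicalClosure
    with hS
  have hSc : ∀ n, IsClosed (S n : Set Y) := fun n =>
    Submodule.isClosed_topologicalClosure _
  have hanti1 : ∀ n, S (n + 1) ≤ S n := fun n =>
    Submodule.topologicalClosure_mono (SS_anti θ T R h n)
  have hanti : ∀ m n, m ≤ n → S n ≤ S m := by
    intro m n hmn
    induction n, hmn using Nat.le_induction with
    | base => exact le_rfl
    | succ n _ ih => exact (hanti1 n).trans ih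
  have hfreq : ∃ᶠ n in atTop, S (n + 1) ≠ S n := by
    intro hev
    rw [eventually_atTop] at hev
    obtain ⟨N, hN⟩ := hev
    apply hcon
    refine ⟨N, fun n hn => ?_⟩
    induction n, hn using Nat.le_induction with
    | base => rfl
    | succ n hn ih =>
      have h1 := hN n hn
      rw [not_not] at h1
      exact h1.trans ih
  obtain ⟨φ, hφ, hdrop⟩ := extraction_of_frequently_atTop hfreq
  -- quotient seminorms
  haveI : ∀ n, IsClosed (S n : Set Y) := hSc
  have hkey : ∀ k n, Sep (((S k).mkQL.comp (RR R n)).toLinearMap ∘ₗ θ)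
      = ((Sep θ).map ((S k).mkQL.comp (RR R n)).toLinearMap).topologicalClosure := fun k n =>
    Sep_comp θ _
  have hcont : ∀ k n, k ≤ n → Continuous (((S k).mkQL.comp (RR R n)).toLinearMap ∘ₗ θ) := by
    intro k n hkn
    rw [continuous_iff_Sep, hkey, eq_bot_iff]
    refine Submodule.topologicalClosure_minimal _ ?_ ?_
    · rintro _ ⟨y, hy, rfl⟩
      have h1 : RR R n y ∈ S k := hanti k n hkn (Submodule.le_topologicalClosure _ ⟨y, hy, rfl⟩)
      rw [Submodule.mem_bot]
      show (S k).mkQL (RR R n y) = 0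
      rw [Submodule.mkQL_apply]
      exact (Submodule.Quotient.mk_eq_zero _).2 h1
    · exact isClosed_singleton
  have hncont : ∀ k, ¬ Continuous (((S (φ k + 1)).mkQL.comp (RR R (φ k))).toLinearMap ∘ₗ θ) := by
    intro k hc
    rw [continuous_iff_Sep, hkey] at hc
    apply hdrop k
    refine le_antisymm (hanti1 _) ?_
    refine Submodule.topologicalClosure_minimal _ ?_ (hSc _)
    rintro _ ⟨y, hy, rfl⟩
    have h1 : (S (φ k + 1)).mkQL (RR R (φ k) y) ∈
        ((Sep θ).map ((S (φ k + 1)).mkQL.comp (RR R (φ k))).toLinearMap).topologicalClosure :=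
      Submodule.le_topologicalClosure _ ⟨y, hy, rfl⟩
    rw [hc, Submodule.mem_bot, Submodule.mkQL_apply] at h1
    exact (Submodule.Quotient.mk_eq_zero _).1 h1
  -- apply the gliding hump
  have hC : ∀ k, ∃ C : ℝ, 0 ≤ C ∧ ∀ x,
      ‖(S (φ k + 1)).mkQ (θ (RR T (φ (k + 1)) x))‖ ≤ C * ‖x‖ := by
    intro k
    have h1 := hcont (φ k + 1) (φ (k + 1)) (hφ (Nat.lt_succ_self k))
    let L : X →L[ℂ] (Y ⧸ S (φ k + 1)) := ⟨_, h1⟩
    refine ⟨‖L‖, ContinuousLinearMap.opNorm_nonneg L, fun x => ?_⟩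
    have h2 := L.le_opNorm x
    have h3 : L x = (S (φ k + 1)).mkQ (θ (RR T (φ (k + 1)) x)) := by
      rw [RR_inter θ T R h]
      rfl
    rw [← h3]
    exact h2
  choose C hC0 hC1 using hC
  refine hump θ (fun k => RR T (φ k)) (fun i j => RR (fun l => T (φ i + l)) (φ j - φ i)) ?_
    (fun k y => ‖(S (φ k + 1)).mkQ y‖) ?_ ?_ ?_ ?_ C hC0 hC1 ?_
  · intro i j hij x
    have h1 : φ i ≤ φ j := hφ.monotone hij
    have h2 := RR_add T (φ i) (φ j - φ i) x
    rw [Nat.add_sub_cancel' h1] at h2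
    exact h2
  · intro k y
    exact Submodule.Quotient.norm_mk_le _ y
  · intro k y
    exact norm_nonneg _
  · intro k y y'
    rw [map_add]
    exact norm_add_le _ _
  · intro k y
    rw [map_neg, norm_neg]
  · intro k M δ hδ
    by_contra hno
    push Not at hno
    apply hncont k
    set L : X →ₗ[ℂ] (Y ⧸ S (φ k + 1)) :=
      ((S (φ k + 1)).mkQL.comp (RR R (φ k))).toLinearMap ∘ₗ θ with hL
    have h3 : ∀ x, L x = (S (φ k + 1)).mkQ (θ (RR T (φ k) x)) := by
      intro x
      rw [RR_inter θ T R h]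
      rfl
    obtain ⟨c, hc⟩ := LinearMap.bound_of_ball_bound hδ M L (fun x hx => by
      rw [h3]
      exact (hno x (by simpa using (Metric.mem_ball.1 hx).le)).le)
    exact (L.mkContinuous c hc).continuous

end
end ACG
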