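import Pool.Agent.ACG.Bai
import Pool.Agent.ACG.Stab
import Pool.Agent.ACG.Allan

set_option autoImplicit false
set_option linter.all false

/-!
PIA: quasi-nilpotent elements which are central modulo the annihilator of a part of the separating
space annihilate this part.
-/

namespace ACG

open Filter Topology

/-- iterated left multiplication -/
def lit {R : Type} [NonUnitalNormedRing R] (a : R) (n : ℕ) (x : R) : R := (fun y => a * y)^[n] x

section
variable {A : Type} [NonUnitalNormedRing A] [NormedSpace ℂ A] [IsScalarTower ℂ A A]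
  [SMulCommClass ℂ A A]

theorem lit_zero (a x : A) : lit a 0 x = x := rfl

theorem lit_succ (a : A) (n : ℕ) (x : A) : lit a (n + 1) x = a * lit a n x :=
  Function.iterate_succ_apply' _ _ _

theorem lit_succ' (a : A) (n : ℕ) (x : A) : lit a (n + 1) x = lit a n (a * x) :=
  Function.iterate_succ_apply _ _ _

theorem lit_add (a : A) (m n : ℕ) (x : A) : lit a (m + n) x = lit a m (lit a n x) :=
  Function.iterate_add_apply _ _ _ _

theorem lit_mul (a : A) (n : ℕ) (x y : A) : lit a n (x * y) = lit a n x * y := by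
  induction n with
  | zero => rfl
  | succ n ih => rw [lit_succ, lit_succ, ih, mul_assoc]

theorem norm_lit_le (a : A) (n : ℕ) (x : A) : ‖lit a n x‖ ≤ (1 + ‖a‖) ^ n * ‖x‖ := by
  induction n with
  | zero => simp [lit_zero]
  | succ n ih =>
    rw [lit_succ, pow_succ]
    refine (norm_mul_le _ _).trans ?_
    have h1 : ‖a‖ * ‖lit a n x‖ ≤ (1 + ‖a‖) * ((1 + ‖a‖) ^ n * ‖x‖) := by
      refine mul_le_mul (by linarith) ih (norm_nonneg _) (by positivity)
    refine h1.trans (le_of_eq ?_)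
    ring

theorem continuous_lit (a : A) (n : ℕ) : Continuous (lit a n) := by
  induction n with
  | zero => exact continuous_id
  | succ n ih =>
    have : lit a (n + 1) = fun x => a * lit a n x := by
      funext x
      exact lit_succ a n x
    rw [this]
    exact continuous_const.mul ih

theorem lit_sub (a : A) (n : ℕ) (x y : A) : lit a n (x - y) = lit a n x - lit a n y := by
  induction n with
  | zero => rfl
  | succ n ih => rw [lit_succ, lit_succ, lit_succ, ih, mul_sub]

/-- Mittag-Leffler -/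
theorem ml [CompleteSpace A] (a : A) (J : Submodule ℂ A) (hcl : IsClosed (J : Set A))
    (ha : ∀ x ∈ J, a * x ∈ J)
    (hd : ∀ x ∈ J, ∀ ε : ℝ, 0 < ε → ∃ y ∈ J, ‖x - a * y‖ < ε) (x : A) (hx : x ∈ J) (hx0 : x ≠ 0) :
    ∃ w : ℕ → A, (∀ n, w n ∈ J) ∧ (∀ n, a * w (n + 1) = w n) ∧ w 0 ≠ 0 := by
  set K : ℝ := ‖a‖ with hK
  have hK0 : 0 ≤ K := norm_nonneg a
  set δ : ℝ := ‖x‖ / 4 with hδ
  have hx' : 0 < ‖x‖ := norm_pos_iff.2 hx0
  have hδ0 : 0 < δ := by positivity
  have hε : ∀ n : ℕ, 0 < δ / (2 ^ n * (1 + K) ^ n) := fun n => by positivity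
  choose! g hg1 hg2 using fun (n : ℕ) (z : A) (hz : z ∈ J) => hd z hz _ (hε n)
  let y : ℕ → A := fun n => Nat.rec x (fun n z => g n z) n
  have hyJ : ∀ n, y n ∈ J := by
    intro n
    induction n with
    | zero => exact hx
    | succ n ih => exact hg1 n _ ih
  have hy : ∀ n, ‖y n - a * (y (n + 1))‖ < δ / (2 ^ n * (1 + K) ^ n) := fun n => hg2 n _ (hyJ n)
  have hstep : ∀ n k, dist (lit a k (y (n + k))) (lit a (k + 1) (y (n + (k + 1)))) ≤
      2 * δ / 2 / 2 ^ k := by
    intro n k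
    rw [dist_eq_norm, lit_succ', ← lit_sub]
    refine (norm_lit_le _ _ _).trans ?_
    have h1 := (hy (n + k)).le
    have h2 : (1 + K) ^ k * (δ / (2 ^ (n + k) * (1 + K) ^ (n + k))) ≤ 2 * δ / 2 / 2 ^ k := by
      have h3 : (1 + K) ^ k * (δ / (2 ^ (n + k) * (1 + K) ^ (n + k))) =
          δ / 2 ^ k / (2 ^ n * (1 + K) ^ n) := by
        rw [pow_add, pow_add]
        field_simp
      rw [h3]
      have h4 : 2 * δ / 2 / 2 ^ k = δ / 2 ^ k := by ring
      rw [h4]
      refine div_le_self (by positivity) ?_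
      have h5 : (1 : ℝ) ≤ 2 ^ n := one_le_pow₀ (by norm_num)
      have h6 : (1 : ℝ) ≤ (1 + K) ^ n := one_le_pow₀ (by linarith)
      nlinarith
    exact (mul_le_mul_of_nonneg_left h1 (by positivity)).trans h2
  have hlim : ∀ n, ∃ z, Tendsto (fun k => lit a k (y (n + k))) atTop (𝓝 z) :=
    fun n => cauchySeq_tendsto_of_complete (cauchySeq_of_le_geometric_two (hstep n))
  choose z hz using hlim
  have hlJ : ∀ k, ∀ v ∈ J, lit a k v ∈ J := by
    intro k
    induction k with
    | zero => exact fun v hv => hv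
    | succ k ih =>
      intro v hv
      rw [lit_succ]
      exact ha _ (ih v hv)
  refine ⟨z, fun n => hcl.mem_of_tendsto (hz n) (Eventually.of_forall fun k =>
    hlJ k _ (hyJ _)), fun n => ?_, ?_⟩
  · have h1 : Tendsto (fun k => a * lit a k (y (n + 1 + k))) atTop (𝓝 (a * z (n + 1))) :=
      (tendsto_const_nhds (x := a)).mul (hz (n + 1))
    have h2 : Tendsto (fun k => lit a (k + 1) (y (n + (k + 1)))) atTop (𝓝 (z n)) :=
      (hz n).comp (tendsto_add_atTop_nat 1)
    refine tendsto_nhds_unique h1 (h2.congr fun k => ?_)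
    rw [lit_succ]
    have : n + (k + 1) = n + 1 + k := by omega
    rw [this]
  · intro h0
    have h1 := dist_le_of_le_geometric_two_of_tendsto₀ (hstep 0) (hz 0)
    rw [h0] at h1
    have h3 : dist (lit a 0 (y (0 + 0))) (0 : A) ≤ 2 * δ := h1
    rw [lit_zero, dist_zero_right] at h3
    have h4 : y (0 + 0) = x := rfl
    rw [h4] at h3
    linarith

/-- commutation is kept by left multiplication with a commuting element -/
theorem comm_lit {a v v' : A} (hv : a * v' = v' * a) (h : v * v' = v' * v) (n : ℕ) :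
    lit a n v * v' = v' * lit a n v := by
  induction n with
  | zero => exact h
  | succ n ih =>
    rw [lit_succ, mul_assoc, ih, ← mul_assoc, hv, mul_assoc]

/-- The core: a closed subspace `J` of `V` in which `a * J` is dense vanishes. -/
theorem core_kill [CompleteSpace A] (hC : PropC A) (a : A) (V J : Submodule ℂ A)
    (hVcl : IsClosed (V : Set A)) (hVm : ∀ x ∈ V, ∀ y ∈ V, x * y ∈ V) (hVa : ∀ x ∈ V, a * x ∈ V)
    (hVc : ∀ x ∈ V, a * x = x * a) (hJV : J ≤ V) (hJcl : IsClosed (J : Set A))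
    (hJa : ∀ x ∈ J, a * x ∈ J)
    (hd : ∀ x ∈ J, ∀ ε : ℝ, 0 < ε → ∃ y ∈ J, ‖x - a * y‖ < ε)
    (hqn : ∀ ε : ℝ, 0 < ε → ∃ C : ℝ, ∀ n : ℕ, ∀ x ∈ V, ‖lit a n x‖ ≤ C * ε ^ n * ‖x‖) :
    ∀ x ∈ J, x = 0 := by
  intro x hx
  by_contra hx0
  obtain ⟨w, hwJ, hw, hw0⟩ := ml a J hJcl hJa hd x hx hx0
  apply hw0
  have hlit : ∀ n k, lit a k (w (n + k)) = w n := by
    intro n k
    induction k with
    | zero => rfl
    | succ k ih =>
      rw [lit_succ', ← Nat.add_assoc, hw, ih]
  set T : Set A := {z | ∃ n k : ℕ, z = lit a k (w n)} with hT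
  have hlV : ∀ k, ∀ v ∈ V, lit a k v ∈ V := by
    intro k
    induction k with
    | zero => exact fun v hv => hv
    | succ k ih =>
      intro v hv
      rw [lit_succ]
      exact hVa _ (ih v hv)
  have hTV : ∀ z ∈ T, z ∈ V := by
    rintro z ⟨n, k, rfl⟩
    exact hlV k _ (hJV (hwJ n))
  have hTa : ∀ z ∈ T, a * z ∈ T := by
    rintro z ⟨n, k, rfl⟩
    exact ⟨n, k + 1, (lit_succ a k _).symm⟩
  have hTd : ∀ z ∈ T, ∃ z' ∈ T, a * z' = z := by
    rintro z ⟨n, k, rfl⟩
    refine ⟨lit a k (w (n + 1)), ⟨n + 1, k, rfl⟩, ?_⟩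
    rw [← lit_succ, lit_succ', hw]
  have hTc : ∀ z ∈ T, ∀ z' ∈ T, z * z' = z' * z := by
    rintro z ⟨n, k, rfl⟩ z' ⟨n', k', rfl⟩
    have e1 : lit a k (w n) = lit a (k + n') (w (n + n')) := by
      rw [lit_add, hlit]
    have e2 : lit a k' (w n') = lit a (k' + n) (w (n + n')) := by
      rw [lit_add, Nat.add_comm n n', hlit]
    rw [e1, e2]
    have hN := hJV (hwJ (n + n'))
    refine comm_lit (hVc _ (hlV _ _ hN)) ?_ _
    exact (comm_lit (hVc _ hN) rfl _).symm
  set M : Subsemigroup A := Subsemigroup.closure T with hM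
  have hMa : ∀ z ∈ M, a * z ∈ M := by
    intro z hz
    induction hz using Subsemigroup.closure_induction with
    | mem z hz => exact Subsemigroup.subset_closure (hTa z hz)
    | mul z z' _ hz' ih _ =>
      rw [← mul_assoc]
      exact M.mul_mem ih hz'
  have hMd : ∀ z ∈ M, ∃ z' ∈ M, a * z' = z := by
    intro z hz
    induction hz using Subsemigroup.closure_induction with
    | mem z hz =>
      obtain ⟨z', hz', h⟩ := hTd z hz
      exact ⟨z', Subsemigroup.subset_closure hz', h⟩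
    | mul z z' _ hz' ih _ =>
      obtain ⟨y, hy, h⟩ := ih
      exact ⟨y * z', M.mul_mem hy hz', by rw [← mul_assoc, h]⟩
  have hMV : ∀ z ∈ M, z ∈ V := by
    intro z hz
    induction hz using Subsemigroup.closure_induction with
    | mem z hz => exact hTV z hz
    | mul z z' _ _ ih ih' => exact hVm _ ih _ ih'
  have hMc : ∀ z ∈ M, ∀ z' ∈ M, z * z' = z' * z := by
    have h1 : ∀ t ∈ T, ∀ z ∈ M, z * t = t * z := by
      intro t ht z hz
      induction hz using Subsemigroup.closure_induction with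
      | mem z hz => exact hTc z hz t ht
      | mul z z' _ _ ih ih' => rw [mul_assoc, ih', ← mul_assoc, ih, mul_assoc]
    intro z hz z' hz'
    induction hz' using Subsemigroup.closure_induction with
    | mem z' hz' => exact h1 z' hz' z hz
    | mul u v _ _ ih ih' => rw [← mul_assoc, ih, mul_assoc, ih', mul_assoc]
  set I : Submodule ℂ A := cspan (M : Set A) with hI
  have hIV : I ≤ V := cspan_le hVcl hMV
  have hbot : I = ⊥ := by
    refine allan hC a I (isClosed_cspan _) (cspan_mul fun x hx y hy => M.mul_mem hx hy)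
      (cspan_comm hMc) ?_ (fun x hx => hVc x (hIV hx)) ?_ ?_
    · have hc : IsClosed ((Submodule.comap (lmul a) I : Submodule ℂ A) : Set A) :=
        (isClosed_cspan _).preimage (continuous_lmul a)
      exact cspan_le hc (fun z hz => subset_cspan _ (hMa z hz))
    · intro x hx ε hε
      have hx' : x ∈ closure ((Submodule.span ℂ (M : Set A) : Submodule ℂ A) : Set A) := hx
      obtain ⟨z, hz, hxz⟩ := Metric.mem_closure_iff.1 hx' ε hε
      have hle : Submodule.span ℂ (M : Set A) ≤ (Submodule.span ℂ (M : Set A)).map (lmul a) := by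
        rw [Submodule.span_le]
        intro m hm
        obtain ⟨m', hm', h⟩ := hMd m hm
        exact ⟨m', Submodule.subset_span hm', h⟩
      obtain ⟨z', hz', rfl⟩ := hle hz
      refine ⟨z', Submodule.le_topologicalClosure _ hz', ?_⟩
      rw [dist_eq_norm] at hxz
      exact hxz
    · intro ε hε
      obtain ⟨C, hC'⟩ := hqn ε hε
      exact ⟨C, fun n x hx => hC' n x (hIV hx)⟩
  have h0 : w 0 ∈ I := subset_cspan _ (Subsemigroup.subset_closure ⟨0, 0, rfl⟩)
  rw [hbot, Submodule.mem_bot] at h0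
  exact h0

end

section
variable {A B : Type} [NonUnitalNormedRing A] [NormedSpace ℂ A] [IsScalarTower ℂ A A]
  [SMulCommClass ℂ A A] [CompleteSpace A] [NonUnitalNormedRing B] [NormedSpace ℂ B]
  [IsScalarTower ℂ B B] [SMulCommClass ℂ B B] [CompleteSpace B]

/-- the separating space of a homomorphism -/
noncomputable def Sp (θ : B →ₙₐ[ℂ] A) : Submodule ℂ A := Sep (θ : B →ₗ[ℂ] A)

omit [CompleteSpace A] [CompleteSpace B] in
theorem mem_Sp {θ : B →ₙₐ[ℂ] A} {y : A} : y ∈ Sp θ ↔
    ∃ x : ℕ → B, Tendsto x atTop (𝓝 0) ∧ Tendsto (fun n => θ (x n)) atTop (𝓝 y) := Iff.rfl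

omit [CompleteSpace A] [CompleteSpace B] in
theorem isClosed_Sp (θ : B →ₙₐ[ℂ] A) : IsClosed (Sp θ : Set A) := isClosed_Sep _

omit [CompleteSpace A] [CompleteSpace B] in
theorem Sp_left {θ : B →ₙₐ[ℂ] A} (b : B) {s : A} (hs : s ∈ Sp θ) : θ b * s ∈ Sp θ := by
  obtain ⟨x, hx, h⟩ := mem_Sp.1 hs
  refine mem_Sp.2 ⟨fun n => b * x n, ?_, ?_⟩
  · have := (tendsto_const_nhds (x := b)).mul hx
    rwa [mul_zero] at this
  · refine ((tendsto_const_nhds (x := θ b)).mul h).congr (fun n => ?_)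
    rw [map_mul]

omit [CompleteSpace A] [CompleteSpace B] in
theorem Sp_right {θ : B →ₙₐ[ℂ] A} (b : B) {s : A} (hs : s ∈ Sp θ) : s * θ b ∈ Sp θ := by
  obtain ⟨x, hx, h⟩ := mem_Sp.1 hs
  refine mem_Sp.2 ⟨fun n => x n * b, ?_, ?_⟩
  · have := hx.mul (tendsto_const_nhds (x := b))
    rwa [zero_mul] at this
  · refine (h.mul (tendsto_const_nhds (x := θ b))).congr (fun n => ?_)
    rw [map_mul]

/-- closed two-sided `θ B`-submodules of the separating space -/
structure Idl (θ : B →ₙₐ[ℂ] A) (V : Submodule ℂ A) : Prop where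
  cl : IsClosed (V : Set A)
  le : V ≤ Sp θ
  left : ∀ b : B, ∀ v ∈ V, θ b * v ∈ V
  right : ∀ b : B, ∀ v ∈ V, v * θ b ∈ V

omit [CompleteSpace A] [CompleteSpace B] in
theorem Idl.mul_mem {θ : B →ₙₐ[ℂ] A} {V : Submodule ℂ A} (hV : Idl θ V) {v y : A} (hv : v ∈ V)
    (hy : y ∈ Sp θ) : y * v ∈ V := by
  obtain ⟨x, hx, h⟩ := mem_Sp.1 hy
  exact hV.cl.mem_of_tendsto (h.mul (tendsto_const_nhds (x := v)))
    (Eventually.of_forall fun n => hV.left _ _ hv)

omit [CompleteSpace A] [CompleteSpace B] in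
theorem Idl.comm {θ : B →ₙₐ[ℂ] A} {V : Submodule ℂ A} (hV : Idl θ V) [Red A] {c : B}
    (hc : ∀ x : B, ∀ v ∈ V, θ (c * x - x * c) * v = 0) : ∀ v ∈ V, θ c * v = v * θ c := by
  have h1 : ∀ y ∈ Sp θ, ∀ v ∈ V, (θ c * y - y * θ c) * v = 0 := by
    intro y hy v hv
    obtain ⟨x, hx, h⟩ := mem_Sp.1 hy
    have h2 : Tendsto (fun n => (θ c * θ (x n) - θ (x n) * θ c) * v) atTop
        (𝓝 ((θ c * y - y * θ c) * v)) :=
      (((tendsto_const_nhds (x := θ c)).mul h).sub (h.mul tendsto_const_nhds)).mul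
        tendsto_const_nhds
    refine tendsto_nhds_unique h2 (tendsto_const_nhds.congr fun n => ?_)
    rw [← map_mul, ← map_mul, ← map_sub, hc _ v hv]
  intro v hv
  rw [← sub_eq_zero]
  apply Red.red
  exact h1 v (hV.le hv) _ (V.sub_mem (hV.left _ _ hv) (hV.right _ _ hv))

/-- left multiplication as a continuous linear map -/
noncomputable def LM (a : A) : A →L[ℂ] A := ⟨lmul a, continuous_lmul a⟩
/-- right multiplication as a continuous linear map -/
noncomputable def RM (a : A) : A →L[ℂ] A := ⟨rmul a, continuous_rmul a⟩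

omit [CompleteSpace A] in
theorem LM_apply (a x : A) : LM a x = a * x := rfl
omit [CompleteSpace A] in
theorem RM_apply (a x : A) : RM a x = x * a := rfl

/-- an operator `R₀` on `A` with an intertwined operator on `B` -/
theorem kill {θ : B →ₙₐ[ℂ] A} (hC : PropC A) {V : Submodule ℂ A} (hV : Idl θ V)
    (T₀ : B →L[ℂ] B) (R₀ : A →L[ℂ] A) (hTR : ∀ x, θ (T₀ x) = R₀ (θ x))
    (hR : ∀ s ∈ Sp θ, R₀ s ∈ V) (hRm : ∀ x y : A, R₀ (x * y) = R₀ x * y) {c : B}
    (hc : ∀ x : B, ∀ v ∈ V, θ (c * x - x * c) * v = 0)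
    (hqn : ∀ ε : ℝ, 0 < ε → ∃ C : ℝ, ∀ n : ℕ, ∀ x ∈ V, ‖lit (θ c) n x‖ ≤ C * ε ^ n * ‖x‖) :
    ∀ s ∈ Sp θ, θ c * R₀ s = 0 := by
  haveI : Red A := red_of_propC hC
  have hcm := hV.comm hc
  set a : A := θ c with ha
  let T : ℕ → B →L[ℂ] B := fun n => match n with
    | 0 => T₀
    | _ + 1 => RM c
  let R : ℕ → A →L[ℂ] A := fun n => match n with
    | 0 => R₀
    | _ + 1 => RM a
  have hint : ∀ n x, (θ : B →ₗ[ℂ] A) (T n x) = R n ((θ : B →ₗ[ℂ] A) x) := by
    intro n x
    cases n with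
    | zero => exact hTR x
    | succ n => exact map_mul θ x c
  obtain ⟨N, hN⟩ := stability (θ : B →ₗ[ℂ] A) T R hint
  have hlV : ∀ k, ∀ v ∈ V, lit a k v ∈ V := by
    intro k
    induction k with
    | zero => exact fun v hv => hv
    | succ k ih =>
      intro v hv
      rw [lit_succ]
      exact hV.left _ _ (ih v hv)
  -- the operators on the separating space
  have hRR : ∀ n, ∀ s ∈ Sp θ, RR R (n + 1) s = lit a n (R₀ s) := by
    intro n
    induction n with
    | zero => intro s _; rfl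
    | succ n ih =>
      intro s hs
      have e1 : RR R (n + 1 + 1) s = RR R (n + 1) (s * a) := rfl
      rw [e1, ih _ (Sp_right c hs), hRm, lit_mul, lit_succ, hcm _ (hlV n _ (hR s hs))]
  set J : Submodule ℂ A := ((Sep (θ : B →ₗ[ℂ] A)).map (RR R (N + 1)).toLinearMap).topologicalClosure
    with hJ
  have hJ' : ((Sep (θ : B →ₗ[ℂ] A)).map (RR R (N + 2)).toLinearMap).topologicalClosure = J := by
    rw [hJ, hN (N + 2) (by omega), hN (N + 1) (by omega)]
  have hJV : J ≤ V := by
    refine Submodule.topologicalClosure_minimal _ ?_ hV.cl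
    rintro _ ⟨s, hs, rfl⟩
    show RR R (N + 1) s ∈ V
    rw [hRR N s hs]
    exact hlV _ _ (hR s hs)
  have hkill := core_kill hC a V J hV.cl (fun x hx y hy => hV.mul_mem hy (hV.le hx))
    (fun x hx => hV.left _ _ hx) hcm hJV (Submodule.isClosed_topologicalClosure _) ?_ ?_ hqn
  · intro s hs
    have h1 : lit a N (R₀ s) = 0 := by
      rw [← hRR N s hs]
      exact hkill _ (Submodule.le_topologicalClosure _ ⟨s, hs, rfl⟩)
    have h2 : ∀ k, ∀ v : A, lit a (k + 1) v = 0 → a * v = 0 := by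
      intro k
      induction k with
      | zero => exact fun v hv => hv
      | succ k ih =>
        intro v hv
        rw [lit_succ'] at hv
        exact Red.sq0 (ih _ hv)
    refine h2 N _ ?_
    rw [lit_succ, h1, mul_zero]
  · -- invariance
    have hc2 : IsClosed ((Submodule.comap (lmul a) J : Submodule ℂ A) : Set A) :=
      (Submodule.isClosed_topologicalClosure _).preimage (continuous_lmul a)
    refine Submodule.topologicalClosure_minimal _ ?_ hc2
    rintro _ ⟨s, hs, rfl⟩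
    show a * RR R (N + 1) s ∈ J
    rw [hRR N s hs, ← lit_succ, ← hRR (N + 1) s hs]
    have e1 : RR R (N + 1 + 1) s = RR R (N + 1) (s * a) := rfl
    rw [e1]
    exact Submodule.le_topologicalClosure _ ⟨s * a, Sp_right c hs, rfl⟩
  · intro x hx ε hε
    rw [← hJ'] at hx
    have hx' : x ∈ closure (((Sep (θ : B →ₗ[ℂ] A)).map (RR R (N + 2)).toLinearMap : Submodule ℂ A) :
      Set A) := hx
    obtain ⟨z, ⟨s, hs, rfl⟩, hxz⟩ := Metric.mem_closure_iff.1 hx' ε hε
    refine ⟨RR R (N + 1) s, Submodule.le_topologicalClosure _ ⟨s, hs, rfl⟩, ?_⟩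
    rw [dist_eq_norm] at hxz
    have e2 : a * RR R (N + 1) s = RR R (N + 2) s := by
      rw [hRR N s hs, ← lit_succ, ← hRR (N + 1) s hs]
    rw [e2]
    exact hxz

end
end ACG
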