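import Pool.Agent.ACG.Defs

set_option autoImplicit false

/-!
RES: property (C) gives continuity on closed commutative subalgebras of `B`.
-/

namespace ACG

section
variable {A B G : Type} [NonUnitalNormedRing A] [NormedSpace ℂ A] [IsScalarTower ℂ A A]
  [SMulCommClass ℂ A A] [CompleteSpace A] [NormedRing B] [NormedAlgebra ℂ B] [CompleteSpace B]
  [Group G]

/-- the double centraliser of `b` -/
def DC (b : B) : Subalgebra ℂ B :=
  Subalgebra.centralizer ℂ (Subalgebra.centralizer ℂ ({b} : Set B) : Set B)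

omit [CompleteSpace B] in
theorem mem_DC {b x : B} : x ∈ DC b ↔ ∀ y : B, y * b = b * y → y * x = x * y := by
  rw [DC, Subalgebra.mem_centralizer_iff]
  constructor
  · intro h y hy
    refine h y ?_
    show y ∈ Subalgebra.centralizer ℂ ({b} : Set B)
    rw [Subalgebra.mem_centralizer_iff]
    intro z hz
    rw [Set.mem_singleton_iff.1 hz, hy]
  · intro h y hy
    refine h y ?_
    have hy' : y ∈ Subalgebra.centralizer ℂ ({b} : Set B) := hy
    rw [Subalgebra.mem_centralizer_iff] at hy'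
    exact (hy' b rfl).symm

omit [CompleteSpace B] in
theorem isClosed_DC (b : B) : IsClosed (DC b : Set B) := by
  have : (DC b : Set B) = ⋂ y : {y : B // y * b = b * y}, {x | (y : B) * x = x * y} := by
    ext x
    rw [SetLike.mem_coe, mem_DC, Set.mem_iInter]
    exact ⟨fun h y => h y.1 y.2, fun h y hy => h ⟨y, hy⟩⟩
  rw [this]
  refine isClosed_iInter (fun y => ?_)
  exact isClosed_eq (continuous_const.mul continuous_id) (continuous_id.mul continuous_const)

omit [CompleteSpace B] in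
theorem self_mem_DC (b : B) : b ∈ DC b := mem_DC.2 (fun _ h => h)

omit [CompleteSpace B] in
theorem DC_comm {b x y : B} (hx : x ∈ DC b) (hy : y ∈ DC b) : x * y = y * x := by
  have h1 : x * b = b * x := ((mem_DC.1 hx) b rfl).symm
  exact mem_DC.1 hy x h1

theorem restr_bound (hC : PropC A) (θ : B →ₙₐ[ℂ] A) (b : B) :
    ∃ C : ℝ, 0 ≤ C ∧ ∀ x ∈ DC b, ‖θ x‖ ≤ C * ‖x‖ := by
  have : CompleteSpace (DC b) := (isClosed_DC b).completeSpace_coe
  let ι : DC b →ₙₐ[ℂ] B := ((DC b).val : DC b →ₙₐ[ℂ] B)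
  have hι : ∀ x : DC b, ι x = (x : B) := fun _ => rfl
  have hcont : Continuous (θ.comp ι) := by
    refine hC (DC b) (θ.comp ι) (fun x y => ?_)
    rw [← map_mul, ← map_mul]
    congr 1
    exact Subtype.ext (DC_comm x.2 y.2)
  let L : DC b →L[ℂ] A :=
    { toFun := θ.comp ι
      map_add' := map_add _
      map_smul' := map_smul _
      cont := hcont }
  refine ⟨‖L‖, L.opNorm_nonneg, fun x hx => ?_⟩
  exact L.le_opNorm ⟨x, hx⟩

theorem restr_pow (hC : PropC A) (θ : B →ₙₐ[ℂ] A) (b : B) :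
    ∃ C : ℝ, 0 ≤ C ∧ ∀ n : ℕ, ‖θ (b ^ n)‖ ≤ C * ‖b ^ n‖ := by
  obtain ⟨C, hC0, h⟩ := restr_bound hC θ b
  exact ⟨C, hC0, fun n => h _ (pow_mem (self_mem_DC b) n)⟩

omit [CompleteSpace B] in
theorem zpow_mem_DC (δ : G →* B) (g : G) (n : ℤ) : δ (g ^ n) ∈ DC (δ g) := by
  rw [mem_DC]
  intro y hy
  have h1 : δ g * δ g⁻¹ = 1 := by rw [← map_mul, mul_inv_cancel, map_one]
  have h2 : δ g⁻¹ * δ g = 1 := by rw [← map_mul, inv_mul_cancel, map_one]
  have hinv : y * δ g⁻¹ = δ g⁻¹ * y := by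
    calc y * δ g⁻¹ = (δ g⁻¹ * δ g) * y * δ g⁻¹ := by rw [h2, one_mul]
      _ = δ g⁻¹ * (δ g * y) * δ g⁻¹ := by simp only [mul_assoc]
      _ = δ g⁻¹ * y * (δ g * δ g⁻¹) := by rw [← hy]; simp only [mul_assoc]
      _ = δ g⁻¹ * y := by rw [h1, mul_one]
  obtain ⟨m, rfl | rfl⟩ := n.eq_nat_or_neg
  · rw [zpow_natCast, map_pow]
    exact (show Commute y (δ g) from hy).pow_right m
  · rw [zpow_neg, zpow_natCast, ← inv_pow, map_pow]
    exact (show Commute y (δ g⁻¹) from hinv).pow_right m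

theorem restr_group (hC : PropC A) (θ : B →ₙₐ[ℂ] A) (δ : G →* B) (hδ : ∀ g, ‖δ g‖ ≤ 1)
    (g : G) : ∃ K : ℝ, (∀ n : ℤ, ‖θ (δ (g ^ n))‖ ≤ K) ∧
      ∀ α : ℤ → ℂ, Summable (fun n => ‖α n‖) →
        HasSum (fun n => α n • θ (δ (g ^ n))) (θ (∑' n, α n • δ (g ^ n))) := by
  obtain ⟨C, hC0, h⟩ := restr_bound hC θ (δ g)
  refine ⟨C, fun n => ?_, fun α hα => ?_⟩
  · refine (h _ (zpow_mem_DC δ g n)).trans ?_
    calc C * ‖δ (g ^ n)‖ ≤ C * 1 := mul_le_mul_of_nonneg_left (hδ _) hC0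
      _ = C := mul_one C
  · have hs : Summable (fun n : ℤ => α n • δ (g ^ n)) := by
      refine Summable.of_norm_bounded hα (fun n => ?_)
      rw [norm_smul]
      calc ‖α n‖ * ‖δ (g ^ n)‖ ≤ ‖α n‖ * 1 :=
            mul_le_mul_of_nonneg_left (hδ _) (norm_nonneg _)
        _ = ‖α n‖ := mul_one _
    have hmem : ∀ s : Finset ℤ, ∑ n ∈ s, α n • δ (g ^ n) ∈ DC (δ g) := fun s =>
      sum_mem (fun n _ => Subalgebra.smul_mem _ (zpow_mem_DC δ g n) _)
    have hmem2 : ∑' n, α n • δ (g ^ n) ∈ DC (δ g) :=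
      (isClosed_DC (δ g)).mem_of_tendsto hs.hasSum
        (Filter.Eventually.of_forall (fun s => hmem s))
    have hlim := hs.hasSum
    rw [HasSum, tendsto_iff_norm_sub_tendsto_zero] at hlim
    rw [HasSum, tendsto_iff_norm_sub_tendsto_zero]
    have h2 := hlim.const_mul C
    rw [mul_zero] at h2
    refine squeeze_zero (fun _ => norm_nonneg _) (fun s => ?_) h2
    have h3 : ∑ n ∈ s, α n • θ (δ (g ^ n)) = θ (∑ n ∈ s, α n • δ (g ^ n)) := by
      rw [map_sum]
      exact Finset.sum_congr rfl (fun n _ => (map_smul θ _ _).symm)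
    rw [h3, ← map_sub]
    exact h _ (sub_mem (hmem s) hmem2)

end
end ACG
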