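import Pool.Agent.ACG.Unit
import Pool.Agent.ACG.Res

set_option autoImplicit false

/-!
RANS (uses `ACG.restr_pow` of Res.lean, `propC_unit` of Unit.lean, `inU` of Allan.lean).

Ransford's argument: if `θ b` lies in the separating space of `θ` then `θ b` is quasi-nilpotent.

Proof. `three_circles`: for a polynomial `f : ℂ → E` (here: any entire function) with
`‖f z‖ ≤ M₁` on `|z| = R` and `‖f z‖ ≤ M₂` on `|z| = 1/R`, `R > 1`, one has `‖f 1‖ ^ 2 ≤ M₁ * M₂`.
Take `φ` in the dual with `φ (f 1) = ‖f 1‖`, `‖φ‖ ≤ 1` (`exists_dual_vector`), and apply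
`Complex.norm_le_of_forall_mem_frontier_norm_le` to `g z = φ (f z) * φ (f (1/z))` on the annulus
`{1/R < |z| < R}` (on both circles `‖g z‖ ≤ M₁ M₂`); `g 1 = ‖f 1‖ ^ 2`.

`qn_aux`. `v : S`, a unital Banach algebra, `α β ≥ 0`, `R > 1`, `u : S`, `p z = z • u + (v - u)`.
If for every `z` with `|z| = R` there is `C` with `‖p z ^ n‖ ≤ C * α ^ n` for all `n`, and
`‖p z‖ ≤ β` for `|z| = 1/R`, then `‖v ^ n‖ ≤ C * e ^ n` for all `n` (some `C`), whenever
`e > 0`, `2 * α * β < e ^ 2`, `α > 0`. Indeed for each `z` on the circle some `k` has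
`‖p z ^ (2^k)‖ < (2α) ^ (2^k)`, this persists for larger `k` (submultiplicativity) and in a
neighbourhood of `z` (continuity), so by compactness one `k` works for the whole circle; then
`‖v ^ m‖ ^ 2 = ‖p 1 ^ m‖ ^ 2 ≤ (2α) ^ m * β ^ m`, `m = 2^k` (three circles for `f z = p z ^ m`), so
`‖v ^ m‖ ≤ e ^ m`, and `n = q m + r` gives the claim.

`qn_of_sep`. Given `e > 0`, put `v = inU (θ b)`, `α = ‖b‖ + 1`, `R > 1` with
`2 * α * (‖v‖ + 2) / R < e ^ 2`, then `n` with `‖x n‖ ≤ 1 / (R + 1)`, `‖u - v‖ ≤ 1 / R`, for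
`u = inU (θ (x n))`. `p z = inU (θ (z • x n + (b - x n)))` and
`‖z • x n + (b - x n)‖ ≤ α` for `|z| = R`; the bound `‖p z ^ m‖ ≤ C * α ^ m` comes from
`restr_pow` for the algebra `WithLp 1 (Unitization ℂ B)` (or directly from (C) on the closed
subalgebra generated by the element); `‖p z‖ ≤ ‖u‖ / R + ‖v - u‖ ≤ (‖v‖ + 2) / R` for `|z| = 1/R`.
-/

namespace ACG

open Filter Topology

theorem three_circles {E : Type} [NormedAddCommGroup E] [NormedSpace ℂ E] (f : ℂ → E)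
    (hf : Differentiable ℂ f) (R M₁ M₂ : ℝ) (hR : 1 < R) (h1 : ∀ z : ℂ, ‖z‖ = R → ‖f z‖ ≤ M₁)
    (h2 : ∀ z : ℂ, ‖z‖ = 1 / R → ‖f z‖ ≤ M₂) : ‖f 1‖ ^ 2 ≤ M₁ * M₂ := by
  have hR0 : 0 < R := by linarith
  have hRi : 1 / R < 1 := by
    rw [div_lt_one hR0]; exact hR
  have hRi0 : 0 < 1 / R := by positivity
  obtain ⟨φ, hφ, hφ1⟩ := exists_dual_vector'' ℂ (f 1)
  have hφb : ∀ x : E, ‖φ x‖ ≤ ‖x‖ := fun x =>
    (φ.le_opNorm x).trans (by nlinarith [norm_nonneg x])
  let g : ℂ → ℂ := fun z => φ (f z) * φ (f z⁻¹)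
  let U : Set ℂ := {z | 1 / R < ‖z‖} ∩ {z | ‖z‖ < R}
  let K : Set ℂ := {z | 1 / R ≤ ‖z‖} ∩ {z | ‖z‖ ≤ R}
  have hUK : U ⊆ K := fun z hz =>
    ⟨(show 1 / R < ‖z‖ from hz.1).le, (show ‖z‖ < R from hz.2).le⟩
  have hU : IsOpen U :=
    (isOpen_lt continuous_const continuous_norm).inter (isOpen_lt continuous_norm continuous_const)
  have hK : IsClosed K :=
    (isClosed_le continuous_const continuous_norm).inter
      (isClosed_le continuous_norm continuous_const)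
  have hcl : closure U ⊆ K := closure_minimal hUK hK
  have hbd : Bornology.IsBounded U := by
    refine (Metric.isBounded_closedBall (x := (0 : ℂ)) (r := R)).subset fun z hz => ?_
    rw [mem_closedBall_zero_iff]
    exact (hUK hz).2
  have hd : DifferentiableOn ℂ g (closure U) := by
    intro z hz
    have hz0 : z ≠ 0 := by
      intro h0
      have := (hcl hz).1
      simp only [h0, Set.mem_ofPred_eq, norm_zero] at this
      linarith
    have e1 : DifferentiableAt ℂ (fun z => φ (f z)) z :=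
      φ.differentiableAt.comp z (hf z)
    have e2 : DifferentiableAt ℂ (fun z => φ (f z⁻¹)) z :=
      φ.differentiableAt.comp z ((hf z⁻¹).comp z (differentiableAt_inv hz0))
    exact (e1.mul e2).differentiableWithinAt
  have hM1 : 0 ≤ M₁ := (norm_nonneg _).trans (h1 (R : ℂ) (by simp [abs_of_pos hR0]))
  have hM2 : 0 ≤ M₂ := (norm_nonneg _).trans
    (h2 ((1 / R : ℝ) : ℂ) (by rw [Complex.norm_real, Real.norm_eq_abs, abs_of_pos hRi0]))
  have hfr : ∀ z ∈ frontier U, ‖g z‖ ≤ M₁ * M₂ := by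
    intro z hz
    rw [hU.frontier_eq] at hz
    have hzK := hcl hz.1
    have hgz : ‖g z‖ ≤ ‖f z‖ * ‖f z⁻¹‖ := by
      change ‖φ (f z) * φ (f z⁻¹)‖ ≤ _
      rw [norm_mul]
      exact mul_le_mul (hφb _) (hφb _) (norm_nonneg _) (norm_nonneg _)
    by_cases hlt : ‖z‖ < R
    · have he : ‖z‖ = 1 / R := by
        refine le_antisymm ?_ hzK.1
        by_contra hc
        exact hz.2 ⟨lt_of_not_ge hc, hlt⟩
      have he' : ‖z⁻¹‖ = R := by rw [norm_inv, he, one_div, inv_inv]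
      refine hgz.trans ?_
      rw [mul_comm]
      exact mul_le_mul (h1 _ he') (h2 _ he) (norm_nonneg _) hM1
    · have he : ‖z‖ = R := le_antisymm hzK.2 (not_lt.1 hlt)
      have he' : ‖z⁻¹‖ = 1 / R := by rw [norm_inv, he, one_div]
      exact hgz.trans (mul_le_mul (h1 _ he) (h2 _ he') (norm_nonneg _) hM1)
  have h1U : (1 : ℂ) ∈ closure U := by
    refine subset_closure ⟨?_, ?_⟩
    · simpa using hRi
    · simpa using hR
  have key := Complex.norm_le_of_forall_mem_frontier_norm_le hbd hd.diffContOnCl hfr h1U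
  have e : g 1 = ((‖f 1‖ ^ 2 : ℝ) : ℂ) := by
    change φ (f 1) * φ (f 1⁻¹) = _
    rw [inv_one, hφ1]
    change ((‖f 1‖ : ℝ) : ℂ) * ((‖f 1‖ : ℝ) : ℂ) = _
    push_cast
    ring
  rw [e, Complex.norm_real, Real.norm_eq_abs, abs_of_nonneg (by positivity)] at key
  exact key

private theorem qn_aux {S : Type} [NormedRing S] [NormedAlgebra ℂ S] (u v : S) (α β R e : ℝ)
    (hα : 0 < α) (hβ : 0 ≤ β) (hR : 1 < R) (he : 0 < e) (h2 : 2 * α * β ≤ e ^ 2)
    (hp : ∀ z : ℂ, ‖z‖ = R → ∃ C : ℝ, ∀ n : ℕ, ‖(z • u + (v - u)) ^ n‖ ≤ C * α ^ n)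
    (hq : ∀ z : ℂ, ‖z‖ = 1 / R → ‖z • u + (v - u)‖ ≤ β) :
    ∃ C : ℝ, ∀ n : ℕ, ‖v ^ n‖ ≤ C * e ^ n := by
  let p : ℂ → S := fun z => z • u + (v - u)
  have hpd : Differentiable ℂ p := by
    intro z
    exact ((differentiableAt_id.smul_const u).add_const _)
  have hpc : Continuous p := hpd.continuous
  let V : ℕ → Set ℂ := fun k => {z | ‖p z ^ (2 ^ k)‖ < (2 * α) ^ (2 ^ k)}
  have hVo : ∀ k, IsOpen (V k) := fun k =>
    isOpen_lt ((hpc.pow _).norm) continuous_const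
  have hVm : Monotone V := by
    refine monotone_nat_of_le_succ fun k z hz => ?_
    have hz' : ‖p z ^ (2 ^ k)‖ < (2 * α) ^ (2 ^ k) := hz
    change ‖p z ^ (2 ^ (k + 1))‖ < (2 * α) ^ (2 ^ (k + 1))
    rw [pow_succ, pow_mul, pow_mul, sq, sq]
    refine (norm_mul_le _ _).trans_lt ?_
    exact mul_lt_mul'' hz' hz' (norm_nonneg _) (norm_nonneg _)
  have hcov : Metric.sphere (0 : ℂ) R ⊆ ⋃ k, V k := by
    intro z hz
    have hz' : ‖z‖ = R := by simpa using hz
    obtain ⟨C, hC⟩ := hp z hz'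
    obtain ⟨k, hk⟩ := pow_unbounded_of_one_lt C (one_lt_two (α := ℝ))
    refine Set.mem_iUnion.2 ⟨k, ?_⟩
    change ‖p z ^ (2 ^ k)‖ < (2 * α) ^ (2 ^ k)
    refine (hC (2 ^ k)).trans_lt ?_
    rw [mul_pow]
    refine mul_lt_mul_of_pos_right ?_ (by positivity)
    refine hk.trans_le ?_
    exact pow_le_pow_right₀ (by norm_num) (Nat.lt_two_pow_self).le
  obtain ⟨k, hk⟩ := (isCompact_sphere (0 : ℂ) R).elim_directed_cover V hVo hcov
    hVm.directed_le
  set m : ℕ := 2 ^ k with hm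
  have hm0 : 0 < m := by positivity
  have h3 := three_circles (fun z => p z ^ m) (hpd.pow m) R ((2 * α) ^ m) (β ^ m) hR
    (fun z hz => le_of_lt (hk (by simpa using hz)))
    (fun z hz => (norm_pow_le' _ hm0).trans (pow_le_pow_left₀ (norm_nonneg _) (hq z hz) m))
  have hp1 : p 1 = v := by
    change (1 : ℂ) • u + (v - u) = v
    rw [one_smul]; abel
  have h4 : ‖v ^ m‖ ≤ e ^ m := by
    have h5 : ‖v ^ m‖ ^ 2 ≤ (e ^ m) ^ 2 := by
      have h6 : ‖v ^ m‖ ^ 2 ≤ (2 * α) ^ m * β ^ m := by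
        rw [← hp1]
        exact h3
      refine h6.trans ?_
      rw [← mul_pow, ← pow_mul, mul_comm m 2, pow_mul]
      exact pow_le_pow_left₀ (by positivity) h2 m
    exact le_of_sq_le_sq h5 (by positivity)
  refine ⟨∑ r ∈ Finset.range m, ‖v ^ r‖ / e ^ r, fun n => ?_⟩
  have h5 : ∀ q r : ℕ, ‖v ^ (m * q + r)‖ ≤ e ^ (m * q) * ‖v ^ r‖ := by
    intro q r
    induction q with
    | zero => simp
    | succ q ih =>
      have e1 : v ^ (m * (q + 1) + r) = v ^ m * v ^ (m * q + r) := by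
        rw [← pow_add]; congr 1; ring
      rw [e1]
      refine (norm_mul_le _ _).trans ?_
      refine (mul_le_mul h4 ih (norm_nonneg _) (by positivity)).trans ?_
      rw [← mul_assoc, ← pow_add]
      apply le_of_eq
      congr 2
      ring
  have h6 := h5 (n / m) (n % m)
  rw [Nat.div_add_mod] at h6
  refine h6.trans ?_
  have h7 : ‖v ^ (n % m)‖ / e ^ (n % m) ≤ ∑ r ∈ Finset.range m, ‖v ^ r‖ / e ^ r :=
    Finset.single_le_sum (f := fun r => ‖v ^ r‖ / e ^ r) (fun r _ => by positivity)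
      (Finset.mem_range.2 (Nat.mod_lt n hm0))
  have h8 : e ^ (m * (n / m)) * ‖v ^ (n % m)‖ = ‖v ^ (n % m)‖ / e ^ (n % m) * e ^ n := by
    have h9 : e ^ n = e ^ (m * (n / m)) * e ^ (n % m) := by
      rw [← pow_add, Nat.div_add_mod]
    rw [h9]
    field_simp
  rw [h8]
  exact mul_le_mul_of_nonneg_right h7 (by positivity)

/-- powers of `θ b` when `θ b` is in the separating space of `θ` -/
theorem qn_of_sep {A B : Type} [NonUnitalNormedRing A] [NormedSpace ℂ A] [IsScalarTower ℂ A A]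
    [SMulCommClass ℂ A A] [CompleteSpace A] [NonUnitalNormedRing B] [NormedSpace ℂ B]
    [IsScalarTower ℂ B B] [SMulCommClass ℂ B B] [CompleteSpace B] (hC : PropC A)
    (θ : B →ₙₐ[ℂ] A) (b : B) (x : ℕ → B) (hx : Tendsto x atTop (𝓝 0))
    (hθ : Tendsto (fun n => θ (x n)) atTop (𝓝 (θ b))) :
    QN (inU (θ b)) := by
  intro e he
  let θ₁ : WithLp 1 (Unitization ℂ B) →ₐ[ℂ] WithLp 1 (Unitization ℂ A) :=
    ((WithLp.unitizationAlgEquiv ℂ).symm.toAlgHom.comp
      (Unitization.lift ((Unitization.inrNonUnitalAlgHom ℂ A).comp θ))).comp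
      (WithLp.unitizationAlgEquiv ℂ).toAlgHom
  have hθ₁ : ∀ y : B, θ₁ (inU y) = inU (θ y) := by
    intro y
    apply WithLp.ofLp_injective
    change Unitization.lift ((Unitization.inrNonUnitalAlgHom ℂ A).comp θ) (y : Unitization ℂ B) =
      (θ y : Unitization ℂ A)
    simp
  have hpow : ∀ y : B, ∃ C : ℝ, 0 ≤ C ∧ ∀ n : ℕ, ‖inU (θ y) ^ n‖ ≤ C * ‖y‖ ^ n := by
    intro y
    obtain ⟨C, hC0, h⟩ := restr_pow (propC_unit hC) (θ₁ : _ →ₙₐ[ℂ] _) (inU y)
    refine ⟨C * max 1 ‖(1 : WithLp 1 (Unitization ℂ B))‖, by positivity, fun n => ?_⟩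
    have h1 : (inU (θ y) ^ n : WithLp 1 (Unitization ℂ A)) = θ₁ (inU y ^ n) := by
      rw [map_pow, hθ₁]
    rw [h1]
    refine (h n).trans ?_
    rw [mul_assoc]
    refine mul_le_mul_of_nonneg_left ?_ hC0
    rcases Nat.eq_zero_or_pos n with rfl | hn
    · simp
    · refine (norm_pow_le' _ hn).trans ?_
      rw [norm_inU]
      have h3 : (0:ℝ) ≤ ‖y‖ ^ n := by positivity
      nlinarith [le_max_left (1:ℝ) ‖(1 : WithLp 1 (Unitization ℂ B))‖]
  set v : WithLp 1 (Unitization ℂ A) := inU (θ b) with hv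
  set α : ℝ := ‖b‖ + 1 with hα
  have hα0 : 0 < α := by positivity
  set R : ℝ := 2 + 2 * α * (‖v‖ + 2) / e ^ 2 with hR
  have hR1 : 1 < R := by
    have : 0 ≤ 2 * α * (‖v‖ + 2) / e ^ 2 := by positivity
    linarith
  have hR0 : 0 < R := by linarith
  have e1 : ∀ᶠ n in atTop, ‖x n‖ < 1 / (R + 1) := by
    have := hx.norm
    rw [norm_zero] at this
    exact this.eventually_lt_const (by positivity)
  have e2 : ∀ᶠ n in atTop, ‖θ (x n) - θ b‖ < 1 / R := by
    have := (tendsto_sub_nhds_zero_iff.2 hθ).norm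
    rw [norm_zero] at this
    exact this.eventually_lt_const (by positivity)
  obtain ⟨n, hn1, hn2⟩ := (e1.and e2).exists
  set u : WithLp 1 (Unitization ℂ A) := inU (θ (x n)) with hu
  have huv : ‖u - v‖ < 1 / R := by
    rw [hu, hv, ← map_sub, norm_inU]; exact hn2
  have hRi : 1 / R < 1 := by rw [div_lt_one hR0]; exact hR1
  refine qn_aux u v α ((‖v‖ + 2) / R) R e hα0 (by positivity) hR1 he ?_ ?_ ?_
  · rw [← mul_div_assoc, div_le_iff₀ hR0, hR]
    have h5 : e ^ 2 * (2 + 2 * α * (‖v‖ + 2) / e ^ 2) = 2 * e ^ 2 + 2 * α * (‖v‖ + 2) := by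
      field_simp
    rw [h5]
    nlinarith [sq_nonneg e]
  · intro z hz
    obtain ⟨C, hC0, h⟩ := hpow (z • x n + (b - x n))
    refine ⟨C, fun m => ?_⟩
    have h1 : z • u + (v - u) = inU (θ (z • x n + (b - x n))) := by
      rw [hu, hv, map_add, map_smul, map_sub, map_add, map_smul, map_sub]
    rw [h1]
    refine (h m).trans (mul_le_mul_of_nonneg_left ?_ hC0)
    refine pow_le_pow_left₀ (norm_nonneg _) ?_ m
    have h2 : ‖z • x n‖ = R * ‖x n‖ := by rw [norm_smul, hz]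
    have h3 := norm_add_le (z • x n) (b - x n)
    have h4 := norm_sub_le b (x n)
    have h5 : (R + 1) * ‖x n‖ ≤ 1 := by
      have := (lt_div_iff₀ (by linarith : 0 < R + 1)).1 hn1
      linarith
    rw [h2] at h3
    rw [hα]
    linarith
  · intro z hz
    have h2 : ‖z • u‖ = 1 / R * ‖u‖ := by rw [norm_smul, hz]
    have h3 := norm_add_le (z • u) (v - u)
    have h4 : ‖u‖ ≤ ‖v‖ + 1 := by
      have := norm_add_le (u - v) v
      rw [sub_add_cancel] at this
      linarith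
    rw [h2, norm_sub_rev v u] at h3
    have h5 : 1 / R * ‖u‖ ≤ 1 / R * (‖v‖ + 1) := mul_le_mul_of_nonneg_left h4 (by positivity)
    have h6 : (‖v‖ + 2) / R = 1 / R * (‖v‖ + 1) + 1 / R := by ring
    rw [h6]
    linarith

end ACG
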