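import Pool.Agent.ACG.Pia
import Pool.Agent.ACG.Rans

set_option autoImplicit false
set_option linter.all false

/-!
PIB: selection of completely prime ideals attached to the separating space.
-/

namespace ACG

open Filter Topology

section
variable {A B : Type} [NonUnitalNormedRing A] [NormedSpace ℂ A] [IsScalarTower ℂ A A]
  [SMulCommClass ℂ A A] [NonUnitalNormedRing B] [NormedSpace ℂ B]
  [IsScalarTower ℂ B B] [SMulCommClass ℂ B B]

/-- identity or left multiplication by `θ b` -/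
noncomputable def opR (θ : B →ₙₐ[ℂ] A) : Option B → A →L[ℂ] A
  | none => ContinuousLinearMap.id ℂ A
  | some b => LM (θ b)

/-- identity or left multiplication by `b` -/
noncomputable def opT : Option B → B →L[ℂ] B
  | none => ContinuousLinearMap.id ℂ B
  | some b => LM b

theorem opTR (θ : B →ₙₐ[ℂ] A) (e : Option B) (x : B) : θ (opT e x) = opR θ e (θ x) := by
  cases e with
  | none => rfl
  | some b => exact map_mul θ b x

theorem opR_mul (θ : B →ₙₐ[ℂ] A) (e : Option B) (x y : A) :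
    opR θ e (x * y) = opR θ e x * y := by
  cases e with
  | none => rfl
  | some b => exact (mul_assoc _ _ _).symm

theorem opR_mem {θ : B →ₙₐ[ℂ] A} (e : Option B) {s : A} (hs : s ∈ Sp θ) : opR θ e s ∈ Sp θ := by
  cases e with
  | none => exact hs
  | some b => exact Sp_left b hs

/-- composition with one more left multiplication -/
def mulO : Option B → B → Option B
  | none, x => some x
  | some b, x => some (b * x)

theorem opR_mulO (θ : B →ₙₐ[ℂ] A) (e : Option B) (x : B) (s : A) :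
    opR θ (mulO e x) s = opR θ e (θ x * s) := by
  cases e with
  | none => rfl
  | some b =>
    show θ (b * x) * s = θ b * (θ x * s)
    rw [map_mul, mul_assoc]

theorem Red.perm [Red A] {p q s : A} (h : p * (q * s) = 0) : q * (p * s) = 0 := by
  have h1 := Red.mid0 h s
  have h2 : p * s * q * s = 0 := by rw [← h1, mul_assoc (p * s)]
  have h3 := Red.mid0 h2 p
  apply Red.red
  have : q * (p * s) * (q * (p * s)) = q * (p * s * q * p * s) := by simp only [mul_assoc]
  rw [this, h3, mul_zero]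

theorem Red.opR_swap [Red A] {θ : B →ₙₐ[ℂ] A} (e : Option B) {x s : A}
    (h : opR θ e (x * s) = 0) : x * opR θ e s = 0 := by
  cases e with
  | none => exact h
  | some b => exact Red.perm h

theorem Red.opR_swap' [Red A] {θ : B →ₙₐ[ℂ] A} (e : Option B) {x s y : A}
    (h : x * (y * opR θ e s) = 0) : y * opR θ e (x * s) = 0 := by
  cases e with
  | none => exact Red.perm h
  | some b =>
    have h1 : x * (y * (θ b * s)) = 0 := h
    have h2 : y * (x * (θ b * s)) = 0 := Red.perm h1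
    have h3 : θ b * ((y * x) * s) = 0 := Red.perm (by rw [mul_assoc]; exact h2)
    have h4 : θ b * (y * (x * s)) = 0 := by rw [← h3, mul_assoc y]
    exact Red.perm h4

/-- the ideal attached to `e` -/
def Pe (θ : B →ₙₐ[ℂ] A) (e : Option B) : Submodule ℂ B where
  carrier := {x | ∀ s ∈ Sp θ, θ x * opR θ e s = 0}
  zero_mem' := by
    intro s _
    rw [map_zero, zero_mul]
  add_mem' := by
    intro x y hx hy s hs
    rw [map_add, add_mul, hx s hs, hy s hs, add_zero]
  smul_mem' := by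
    intro c x hx s hs
    rw [map_smul, smul_mul_assoc, hx s hs, smul_zero]

theorem mem_Pe {θ : B →ₙₐ[ℂ] A} {e : Option B} {x : B} :
    x ∈ Pe θ e ↔ ∀ s ∈ Sp θ, θ x * opR θ e s = 0 := Iff.rfl

theorem Pe_left {θ : B →ₙₐ[ℂ] A} {e : Option B} {x : B} (hx : x ∈ Pe θ e) (b : B) :
    b * x ∈ Pe θ e := by
  intro s hs
  rw [map_mul, mul_assoc, hx s hs, mul_zero]

theorem Pe_right [Red A] {θ : B →ₙₐ[ℂ] A} {e : Option B} {x : B} (hx : x ∈ Pe θ e) (b : B) :
    x * b ∈ Pe θ e := by
  intro s hs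
  rw [map_mul]
  exact Red.mid0 (hx s hs) _

/-- the part of the separating space killed by `Pe` -/
def Ve (θ : B →ₙₐ[ℂ] A) (e : Option B) : Submodule ℂ A where
  carrier := {v | v ∈ Sp θ ∧ ∀ x ∈ Pe θ e, θ x * v = 0}
  zero_mem' := ⟨(Sp θ).zero_mem, fun x _ => mul_zero _⟩
  add_mem' := by
    rintro x y ⟨hx, hx'⟩ ⟨hy, hy'⟩
    exact ⟨(Sp θ).add_mem hx hy, fun z hz => by rw [mul_add, hx' z hz, hy' z hz, add_zero]⟩
  smul_mem' := by
    rintro c x ⟨hx, hx'⟩
    exact ⟨(Sp θ).smul_mem c hx, fun z hz => by rw [mul_smul_comm, hx' z hz, smul_zero]⟩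

theorem mem_Ve {θ : B →ₙₐ[ℂ] A} {e : Option B} {v : A} :
    v ∈ Ve θ e ↔ v ∈ Sp θ ∧ ∀ x ∈ Pe θ e, θ x * v = 0 := Iff.rfl

theorem opR_mem_Ve {θ : B →ₙₐ[ℂ] A} {e : Option B} {s : A} (hs : s ∈ Sp θ) :
    opR θ e s ∈ Ve θ e := ⟨opR_mem e hs, fun _ hx => hx s hs⟩

theorem Idl_Ve [Red A] (θ : B →ₙₐ[ℂ] A) (e : Option B) : Idl θ (Ve θ e) where
  cl := by
    have : (Ve θ e : Set A) = (Sp θ : Set A) ∩ ⋂ x : Pe θ e, {v | θ (x : B) * v = 0} := by
      ext v
      simp only [SetLike.mem_coe, mem_Ve, Set.mem_inter_iff, Set.mem_iInter, Set.mem_setOf_eq,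
        Subtype.forall]
    rw [this]
    refine (isClosed_Sp θ).inter (isClosed_iInter fun x => ?_)
    exact isClosed_eq (continuous_const.mul continuous_id) continuous_const
  le := fun v hv => hv.1
  left := by
    rintro b v ⟨hv, hv'⟩
    refine ⟨Sp_left b hv, fun x hx => ?_⟩
    rw [← mul_assoc]
    exact Red.mid0 (hv' x hx) _
  right := by
    rintro b v ⟨hv, hv'⟩
    refine ⟨Sp_right b hv, fun x hx => ?_⟩
    rw [← mul_assoc, hv' x hx, zero_mul]

theorem Pe_ne_top [Red A] {θ : B →ₙₐ[ℂ] A} {e : Option B} (h : ∃ s ∈ Sp θ, opR θ e s ≠ 0) :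
    Pe θ e ≠ ⊤ := by
  obtain ⟨s, hs, hs0⟩ := h
  intro htop
  apply hs0
  apply Red.red
  obtain ⟨x, hx, hx'⟩ := mem_Sp.1 (opR_mem e hs)
  have h1 : Tendsto (fun n => θ (x n) * opR θ e s) atTop (𝓝 (opR θ e s * opR θ e s)) :=
    hx'.mul tendsto_const_nhds
  refine tendsto_nhds_unique h1 (tendsto_const_nhds.congr fun n => ?_)
  have h2 : x n ∈ Pe θ e := by rw [htop]; trivial
  exact (h2 s hs).symm

end

section
variable {A B : Type} [NonUnitalNormedRing A] [NormedSpace ℂ A] [IsScalarTower ℂ A A]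
  [SMulCommClass ℂ A A] [CompleteSpace A] [NonUnitalNormedRing B] [NormedSpace ℂ B]
  [IsScalarTower ℂ B B] [SMulCommClass ℂ B B] [CompleteSpace B]

theorem select [Red A] (θ : B →ₙₐ[ℂ] A) (e₀ : Option B) (h0 : ∃ s ∈ Sp θ, opR θ e₀ s ≠ 0) :
    ∃ e : Option B, (∃ s ∈ Sp θ, opR θ e s ≠ 0) ∧
      (∀ s ∈ Sp θ, ∃ z ∈ Sp θ, opR θ e s = opR θ e₀ z) ∧
      ∀ x y : B, x * y ∈ Pe θ e → x ∈ Pe θ e ∨ y ∈ Pe θ e := by
  by_contra hcon
  push Not at hcon
  choose! fx fy hxy hx hy using hcon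
  let E : ℕ → Option B := fun n => Nat.rec e₀ (fun _ e => mulO e (fx e)) n
  have hE : ∀ n, E (n + 1) = mulO (E n) (fx (E n)) := fun n => rfl
  have hQ : ∀ n, (∃ s ∈ Sp θ, opR θ (E n) s ≠ 0) ∧
      (∀ s ∈ Sp θ, ∃ z ∈ Sp θ, opR θ (E n) s = opR θ e₀ z) := by
    intro n
    induction n with
    | zero => exact ⟨h0, fun s hs => ⟨s, hs, rfl⟩⟩
    | succ n ih =>
      refine ⟨?_, fun s hs => ?_⟩
      · by_contra h
        push Not at h
        apply hx (E n) ih.1 ih.2
        intro s hs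
        apply Red.opR_swap
        rw [← opR_mulO]
        exact h s hs
      · obtain ⟨z, hz, h⟩ := ih.2 (θ (fx (E n)) * s) (Sp_left _ hs)
        exact ⟨z, hz, by rw [hE, opR_mulO, h]⟩
  let T : ℕ → B →L[ℂ] B := fun n => match n with
    | 0 => opT e₀
    | n + 1 => LM (fx (E n))
  let R : ℕ → A →L[ℂ] A := fun n => match n with
    | 0 => opR θ e₀
    | n + 1 => LM (θ (fx (E n)))
  have hint : ∀ n x, (θ : B →ₗ[ℂ] A) (T n x) = R n ((θ : B →ₗ[ℂ] A) x) := by
    intro n x
    cases n with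
    | zero => exact opTR θ e₀ x
    | succ n => exact map_mul θ _ x
  obtain ⟨N, hN⟩ := stability (θ : B →ₗ[ℂ] A) T R hint
  have hRR : ∀ n, ∀ s : A, RR R (n + 1) s = opR θ (E n) s := by
    intro n
    induction n with
    | zero => intro s; rfl
    | succ n ih =>
      intro s
      have e1 : RR R (n + 1 + 1) s = RR R (n + 1) (θ (fx (E n)) * s) := rfl
      rw [e1, ih, hE, opR_mulO]
  have heq := (hN (N + 1) (by omega)).trans (hN (N + 2) (by omega)).symm
  apply hy (E N) (hQ N).1 (hQ N).2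
  -- `θ y` kills the smaller closure
  have hyE : ∀ s ∈ Sp θ, θ (fy (E N)) * opR θ (E (N + 1)) s = 0 := by
    intro s hs
    rw [hE, opR_mulO]
    apply Red.opR_swap'
    have := hxy (E N) (hQ N).1 (hQ N).2 s hs
    rwa [map_mul, mul_assoc] at this
  set K : Submodule ℂ A := LinearMap.ker (lmul (θ (fy (E N)))) with hK
  have hKcl : IsClosed (K : Set A) := by
    have : (K : Set A) = {z | θ (fy (E N)) * z = 0} := by
      ext z
      rw [SetLike.mem_coe, hK, LinearMap.mem_ker]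
      rfl
    rw [this]
    exact isClosed_eq (continuous_const.mul continuous_id) continuous_const
  have hle : ((Sep (θ : B →ₗ[ℂ] A)).map (RR R (N + 2)).toLinearMap).topologicalClosure ≤ K := by
    refine Submodule.topologicalClosure_minimal _ ?_ hKcl
    rintro _ ⟨s, hs, rfl⟩
    rw [hK, LinearMap.mem_ker]
    show θ (fy (E N)) * RR R (N + 2) s = 0
    rw [hRR (N + 1) s]
    exact hyE s hs
  rw [← heq] at hle
  intro s hs
  have h5 := hle (Submodule.le_topologicalClosure _ ⟨s, hs, rfl⟩)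
  rw [hK, LinearMap.mem_ker] at h5
  have h6 : θ (fy (E N)) * RR R (N + 1) s = 0 := h5
  rwa [hRR N s] at h6

end
end ACG
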