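import Pool.Agent.ACG.Pib

set_option autoImplicit false
set_option linter.all false

/-!
PIC: the theorems for algebras whose completely prime quotients have enough central elements.
-/

namespace ACG

open Filter Topology

/-- closed two-sided ideals are given as submodules; completely prime ideals -/
structure CPr {B : Type} [NonUnitalNormedRing B] [NormedSpace ℂ B] (P : Submodule ℂ B) : Prop where
  left : ∀ b x : B, x ∈ P → b * x ∈ P
  right : ∀ b x : B, x ∈ P → x * b ∈ P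
  pr : ∀ x y : B, x * y ∈ P → x ∈ P ∨ y ∈ P
  ne : P ≠ ⊤

section
variable {A B : Type} [NonUnitalNormedRing A] [NormedSpace ℂ A] [IsScalarTower ℂ A A]
  [SMulCommClass ℂ A A] [CompleteSpace A] [NonUnitalNormedRing B] [NormedSpace ℂ B]
  [IsScalarTower ℂ B B] [SMulCommClass ℂ B B] [CompleteSpace B]

theorem map_lit (θ : B →ₙₐ[ℂ] A) (c : B) (n : ℕ) (x : B) : θ (lit c n x) = lit (θ c) n (θ x) := by
  induction n with
  | zero => rfl
  | succ n ih => rw [lit_succ, lit_succ, map_mul, ih]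

theorem qn_image (hC : PropC A) (θ : B →ₙₐ[ℂ] A) (c : B) :
    ∃ K : ℝ, 0 ≤ K ∧ ∀ n : ℕ, ‖lit (θ c) n (θ c)‖ ≤ K * ‖lit c n c‖ := by
  have hT : ∀ x ∈ ({c} : Set B), ∀ y ∈ ({c} : Set B), x * y = y * x := by
    rintro x rfl y rfl
    rfl
  have hcont := DCs_cont hC θ hT
  let f : DCs ({c} : Set B) →ₗ[ℂ] A :=
    { toFun := fun x => θ (x : B)
      map_add' := fun x y => map_add θ (x : B) y
      map_smul' := fun r x => map_smul θ r (x : B) }
  let g : DCs ({c} : Set B) →L[ℂ] A := ⟨f, hcont⟩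
  refine ⟨‖g‖, norm_nonneg _, fun n => ?_⟩
  have hmem : lit c n c ∈ DCs ({c} : Set B) := by
    induction n with
    | zero => exact subset_DCs _ rfl
    | succ n ih =>
      rw [lit_succ]
      exact (DCs ({c} : Set B)).mul_mem (subset_DCs _ rfl) ih
  have h1 := g.le_opNorm ⟨lit c n c, hmem⟩
  have h2 : g ⟨lit c n c, hmem⟩ = lit (θ c) n (θ c) := map_lit θ c n c
  rw [h2] at h1
  exact h1

theorem qn_map (hC : PropC A) (θ : B →ₙₐ[ℂ] A) (c : B) (ε : ℝ)
    (h : ∃ C : ℝ, ∀ n : ℕ, ‖lit c n c‖ ≤ C * ε ^ n) :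
    ∃ C : ℝ, ∀ n : ℕ, ‖lit (θ c) n (θ c)‖ ≤ C * ε ^ n := by
  obtain ⟨C, hC'⟩ := h
  obtain ⟨K, hK0, hK⟩ := qn_image hC θ c
  refine ⟨K * C, fun n => (hK n).trans ?_⟩
  rw [mul_assoc]
  exact mul_le_mul_of_nonneg_left (hC' n) hK0

theorem small_qn {θ : B →ₙₐ[ℂ] A} {V : Submodule ℂ A} (hV : Idl θ V) {c : B}
    (h : ∀ ε : ℝ, 0 < ε → ∃ c' : B, (∀ v ∈ V, θ c * v = θ c' * v) ∧
      ∃ C : ℝ, ∀ n : ℕ, ‖lit (θ c') n (θ c')‖ ≤ C * ε ^ n) :
    ∀ ε : ℝ, 0 < ε → ∃ C : ℝ, ∀ n : ℕ, ∀ x ∈ V, ‖lit (θ c) n x‖ ≤ C * ε ^ n * ‖x‖ := by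
  intro ε hε
  obtain ⟨c', hcc, C, hC'⟩ := h ε hε
  have hC0 : 0 ≤ C := by
    have := (norm_nonneg _).trans (hC' 0)
    simpa using this
  refine ⟨1 + C / ε, fun n x hx => ?_⟩
  have hVl : ∀ k, lit (θ c') k x ∈ V := by
    intro k
    induction k with
    | zero => exact hx
    | succ k ih =>
      rw [lit_succ]
      exact hV.left _ _ ih
  have hl : ∀ k, lit (θ c) k x = lit (θ c') k x := by
    intro k
    induction k with
    | zero => rfl
    | succ k ih => rw [lit_succ, ih, hcc _ (hVl k), lit_succ]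
  rw [hl]
  cases n with
  | zero =>
    rw [lit_zero, pow_zero, mul_one]
    have : 0 ≤ C / ε := by positivity
    nlinarith [norm_nonneg x]
  | succ n =>
    rw [lit_succ', lit_mul]
    refine (norm_mul_le _ _).trans ?_
    refine mul_le_mul_of_nonneg_right ?_ (norm_nonneg _)
    have h1 : ‖lit (θ c') n (θ c')‖ ≤ C * ε ^ n := hC' n
    have h2 : C * ε ^ n = C / ε * ε ^ (n + 1) := by
      rw [pow_succ]
      field_simp
    have h3 : 0 ≤ ε ^ (n + 1) := by positivity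
    rw [h2] at h1
    nlinarith

theorem CPr_Pe [Red A] {θ : B →ₙₐ[ℂ] A} {e : Option B} (h : ∃ s ∈ Sp θ, opR θ e s ≠ 0)
    (h' : ∀ x y : B, x * y ∈ Pe θ e → x ∈ Pe θ e ∨ y ∈ Pe θ e) : CPr (Pe θ e) where
  left := fun b x hx => Pe_left hx b
  right := fun b x hx => Pe_right hx b
  pr := h'
  ne := Pe_ne_top h

omit [CompleteSpace A] [CompleteSpace B] in
theorem ker_le_Pe (θ : B →ₙₐ[ℂ] A) (e : Option B) (x : B) (hx : θ x = 0) : x ∈ Pe θ e := by
  intro s _
  rw [hx, zero_mul]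

/-- every ideal which is not in a completely prime ideal `P` over the kernel contains an element
outside `P` which is central modulo `P` -/
def PRo (θ : B →ₙₐ[ℂ] A) : Prop :=
  ∀ P : Submodule ℂ B, CPr P → (∀ x, θ x = 0 → x ∈ P) → ∀ J : Submodule ℂ B,
    (∀ b x : B, x ∈ J → b * x ∈ J ∧ x * b ∈ J) →
    ¬ J ≤ P → ∃ c ∈ J, c ∉ P ∧ ∀ x : B, c * x - x * c ∈ P

theorem some_notMem [Red A] {θ : B →ₙₐ[ℂ] A} {b : B} {e : Option B}
    (h : ∃ s ∈ Sp θ, opR θ e s ≠ 0) (hz : ∀ s ∈ Sp θ, ∃ z ∈ Sp θ, opR θ e s = opR θ (some b) z) :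
    b ∉ Pe θ e := by
  intro hb
  obtain ⟨s, hs, hs0⟩ := h
  obtain ⟨z, hz, hz'⟩ := hz s hs
  apply hs0
  have h1 := hb s hs
  rw [hz'] at h1 ⊢
  exact Red.sq0 h1

theorem mul_zero_of (hC : PropC A) (θ : B →ₙₐ[ℂ] A) (hB : PRo θ) (J : Submodule ℂ B)
    (hJ : ∀ b x : B, x ∈ J → b * x ∈ J ∧ x * b ∈ J)
    (hq : ∀ c ∈ J, ∀ V : Submodule ℂ A, Idl θ V → ∀ ε : ℝ, 0 < ε → ∃ C : ℝ, ∀ n : ℕ, ∀ x ∈ V,
      ‖lit (θ c) n x‖ ≤ C * ε ^ n * ‖x‖) :
    ∀ b ∈ J, ∀ s ∈ Sp θ, θ b * s = 0 := by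
  haveI : Red A := red_of_propC hC
  intro b hb s hs
  by_contra hne
  obtain ⟨e, he, hez, hpr⟩ := select θ (some b) ⟨s, hs, hne⟩
  have hbP := some_notMem he hez
  obtain ⟨c, hcJ, hcP, hcc⟩ := hB (Pe θ e) (CPr_Pe he hpr) (ker_le_Pe θ e) J hJ
    (fun h => hbP (h hb))
  apply hcP
  exact kill hC (Idl_Ve θ e) (opT e) (opR θ e) (opTR θ e) (fun s hs => opR_mem_Ve hs)
    (opR_mul θ e) (fun x v hv => hv.2 _ (hcc x)) (hq c hcJ _ (Idl_Ve θ e))

/-- (2a) -/
theorem rad_cont (hC : PropC A) (θ : B →ₙₐ[ℂ] A) (hB : PRo θ) (J : Submodule ℂ B)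
    (hJ : ∀ b x : B, x ∈ J → b * x ∈ J ∧ x * b ∈ J) (hJc : IsClosed (J : Set B))
    (hq : ∀ c ∈ J, ∀ ε : ℝ, 0 < ε → ∃ C : ℝ, ∀ n : ℕ, ‖lit (θ c) n (θ c)‖ ≤ C * ε ^ n) :
    Continuous (fun x : J => θ (x : B)) := by
  haveI : Red A := red_of_propC hC
  have h0 := mul_zero_of hC θ hB J hJ
    (fun c hc V hV => small_qn hV fun ε hε => ⟨c, fun _ _ => rfl, hq c hc ε hε⟩)
  haveI : CompleteSpace J := hJc.completeSpace_coe
  let f : J →ₗ[ℂ] A := (θ : B →ₗ[ℂ] A) ∘ₗ J.subtype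
  have hf : Continuous f := by
    rw [continuous_iff_Sep, eq_bot_iff]
    rintro y ⟨x, hx, hy⟩
    rw [Submodule.mem_bot]
    have hx' : Tendsto (fun n => ((x n : J) : B)) atTop (𝓝 0) :=
      (continuous_subtype_val.tendsto (0 : J)).comp hx
    have hyS : y ∈ Sp θ := mem_Sp.2 ⟨fun n => (x n : B), hx', hy⟩
    apply Red.red
    have h1 : Tendsto (fun n => θ (x n : B) * y) atTop (𝓝 (y * y)) := hy.mul tendsto_const_nhds
    refine tendsto_nhds_unique h1 (tendsto_const_nhds.congr fun n => ?_)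
    exact (h0 _ (x n).2 y hyS).symm
  exact hf

theorem lit_inU (a : A) (n : ℕ) (x : A) : inU (lit a n x) = (inU a) ^ n * inU x := by
  induction n with
  | zero => rw [lit_zero, pow_zero, one_mul]
  | succ n ih => rw [lit_succ, inU_mul, ih, pow_succ', mul_assoc]

/-- (2b) -/
theorem range_inter (hC : PropC A) (θ : B →ₙₐ[ℂ] A) (hB : PRo θ) (b : B) (hb : θ b ∈ Sp θ) :
    θ b = 0 := by
  haveI : Red A := red_of_propC hC
  apply Red.red
  refine mul_zero_of hC θ hB (Submodule.comap (θ : B →ₗ[ℂ] A) (Sp θ)) ?_ ?_ b hb _ hb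
  · intro b x hx
    constructor
    · show θ (b * x) ∈ Sp θ
      rw [map_mul]
      exact Sp_left b hx
    · show θ (x * b) ∈ Sp θ
      rw [map_mul]
      exact Sp_right b hx
  · intro c hc V hV ε hε
    have hc' : θ c ∈ Sp θ := hc
    obtain ⟨x, hx, h⟩ := mem_Sp.1 hc'
    obtain ⟨C, hC'⟩ := qn_of_sep hC θ c x hx h ε hε
    refine ⟨C, fun n x _ => ?_⟩
    rw [← norm_inU, lit_inU, ← norm_inU x]
    exact (norm_mul_le _ _).trans (mul_le_mul_of_nonneg_right (hC' n) (norm_nonneg _))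

/-- solution of `w = y + y w` -/
theorem exists_w (y : B) (hy : ‖y‖ < 1) : ∃ w : B, w = y + y * w := by
  have hn : ∀ k, ‖lit y k y‖ ≤ ‖y‖ ^ k * ‖y‖ := by
    intro k
    induction k with
    | zero => simp [lit_zero]
    | succ k ih =>
      rw [lit_succ, pow_succ]
      refine (norm_mul_le _ _).trans ((mul_le_mul_of_nonneg_left ih (norm_nonneg _)).trans ?_)
      exact le_of_eq (by ring)
  have hs : Summable fun k => lit y k y := by
    refine Summable.of_norm_bounded (g := fun k => ‖y‖ ^ k * ‖y‖) ?_ hn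
    exact (summable_geometric_of_lt_one (norm_nonneg _) hy).mul_right _
  refine ⟨∑' k, lit y k y, ?_⟩
  conv_lhs => rw [hs.tsum_eq_zero_add]
  rw [← hs.tsum_mul_left, lit_zero]
  congr 1
  exact tsum_congr fun k => lit_succ y k y

/-- codimension one case -/
theorem char_case {P : Submodule ℂ B} (hP : CPr P) {u : B} (hu : ∀ x : B, ∃ l : ℂ, x - l • u ∈ P) :
    ∃ (l : B → ℂ) (u : B), (∀ x, x - l x • u ∈ P) ∧ ∀ x, ‖l x‖ ≤ ‖x‖ := by
  have huP : u ∉ P := by
    intro h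
    apply hP.ne
    rw [eq_top_iff]
    intro x _
    obtain ⟨l, hl⟩ := hu x
    have := P.add_mem hl (P.smul_mem l h)
    rwa [sub_add_cancel] at this
  obtain ⟨m, hm⟩ := hu (u * u)
  have hm0 : m ≠ 0 := by
    rintro rfl
    rw [zero_smul, sub_zero] at hm
    rcases hP.pr u u hm with h | h <;> exact huP h
  set e : B := m⁻¹ • u with he
  have hue : u = m • e := by rw [he, smul_smul, mul_inv_cancel₀ hm0, one_smul]
  have heP : e ∉ P := fun h => huP (by rw [hue]; exact P.smul_mem _ h)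
  have hee : e * e - e ∈ P := by
    have h1 := P.smul_mem (m⁻¹ * m⁻¹) hm
    have h2 : (m⁻¹ * m⁻¹) • (u * u - m • u) = e * e - e := by
      rw [he, smul_sub, smul_mul_smul_comm, smul_smul]
      congr 2
      field_simp
    rwa [h2] at h1
  have hl : ∀ x : B, ∃ l : ℂ, x - l • e ∈ P := by
    intro x
    obtain ⟨l, hl⟩ := hu x
    refine ⟨l * m, ?_⟩
    rwa [mul_smul, ← hue]
  choose l hl using hl
  refine ⟨l, e, hl, fun x => ?_⟩
  by_contra hcon
  push Not at hcon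
  have hlx : l x ≠ 0 := by
    intro h
    rw [h, norm_zero] at hcon
    exact absurd hcon (not_lt.2 (norm_nonneg x))
  set y : B := (l x)⁻¹ • x with hy
  have hy1 : ‖y‖ < 1 := by
    rw [hy, norm_smul, norm_inv]
    rw [inv_mul_lt_iff₀ (norm_pos_iff.2 hlx), mul_one]
    exact hcon
  have hyP : y - e ∈ P := by
    have h1 := P.smul_mem (l x)⁻¹ (hl x)
    rwa [smul_sub, smul_smul, inv_mul_cancel₀ hlx, one_smul] at h1
  obtain ⟨w, hw⟩ := exists_w y hy1
  have h1 : y * w - l w • e ∈ P := by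
    have h2 : y * w - l w • e = y * (w - l w • e) + (y - e) * (l w • e) + l w • (e * e - e) := by
      simp only [mul_sub, sub_mul, smul_sub, mul_smul_comm]
      abel
    rw [h2]
    exact P.add_mem (P.add_mem (hP.left _ _ (hl w)) (hP.right _ _ hyP)) (P.smul_mem _ hee)
  have h3 : e ∈ P := by
    have h5 : w - y * w - y = 0 := by
      rw [sub_sub, sub_eq_zero, add_comm (y * w)]
      exact hw
    have h4 : e = (w - l w • e) - (y * w - l w • e) - (y - e) := by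
      have h6 : (w - l w • e) - (y * w - l w • e) - (y - e) = (w - y * w - y) + e := by abel
      rw [h6, h5, zero_add]
    rw [h4]
    exact P.sub_mem (P.sub_mem (hl w) h1) hyP
  exact heP h3

/-- (3) -/
theorem small_cont (hC : PropC A) (θ : B →ₙₐ[ℂ] A)
    (hB : ∀ P : Submodule ℂ B, CPr P → (∀ x, θ x = 0 → x ∈ P) →
      (∃ u : B, ∀ x : B, ∃ l : ℂ, x - l • u ∈ P) ∨
      ∃ c : B, c ∉ P ∧ (∀ x : B, c * x - x * c ∈ P) ∧ ∀ ε : ℝ, 0 < ε → ∃ c' : B, c - c' ∈ P ∧
        ∃ C : ℝ, ∀ n : ℕ, ‖lit (θ c') n (θ c')‖ ≤ C * ε ^ n) : Continuous θ := by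
  haveI : Red A := red_of_propC hC
  have hf : Continuous (θ : B →ₗ[ℂ] A) := by
    rw [continuous_iff_Sep, eq_bot_iff]
    intro y hy
    rw [Submodule.mem_bot]
    by_contra hne
    have hy' : y ∈ Sp θ := hy
    obtain ⟨e, he, _, hpr⟩ := select θ none ⟨y, hy', hne⟩
    have hP := CPr_Pe he hpr
    have hV := Idl_Ve θ e
    rcases hB (Pe θ e) hP (ker_le_Pe θ e) with ⟨u, hu⟩ | ⟨c, hcP, hcc, hc⟩
    · obtain ⟨l, u, hlu, hl⟩ := char_case hP hu
      obtain ⟨s, hs, hs0⟩ := he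
      apply hs0
      apply Red.red
      have hv := opR_mem_Ve (θ := θ) (e := e) hs
      obtain ⟨x, hx, hx'⟩ := mem_Sp.1 hv.1
      have h1 : Tendsto (fun n => θ (x n) * opR θ e s) atTop (𝓝 (opR θ e s * opR θ e s)) :=
        hx'.mul tendsto_const_nhds
      have h2 : ∀ n, θ (x n) * opR θ e s = l (x n) • (θ u * opR θ e s) := by
        intro n
        have h3 := hv.2 _ (hlu (x n))
        rw [map_sub, map_smul, sub_mul, sub_eq_zero, smul_mul_assoc] at h3
        exact h3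
      have h4 : Tendsto (fun n => l (x n)) atTop (𝓝 0) := by
        refine squeeze_zero_norm (fun n => hl (x n)) ?_
        have := hx.norm
        rwa [norm_zero] at this
      have h5 : Tendsto (fun n => l (x n) • (θ u * opR θ e s)) atTop
          (𝓝 ((0 : ℂ) • (θ u * opR θ e s))) := h4.smul_const _
      rw [zero_smul] at h5
      exact tendsto_nhds_unique h1 (h5.congr fun n => (h2 n).symm)
    · apply hcP
      refine kill hC hV (opT e) (opR θ e) (opTR θ e) (fun s hs => opR_mem_Ve hs)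
        (opR_mul θ e) (fun x v hv => hv.2 _ (hcc x)) (small_qn hV fun ε hε => ?_)
      obtain ⟨c', hcc', h⟩ := hc ε hε
      refine ⟨c', fun v hv => ?_, h⟩
      have h3 := hv.2 _ hcc'
      rwa [map_sub, sub_mul, sub_eq_zero] at h3
  exact hf

theorem Idl_Sp (θ : B →ₙₐ[ℂ] A) : Idl θ (Sp θ) :=
  ⟨isClosed_Sp θ, le_rfl, fun b _ hv => Sp_left b hv, fun b _ hv => Sp_right b hv⟩

/-- (1) for central elements -/
theorem central_qn (hC : PropC A) (θ : B →ₙₐ[ℂ] A) (c : B) (hc : ∀ x : B, c * x = x * c)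
    (hq : ∀ ε : ℝ, 0 < ε → ∃ C : ℝ, ∀ n : ℕ, ‖lit (θ c) n (θ c)‖ ≤ C * ε ^ n) :
    Continuous (fun x : B => θ (c * x)) := by
  have h0 : ∀ s ∈ Sp θ, θ c * s = 0 := by
    have := kill hC (Idl_Sp θ) (ContinuousLinearMap.id ℂ B) (ContinuousLinearMap.id ℂ A)
      (fun x => rfl) (fun s hs => hs) (fun x y => rfl) (c := c)
      (fun x v _ => by rw [hc x, sub_self, map_zero, zero_mul])
      (small_qn (Idl_Sp θ) fun ε hε => ⟨c, fun _ _ => rfl, hq ε hε⟩)
    exact this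
  have hf : Continuous ((LM (θ c)).toLinearMap ∘ₗ (θ : B →ₗ[ℂ] A)) := by
    rw [continuous_iff_Sep, Sep_comp, eq_bot_iff]
    refine Submodule.topologicalClosure_minimal _ ?_ ?_
    · rintro _ ⟨s, hs, rfl⟩
      rw [Submodule.mem_bot]
      exact h0 s hs
    · rw [Submodule.bot_coe]
      exact isClosed_singleton
  refine hf.congr fun x => ?_
  rw [map_mul]
  rfl

/-- (1) -/
theorem comm_qn (hC : PropC A) (θ : B →ₙₐ[ℂ] A) (c : B)
    (hq : ∀ ε : ℝ, 0 < ε → ∃ C : ℝ, ∀ n : ℕ, ‖lit (θ c) n (θ c)‖ ≤ C * ε ^ n) :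
    Continuous (fun x : {x : B // c * x = x * c} => θ (c * (x : B))) := by
  let D : NonUnitalSubalgebra ℂ B :=
    { carrier := {x | c * x = x * c}
      zero_mem' := by
        show c * 0 = 0 * c
        rw [mul_zero, zero_mul]
      add_mem' := by
        intro x y hx hy
        show c * (x + y) = (x + y) * c
        rw [mul_add, add_mul, hx, hy]
      mul_mem' := by
        intro x y hx hy
        show c * (x * y) = (x * y) * c
        rw [← mul_assoc, hx, mul_assoc, hy, mul_assoc]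
      smul_mem' := by
        intro r x hx
        show c * (r • x) = (r • x) * c
        rw [mul_smul_comm, smul_mul_assoc, hx] }
  have hD : IsClosed (D : Set B) :=
    isClosed_eq (continuous_const.mul continuous_id) (continuous_id.mul continuous_const)
  haveI : CompleteSpace D := hD.completeSpace_coe
  let θ₀ : D →ₙₐ[ℂ] A :=
    { toFun := fun x => θ (x : B)
      map_smul' := fun c x => map_smul θ c (x : B)
      map_zero' := map_zero θ
      map_add' := fun x y => map_add θ (x : B) y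
      map_mul' := fun x y => map_mul θ (x : B) y }
  let c₀ : D := ⟨c, rfl⟩
  have h := central_qn hC θ₀ c₀ (fun x => Subtype.ext x.2) hq
  exact h

end
end ACG
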