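import Pool.Agent.ACG.Pic

set_option autoImplicit false
set_option linter.all false

/-!
PID: algebras which are finitely generated over the elements central modulo `P`, up to a factor
outside `P`; homomorphisms into algebras without zero divisors.
-/

namespace ACG

open Filter Topology

/-- up to a factor `c` outside `P`, the algebra is finitely generated modulo `P` over elements
central modulo `P`, with coefficients depending continuously on the element -/
def FGc {A B : Type} [NonUnitalNormedRing A] [NormedSpace ℂ A] [NonUnitalNormedRing B]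
    [NormedSpace ℂ B] (θ : B →ₙₐ[ℂ] A) : Prop :=
  ∀ P : Submodule ℂ B, CPr P → (∀ x, θ x = 0 → x ∈ P) → ∃ c : B, c ∉ P ∧ ∃ (k : ℕ) (r : Fin k → B) (z : Fin k → B →L[ℂ] B),
    (∀ i, ∀ x y : B, z i x * y - y * z i x ∈ P) ∧
    (∀ x : B, c * x - ∑ i, z i x * r i ∈ P) ∧
    ∀ i, ∀ J : Submodule ℂ B, (∀ b x : B, x ∈ J → b * x ∈ J ∧ x * b ∈ J) → ∀ x ∈ J, z i x ∈ J

section
variable {A B : Type} [NonUnitalNormedRing A] [NormedSpace ℂ A] [IsScalarTower ℂ A A]
  [SMulCommClass ℂ A A] [CompleteSpace A] [NonUnitalNormedRing B] [NormedSpace ℂ B]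
  [IsScalarTower ℂ B B] [SMulCommClass ℂ B B] [CompleteSpace B]

theorem FGc.pro {θ : B →ₙₐ[ℂ] A} (h : FGc θ) : PRo θ := by
  intro P hP hPk J hJ hJP
  obtain ⟨x, hxJ, hxP⟩ := SetLike.not_le_iff_exists.1 hJP
  obtain ⟨c, hc, k, r, z, hz1, hz2, hz3⟩ := h P hP hPk
  by_contra hcon
  push Not at hcon
  have h1 : ∀ i, z i x ∈ P := by
    intro i
    by_contra hi
    obtain ⟨y, hy⟩ := hcon (z i x) (hz3 i J hJ x hxJ) hi
    exact hy (hz1 i x y)
  have h2 : ∑ i, z i x * r i ∈ P := P.sum_mem fun i _ => hP.right _ _ (h1 i)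
  have h3 := P.add_mem (hz2 x) h2
  rw [sub_add_cancel] at h3
  rcases hP.pr c x h3 with h | h
  · exact hc h
  · exact hxP h

theorem ker_closed (hC : PropC A) (θ : B →ₙₐ[ℂ] A) (hB : PRo θ) (x : B) (k : ℕ → B)
    (hk : ∀ n, θ (k n) = 0) (hx : Tendsto k atTop (𝓝 x)) : θ x = 0 := by
  apply range_inter hC θ hB x
  refine mem_Sp.2 ⟨fun n => x - k n, ?_, ?_⟩
  · have := (tendsto_const_nhds (x := x)).sub hx
    rwa [sub_self] at this
  · refine tendsto_const_nhds.congr fun n => ?_
    rw [map_sub, hk, sub_zero]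

/-- the elements central modulo the kernel -/
def Dk (θ : B →ₙₐ[ℂ] A) : NonUnitalSubalgebra ℂ B where
  carrier := {u | ∀ y, θ (u * y - y * u) = 0}
  zero_mem' := by
    intro y
    rw [mul_zero, zero_mul, sub_zero, map_zero]
  add_mem' := by
    intro u v hu hv y
    have : (u + v) * y - y * (u + v) = (u * y - y * u) + (v * y - y * v) := by
      rw [add_mul, mul_add]
      abel
    rw [this, map_add, hu y, hv y, add_zero]
  mul_mem' := by
    intro u v hu hv y
    have : u * v * y - y * (u * v) = u * (v * y - y * v) + (u * y - y * u) * v := by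
      rw [mul_sub, sub_mul]
      simp only [mul_assoc]
      abel
    rw [this, map_add, map_mul, map_mul, hu y, hv y, mul_zero, zero_mul, add_zero]
  smul_mem' := by
    intro l u hu y
    rw [smul_mul_assoc, mul_smul_comm, ← smul_sub, map_smul, hu y, smul_zero]

theorem Dk_cont (hC : PropC A) (θ : B →ₙₐ[ℂ] A) (hB : PRo θ) :
    Continuous (fun x : Dk θ => θ (x : B)) := by
  have hDm : ∀ u, u ∈ Dk θ ↔ ∀ y, θ (u * y - y * u) = 0 := fun u => Iff.rfl
  have hD : IsClosed (Dk θ : Set B) := by
    refine IsSeqClosed.isClosed fun u v hu hv => ?_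
    show v ∈ Dk θ
    rw [hDm]
    intro y
    refine ker_closed hC θ hB _ (fun n => u n * y - y * u n) (fun n => hu n y) ?_
    exact (hv.mul tendsto_const_nhds).sub (tendsto_const_nhds.mul hv)
  haveI : CompleteSpace (Dk θ) := hD.completeSpace_coe
  let θ₀ : Dk θ →ₙₐ[ℂ] A :=
    { toFun := fun x => θ (x : B)
      map_smul' := fun c x => map_smul θ c (x : B)
      map_zero' := map_zero θ
      map_add' := fun x y => map_add θ (x : B) y
      map_mul' := fun x y => map_mul θ (x : B) y }
  have hcont : Continuous θ₀ := by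
    refine hC (Dk θ) θ₀ fun x y => ?_
    show θ (x : B) * θ (y : B) = θ (y : B) * θ (x : B)
    have := x.2 (y : B)
    rwa [map_sub, map_mul, map_mul, sub_eq_zero] at this
  exact hcont

/-- if `θ (c x)` is a finite sum over elements central modulo the kernel, `θ c` kills the
separating space -/
theorem kill_fg (hC : PropC A) (θ : B →ₙₐ[ℂ] A) (hB : PRo θ) (c : B) (k : ℕ) (r : Fin k → B)
    (z : Fin k → B →L[ℂ] B) (hz : ∀ i x, z i x ∈ Dk θ)
    (hc : ∀ x, θ (c * x) = ∑ i, θ (z i x) * θ (r i)) : ∀ s ∈ Sp θ, θ c * s = 0 := by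
  have hcont := Dk_cont hC θ hB
  have hθz : ∀ i, Continuous (fun x => θ (z i x)) := by
    intro i
    have h1 : Continuous (fun x : B => (⟨z i x, hz i x⟩ : Dk θ)) :=
      (z i).continuous.subtype_mk _
    exact hcont.comp h1
  have hθc : Continuous (fun x => θ (c * x)) := by
    simp only [hc]
    exact continuous_finset_sum _ fun i _ => (hθz i).mul continuous_const
  intro s hs
  obtain ⟨x, hx, hs⟩ := mem_Sp.1 hs
  have h1 : Tendsto (fun n => θ (c * x n)) atTop (𝓝 (θ (c * 0))) := (hθc.tendsto 0).comp hx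
  rw [mul_zero, map_zero] at h1
  have h2 : Tendsto (fun n => θ (c * x n)) atTop (𝓝 (θ c * s)) := by
    refine ((tendsto_const_nhds (x := θ c)).mul hs).congr fun n => ?_
    exact (map_mul θ _ _).symm
  exact tendsto_nhds_unique h2 h1

end
end ACG
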