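import Pool.Agent.ACG.Pid

set_option autoImplicit false
set_option linter.all false

/-!
PIE: only closed completely prime ideals matter.
-/

namespace ACG

open Filter Topology

section
variable {A B : Type} [NonUnitalNormedRing A] [NormedSpace ℂ A] [IsScalarTower ℂ A A]
  [SMulCommClass ℂ A A] [CompleteSpace A] [NonUnitalNormedRing B] [NormedSpace ℂ B]
  [IsScalarTower ℂ B B] [SMulCommClass ℂ B B] [CompleteSpace B]

omit [NormedSpace ℂ B] [IsScalarTower ℂ B B] [SMulCommClass ℂ B B] [CompleteSpace B] in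
theorem norm_lit_self (a : B) (n : ℕ) (x : B) : ‖lit a n x‖ ≤ ‖a‖ ^ n * ‖x‖ := by
  induction n with
  | zero =>
    have : lit a 0 x = x := rfl
    rw [this]
    simp
  | succ n ih =>
    have : lit a (n + 1) x = a * lit a n x := Function.iterate_succ_apply' _ _ _
    rw [this, pow_succ]
    refine (norm_mul_le _ _).trans ((mul_le_mul_of_nonneg_left ih (norm_nonneg _)).trans ?_)
    exact le_of_eq (by ring)

omit [CompleteSpace B] in
theorem closure_ideal {P : Submodule ℂ B} (hP : CPr P) :
    ∀ b x : B, x ∈ P.topologicalClosure → b * x ∈ P.topologicalClosure ∧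
      x * b ∈ P.topologicalClosure := by
  intro b x hx
  constructor
  · have hc : IsClosed ((Submodule.comap (lmul b) P.topologicalClosure : Submodule ℂ B) : Set B) :=
      (Submodule.isClosed_topologicalClosure _).preimage (continuous_lmul b)
    exact Submodule.topologicalClosure_minimal P
      (t := Submodule.comap (lmul b) P.topologicalClosure)
      (fun y hy => Submodule.le_topologicalClosure _ (hP.left b y hy)) hc hx
  · have hc : IsClosed ((Submodule.comap (rmul b) P.topologicalClosure : Submodule ℂ B) : Set B) :=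
      (Submodule.isClosed_topologicalClosure _).preimage (continuous_rmul b)
    exact Submodule.topologicalClosure_minimal P
      (t := Submodule.comap (rmul b) P.topologicalClosure)
      (fun y hy => Submodule.le_topologicalClosure _ (hP.right b y hy)) hc hx

/-- (3') -/
theorem closed_cont (hC : PropC A) (θ : B →ₙₐ[ℂ] A) (hB : PRo θ) (N : Submodule ℂ B)
    (hN : ∀ b x : B, x ∈ N → b * x ∈ N ∧ x * b ∈ N)
    (hq : ∀ c ∈ N, ∀ ε : ℝ, 0 < ε → ∃ C : ℝ, ∀ n : ℕ, ‖lit (θ c) n (θ c)‖ ≤ C * ε ^ n)
    (h : ∀ P : Submodule ℂ B, CPr P → (∀ x, θ x = 0 → x ∈ P) → IsClosed (P : Set B) → N ≤ P →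
      ∃ u : B, ∀ x : B, ∃ l : ℂ, x - l • u ∈ P) : Continuous θ := by
  refine small_cont hC θ fun P hP hPk => ?_
  by_cases hcl : IsClosed (P : Set B)
  · by_cases hNP : N ≤ P
    · exact Or.inl (h P hP hPk hcl hNP)
    · obtain ⟨c, hcN, hcP, hcc⟩ := hB P hP hPk N hN hNP
      refine Or.inr ⟨c, hcP, hcc, fun ε hε => ⟨c, ?_, hq c hcN ε hε⟩⟩
      rw [sub_self]
      exact P.zero_mem
  · have hJP : ¬ P.topologicalClosure ≤ P := by
      intro hle
      apply hcl
      have : P.topologicalClosure = P := le_antisymm hle (Submodule.le_topologicalClosure _)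
      rw [← this]
      exact Submodule.isClosed_topologicalClosure _
    obtain ⟨c, hcJ, hcP, hcc⟩ := hB P hP hPk P.topologicalClosure (closure_ideal hP) hJP
    refine Or.inr ⟨c, hcP, hcc, fun ε hε => ?_⟩
    have hcJ' : c ∈ closure (P : Set B) := hcJ
    obtain ⟨p, hp, hcp⟩ := Metric.mem_closure_iff.1 hcJ' ε hε
    rw [dist_eq_norm] at hcp
    refine ⟨c - p, ?_, qn_map hC θ _ _ ⟨ε, fun n => ?_⟩⟩
    · rw [sub_sub_cancel]
      exact hp
    · refine (norm_lit_self _ _ _).trans ?_
      have h1 : ‖c - p‖ ^ n ≤ ε ^ n := pow_le_pow_left₀ (norm_nonneg _) hcp.le n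
      have h2 : 0 ≤ ‖c - p‖ := norm_nonneg _
      have h3 : 0 ≤ ε ^ n := by positivity
      have h4 : 0 ≤ ‖c - p‖ ^ n := by positivity
      nlinarith

end
end ACG
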