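import Pool.Agent.ACG.Pie

set_option autoImplicit false
set_option linter.all false

/-!
PIF: the ideal of the elements which annihilate the separating space; completely prime quotients
which are, up to a factor, finite sums over commutative subspaces of the algebra.
-/

namespace ACG

open Filter Topology

/-- `B c` is contained in the sum of `P` and finitely many `M i * u i`, with closed subspaces `M i`
of elements which commute modulo the kernel, for some `c` outside `P` -/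
def FL {A B : Type} [NonUnitalNormedRing A] [NormedSpace ℂ A] [NonUnitalNormedRing B]
    [NormedSpace ℂ B] (θ : B →ₙₐ[ℂ] A) (P : Submodule ℂ B) : Prop :=
  ∃ c : B, c ∉ P ∧ ∃ (k : ℕ) (M : Fin k → Submodule ℂ B) (u : Fin k → B),
    (∀ i, IsClosed (M i : Set B)) ∧ (∀ i, ∀ x ∈ M i, ∀ y ∈ M i, θ (x * y) = θ (y * x)) ∧
    ∀ x : B, ∃ m : Fin k → B, (∀ i, m i ∈ M i) ∧ x * c - ∑ i, m i * u i ∈ P

section
variable {A B : Type} [NonUnitalNormedRing A] [NormedSpace ℂ A] [IsScalarTower ℂ A A]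
  [SMulCommClass ℂ A A] [CompleteSpace A] [NonUnitalNormedRing B] [NormedSpace ℂ B]
  [IsScalarTower ℂ B B] [SMulCommClass ℂ B B] [CompleteSpace B]

/-- the double commutant modulo the kernel -/
def Dc (θ : B →ₙₐ[ℂ] A) (T : Set B) : NonUnitalSubalgebra ℂ B where
  carrier := {x | ∀ y, (∀ z ∈ T, θ y * θ z = θ z * θ y) → θ y * θ x = θ x * θ y}
  zero_mem' := by
    intro y _
    rw [map_zero, zero_mul, mul_zero]
  add_mem' := by
    intro u v hu hv y hy
    rw [map_add, mul_add, add_mul, hu y hy, hv y hy]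
  mul_mem' := by
    intro u v hu hv y hy
    rw [map_mul, ← mul_assoc, hu y hy, mul_assoc, hv y hy, mul_assoc]
  smul_mem' := by
    intro l u hu y hy
    rw [map_smul, smul_mul_assoc, mul_smul_comm, hu y hy]

theorem mem_Dc {θ : B →ₙₐ[ℂ] A} {T : Set B} {x : B} : x ∈ Dc θ T ↔
    ∀ y, (∀ z ∈ T, θ y * θ z = θ z * θ y) → θ y * θ x = θ x * θ y := Iff.rfl

theorem isClosed_Dc (hC : PropC A) (θ : B →ₙₐ[ℂ] A) (hB : PRo θ) (T : Set B) :
    IsClosed (Dc θ T : Set B) := by
  refine IsSeqClosed.isClosed fun u v hu hv => ?_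
  show v ∈ Dc θ T
  rw [mem_Dc]
  intro y hy
  have h1 : θ (y * v - v * y) = 0 := by
    refine ker_closed hC θ hB _ (fun n => y * u n - u n * y) (fun n => ?_) ?_
    · have := (mem_Dc.1 (hu n)) y hy
      rw [map_sub, map_mul, map_mul, this, sub_self]
    · exact (tendsto_const_nhds.mul hv).sub (hv.mul tendsto_const_nhds)
  rwa [map_sub, map_mul, map_mul, sub_eq_zero] at h1

theorem Dc_comm {θ : B →ₙₐ[ℂ] A} {T : Set B} (hT : ∀ x ∈ T, ∀ y ∈ T, θ x * θ y = θ y * θ x)
    {x y : B} (hx : x ∈ Dc θ T) (hy : y ∈ Dc θ T) : θ x * θ y = θ y * θ x := by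
  refine (mem_Dc.1 hy) x fun z hz => ?_
  exact ((mem_Dc.1 hx) z fun w hw => hT z hz w hw).symm

/-- a homomorphism is bounded on closed subspaces of elements which commute modulo the kernel -/
theorem comm_bound (hC : PropC A) (θ : B →ₙₐ[ℂ] A) (hB : PRo θ) (T : Set B)
    (hT : ∀ x ∈ T, ∀ y ∈ T, θ (x * y) = θ (y * x)) :
    ∃ K : ℝ, 0 ≤ K ∧ ∀ x ∈ T, ‖θ x‖ ≤ K * ‖x‖ := by
  have hT' : ∀ x ∈ T, ∀ y ∈ T, θ x * θ y = θ y * θ x := by
    intro x hx y hy
    rw [← map_mul, ← map_mul, hT x hx y hy]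
  haveI : CompleteSpace (Dc θ T) := (isClosed_Dc hC θ hB T).completeSpace_coe
  let θ₀ : Dc θ T →ₙₐ[ℂ] A :=
    { toFun := fun x => θ (x : B)
      map_smul' := fun c x => map_smul θ c (x : B)
      map_zero' := map_zero θ
      map_add' := fun x y => map_add θ (x : B) y
      map_mul' := fun x y => map_mul θ (x : B) y }
  have hcont : Continuous θ₀ := hC (Dc θ T) θ₀ fun x y => Dc_comm hT' x.2 y.2
  let f : Dc θ T →ₗ[ℂ] A :=
    { toFun := fun x => θ (x : B)
      map_add' := fun x y => map_add θ (x : B) y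
      map_smul' := fun r x => map_smul θ r (x : B) }
  let g : Dc θ T →L[ℂ] A := ⟨f, hcont⟩
  refine ⟨‖g‖, norm_nonneg _, fun x hx => ?_⟩
  have hx' : x ∈ Dc θ T := by
    rw [mem_Dc]
    intro y hy
    exact hy x hx
  exact g.le_opNorm ⟨x, hx'⟩

/-- bounded choice of the coefficients -/
theorem FL_bound {P : Submodule ℂ B} (hP : IsClosed (P : Set B)) {c : B} {k : ℕ}
    {M : Fin k → Submodule ℂ B} {u : Fin k → B} (hM : ∀ i, IsClosed (M i : Set B))
    (h : ∀ x : B, ∃ m : Fin k → B, (∀ i, m i ∈ M i) ∧ x * c - ∑ i, m i * u i ∈ P) :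
    ∃ C : ℝ, 0 < C ∧ ∀ x : B, ∃ m : Fin k → B, (∀ i, m i ∈ M i) ∧ x * c - ∑ i, m i * u i ∈ P ∧
      ∀ i, ‖m i‖ ≤ C * ‖x‖ := by
  let X : Submodule ℂ (B × (Fin k → B)) :=
    { carrier := {z | (∀ i, z.2 i ∈ M i) ∧ z.1 * c - ∑ i, z.2 i * u i ∈ P}
      zero_mem' := by
        refine ⟨fun i => (M i).zero_mem, ?_⟩
        simp
      add_mem' := by
        rintro a b ⟨ha, ha'⟩ ⟨hb, hb'⟩
        refine ⟨fun i => (M i).add_mem (ha i) (hb i), ?_⟩
        have h1 := P.add_mem ha' hb'
        have h2 : (a + b).1 * c - ∑ i, (a + b).2 i * u i =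
            (a.1 * c - ∑ i, a.2 i * u i) + (b.1 * c - ∑ i, b.2 i * u i) := by
          simp only [Prod.fst_add, Prod.snd_add, Pi.add_apply, add_mul, Finset.sum_add_distrib]
          abel
        rw [h2]
        exact h1
      smul_mem' := by
        rintro r a ⟨ha, ha'⟩
        refine ⟨fun i => (M i).smul_mem r (ha i), ?_⟩
        have h1 := P.smul_mem r ha'
        have h2 : (r • a).1 * c - ∑ i, (r • a).2 i * u i =
            r • (a.1 * c - ∑ i, a.2 i * u i) := by
          simp only [Prod.smul_fst, Prod.smul_snd, Pi.smul_apply, smul_mul_assoc, smul_sub,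
            Finset.smul_sum]
        rw [h2]
        exact h1 }
  have hX : IsClosed (X : Set (B × (Fin k → B))) := by
    have h1 : (X : Set (B × (Fin k → B))) =
        (⋂ i, {z | z.2 i ∈ M i}) ∩ {z | z.1 * c - ∑ i, z.2 i * u i ∈ P} := by
      ext z
      rw [Set.mem_inter_iff, Set.mem_iInter]
      exact Iff.rfl
    rw [h1]
    refine (isClosed_iInter fun i => ?_).inter ?_
    · exact (hM i).preimage ((continuous_apply i).comp continuous_snd)
    · refine hP.preimage ((continuous_fst.mul continuous_const).sub ?_)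
      exact continuous_finset_sum _ fun i _ =>
        ((continuous_apply i).comp continuous_snd).mul continuous_const
  haveI : CompleteSpace X := hX.completeSpace_coe
  let f : X →L[ℂ] B := (ContinuousLinearMap.fst ℂ B (Fin k → B)).comp X.subtypeL
  have hf : Function.Surjective f := by
    intro x
    obtain ⟨m, hm, hm'⟩ := h x
    exact ⟨⟨(x, m), hm, hm'⟩, rfl⟩
  obtain ⟨C, hC0, hC⟩ := f.exists_preimage_norm_le hf
  refine ⟨C, hC0, fun x => ?_⟩
  obtain ⟨z, hz, hzn⟩ := hC x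
  obtain ⟨⟨x', m⟩, hm, hm'⟩ := z
  have hx : x' = x := hz
  subst hx
  refine ⟨m, hm, hm', fun i => ?_⟩
  refine (norm_le_pi_norm m i).trans ?_
  refine le_trans ?_ hzn
  exact le_max_right _ _

theorem Red.cancel [Red A] {v a : A} (h : v * (a * v) = 0) : a * v = 0 := by
  apply Red.red
  rw [mul_assoc, h, mul_zero]

/-- the lifting case -/
theorem lift_case (hC : PropC A) (θ : B →ₙₐ[ℂ] A) (hB : PRo θ) {e : Option B}
    (hcl : IsClosed (Pe θ e : Set B)) (hF : FL θ (Pe θ e)) : False := by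
  haveI : Red A := red_of_propC hC
  obtain ⟨c, hc, k, M, u, hM, hMc, hm⟩ := hF
  obtain ⟨C, hC0, hm⟩ := FL_bound hcl hM hm
  choose K hK0 hK using fun i => comm_bound hC θ hB (M i : Set B) (hMc i)
  apply hc
  intro s hs
  set v : A := opR θ e s with hv
  apply Red.cancel (v := v)
  obtain ⟨x, hx, hxv⟩ := mem_Sp.1 (opR_mem e hs)
  rw [← hv] at hxv
  have h1 : Tendsto (fun n => θ (x n) * (θ c * v)) atTop (𝓝 (v * (θ c * v))) :=
    hxv.mul tendsto_const_nhds
  choose m hm1 hm2 hm3 using fun n => hm (x n)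
  have h2 : ∀ n, θ (x n) * (θ c * v) = ∑ i, θ (m n i) * (θ (u i) * v) := by
    intro n
    have h3 := hm2 n s hs
    rw [← hv, map_sub, map_mul, map_sum, sub_mul, sub_eq_zero, mul_assoc, Finset.sum_mul] at h3
    rw [h3]
    refine Finset.sum_congr rfl fun i _ => ?_
    rw [map_mul, mul_assoc]
  have hxn : Tendsto (fun n => ‖x n‖) atTop (𝓝 0) := by
    have := hx.norm
    rwa [norm_zero] at this
  have h3 : Tendsto (fun n => ∑ i, θ (m n i) * (θ (u i) * v)) atTop (𝓝 0) := by
    have h4 : Tendsto (fun n => ∑ i : Fin k, K i * (C * ‖x n‖) * ‖θ (u i) * v‖) atTop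
        (𝓝 (∑ i : Fin k, K i * (C * 0) * ‖θ (u i) * v‖)) :=
      tendsto_finset_sum _ fun i _ => ((hxn.const_mul C).const_mul (K i)).mul_const _
    have h5 : (∑ i : Fin k, K i * (C * 0) * ‖θ (u i) * v‖) = 0 := by simp
    rw [h5] at h4
    refine squeeze_zero_norm (fun n => ?_) h4
    refine (norm_sum_le _ _).trans (Finset.sum_le_sum fun i _ => ?_)
    refine (norm_mul_le _ _).trans (mul_le_mul_of_nonneg_right ?_ (norm_nonneg _))
    refine (hK i _ (hm1 n i)).trans ?_
    exact mul_le_mul_of_nonneg_left (hm3 n i) (hK0 i)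
  exact tendsto_nhds_unique h1 (h3.congr fun n => (h2 n).symm)

/-- the selected ideals are closed -/
theorem Pe_closed (hC : PropC A) (θ : B →ₙₐ[ℂ] A) (hB : PRo θ) {e : Option B}
    (he : ∃ s ∈ Sp θ, opR θ e s ≠ 0)
    (hpr : ∀ x y : B, x * y ∈ Pe θ e → x ∈ Pe θ e ∨ y ∈ Pe θ e) : IsClosed (Pe θ e : Set B) := by
  haveI : Red A := red_of_propC hC
  have hP := CPr_Pe he hpr
  have hV := Idl_Ve θ e
  by_contra hcl
  have hJP : ¬ (Pe θ e).topologicalClosure ≤ Pe θ e := by
    intro hle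
    apply hcl
    have : (Pe θ e).topologicalClosure = Pe θ e :=
      le_antisymm hle (Submodule.le_topologicalClosure _)
    rw [← this]
    exact Submodule.isClosed_topologicalClosure _
  obtain ⟨c, hcJ, hcP, hcc⟩ := hB _ hP (ker_le_Pe θ e) _ (closure_ideal hP) hJP
  apply hcP
  refine kill hC hV (opT e) (opR θ e) (opTR θ e) (fun s hs => opR_mem_Ve hs)
    (opR_mul θ e) (fun x v hv => hv.2 _ (hcc x)) (small_qn hV fun ε hε => ?_)
  have hcJ' : c ∈ closure (Pe θ e : Set B) := hcJ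
  obtain ⟨p, hp, hcp⟩ := Metric.mem_closure_iff.1 hcJ' ε hε
  rw [dist_eq_norm] at hcp
  refine ⟨c - p, fun v hv => ?_, qn_map hC θ _ _ ⟨ε, fun n => ?_⟩⟩
  · have h3 := hv.2 p hp
    rw [map_sub, sub_mul, h3, sub_zero]
  · refine (norm_lit_self _ _ _).trans ?_
    have h1 : ‖c - p‖ ^ n ≤ ε ^ n := pow_le_pow_left₀ (norm_nonneg _) hcp.le n
    have h2 : 0 ≤ ‖c - p‖ := norm_nonneg _
    have h3 : 0 ≤ ε ^ n := by positivity
    have h4 : 0 ≤ ‖c - p‖ ^ n := by positivity
    nlinarith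

/-- every ideal with quasi-nilpotent images annihilates the separating space -/
theorem qn_kill (hC : PropC A) (θ : B →ₙₐ[ℂ] A) (hB : PRo θ) (N : Submodule ℂ B)
    (hN : ∀ b x : B, x ∈ N → b * x ∈ N ∧ x * b ∈ N)
    (hq : ∀ c ∈ N, ∀ ε : ℝ, 0 < ε → ∃ C : ℝ, ∀ n : ℕ, ‖lit (θ c) n (θ c)‖ ≤ C * ε ^ n) :
    ∀ b ∈ N, ∀ s ∈ Sp θ, θ b * s = 0 := by
  haveI : Red A := red_of_propC hC
  exact mul_zero_of hC θ hB N hN
    (fun c hc V hV => small_qn hV fun ε hε => ⟨c, fun _ _ => rfl, hq c hc ε hε⟩)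

/-- the elements which annihilate the separating space -/
def KI (θ : B →ₙₐ[ℂ] A) : Submodule ℂ B where
  carrier := {b | ∀ s ∈ Sp θ, θ b * s = 0}
  zero_mem' := by
    intro s _
    rw [map_zero, zero_mul]
  add_mem' := by
    intro x y hx hy s hs
    rw [map_add, add_mul, hx s hs, hy s hs, add_zero]
  smul_mem' := by
    intro c x hx s hs
    rw [map_smul, smul_mul_assoc, hx s hs, smul_zero]

theorem mem_KI {θ : B →ₙₐ[ℂ] A} {b : B} : b ∈ KI θ ↔ ∀ s ∈ Sp θ, θ b * s = 0 := Iff.rfl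

theorem KI_ideal [Red A] (θ : B →ₙₐ[ℂ] A) :
    ∀ b x : B, x ∈ KI θ → b * x ∈ KI θ ∧ x * b ∈ KI θ := by
  intro b x hx
  constructor
  · intro s hs
    rw [map_mul, mul_assoc, hx s hs, mul_zero]
  · intro s hs
    rw [map_mul, mul_assoc]
    exact hx _ (Sp_left b hs)

theorem KI_closed (hC : PropC A) (θ : B →ₙₐ[ℂ] A) (hB : PRo θ) : IsClosed (KI θ : Set B) := by
  haveI : Red A := red_of_propC hC
  have hid : ∀ b x : B, x ∈ (KI θ).topologicalClosure → b * x ∈ (KI θ).topologicalClosure ∧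
      x * b ∈ (KI θ).topologicalClosure := by
    intro b x hx
    constructor
    · have hc : IsClosed
          ((Submodule.comap (lmul b) (KI θ).topologicalClosure : Submodule ℂ B) : Set B) :=
        (Submodule.isClosed_topologicalClosure _).preimage (continuous_lmul b)
      exact Submodule.topologicalClosure_minimal (KI θ)
        (t := Submodule.comap (lmul b) (KI θ).topologicalClosure)
        (fun y hy => Submodule.le_topologicalClosure _ (KI_ideal θ b y hy).1) hc hx
    · have hc : IsClosed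
          ((Submodule.comap (rmul b) (KI θ).topologicalClosure : Submodule ℂ B) : Set B) :=
        (Submodule.isClosed_topologicalClosure _).preimage (continuous_rmul b)
      exact Submodule.topologicalClosure_minimal (KI θ)
        (t := Submodule.comap (rmul b) (KI θ).topologicalClosure)
        (fun y hy => Submodule.le_topologicalClosure _ (KI_ideal θ b y hy).2) hc hx
  have h := mul_zero_of hC θ hB (KI θ).topologicalClosure hid fun c hc V hV => by
    refine small_qn hV fun ε hε => ?_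
    have hc' : c ∈ closure (KI θ : Set B) := hc
    obtain ⟨p, hp, hcp⟩ := Metric.mem_closure_iff.1 hc' ε hε
    rw [dist_eq_norm] at hcp
    refine ⟨c - p, fun v hv => ?_, qn_map hC θ _ _ ⟨ε, fun n => ?_⟩⟩
    · have h3 : θ p * v = 0 := hp v (hV.le hv)
      rw [map_sub, sub_mul, h3, sub_zero]
    · refine (norm_lit_self _ _ _).trans ?_
      have h1 : ‖c - p‖ ^ n ≤ ε ^ n := pow_le_pow_left₀ (norm_nonneg _) hcp.le n
      have h2 : 0 ≤ ‖c - p‖ := norm_nonneg _
      have h3 : 0 ≤ ε ^ n := by positivity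
      have h4 : 0 ≤ ‖c - p‖ ^ n := by positivity
      nlinarith
  have h2 : (KI θ).topologicalClosure = KI θ :=
    le_antisymm (fun b hb => h b hb) (Submodule.le_topologicalClosure _)
  rw [← h2]
  exact Submodule.isClosed_topologicalClosure _

theorem KI_cont (hC : PropC A) (θ : B →ₙₐ[ℂ] A) (hB : PRo θ) :
    Continuous (fun x : KI θ => θ (x : B)) := by
  haveI : Red A := red_of_propC hC
  haveI : CompleteSpace (KI θ) := (KI_closed hC θ hB).completeSpace_coe
  let f : KI θ →ₗ[ℂ] A := (θ : B →ₗ[ℂ] A) ∘ₗ (KI θ).subtype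
  have hf : Continuous f := by
    rw [continuous_iff_Sep, eq_bot_iff]
    rintro y ⟨x, hx, hy⟩
    rw [Submodule.mem_bot]
    have hx' : Tendsto (fun n => ((x n : KI θ) : B)) atTop (𝓝 0) :=
      (continuous_subtype_val.tendsto (0 : KI θ)).comp hx
    have hyS : y ∈ Sp θ := mem_Sp.2 ⟨fun n => (x n : B), hx', hy⟩
    apply Red.red
    have h1 : Tendsto (fun n => θ (x n : B) * y) atTop (𝓝 (y * y)) := hy.mul tendsto_const_nhds
    refine tendsto_nhds_unique h1 (tendsto_const_nhds.congr fun n => ?_)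
    exact ((x n).2 y hyS).symm
  exact hf

/-- the criterion -/
theorem gen_cont (hC : PropC A) (θ : B →ₙₐ[ℂ] A) (hB : PRo θ) (N : Submodule ℂ B)
    (hN : ∀ b x : B, x ∈ N → b * x ∈ N ∧ x * b ∈ N)
    (hq : ∀ c ∈ N, ∀ ε : ℝ, 0 < ε → ∃ C : ℝ, ∀ n : ℕ, ‖lit (θ c) n (θ c)‖ ≤ C * ε ^ n)
    (h : ∀ P : Submodule ℂ B, CPr P → (∀ x, θ x = 0 → x ∈ P) → IsClosed (P : Set B) → N ≤ P →
      FL θ P) : Continuous θ := by
  haveI : Red A := red_of_propC hC
  have hf : Continuous (θ : B →ₗ[ℂ] A) := by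
    rw [continuous_iff_Sep, eq_bot_iff]
    intro y hy
    rw [Submodule.mem_bot]
    by_contra hne
    have hy' : y ∈ Sp θ := hy
    obtain ⟨e, he, _, hpr⟩ := select θ none ⟨y, hy', hne⟩
    have hcl := Pe_closed hC θ hB he hpr
    have hNP : N ≤ Pe θ e := by
      intro b hb s hs
      exact qn_kill hC θ hB N hN hq b hb _ (opR_mem e hs)
    exact lift_case hC θ hB hcl (h _ (CPr_Pe he hpr) (ker_le_Pe θ e) hcl hNP)
  exact hf

/-- completely prime ideals of codimension one satisfy the condition -/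
theorem FL_codim {P : Submodule ℂ B} (θ : B →ₙₐ[ℂ] A) (hP : CPr P) {u : B}
    (hu : ∀ x : B, ∃ l : ℂ, x - l • u ∈ P) : FL θ P := by
  have huP : u ∉ P := by
    intro h
    apply hP.ne
    rw [eq_top_iff]
    intro x _
    obtain ⟨l, hl⟩ := hu x
    have := P.add_mem hl (P.smul_mem l h)
    rwa [sub_add_cancel] at this
  refine ⟨u, huP, 1, fun _ => Submodule.span ℂ {u}, fun _ => u,
    fun _ => Submodule.closed_of_finiteDimensional _, ?_, fun x => ?_⟩
  · intro _ x hx y hy
    obtain ⟨a, rfl⟩ := Submodule.mem_span_singleton.1 hx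
    obtain ⟨b, rfl⟩ := Submodule.mem_span_singleton.1 hy
    rw [smul_mul_smul_comm, smul_mul_smul_comm, mul_comm a b]
  · obtain ⟨l, hl⟩ := hu x
    refine ⟨fun _ => l • u, fun _ => Submodule.smul_mem _ _ (Submodule.mem_span_singleton_self u),
      ?_⟩
    rw [Fin.sum_univ_one, ← sub_mul]
    exact hP.right _ _ hl

end
end ACG
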