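import Pool.Agent.ACG.Pif

set_option autoImplicit false
set_option linter.all false

/-!
PIG: elements which act quasi-nilpotently on the separating space.
-/

namespace ACG

open Filter Topology

section
variable {A B : Type} [NonUnitalNormedRing A] [NormedSpace ℂ A] [IsScalarTower ℂ A A]
  [SMulCommClass ℂ A A] [CompleteSpace A] [NonUnitalNormedRing B] [NormedSpace ℂ B]
  [IsScalarTower ℂ B B] [SMulCommClass ℂ B B] [CompleteSpace B]

/-- `θ c` acts quasi-nilpotently on the separating space -/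
def QS (θ : B →ₙₐ[ℂ] A) (c : B) : Prop :=
  ∀ ε : ℝ, 0 < ε → ∃ C : ℝ, ∀ n : ℕ, ∀ s ∈ Sp θ, ‖lit (θ c) n s‖ ≤ C * ε ^ n * ‖s‖

theorem central_qs (hC : PropC A) (θ : B →ₙₐ[ℂ] A) (c : B) (hc : ∀ x : B, c * x = x * c)
    (hq : QS θ c) : Continuous (fun x : B => θ (c * x)) := by
  have h0 : ∀ s ∈ Sp θ, θ c * s = 0 := by
    have := kill hC (Idl_Sp θ) (ContinuousLinearMap.id ℂ B) (ContinuousLinearMap.id ℂ A)
      (fun x => rfl) (fun s hs => hs) (fun x y => rfl) (c := c)
      (fun x v _ => by rw [hc x, sub_self, map_zero, zero_mul]) hq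
    exact this
  have hf : Continuous ((LM (θ c)).toLinearMap ∘ₗ (θ : B →ₗ[ℂ] A)) := by
    rw [continuous_iff_Sep, Sep_comp, eq_bot_iff]
    refine Submodule.topologicalClosure_minimal _ ?_ ?_
    · rintro _ ⟨s, hs, rfl⟩
      rw [Submodule.mem_bot]
      exact h0 s hs
    · rw [Submodule.bot_coe]
      exact isClosed_singleton
  refine hf.congr fun x => ?_
  rw [map_mul]
  rfl

theorem comm_qs (hC : PropC A) (θ : B →ₙₐ[ℂ] A) (c : B) (hq : QS θ c) :
    Continuous (fun x : {x : B // c * x = x * c} => θ (c * (x : B))) := by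
  let D : NonUnitalSubalgebra ℂ B :=
    { carrier := {x | c * x = x * c}
      zero_mem' := by
        show c * 0 = 0 * c
        rw [mul_zero, zero_mul]
      add_mem' := by
        intro x y hx hy
        show c * (x + y) = (x + y) * c
        rw [mul_add, add_mul, hx, hy]
      mul_mem' := by
        intro x y hx hy
        show c * (x * y) = (x * y) * c
        rw [← mul_assoc, hx, mul_assoc, hy, mul_assoc]
      smul_mem' := by
        intro r x hx
        show c * (r • x) = (r • x) * c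
        rw [mul_smul_comm, smul_mul_assoc, hx] }
  have hD : IsClosed (D : Set B) :=
    isClosed_eq (continuous_const.mul continuous_id) (continuous_id.mul continuous_const)
  haveI : CompleteSpace D := hD.completeSpace_coe
  let θ₀ : D →ₙₐ[ℂ] A :=
    { toFun := fun x => θ (x : B)
      map_smul' := fun c x => map_smul θ c (x : B)
      map_zero' := map_zero θ
      map_add' := fun x y => map_add θ (x : B) y
      map_mul' := fun x y => map_mul θ (x : B) y }
  let c₀ : D := ⟨c, rfl⟩
  have hle : Sp θ₀ ≤ Sp θ := by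
    intro s hs
    obtain ⟨x, hx, h⟩ := mem_Sp.1 hs
    refine mem_Sp.2 ⟨fun n => (x n : B), ?_, h⟩
    exact (continuous_subtype_val.tendsto (0 : D)).comp hx
  have hq' : QS θ₀ c₀ := by
    intro ε hε
    obtain ⟨C, h⟩ := hq ε hε
    exact ⟨C, fun n s hs => h n s (hle hs)⟩
  have h := central_qs hC θ₀ c₀ (fun x => Subtype.ext x.2) hq'
  exact h

/-- every ideal which acts quasi-nilpotently on the separating space annihilates it -/
theorem qs_kill (hC : PropC A) (θ : B →ₙₐ[ℂ] A) (hB : PRo θ) (N : Submodule ℂ B)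
    (hN : ∀ b x : B, x ∈ N → b * x ∈ N ∧ x * b ∈ N) (hq : ∀ c ∈ N, QS θ c) : N ≤ KI θ := by
  intro b hb
  refine mul_zero_of hC θ hB N hN (fun c hc V hV ε hε => ?_) b hb
  obtain ⟨C, h⟩ := hq c hc ε hε
  exact ⟨C, fun n x hx => h n x (hV.le hx)⟩

/-- the criterion -/
theorem gen_cont' (hC : PropC A) (θ : B →ₙₐ[ℂ] A) (hB : PRo θ)
    (h : ∀ P : Submodule ℂ B, CPr P → (∀ x, θ x = 0 → x ∈ P) → IsClosed (P : Set B) → KI θ ≤ P →
      FL θ P) : Continuous θ := by
  haveI : Red A := red_of_propC hC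
  have hf : Continuous (θ : B →ₗ[ℂ] A) := by
    rw [continuous_iff_Sep, eq_bot_iff]
    intro y hy
    rw [Submodule.mem_bot]
    by_contra hne
    have hy' : y ∈ Sp θ := hy
    obtain ⟨e, he, _, hpr⟩ := select θ none ⟨y, hy', hne⟩
    have hcl := Pe_closed hC θ hB he hpr
    have hNP : KI θ ≤ Pe θ e := by
      intro b hb s hs
      exact hb _ (opR_mem e hs)
    exact lift_case hC θ hB hcl (h _ (CPr_Pe he hpr) (ker_le_Pe θ e) hcl hNP)
  exact hf

end
end ACG
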