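import Pool.Agent.ACG.Pig

set_option autoImplicit false
set_option linter.all false

/-!
PIH: the continuity ideal for arbitrary homomorphisms, and the theorems under a condition on the
completely prime ideals which contain it.
-/

namespace ACG

open Filter Topology

section
variable {A B : Type} [NonUnitalNormedRing A] [NormedSpace ℂ A] [IsScalarTower ℂ A A]
  [SMulCommClass ℂ A A] [CompleteSpace A] [NonUnitalNormedRing B] [NormedSpace ℂ B]
  [IsScalarTower ℂ B B] [SMulCommClass ℂ B B] [CompleteSpace B]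

omit [CompleteSpace A] [CompleteSpace B] in
theorem KI_sq [Red A] {θ : B →ₙₐ[ℂ] A} {b : B} (h : b * b ∈ KI θ) : b ∈ KI θ := by
  intro s hs
  have h1 := h s hs
  rw [map_mul, mul_assoc] at h1
  exact Red.sq0 h1

theorem KI_central (hC : PropC A) {θ : B →ₙₐ[ℂ] A} {c : B} (hq : QS θ c)
    (hc : ∀ x : B, c * x - x * c ∈ KI θ) : c ∈ KI θ := by
  have := kill hC (Idl_Sp θ) (ContinuousLinearMap.id ℂ B) (ContinuousLinearMap.id ℂ A)
    (fun x => rfl) (fun s hs => hs) (fun x y => rfl) (c := c) (fun x v hv => hc x v hv) hq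
  exact this

theorem KI_top (hC : PropC A) {θ : B →ₙₐ[ℂ] A} (h : ∀ b, b ∈ KI θ) : Continuous θ := by
  haveI : Red A := red_of_propC hC
  have hf : Continuous (θ : B →ₗ[ℂ] A) := by
    rw [continuous_iff_Sep, eq_bot_iff]
    intro y hy
    rw [Submodule.mem_bot]
    have hy' : y ∈ Sp θ := hy
    obtain ⟨x, hx, hxy⟩ := mem_Sp.1 hy'
    apply Red.red
    have h1 : Tendsto (fun n => θ (x n) * y) atTop (𝓝 (y * y)) := hxy.mul tendsto_const_nhds
    refine tendsto_nhds_unique h1 (tendsto_const_nhds.congr fun n => ?_)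
    exact (h (x n) y hy').symm
  exact hf

/-- every ideal which is not in a completely prime ideal `P` over the continuity ideal contains an
element outside `P` which is central modulo `P` -/
def PRI (θ : B →ₙₐ[ℂ] A) : Prop :=
  ∀ P : Submodule ℂ B, CPr P → KI θ ≤ P → ∀ J : Submodule ℂ B,
    (∀ b x : B, x ∈ J → b * x ∈ J ∧ x * b ∈ J) →
    ¬ J ≤ P → ∃ c ∈ J, c ∉ P ∧ ∀ x : B, c * x - x * c ∈ P

omit [CompleteSpace A] [CompleteSpace B] in
theorem KI_le_Pe (θ : B →ₙₐ[ℂ] A) (e : Option B) : KI θ ≤ Pe θ e := by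
  intro b hb s hs
  exact hb _ (opR_mem e hs)

theorem mul_zero_ofI (hC : PropC A) (θ : B →ₙₐ[ℂ] A) (hB : PRI θ) (J : Submodule ℂ B)
    (hJ : ∀ b x : B, x ∈ J → b * x ∈ J ∧ x * b ∈ J)
    (hq : ∀ c ∈ J, ∀ V : Submodule ℂ A, Idl θ V → ∀ ε : ℝ, 0 < ε → ∃ C : ℝ, ∀ n : ℕ, ∀ x ∈ V,
      ‖lit (θ c) n x‖ ≤ C * ε ^ n * ‖x‖) :
    ∀ b ∈ J, ∀ s ∈ Sp θ, θ b * s = 0 := by
  haveI : Red A := red_of_propC hC
  intro b hb s hs
  by_contra hne
  obtain ⟨e, he, hez, hpr⟩ := select θ (some b) ⟨s, hs, hne⟩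
  have hbP := some_notMem he hez
  obtain ⟨c, hcJ, hcP, hcc⟩ := hB (Pe θ e) (CPr_Pe he hpr) (KI_le_Pe θ e) J hJ
    (fun h => hbP (h hb))
  apply hcP
  exact kill hC (Idl_Ve θ e) (opT e) (opR θ e) (opTR θ e) (fun s hs => opR_mem_Ve hs)
    (opR_mul θ e) (fun x v hv => hv.2 _ (hcc x)) (hq c hcJ _ (Idl_Ve θ e))

theorem range_interI (hC : PropC A) (θ : B →ₙₐ[ℂ] A) (hB : PRI θ) (b : B) (hb : θ b ∈ Sp θ) :
    θ b = 0 := by
  haveI : Red A := red_of_propC hC
  apply Red.red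
  refine mul_zero_ofI hC θ hB (Submodule.comap (θ : B →ₗ[ℂ] A) (Sp θ)) ?_ ?_ b hb _ hb
  · intro b x hx
    constructor
    · show θ (b * x) ∈ Sp θ
      rw [map_mul]
      exact Sp_left b hx
    · show θ (x * b) ∈ Sp θ
      rw [map_mul]
      exact Sp_right b hx
  · intro c hc V hV ε hε
    have hc' : θ c ∈ Sp θ := hc
    obtain ⟨x, hx, h⟩ := mem_Sp.1 hc'
    obtain ⟨C, hC'⟩ := qn_of_sep hC θ c x hx h ε hε
    refine ⟨C, fun n x _ => ?_⟩
    rw [← norm_inU, lit_inU, ← norm_inU x]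
    exact (norm_mul_le _ _).trans (mul_le_mul_of_nonneg_right (hC' n) (norm_nonneg _))

theorem ker_closedI (hC : PropC A) (θ : B →ₙₐ[ℂ] A) (hB : PRI θ) (x : B) (k : ℕ → B)
    (hk : ∀ n, θ (k n) = 0) (hx : Tendsto k atTop (𝓝 x)) : θ x = 0 := by
  apply range_interI hC θ hB x
  refine mem_Sp.2 ⟨fun n => x - k n, ?_, ?_⟩
  · have := (tendsto_const_nhds (x := x)).sub hx
    rwa [sub_self] at this
  · refine tendsto_const_nhds.congr fun n => ?_
    rw [map_sub, hk, sub_zero]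

theorem isClosed_DcI (hC : PropC A) (θ : B →ₙₐ[ℂ] A) (hB : PRI θ) (T : Set B) :
    IsClosed (Dc θ T : Set B) := by
  refine IsSeqClosed.isClosed fun u v hu hv => ?_
  show v ∈ Dc θ T
  rw [mem_Dc]
  intro y hy
  have h1 : θ (y * v - v * y) = 0 := by
    refine ker_closedI hC θ hB _ (fun n => y * u n - u n * y) (fun n => ?_) ?_
    · have := (mem_Dc.1 (hu n)) y hy
      rw [map_sub, map_mul, map_mul, this, sub_self]
    · exact (tendsto_const_nhds.mul hv).sub (hv.mul tendsto_const_nhds)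
  rwa [map_sub, map_mul, map_mul, sub_eq_zero] at h1

theorem comm_boundI (hC : PropC A) (θ : B →ₙₐ[ℂ] A) (hB : PRI θ) (T : Set B)
    (hT : ∀ x ∈ T, ∀ y ∈ T, θ (x * y) = θ (y * x)) :
    ∃ K : ℝ, 0 ≤ K ∧ ∀ x ∈ T, ‖θ x‖ ≤ K * ‖x‖ := by
  have hT' : ∀ x ∈ T, ∀ y ∈ T, θ x * θ y = θ y * θ x := by
    intro x hx y hy
    rw [← map_mul, ← map_mul, hT x hx y hy]
  haveI : CompleteSpace (Dc θ T) := (isClosed_DcI hC θ hB T).completeSpace_coe
  let θ₀ : Dc θ T →ₙₐ[ℂ] A :=
    { toFun := fun x => θ (x : B)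
      map_smul' := fun c x => map_smul θ c (x : B)
      map_zero' := map_zero θ
      map_add' := fun x y => map_add θ (x : B) y
      map_mul' := fun x y => map_mul θ (x : B) y }
  have hcont : Continuous θ₀ := hC (Dc θ T) θ₀ fun x y => Dc_comm hT' x.2 y.2
  let f : Dc θ T →ₗ[ℂ] A :=
    { toFun := fun x => θ (x : B)
      map_add' := fun x y => map_add θ (x : B) y
      map_smul' := fun r x => map_smul θ r (x : B) }
  let g : Dc θ T →L[ℂ] A := ⟨f, hcont⟩
  refine ⟨‖g‖, norm_nonneg _, fun x hx => ?_⟩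
  have hx' : x ∈ Dc θ T := by
    rw [mem_Dc]
    intro y hy
    exact hy x hx
  exact g.le_opNorm ⟨x, hx'⟩

theorem lift_caseI (hC : PropC A) (θ : B →ₙₐ[ℂ] A) (hB : PRI θ) {e : Option B}
    (hcl : IsClosed (Pe θ e : Set B)) (hF : FL θ (Pe θ e)) : False := by
  haveI : Red A := red_of_propC hC
  obtain ⟨c, hc, k, M, u, hM, hMc, hm⟩ := hF
  obtain ⟨C, hC0, hm⟩ := FL_bound hcl hM hm
  choose K hK0 hK using fun i => comm_boundI hC θ hB (M i : Set B) (hMc i)
  apply hc
  intro s hs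
  set v : A := opR θ e s with hv
  apply Red.cancel (v := v)
  obtain ⟨x, hx, hxv⟩ := mem_Sp.1 (opR_mem e hs)
  rw [← hv] at hxv
  have h1 : Tendsto (fun n => θ (x n) * (θ c * v)) atTop (𝓝 (v * (θ c * v))) :=
    hxv.mul tendsto_const_nhds
  choose m hm1 hm2 hm3 using fun n => hm (x n)
  have h2 : ∀ n, θ (x n) * (θ c * v) = ∑ i, θ (m n i) * (θ (u i) * v) := by
    intro n
    have h3 := hm2 n s hs
    rw [← hv, map_sub, map_mul, map_sum, sub_mul, sub_eq_zero, mul_assoc, Finset.sum_mul] at h3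
    rw [h3]
    refine Finset.sum_congr rfl fun i _ => ?_
    rw [map_mul, mul_assoc]
  have hxn : Tendsto (fun n => ‖x n‖) atTop (𝓝 0) := by
    have := hx.norm
    rwa [norm_zero] at this
  have h3 : Tendsto (fun n => ∑ i, θ (m n i) * (θ (u i) * v)) atTop (𝓝 0) := by
    have h4 : Tendsto (fun n => ∑ i : Fin k, K i * (C * ‖x n‖) * ‖θ (u i) * v‖) atTop
        (𝓝 (∑ i : Fin k, K i * (C * 0) * ‖θ (u i) * v‖)) :=
      tendsto_finset_sum _ fun i _ => ((hxn.const_mul C).const_mul (K i)).mul_const _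
    have h5 : (∑ i : Fin k, K i * (C * 0) * ‖θ (u i) * v‖) = 0 := by simp
    rw [h5] at h4
    refine squeeze_zero_norm (fun n => ?_) h4
    refine (norm_sum_le _ _).trans (Finset.sum_le_sum fun i _ => ?_)
    refine (norm_mul_le _ _).trans (mul_le_mul_of_nonneg_right ?_ (norm_nonneg _))
    refine (hK i _ (hm1 n i)).trans ?_
    exact mul_le_mul_of_nonneg_left (hm3 n i) (hK0 i)
  exact tendsto_nhds_unique h1 (h3.congr fun n => (h2 n).symm)

theorem Pe_closedI (hC : PropC A) (θ : B →ₙₐ[ℂ] A) (hB : PRI θ) {e : Option B}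
    (he : ∃ s ∈ Sp θ, opR θ e s ≠ 0)
    (hpr : ∀ x y : B, x * y ∈ Pe θ e → x ∈ Pe θ e ∨ y ∈ Pe θ e) : IsClosed (Pe θ e : Set B) := by
  haveI : Red A := red_of_propC hC
  have hP := CPr_Pe he hpr
  have hV := Idl_Ve θ e
  by_contra hcl
  have hJP : ¬ (Pe θ e).topologicalClosure ≤ Pe θ e := by
    intro hle
    apply hcl
    have : (Pe θ e).topologicalClosure = Pe θ e :=
      le_antisymm hle (Submodule.le_topologicalClosure _)
    rw [← this]
    exact Submodule.isClosed_topologicalClosure _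
  obtain ⟨c, hcJ, hcP, hcc⟩ := hB _ hP (KI_le_Pe θ e) _ (closure_ideal hP) hJP
  apply hcP
  refine kill hC hV (opT e) (opR θ e) (opTR θ e) (fun s hs => opR_mem_Ve hs)
    (opR_mul θ e) (fun x v hv => hv.2 _ (hcc x)) (small_qn hV fun ε hε => ?_)
  have hcJ' : c ∈ closure (Pe θ e : Set B) := hcJ
  obtain ⟨p, hp, hcp⟩ := Metric.mem_closure_iff.1 hcJ' ε hε
  rw [dist_eq_norm] at hcp
  refine ⟨c - p, fun v hv => ?_, qn_map hC θ _ _ ⟨ε, fun n => ?_⟩⟩
  · have h3 := hv.2 p hp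
    rw [map_sub, sub_mul, h3, sub_zero]
  · refine (norm_lit_self _ _ _).trans ?_
    have h1 : ‖c - p‖ ^ n ≤ ε ^ n := pow_le_pow_left₀ (norm_nonneg _) hcp.le n
    have h2 : 0 ≤ ‖c - p‖ := norm_nonneg _
    have h3 : 0 ≤ ε ^ n := by positivity
    have h4 : 0 ≤ ‖c - p‖ ^ n := by positivity
    nlinarith

theorem KI_closedI (hC : PropC A) (θ : B →ₙₐ[ℂ] A) (hB : PRI θ) : IsClosed (KI θ : Set B) := by
  haveI : Red A := red_of_propC hC
  have hid : ∀ b x : B, x ∈ (KI θ).topologicalClosure → b * x ∈ (KI θ).topologicalClosure ∧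
      x * b ∈ (KI θ).topologicalClosure := by
    intro b x hx
    constructor
    · have hc : IsClosed
          ((Submodule.comap (lmul b) (KI θ).topologicalClosure : Submodule ℂ B) : Set B) :=
        (Submodule.isClosed_topologicalClosure _).preimage (continuous_lmul b)
      exact Submodule.topologicalClosure_minimal (KI θ)
        (t := Submodule.comap (lmul b) (KI θ).topologicalClosure)
        (fun y hy => Submodule.le_topologicalClosure _ (KI_ideal θ b y hy).1) hc hx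
    · have hc : IsClosed
          ((Submodule.comap (rmul b) (KI θ).topologicalClosure : Submodule ℂ B) : Set B) :=
        (Submodule.isClosed_topologicalClosure _).preimage (continuous_rmul b)
      exact Submodule.topologicalClosure_minimal (KI θ)
        (t := Submodule.comap (rmul b) (KI θ).topologicalClosure)
        (fun y hy => Submodule.le_topologicalClosure _ (KI_ideal θ b y hy).2) hc hx
  have h := mul_zero_ofI hC θ hB (KI θ).topologicalClosure hid fun c hc V hV => by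
    refine small_qn hV fun ε hε => ?_
    have hc' : c ∈ closure (KI θ : Set B) := hc
    obtain ⟨p, hp, hcp⟩ := Metric.mem_closure_iff.1 hc' ε hε
    rw [dist_eq_norm] at hcp
    refine ⟨c - p, fun v hv => ?_, qn_map hC θ _ _ ⟨ε, fun n => ?_⟩⟩
    · have h3 : θ p * v = 0 := hp v (hV.le hv)
      rw [map_sub, sub_mul, h3, sub_zero]
    · refine (norm_lit_self _ _ _).trans ?_
      have h1 : ‖c - p‖ ^ n ≤ ε ^ n := pow_le_pow_left₀ (norm_nonneg _) hcp.le n
      have h2 : 0 ≤ ‖c - p‖ := norm_nonneg _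
      have h3 : 0 ≤ ε ^ n := by positivity
      have h4 : 0 ≤ ‖c - p‖ ^ n := by positivity
      nlinarith
  have h2 : (KI θ).topologicalClosure = KI θ :=
    le_antisymm (fun b hb => h b hb) (Submodule.le_topologicalClosure _)
  rw [← h2]
  exact Submodule.isClosed_topologicalClosure _

theorem KI_contI (hC : PropC A) (θ : B →ₙₐ[ℂ] A) (hcl : IsClosed (KI θ : Set B)) :
    Continuous (fun x : KI θ => θ (x : B)) := by
  haveI : Red A := red_of_propC hC
  haveI : CompleteSpace (KI θ) := hcl.completeSpace_coe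
  let f : KI θ →ₗ[ℂ] A := (θ : B →ₗ[ℂ] A) ∘ₗ (KI θ).subtype
  have hf : Continuous f := by
    rw [continuous_iff_Sep, eq_bot_iff]
    rintro y ⟨x, hx, hy⟩
    rw [Submodule.mem_bot]
    have hx' : Tendsto (fun n => ((x n : KI θ) : B)) atTop (𝓝 0) :=
      (continuous_subtype_val.tendsto (0 : KI θ)).comp hx
    have hyS : y ∈ Sp θ := mem_Sp.2 ⟨fun n => (x n : B), hx', hy⟩
    apply Red.red
    have h1 : Tendsto (fun n => θ (x n : B) * y) atTop (𝓝 (y * y)) := hy.mul tendsto_const_nhds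
    refine tendsto_nhds_unique h1 (tendsto_const_nhds.congr fun n => ?_)
    exact ((x n).2 y hyS).symm
  exact hf

theorem qs_killI (hC : PropC A) (θ : B →ₙₐ[ℂ] A) (hB : PRI θ) (N : Submodule ℂ B)
    (hN : ∀ b x : B, x ∈ N → b * x ∈ N ∧ x * b ∈ N) (hq : ∀ c ∈ N, QS θ c) : N ≤ KI θ := by
  intro b hb
  refine mul_zero_ofI hC θ hB N hN (fun c hc V hV ε hε => ?_) b hb
  obtain ⟨C, h⟩ := hq c hc ε hε
  exact ⟨C, fun n x hx => h n x (hV.le hx)⟩

theorem gen_contI (hC : PropC A) (θ : B →ₙₐ[ℂ] A) (hB : PRI θ)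
    (h : ∀ P : Submodule ℂ B, CPr P → IsClosed (P : Set B) → KI θ ≤ P → FL θ P) :
    Continuous θ := by
  haveI : Red A := red_of_propC hC
  have hf : Continuous (θ : B →ₗ[ℂ] A) := by
    rw [continuous_iff_Sep, eq_bot_iff]
    intro y hy
    rw [Submodule.mem_bot]
    by_contra hne
    have hy' : y ∈ Sp θ := hy
    obtain ⟨e, he, _, hpr⟩ := select θ none ⟨y, hy', hne⟩
    have hcl := Pe_closedI hC θ hB he hpr
    exact lift_caseI hC θ hB hcl (h _ (CPr_Pe he hpr) hcl (KI_le_Pe θ e))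
  exact hf

end
end ACG
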