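import Pool.Agent.ACG.Pih

set_option autoImplicit false
set_option linter.all false

/-!
PII: the continuity ideal is an intersection of completely prime ideals.
-/

namespace ACG

open Filter Topology

section
variable {A B : Type} [NonUnitalNormedRing A] [NormedSpace ℂ A] [IsScalarTower ℂ A A]
  [SMulCommClass ℂ A A] [CompleteSpace A] [NonUnitalNormedRing B] [NormedSpace ℂ B]
  [IsScalarTower ℂ B B] [SMulCommClass ℂ B B] [CompleteSpace B]

/-- the completely prime ideals attached to the separating space -/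
def PP (θ : B →ₙₐ[ℂ] A) : Set (Submodule ℂ B) :=
  {P | ∃ e : Option B, P = Pe θ e ∧ (∃ s ∈ Sp θ, opR θ e s ≠ 0) ∧
    ∀ x y : B, x * y ∈ Pe θ e → x ∈ Pe θ e ∨ y ∈ Pe θ e}

theorem PP_cpr [Red A] {θ : B →ₙₐ[ℂ] A} {P : Submodule ℂ B} (h : P ∈ PP θ) : CPr P := by
  obtain ⟨e, rfl, he, hpr⟩ := h
  exact CPr_Pe he hpr

theorem PP_small (hC : PropC A) {θ : B →ₙₐ[ℂ] A} {P : Submodule ℂ B} (h : P ∈ PP θ) {c : B}
    (hq : QS θ c) (hc : ∀ x : B, c * x - x * c ∈ P) : c ∈ P := by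
  haveI : Red A := red_of_propC hC
  obtain ⟨e, rfl, he, hpr⟩ := h
  refine kill hC (Idl_Ve θ e) (opT e) (opR θ e) (opTR θ e) (fun s hs => opR_mem_Ve hs)
    (opR_mul θ e) (fun x v hv => hv.2 _ (hc x)) fun ε hε => ?_
  obtain ⟨C, h⟩ := hq ε hε
  exact ⟨C, fun n x hx => h n x hx.1⟩

theorem PP_smallP (hC : PropC A) {θ : B →ₙₐ[ℂ] A} {P : Submodule ℂ B} (h : P ∈ PP θ) {c : B}
    (hq : ∀ ε : ℝ, 0 < ε → ∃ c' : B, c - c' ∈ P ∧ ∃ C : ℝ, ∀ n : ℕ, ∀ s ∈ Sp θ,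
      ‖lit (θ c') n s‖ ≤ C * ε ^ n * ‖s‖) (hc : ∀ x : B, c * x - x * c ∈ P) : c ∈ P := by
  haveI : Red A := red_of_propC hC
  obtain ⟨e, rfl, he, hpr⟩ := h
  refine kill hC (Idl_Ve θ e) (opT e) (opR θ e) (opTR θ e) (fun s hs => opR_mem_Ve hs)
    (opR_mul θ e) (fun x v hv => hv.2 _ (hc x)) fun ε hε => ?_
  obtain ⟨c', hcc, C, h⟩ := hq ε hε
  refine ⟨C, fun n x hx => ?_⟩
  have hcv : ∀ v ∈ Ve θ e, θ c * v = θ c' * v := by
    intro v hv
    have h3 := hv.2 _ hcc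
    rwa [map_sub, sub_mul, sub_eq_zero] at h3
  have hVl : ∀ k, lit (θ c') k x ∈ Ve θ e := by
    intro k
    induction k with
    | zero => exact hx
    | succ k ih =>
      rw [lit_succ]
      exact (Idl_Ve θ e).left _ _ ih
  have hl : ∀ k, lit (θ c) k x = lit (θ c') k x := by
    intro k
    induction k with
    | zero => rfl
    | succ k ih => rw [lit_succ, ih, hcv _ (hVl k), lit_succ]
  rw [hl]
  exact h n x hx.1

theorem PP_codim (hC : PropC A) {θ : B →ₙₐ[ℂ] A} {P : Submodule ℂ B} (h : P ∈ PP θ) :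
    ¬ ∃ u : B, ∀ x : B, ∃ l : ℂ, x - l • u ∈ P := by
  haveI : Red A := red_of_propC hC
  rintro ⟨u, hu⟩
  have hP := PP_cpr h
  obtain ⟨e, rfl, he, hpr⟩ := h
  obtain ⟨l, u, hlu, hl⟩ := char_case hP hu
  obtain ⟨s, hs, hs0⟩ := he
  apply hs0
  apply Red.red
  have hv := opR_mem_Ve (θ := θ) (e := e) hs
  obtain ⟨x, hx, hx'⟩ := mem_Sp.1 hv.1
  have h1 : Tendsto (fun n => θ (x n) * opR θ e s) atTop (𝓝 (opR θ e s * opR θ e s)) :=
    hx'.mul tendsto_const_nhds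
  have h2 : ∀ n, θ (x n) * opR θ e s = l (x n) • (θ u * opR θ e s) := by
    intro n
    have h3 := hv.2 _ (hlu (x n))
    rw [map_sub, map_smul, sub_mul, sub_eq_zero, smul_mul_assoc] at h3
    exact h3
  have h4 : Tendsto (fun n => l (x n)) atTop (𝓝 0) := by
    refine squeeze_zero_norm (fun n => hl (x n)) ?_
    have := hx.norm
    rwa [norm_zero] at this
  have h5 : Tendsto (fun n => l (x n) • (θ u * opR θ e s)) atTop
      (𝓝 ((0 : ℂ) • (θ u * opR θ e s))) := h4.smul_const _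
  rw [zero_smul] at h5
  exact tendsto_nhds_unique h1 (h5.congr fun n => (h2 n).symm)

theorem PP_inter (hC : PropC A) {θ : B →ₙₐ[ℂ] A} (b : B) : b ∈ KI θ ↔ ∀ P ∈ PP θ, b ∈ P := by
  haveI : Red A := red_of_propC hC
  constructor
  · rintro h _ ⟨e, rfl, _, _⟩
    exact KI_le_Pe θ e h
  · intro h s hs
    by_contra hne
    obtain ⟨e, he, hez, hpr⟩ := select θ (some b) ⟨s, hs, hne⟩
    exact some_notMem he hez (h _ ⟨e, rfl, he, hpr⟩)

end
end ACG
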