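import Pool.Agent.ACG.Wsp
import Pool.Agent.ACG.Eval
import Pool.Agent.ACG.Dom

set_option autoImplicit false

/-!
The package `IsPkg`: the local ring `L = K ⊕ W`, `K` the fraction field of `WPS ℂ`.
-/

namespace ACG
open PowerSeries

section
variable {E : Type} [NonUnitalNormedCommRing E] [NormedSpace ℂ E] [IsScalarTower ℂ E E]
  [SMulCommClass ℂ E E] [CompleteSpace E] [Red E]

/-- `L` is an algebra with a surjection `π` onto the fraction field of `WPS ℂ` whose kernel is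
a copy `j` of `Wsub a`; nonzero residues are units. -/
structure IsPkg (a : Mult E) (hb : ∃ K : ℝ, ∀ n : ℕ, ‖a ^ n‖ ≤ K) (L : Type) [CommRing L]
    [Algebra ℂ L] (π : L →ₐ[ℂ] FractionRing (WPS ℂ)) (ι : WPS ℂ →ₐ[ℂ] L)
    (j : Wsub a →ₗ[ℂ] L) : Prop where
  π_ι : ∀ f, π (ι f) = algebraMap (WPS ℂ) (FractionRing (WPS ℂ)) f
  π_j : ∀ w, π (j w) = 0
  surj : Function.Surjective π
  ker : ∀ l, π l = 0 → ∃ w, l = j w
  j_inj : Function.Injective j
  j_mul : ∀ w w' u : Wsub a, (u : E) = (w : E) * (w' : E) → j w * j w' = j u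
  ι_j : ∀ (f : WPS ℂ) (w u : Wsub a), (u : E) = (WPS.ev a hb f).ap (w : E) →
    ι f * j w = j u
  unit : ∀ l, π l ≠ 0 → IsUnit l
  frac : ∀ l, ∃ (s f : WPS ℂ) (w : Wsub a), s ≠ 0 ∧ ι s * l = ι f + j w

end
end ACG
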