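import Mathlib

set_option autoImplicit false

/-!
QA: algebras of countable dimension over the complex numbers: Schur's lemma (Dixmier), and the
Jacobson radical of a domain vanishes (Amitsur).
-/

namespace ACG

open Polynomial

theorem exists_poly {E : Type} [AddCommGroup E] [Module ℂ E]
    (hE : Module.rank ℂ E ≤ Cardinal.aleph0) (T : Module.End ℂ E) (e0 : E)
    (M0 : Set ℂ) (hM : ¬ M0.Countable) (e : ℂ → E) (he : ∀ m ∈ M0, T (e m) - m • e m = e0) :
    ∃ p : Polynomial ℂ, p ≠ 0 ∧ Polynomial.aeval T p e0 = 0 := by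
  classical
  have hdep : ¬ LinearIndependent ℂ (fun m : M0 => e m) := by
    intro hli
    have h1 := hli.cardinal_le_rank
    exact hM (Cardinal.le_aleph0_iff_set_countable.1 (h1.trans hE))
  rw [not_linearIndependent_iff] at hdep
  obtain ⟨s, g, hg, i0, hi0, hgi⟩ := hdep
  refine ⟨∑ i ∈ s, C (g i) * ∏ j ∈ s.erase i, (X - C (j : ℂ)), ?_, ?_⟩
  · intro hp
    have h2 := congrArg (eval (i0 : ℂ)) hp
    rw [eval_finsetSum, Finset.sum_eq_single i0] at h2
    · rw [eval_mul, eval_C, eval_prod, eval_zero, mul_eq_zero] at h2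
      rcases h2 with h2 | h2
      · exact hgi h2
      · rw [Finset.prod_eq_zero_iff] at h2
        obtain ⟨j, hj, hj0⟩ := h2
        rw [eval_sub, eval_X, eval_C, sub_eq_zero] at hj0
        exact (Finset.mem_erase.1 hj).1 (Subtype.ext hj0.symm)
    · intro j hj hji
      rw [eval_mul, eval_prod, Finset.prod_eq_zero (i := i0) (Finset.mem_erase.2 ⟨hji.symm, hi0⟩),
        mul_zero]
      simp
    · intro h
      exact absurd hi0 h
  · have h3 : ∀ i ∈ s, aeval T (∏ j ∈ s.erase i, (X - C (j : ℂ))) e0 =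
        aeval T (∏ j ∈ s, (X - C (j : ℂ))) (e i) := by
      intro i hi
      rw [← he i i.2]
      have h4 : T (e i) - (i : ℂ) • e i = aeval T (X - C (i : ℂ)) (e i) := by
        simp
      rw [h4, ← Module.End.mul_apply, ← map_mul, Finset.prod_erase_mul _ _ hi]
    rw [map_sum, LinearMap.sum_apply]
    have h5 : ∀ i ∈ s, aeval T (C (g i) * ∏ j ∈ s.erase i, (X - C (j : ℂ))) e0 =
        aeval T (∏ j ∈ s, (X - C (j : ℂ))) (g i • e i) := by
      intro i hi
      rw [map_mul, Module.End.mul_apply, h3 i hi, map_smul, aeval_C]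
      rfl
    rw [Finset.sum_congr rfl h5, ← map_sum, hg, map_zero]

theorem eig_of_poly {E : Type} [AddCommGroup E] [Module ℂ E] (T : Module.End ℂ E) (e0 : E)
    (he0 : e0 ≠ 0) (p : Polynomial ℂ) (hp : p ≠ 0) (h : Polynomial.aeval T p e0 = 0) :
    ∃ (nu : ℂ) (v : E), v ≠ 0 ∧ T v = nu • v := by
  induction hn : p.natDegree using Nat.strong_induction_on generalizing p with
  | _ n ih =>
    rcases Nat.eq_zero_or_pos n with rfl | hpos
    · exfalso
      rw [Polynomial.eq_C_of_natDegree_eq_zero hn, aeval_C] at h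
      have h1 : p.coeff 0 • e0 = 0 := h
      rcases smul_eq_zero.1 h1 with h2 | h2
      · apply hp
        rw [Polynomial.eq_C_of_natDegree_eq_zero hn, h2, C_0]
      · exact he0 h2
    · obtain ⟨nu, hnu⟩ := IsAlgClosed.exists_root p (by
        intro h0
        have := Polynomial.natDegree_eq_zero_iff_degree_le_zero.2 h0.le
        omega)
      obtain ⟨q, hq⟩ := Polynomial.dvd_iff_isRoot.2 hnu
      have hq0 : q ≠ 0 := by
        rintro rfl
        exact hp (by rw [hq, mul_zero])
      have hdeg : p.natDegree = 1 + q.natDegree := by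
        rw [hq, Polynomial.natDegree_mul (Polynomial.X_sub_C_ne_zero nu) hq0,
          Polynomial.natDegree_X_sub_C]
      by_cases hqe : aeval T q e0 = 0
      · exact ih q.natDegree (by omega) q hq0 hqe rfl
      · refine ⟨nu, aeval T q e0, hqe, ?_⟩
        rw [hq, map_mul, Module.End.mul_apply] at h
        have h2 : aeval T (X - C nu) (aeval T q e0) = T (aeval T q e0) - nu • aeval T q e0 := by
          simp
        rw [h2, sub_eq_zero] at h
        exact h

theorem schur {U V : Type} [Ring U] [Algebra ℂ U] [AddCommGroup V] [Module ℂ V] [Module U V]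
    [IsScalarTower ℂ U V] [IsSimpleModule U V] (hV : Module.rank ℂ V ≤ Cardinal.aleph0)
    (T : Module.End U V) : ∃ m : ℂ, ∀ v, T v = m • v := by
  classical
  by_contra hcon
  push Not at hcon
  have := IsSimpleModule.nontrivial U V
  obtain ⟨e0, he0⟩ := exists_ne (0 : V)
  let f : ℂ → (V →ₗ[U] V) := fun m =>
    { toFun := fun v => T v - m • v
      map_add' := fun v w => by
        rw [map_add, smul_add]
        abel
      map_smul' := fun u v => by
        rw [map_smul, RingHom.id_apply, smul_sub, smul_algebra_smul_comm] }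
  have hf : ∀ m v, f m v = T v - m • v := fun m v => rfl
  have hbij : ∀ m, Function.Bijective (f m) := by
    intro m
    rcases LinearMap.bijective_or_eq_zero (f m) with h | h
    · exact h
    · exfalso
      obtain ⟨v, hv⟩ := hcon m
      apply hv
      have h1 : f m v = 0 := by rw [h, LinearMap.zero_apply]
      rw [hf, sub_eq_zero] at h1
      exact h1
  choose e he using fun m => (hbij m).2 e0
  let T' : Module.End ℂ V := T.restrictScalars ℂ
  obtain ⟨p, hp, hp0⟩ := exists_poly hV T' e0 Set.univ not_countable_complex e (fun m _ => he m)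
  obtain ⟨nu, v, hv, hTv⟩ := eig_of_poly T' e0 he0 p hp hp0
  apply hv
  apply (hbij nu).1
  rw [map_zero, hf, sub_eq_zero]
  exact hTv

theorem jac {U : Type} [Ring U] [Algebra ℂ U] [NoZeroDivisors U] [Nontrivial U]
    (hU : Module.rank ℂ U ≤ Cardinal.aleph0) (p : U) (hp : p ≠ 0) :
    ∃ M : Ideal U, M.IsMaximal ∧ p ∉ M := by
  classical
  by_contra hcon
  push Not at hcon
  have hinv : ∀ m : ℂ, m ≠ 0 → ∃ u : U, p * u - m • u = 1 := by
    intro m hm
    have h1 : Ideal.span {p - algebraMap ℂ U m} = ⊤ := by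
      by_contra hne
      obtain ⟨M, hM, hle⟩ := Ideal.exists_le_maximal _ hne
      have h2 : p - algebraMap ℂ U m ∈ M := hle (Ideal.subset_span rfl)
      have h3 : algebraMap ℂ U m ∈ M := by
        have := M.sub_mem (hcon M hM) h2
        rwa [sub_sub_cancel] at this
      apply hM.ne_top
      rw [Ideal.eq_top_iff_one]
      have h4 := M.mul_mem_left (algebraMap ℂ U m⁻¹) h3
      rwa [← map_mul, inv_mul_cancel₀ hm, map_one] at h4
    have h5 : (1 : U) ∈ Ideal.span {p - algebraMap ℂ U m} := by
      rw [h1]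
      trivial
    obtain ⟨u, hu⟩ := Ideal.mem_span_singleton'.1 h5
    refine ⟨u, ?_⟩
    have h6 : p - algebraMap ℂ U m ≠ 0 := by
      intro h0
      rw [h0, mul_zero] at hu
      exact zero_ne_one hu
    have h7 : ((p - algebraMap ℂ U m) * u - 1) * (p - algebraMap ℂ U m) = 0 := by
      rw [sub_mul, mul_assoc, hu, mul_one, one_mul, sub_self]
    have h8 := (mul_eq_zero.1 h7).resolve_right h6
    rw [sub_mul, sub_eq_zero] at h8
    rw [Algebra.smul_def]
    exact h8
  choose! e he using hinv
  let T : Module.End ℂ U := LinearMap.mulLeft ℂ p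
  obtain ⟨q, hq, hq0⟩ := exists_poly hU T 1 {m : ℂ | m ≠ 0} (by
    intro hc
    apply not_countable_complex
    have h1 : (Set.univ : Set ℂ) ⊆ {m : ℂ | m ≠ 0} ∪ {0} := by
      intro x _
      by_cases hx : x = 0
      · exact Or.inr hx
      · exact Or.inl hx
    exact (hc.union (Set.countable_singleton 0)).mono h1) e (fun m hm => he m hm)
  obtain ⟨nu, x, hx, hTx⟩ := eig_of_poly T 1 one_ne_zero q hq hq0
  have h1 : p * x = nu • x := hTx
  have h2 : (p - algebraMap ℂ U nu) * x = 0 := by
    rw [sub_mul, h1, Algebra.smul_def, sub_self]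
  have h3 : p = algebraMap ℂ U nu := by
    rcases mul_eq_zero.1 h2 with h | h
    · exact sub_eq_zero.1 h
    · exact absurd h hx
  have hnu : nu ≠ 0 := by
    rintro rfl
    exact hp (by rw [h3, map_zero])
  obtain ⟨M, hM⟩ := Ideal.exists_maximal U
  have h4 := M.mul_mem_left (algebraMap ℂ U nu⁻¹) (hcon M hM)
  rw [h3, ← map_mul, inv_mul_cancel₀ hnu, map_one] at h4
  exact hM.ne_top ((Ideal.eq_top_iff_one M).2 h4)

end ACG
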