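import Mathlib

set_option autoImplicit false

namespace ACG

/-! ### Qb -/
section
variable {U V : Type} [Ring U] [Algebra ℂ U] [AddCommGroup V] [Module ℂ V] [Module U V]
    [IsScalarTower ℂ U V] [IsSimpleModule U V]

omit [Algebra ℂ U] [IsScalarTower ℂ U V] in
theorem dens_map (hs : ∀ T : Module.End U V, ∃ m : ℂ, ∀ v, T v = m • v) (g : V →ₗ[ℂ] V)
    (s : Finset V) : ∃ u : U, ∀ m ∈ s, g m = u • m := by
  let f : Module.End (Module.End U V) V :=
    { toFun := g
      map_add' := fun x y => map_add g x y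
      map_smul' := fun T x => by
        obtain ⟨c, hc⟩ := hs T
        rw [RingHom.id_apply, Module.End.smul_def, Module.End.smul_def, hc, hc, map_smul] }
  obtain ⟨u, hu⟩ := jacobson_density f s
  exact ⟨u, hu⟩

theorem RO (hs : ∀ T : Module.End U V, ∃ m : ℂ, ∀ v, T v = m • v) (I : Set U)
    (hl : ∀ a : U, ∀ x ∈ I, a * x ∈ I) (hr : ∀ x ∈ I, ∀ a : U, x * a ∈ I)
    (hI : ∃ x ∈ I, ∃ v : V, x • v ≠ 0) {ι : Type} [Fintype ι] [DecidableEq ι] (v : ι → V)
    (hv : LinearIndependent ℂ v) (j : ι) (w : V) :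
    ∃ r ∈ I, r • v j = w ∧ ∀ k, k ≠ j → r • v k = 0 := by
  classical
  obtain ⟨x, hx, v1, hxv⟩ := hI
  -- the linear map
  let B := Module.Basis.span hv
  let g1 : Submodule.span ℂ (Set.range v) →ₗ[ℂ] V :=
    B.constr ℂ (fun k => if k = j then v1 else 0)
  obtain ⟨g, hg⟩ := LinearMap.exists_extend g1
  have hgk : ∀ k, g (v k) = if k = j then v1 else 0 := by
    intro k
    have h1 : g1 (B k) = if k = j then v1 else 0 := B.constr_basis ℂ _ k
    have h2 : ((B k : Submodule.span ℂ (Set.range v)) : V) = v k :=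
      congrArg Subtype.val (Module.Basis.span_apply hv k)
    rw [← h1, ← hg, LinearMap.comp_apply, Submodule.subtype_apply, h2]
  obtain ⟨u, hu⟩ := dens_map hs g (Finset.univ.image v)
  obtain ⟨u2, hu2⟩ := IsSimpleModule.toSpanSingleton_surjective U hxv w
  rw [LinearMap.toSpanSingleton_apply] at hu2
  refine ⟨u2 * x * u, hr _ (hl _ _ hx) _, ?_, ?_⟩
  · rw [mul_smul, mul_smul, ← hu (v j) (Finset.mem_image_of_mem v (Finset.mem_univ j)), hgk,
      if_pos rfl, hu2]
  · intro k hk
    rw [mul_smul, mul_smul, ← hu (v k) (Finset.mem_image_of_mem v (Finset.mem_univ k)), hgk,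
      if_neg hk, smul_zero, smul_zero]

omit [Algebra ℂ U] [Module ℂ V] [IsScalarTower ℂ U V] [IsSimpleModule U V] in
theorem path_prod (d : ℕ) (r : ℕ → U) (v : ℕ → V)
    (h : ∀ i, i < d → ∀ k, k ≤ d → r i • v k = if k = i then v (i + 1) else 0) :
    ∀ m, m ≤ d → ∀ c : Fin m → ℕ, (∀ i, c i < d) →
      (List.ofFn fun i => r (c i)).prod • v 0 =
        if (∀ i : Fin m, c i = m - 1 - i) then v m else 0 := by
  intro m
  induction m with
  | zero =>
    intro _ c _
    rw [List.ofFn_zero, List.prod_nil, one_smul, if_pos]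
    intro i
    exact i.elim0
  | succ m ih =>
    intro hm c hc
    rw [List.ofFn_succ, List.prod_cons, mul_smul, ih (by omega) (fun i => c i.succ) (fun i => hc _)]
    by_cases h1 : ∀ i : Fin m, c i.succ = m - 1 - i
    · rw [if_pos h1, h (c 0) (hc 0) m (by omega)]
      by_cases h2 : m = c 0
      · rw [if_pos h2, if_pos, ← h2]
        intro i
        refine Fin.cases ?_ (fun i => ?_) i
        · rw [← h2]
          simp
        · rw [h1 i, Fin.val_succ]
          omega
      · rw [if_neg h2, if_neg]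
        intro h3
        apply h2
        have := h3 0
        rw [this]
        simp
    · rw [if_neg h1, smul_zero, if_neg]
      intro h3
      apply h1
      intro i
      have := h3 i.succ
      rw [this, Fin.val_succ]
      omega

theorem pi_bound (hs : ∀ T : Module.End U V, ∃ m : ℂ, ∀ v, T v = m • v) (I : Set U)
    (hl : ∀ a : U, ∀ x ∈ I, a * x ∈ I) (hr : ∀ x ∈ I, ∀ a : U, x * a ∈ I)
    (hI : ∃ x ∈ I, ∃ v : V, x • v ≠ 0) (d : ℕ) (al : Equiv.Perm (Fin d) → ℂ)
    (hal : ∃ s, al s ≠ 0)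
    (hid : ∀ x : Fin d → U, (∀ i, x i ∈ I) →
      ∑ s, al s • (List.ofFn fun i => x (s i)).prod = 0) :
    FiniteDimensional ℂ V ∧ Module.finrank ℂ V ≤ d := by
  by_cases hrk : Module.rank ℂ V ≤ (d : Cardinal)
  · refine ⟨?_, Module.finrank_le_of_rank_le hrk⟩
    rw [FiniteDimensional, ← Module.rank_lt_aleph0_iff]
    exact lt_of_le_of_lt hrk (Cardinal.natCast_lt_aleph0)
  exfalso
  rw [not_le] at hrk
  have hrk2 : ((d + 1 : ℕ) : Cardinal) ≤ Module.rank ℂ V := by
    push_cast
    exact Cardinal.add_one_le_of_lt hrk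
  obtain ⟨v, hv⟩ := exists_linearIndependent_of_le_rank hrk2
  have h1 : ∀ i : Fin d, ∃ r ∈ I, r • v i.castSucc = v i.succ ∧
      ∀ k, k ≠ i.castSucc → r • v k = 0 := fun i => RO hs I hl hr hI v hv i.castSucc (v i.succ)
  choose r hrI hr1 hr2 using h1
  obtain ⟨s0, hs0⟩ := hal
  -- natural number versions
  let r' : ℕ → U := fun i => if h : i < d then r ⟨i, h⟩ else 0
  let v' : ℕ → V := fun k => if h : k < d + 1 then v ⟨k, h⟩ else 0
  have hp : ∀ i, i < d → ∀ k, k ≤ d → r' i • v' k = if k = i then v' (i + 1) else 0 := by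
    intro i hi k hk
    have e1 : r' i = r ⟨i, hi⟩ := dif_pos hi
    have e2 : v' k = v ⟨k, by omega⟩ := dif_pos (by omega)
    have e3 : v' (i + 1) = v ⟨i + 1, by omega⟩ := dif_pos (by omega)
    rw [e1, e2, e3]
    by_cases hki : k = i
    · subst hki
      rw [if_pos rfl]
      exact hr1 ⟨k, hi⟩
    · rw [if_neg hki]
      apply hr2
      intro h
      apply hki
      have := congrArg Fin.val h
      simpa using this
  let c : Equiv.Perm (Fin d) → Fin d → ℕ := fun s i => d - 1 - (s0⁻¹ (s i) : Fin d)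
  have hc : ∀ s i, c s i < d := by
    intro s i
    have := (s0⁻¹ (s i)).isLt
    show d - 1 - ((s0⁻¹ (s i) : Fin d) : ℕ) < d
    omega
  let x : Fin d → U := fun k => r' (d - 1 - (s0⁻¹ k : Fin d))
  have hxI : ∀ i, x i ∈ I := by
    intro k
    have h2 := (s0⁻¹ k).isLt
    have h3 : d - 1 - ((s0⁻¹ k : Fin d) : ℕ) < d := by omega
    show r' _ ∈ I
    have e1 : r' (d - 1 - ((s0⁻¹ k : Fin d) : ℕ)) = r ⟨_, h3⟩ := dif_pos h3
    rw [e1]
    exact hrI _
  have h4 := congrArg (fun u : U => u • v' 0) (hid x hxI)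
  simp only [zero_smul] at h4
  rw [Finset.sum_smul, Finset.sum_eq_single s0] at h4
  · rw [smul_assoc] at h4
    have h5 := path_prod d r' v' hp d le_rfl (c s0) (hc s0)
    have h6 : (List.ofFn fun i => x (s0 i)).prod • v' 0 = v' d := by
      refine h5.trans (if_pos ?_)
      intro i
      show d - 1 - ((s0⁻¹ (s0 i) : Fin d) : ℕ) = d - 1 - i
      have : s0⁻¹ (s0 i) = i := Equiv.symm_apply_apply s0 i
      rw [this]
    rw [h6] at h4
    have e2 : v' d = v ⟨d, by omega⟩ := dif_pos (by omega)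
    rw [e2] at h4
    rcases smul_eq_zero.1 h4 with h7 | h7
    · exact hs0 h7
    · exact hv.ne_zero _ h7
  · intro s _ hss
    rw [smul_assoc]
    have h5 := path_prod d r' v' hp d le_rfl (c s) (hc s)
    have h6 : (List.ofFn fun i => x (s i)).prod • v' 0 = 0 := by
      refine h5.trans (if_neg ?_)
      intro h7
      apply hss
      ext i
      have h8 : d - 1 - ((s0⁻¹ (s i) : Fin d) : ℕ) = d - 1 - i := h7 i
      have h9 := (s0⁻¹ (s i)).isLt
      have h10 := i.isLt
      have h11 : s0⁻¹ (s i) = i := by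
        apply Fin.ext
        omega
      have h12 : s i = s0 i := by
        have h13 : s0 (s0⁻¹ (s i)) = s i := Equiv.apply_symm_apply s0 (s i)
        rw [← h13, h11]
      rw [h12]
    rw [h6, smul_zero]
  · intro h
    exact absurd (Finset.mem_univ s0) h
end

end ACG
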