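import Mathlib

/-! Capelli polynomials: alternating property, expansion, two-sided form. -/

set_option autoImplicit false

namespace ACG

/-- the Capelli polynomial with sum over s of sgn(s) y0 x_{s 0} y1 x_{s 1} ... yN -/
def cap {U : Type} [Ring U] {N : ℕ} (x : Fin N → U) (y : Fin (N + 1) → U) : U :=
  ∑ s : Equiv.Perm (Fin N), ((Equiv.Perm.sign s : ℤˣ) : ℤ) •
    (y 0 * (List.ofFn fun i => x (s i) * y i.succ).prod)

theorem cap_map {U U' : Type} [Ring U] [Ring U'] (f : U →+* U') {N : ℕ} (x : Fin N → U)
    (y : Fin (N + 1) → U) : f (cap x y) = cap (fun i => f (x i)) (fun i => f (y i)) := by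
  unfold cap
  rw [map_sum]
  refine Finset.sum_congr rfl (fun s _ => ?_)
  rw [map_zsmul, map_mul, map_list_prod, List.map_ofFn]
  congr 4
  funext i
  simp

/-- the Capelli polynomial as an alternating map -/
noncomputable def capAlt {E : Type} [Ring E] [Algebra ℂ E] {N : ℕ} (y : Fin (N + 1) → E) :
    E [⋀^Fin N]→ₗ[ℂ] E :=
  MultilinearMap.alternatization
    ((LinearMap.mulLeft ℂ (y 0)).compMultilinearMap
      ((MultilinearMap.mkPiAlgebraFin ℂ N E).compLinearMap
        (fun i : Fin N => LinearMap.mulRight ℂ (y i.succ))))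

theorem capAlt_apply {E : Type} [Ring E] [Algebra ℂ E] {N : ℕ} (y : Fin (N + 1) → E)
    (x : Fin N → E) : capAlt y x = cap x y := by
  unfold capAlt cap
  rw [MultilinearMap.alternatization_apply]
  refine Finset.sum_congr rfl (fun s _ => ?_)
  rw [Units.smul_def]
  congr 1

theorem cap_dep {E : Type} [Ring E] [Algebra ℂ E] {N : ℕ} (x : Fin N → E) (y : Fin (N + 1) → E)
    (h : ¬ LinearIndependent ℂ x) : cap x y = 0 := by
  rw [← capAlt_apply]
  exact (capAlt y).map_linearDependent x h

/-- linear expansion in one variable: if r is a basis with coordinates xi -/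
theorem cap_update {E : Type} [Ring E] [Algebra ℂ E] {N : ℕ} (r : Module.Basis (Fin N) ℂ E)
    (y : Fin (N + 1) → E) (k : Fin N) (x : E) :
    cap (Function.update (fun i => r i) k x) y = r.repr x k • cap (fun i => r i) y := by
  rw [← capAlt_apply, ← capAlt_apply]
  set L : E →ₗ[ℂ] E := (capAlt y).toMultilinearMap.toLinearMap (fun i => r i) k with hL
  have hLa : ∀ z, L z = capAlt y (Function.update (fun i => r i) k z) := fun z => rfl
  rw [← hLa]
  conv_lhs => rw [← r.sum_repr x]
  rw [map_sum]
  rw [Finset.sum_eq_single k]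
  · rw [map_smul, hLa]
    congr 2
    exact Function.update_eq_self k _
  · intro j _ hj
    rw [map_smul, hLa]
    have : capAlt y (Function.update (fun i => r i) k (r j)) = 0 :=
      (capAlt y).map_update_self (fun i => r i) (Ne.symm hj)
    rw [this, smul_zero]
  · intro h
    exact absurd (Finset.mem_univ k) h

theorem split_ofFn {U : Type} [Monoid U] {N : ℕ} (F G : Fin N → U) (i0 : Fin N)
    (h : ∀ i, i ≠ i0 → F i = G i) :
    (List.ofFn F).prod = ((List.ofFn G).take i0).prod *
      (F i0 * ((List.ofFn G).drop (i0 + 1)).prod) := by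
  have hlen : (i0 : ℕ) < (List.ofFn F).length := by rw [List.length_ofFn]; exact i0.2
  have h1 : (List.ofFn F).drop i0 = F i0 :: (List.ofFn F).drop (i0 + 1) := by
    rw [List.drop_eq_getElem_cons hlen]
    congr 1
    rw [List.getElem_ofFn]
  have h2 : (List.ofFn F).take i0 = (List.ofFn G).take i0 := by
    apply List.ext_getElem
    · simp
    · intro i hi1 hi2
      rw [List.getElem_take, List.getElem_take, List.getElem_ofFn, List.getElem_ofFn]
      apply h
      intro hc
      have hi : i < (i0 : ℕ) := by
        rw [List.length_take] at hi1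
        exact lt_of_lt_of_le hi1 (min_le_left _ _)
      have := congrArg Fin.val hc
      simp only at this
      omega
  have h3 : (List.ofFn F).drop (i0 + 1) = (List.ofFn G).drop (i0 + 1) := by
    apply List.ext_getElem
    · simp
    · intro i hi1 hi2
      rw [List.getElem_drop, List.getElem_drop, List.getElem_ofFn, List.getElem_ofFn]
      apply h
      intro hc
      have := congrArg Fin.val hc
      simp only at this
      omega
  rw [← List.prod_take_mul_prod_drop (List.ofFn F) i0, h1, h2, h3, List.prod_cons]

/-- two-sided form, with the same index set for all positions -/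
theorem cap_two {U : Type} [Ring U] (I : AddSubgroup U) (hl : ∀ a : U, ∀ x ∈ I, a * x ∈ I)
    (hr : ∀ x ∈ I, ∀ a : U, x * a ∈ I) {N : ℕ} (r : Fin N → U) (y : Fin (N + 1) → U)
    (hy : ∀ i, y i ∈ I) :
    ∃ (n : ℕ) (a b : Fin N → Fin n → U), (∀ k j, a k j ∈ I) ∧ (∀ k j, b k j ∈ I) ∧
      ∀ k x, cap (Function.update r k x) y = ∑ j, a k j * x * b k j := by
  classical
  let e := Fintype.equivFin (Equiv.Perm (Fin N))
  let G : Equiv.Perm (Fin N) → Fin N → U := fun s i => r (s i) * y i.succ
  let A : Fin N → Equiv.Perm (Fin N) → U := fun k s =>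
    ((Equiv.Perm.sign s : ℤˣ) : ℤ) • (y 0 * ((List.ofFn (G s)).take (s.symm k)).prod)
  let B : Fin N → Equiv.Perm (Fin N) → U := fun k s =>
    y (s.symm k).succ * ((List.ofFn (G s)).drop ((s.symm k : Fin N) + 1)).prod
  refine ⟨Fintype.card (Equiv.Perm (Fin N)), fun k j => A k (e.symm j),
    fun k j => B k (e.symm j), ?_, ?_, ?_⟩
  · intro k j
    exact I.zsmul_mem (hr _ (hy 0) _) _
  · intro k j
    exact hr _ (hy _) _
  · intro k x
    rw [Equiv.sum_comp e.symm (fun s => A k s * x * B k s)]
    unfold cap
    refine Finset.sum_congr rfl (fun s _ => ?_)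
    have hsplit := split_ofFn (fun i => Function.update r k x (s i) * y i.succ) (G s) (s.symm k)
      (by
        intro i hi
        have : s i ≠ k := by
          intro h
          apply hi
          rw [← h, Equiv.symm_apply_apply]
        simp only [G]
        rw [Function.update_of_ne this])
    rw [hsplit]
    simp only [A, B]
    rw [Equiv.apply_symm_apply, Function.update_self]
    simp only [mul_assoc, smul_mul_assoc]

end ACG
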