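import Pool.Agent.ACG.Qc1

set_option autoImplicit false

namespace ACG

/-- a product which moves a chain of vectors -/
theorem cap_chain {U V : Type} [Ring U] [AddCommGroup V] [Module U V] (N : ℕ) (z : Fin N → U)
    (w : Fin (N + 1) → V) (h : ∀ i : Fin N, z i • w i.succ = w i.castSucc) :
    (List.ofFn z).prod • w (Fin.last N) = w 0 := by
  induction N with
  | zero => simp
  | succ N ih =>
    rw [List.ofFn_succ, List.prod_cons, mul_smul]
    have h1 := ih (fun i => z i.succ) (fun i => w i.succ) (fun i => by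
      have := h i.succ
      rw [this, Fin.succ_castSucc])
    rw [Fin.succ_last] at h1
    rw [h1]
    exact h 0

/-- nonvanishing -/
theorem cap_ne {U V : Type} [Ring U] [Algebra ℂ U] [AddCommGroup V] [Module ℂ V] [Module U V]
    [IsScalarTower ℂ U V] (I : Set U) (m : ℕ) (hm : 0 < m) (e : Fin m → V)
    (he : ∀ i, e i ≠ 0)
    (hI : ∀ i j : Fin m, ∃ x ∈ I, x • e j = e i ∧ ∀ k, k ≠ j → x • e k = 0) :
    ∃ (x : Fin (m * m) → U) (y : Fin (m * m + 1) → U), (∀ i, x i ∈ I) ∧ (∀ i, y i ∈ I) ∧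
      ∃ v : V, cap x y • v ≠ 0 := by
  classical
  choose E hE1 hE2 hE3 using hI
  obtain ⟨z0, hz0⟩ : ∃ z0 : Fin m, z0 = ⟨0, hm⟩ := ⟨_, rfl⟩
  obtain ⟨a, ha⟩ : ∃ a : Fin (m * m) → Fin m, a = fun k => (finProdFinEquiv.symm k).1 := ⟨_, rfl⟩
  obtain ⟨b, hb⟩ : ∃ b : Fin (m * m) → Fin m, b = fun k => (finProdFinEquiv.symm k).2 := ⟨_, rfl⟩
  have hab : ∀ k l : Fin (m * m), a k = a l → b k = b l → k = l := by
    intro k l h1 h2
    rw [ha] at h1
    rw [hb] at h2
    exact finProdFinEquiv.symm.injective (Prod.ext h1 h2)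
  obtain ⟨t, ht⟩ : ∃ t : Fin (m * m + 1) → Fin m, t = Fin.snoc (α := fun _ => Fin m) a z0 :=
    ⟨_, rfl⟩
  obtain ⟨r, hr⟩ : ∃ r : Fin (m * m + 1) → Fin m, r = Fin.cons (α := fun _ => Fin m) z0 b :=
    ⟨_, rfl⟩
  have t1 : ∀ i : Fin (m * m), t i.castSucc = a i := by
    intro i; rw [ht]; exact Fin.snoc_castSucc (α := fun _ => Fin m) _ _ _
  have t2 : t (Fin.last (m * m)) = z0 := by
    rw [ht]; exact Fin.snoc_last (α := fun _ => Fin m) _ _
  have r1 : ∀ i : Fin (m * m), r i.succ = b i := by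
    intro i; rw [hr]; exact Fin.cons_succ (α := fun _ => Fin m) _ _ _
  have r2 : r 0 = z0 := by rw [hr]; exact Fin.cons_zero (α := fun _ => Fin m) _ _
  refine ⟨fun k => E (a k) (b k), fun j => E (r j) (t j), fun i => hE1 _ _, fun i => hE1 _ _,
    e z0, ?_⟩
  -- one factor
  have hy : ∀ j : Fin (m * m + 1), E (r j) (t j) • e (t j) = e (r j) := fun j => hE2 _ _
  have hstep : ∀ (s : Equiv.Perm (Fin (m * m))) (i : Fin (m * m)), s i = i →
      (E (a (s i)) (b (s i)) * E (r i.succ) (t i.succ)) • e (t i.succ) = e (t i.castSucc) := by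
    intro s i hs
    rw [mul_smul, hy, hs, r1, hE2, t1]
  have hkill : ∀ (s : Equiv.Perm (Fin (m * m))) (j : Fin (m * m)), s j ≠ j →
      E (r j.castSucc) (t j.castSucc) •
        ((E (a (s j)) (b (s j)) * E (r j.succ) (t j.succ)) • e (t j.succ)) = 0 := by
    intro s j hs
    rw [mul_smul, hy, r1]
    by_cases h1 : b j = b (s j)
    · rw [h1, hE2, t1]
      apply hE3
      intro h2
      exact hs (hab _ _ h2 h1.symm)
    · rw [hE3 _ _ _ h1, smul_zero]
  unfold cap
  rw [Finset.sum_smul, Finset.sum_eq_single (1 : Equiv.Perm (Fin (m * m)))]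
  · rw [Equiv.Perm.sign_one, Units.val_one, one_smul, mul_smul]
    have h1 := cap_chain (m * m)
      (fun i => E (a ((1 : Equiv.Perm (Fin (m * m))) i)) (b ((1 : Equiv.Perm (Fin (m * m))) i)) *
        E (r i.succ) (t i.succ)) (fun i => e (t i)) (fun i => hstep 1 i rfl)
    rw [t2] at h1
    rw [h1, hy 0, r2]
    exact he z0
  · intro s _ hs
    rw [smul_assoc, mul_smul]
    obtain ⟨D, hD⟩ : ∃ D : Finset (Fin (m * m)), D = Finset.univ.filter (fun j => s j ≠ j) :=
      ⟨_, rfl⟩
    have hDn : D.Nonempty := by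
      rw [Finset.nonempty_iff_ne_empty]
      intro h0
      apply hs
      ext1 j
      by_contra hj
      have : j ∈ D := by rw [hD]; simpa using hj
      rw [h0] at this
      simp at this
    obtain ⟨j, hj⟩ : ∃ j, j = D.max' hDn := ⟨_, rfl⟩
    have hjD : s j ≠ j := by
      have := D.max'_mem hDn
      rw [← hj, hD] at this
      simpa using this
    have hgt : ∀ i : Fin (m * m), j < i → s i = i := by
      intro i hi
      by_contra hcon
      have h1 : i ∈ D := by rw [hD]; simpa using hcon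
      have h2 := D.le_max' i h1
      rw [← hj] at h2
      exact absurd hi (not_lt.2 h2)
    obtain ⟨u, hu⟩ : ∃ u : V, u =
      (E (a (s j)) (b (s j)) * E (r j.succ) (t j.succ)) • e (t j.succ) := ⟨_, rfl⟩
    obtain ⟨w, hw⟩ : ∃ w : Fin (m * m + 1) → V, w = fun i : Fin (m * m + 1) =>
      if (j : ℕ) < (i : ℕ) then e (t i) else if (i : ℕ) = (j : ℕ) then u else 0 := ⟨_, rfl⟩
    have hwstep : ∀ i : Fin (m * m), (E (a (s i)) (b (s i)) * E (r i.succ) (t i.succ)) •
        w i.succ = w i.castSucc := by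
      intro i
      rw [hw]
      simp only [Fin.val_succ, Fin.val_castSucc]
      rcases lt_trichotomy (i : ℕ) (j : ℕ) with h1 | h1 | h1
      · by_cases h2 : (i : ℕ) + 1 = (j : ℕ)
        · rw [if_neg (by omega), if_pos h2, if_neg (by omega), if_neg (by omega), mul_smul]
          have e1 : i.succ = j.castSucc := by
            ext; simp [h2]
          rw [e1, hu, hkill s j hjD, smul_zero]
        · rw [if_neg (by omega), if_neg (by omega), if_neg (by omega), if_neg (by omega),
            smul_zero]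
      · have e1 : i = j := Fin.ext h1
        subst e1
        rw [if_pos (by omega), if_neg (by omega), if_pos rfl, hu]
      · rw [if_pos (by omega), if_pos h1]
        exact hstep s i (hgt i (Fin.lt_def.2 h1))
    have h1 := cap_chain (m * m)
      (fun i => E (a (s i)) (b (s i)) * E (r i.succ) (t i.succ)) w hwstep
    have hwl : w (Fin.last (m * m)) = e z0 := by
      rw [hw]
      simp only [Fin.val_last]
      rw [if_pos j.2, t2]
    rw [hwl] at h1
    rw [h1]
    have h2 : E (r 0) (t 0) • w 0 = 0 := by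
      rw [hw]
      have hn : ¬ ((j : ℕ) < ((0 : Fin (m * m + 1)) : ℕ)) := by simp
      show E (r 0) (t 0) • (if (j : ℕ) < ((0 : Fin (m * m + 1)) : ℕ) then e (t 0) else
        if ((0 : Fin (m * m + 1)) : ℕ) = (j : ℕ) then u else 0) = 0
      rw [if_neg hn]
      by_cases h3 : ((0 : Fin (m * m + 1)) : ℕ) = (j : ℕ)
      · rw [if_pos h3]
        have e1 : (0 : Fin (m * m + 1)) = j.castSucc := Fin.ext h3
        rw [e1, hu, hkill s j hjD]
      · rw [if_neg h3, smul_zero]
    rw [h2, smul_zero]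
  · intro h
    exact absurd (Finset.mem_univ _) h

end ACG
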