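import Pool.Agent.ACG.Qd2

set_option autoImplicit false

/-!
QD1: the element attached to a basis of `End V` and its dual basis is a scalar.
-/

namespace ACG

variable {V : Type} [AddCommGroup V] [Module ℂ V] [FiniteDimensional ℂ V] {N : ℕ}

theorem QQ_add (r : Fin N → Module.End ℂ V) {n : ℕ} (a b : Fin N → Fin n → Module.End ℂ V)
    {ι : Type} (s : Finset ι) (z : Module.End ℂ V) (z' : ι → Module.End ℂ V) :
    QQ r a b z (∑ i ∈ s, z' i) = ∑ i ∈ s, QQ r a b z (z' i) := by
  unfold QQ
  rw [Finset.sum_comm]
  refine Finset.sum_congr rfl fun k _ => ?_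
  rw [Finset.mul_sum, Finset.sum_mul]

theorem QQ_scalar (r : Module.Basis (Fin N) ℂ (Module.End ℂ V)) {n : ℕ}
    (a b : Fin N → Fin n → Module.End ℂ V) (h : Module.End ℂ V)
    (hab : ∀ k x, ∑ j, a k j * x * b k j = r.repr x k • h) (z z' : Module.End ℂ V) :
    QQ (fun k => r k) a b z z' =
      (LinearMap.trace ℂ V (z * h) * LinearMap.trace ℂ V z') • (1 : Module.End ℂ V) := by
  -- rank one case
  have h1 : ∀ (f : V →ₗ[ℂ] ℂ) (v : V), QQ (fun k => r k) a b z (f.smulRight v) =
      (LinearMap.trace ℂ V (z * h) * LinearMap.trace ℂ V (f.smulRight v)) •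
        (1 : Module.End ℂ V) := by
    intro f v
    ext w
    obtain ⟨x, hx⟩ : ∃ x : Module.End ℂ V, x = f.smulRight w := ⟨_, rfl⟩
    have e1 : ∀ k, f (tws (a k) (b k) z w) = r.repr x k * LinearMap.trace ℂ V (z * h) := by
      intro k
      rw [← tr_tws r a b h hab k x z]
      rw [LinearMap.trace_mul_comm]
      have : tws (a k) (b k) z * x = f.smulRight (tws (a k) (b k) z w) := by
        ext y
        rw [hx]
        simp
      rw [this, LinearMap.trace_smulRight]
    have e2 : QQ (fun k => r k) a b z (f.smulRight v) w =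
        ∑ k, f (tws (a k) (b k) z w) • r k v := by
      unfold QQ
      rw [LinearMap.sum_apply]
      refine Finset.sum_congr rfl fun k _ => ?_
      have e5 : ((fun k => r k) k * (f.smulRight v) * tws (a k) (b k) z) w
          = r k ((f.smulRight v) (tws (a k) (b k) z w)) := rfl
      rw [e5, LinearMap.smulRight_apply, map_smul]
    have e3 : ∑ k, r.repr x k • r k v = x v := by
      have e7 : (∑ k, r.repr x k • r k) v = x v := by rw [r.sum_repr x]
      rw [← e7, LinearMap.sum_apply]
      rfl
    have e4 : ∑ k, (r.repr x k * LinearMap.trace ℂ V (z * h)) • r k v =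
        LinearMap.trace ℂ V (z * h) • ∑ k, r.repr x k • r k v := by
      rw [Finset.smul_sum]
      exact Finset.sum_congr rfl fun k _ => by rw [smul_smul, mul_comm]
    rw [e2]
    simp only [e1]
    rw [e4, e3, hx, LinearMap.trace_smulRight]
    show LinearMap.trace ℂ V (z * h) • (f v • w) = _
    rw [smul_smul]
    rfl
  -- general case
  let e := Module.finBasis ℂ V
  have h2 : z' = ∑ i, (e.coord i).smulRight (z' (e i)) := by
    apply e.ext
    intro j
    rw [LinearMap.sum_apply, Finset.sum_eq_single j]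
    · rw [LinearMap.smulRight_apply]
      simp
    · intro i _ hij
      rw [LinearMap.smulRight_apply]
      simp [Finsupp.single_apply, hij.symm]
    · intro hj
      exact absurd (Finset.mem_univ j) hj
  rw [h2, QQ_add, map_sum, Finset.mul_sum, Finset.sum_smul]
  exact Finset.sum_congr rfl fun i _ => h1 _ _

theorem dual_central (r : Module.Basis (Fin N) ℂ (Module.End ℂ V)) {n : ℕ}
    (a b : Fin N → Fin n → Module.End ℂ V) (h : Module.End ℂ V)
    (hab : ∀ k x, ∑ j, a k j * x * b k j = r.repr x k • h) (z z' g : Module.End ℂ V) :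
    QQ (fun k => r k) a b z z' * g = g * QQ (fun k => r k) a b z z' := by
  rw [QQ_scalar r a b h hab, smul_mul_assoc, mul_smul_comm, one_mul, mul_one]

theorem dual_expand (r : Module.Basis (Fin N) ℂ (Module.End ℂ V)) {n : ℕ}
    (a b : Fin N → Fin n → Module.End ℂ V) (h : Module.End ℂ V)
    (hab : ∀ k x, ∑ j, a k j * x * b k j = r.repr x k • h) (z z'' x : Module.End ℂ V) :
    QQ (fun k => r k) a b z (z'' * h) * x =
      ∑ k, QQ (fun k => r k) a b z (x * tws (a k) (b k) z'') * r k := by
  simp only [QQ_scalar r a b h hab, tr_tws r a b h hab, smul_mul_assoc, one_mul]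
  conv_lhs => rw [← r.sum_repr x, Finset.smul_sum]
  refine Finset.sum_congr rfl fun k _ => ?_
  rw [smul_smul]
  congr 1
  ring

end ACG
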