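import Mathlib

set_option autoImplicit false

namespace ACG

/-- transposed two-sided operator and the central element -/
def tws {U : Type} [Ring U] {n : ℕ} (a b : Fin n → U) (z : U) : U := ∑ j, b j * z * a j

def QQ {U : Type} [Ring U] {N n : ℕ} (r : Fin N → U) (a b : Fin N → Fin n → U) (z z' : U) : U :=
  ∑ k, r k * z' * tws (a k) (b k) z

variable {V : Type} [AddCommGroup V] [Module ℂ V] [FiniteDimensional ℂ V] {N : ℕ}

omit [FiniteDimensional ℂ V] in
theorem tr_tws (r : Module.Basis (Fin N) ℂ (Module.End ℂ V)) {n : ℕ}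
    (a b : Fin N → Fin n → Module.End ℂ V) (h : Module.End ℂ V)
    (hab : ∀ k x, ∑ j, a k j * x * b k j = r.repr x k • h) (k : Fin N) (x z : Module.End ℂ V) :
    LinearMap.trace ℂ V (x * tws (a k) (b k) z) = r.repr x k * LinearMap.trace ℂ V (z * h) := by
  have e1 : LinearMap.trace ℂ V (x * tws (a k) (b k) z)
      = ∑ j, LinearMap.trace ℂ V (z * (a k j * x * b k j)) := by
    unfold tws
    rw [Finset.mul_sum, map_sum]
    refine Finset.sum_congr rfl fun j _ => ?_
    rw [← mul_assoc, LinearMap.trace_mul_comm, ← mul_assoc, ← mul_assoc, LinearMap.trace_mul_comm]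
  rw [e1, ← map_sum, ← Finset.mul_sum, hab, mul_smul_comm, map_smul, smul_eq_mul]

theorem dual_ne (r : Module.Basis (Fin N) ℂ (Module.End ℂ V)) {n : ℕ}
    (a b : Fin N → Fin n → Module.End ℂ V) (h : Module.End ℂ V)
    (hab : ∀ k x, ∑ j, a k j * x * b k j = r.repr x k • h) (hh : h ≠ 0) :
    ∃ z, QQ (fun k => r k) a b z (z * h) ≠ 0 := by
  obtain ⟨v, hv⟩ : ∃ v, h v ≠ 0 := by
    by_contra hcon
    push Not at hcon
    exact hh (LinearMap.ext hcon)
  obtain ⟨f, hf⟩ := Module.Projective.exists_dual_ne_zero ℂ hv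
  obtain ⟨z, hz⟩ : ∃ z : Module.End ℂ V, z = f.smulRight v := ⟨_, rfl⟩
  have hzh : LinearMap.trace ℂ V (z * h) = f (h v) := by
    have : z * h = (f.comp h).smulRight v := by
      ext x; rw [hz]; rfl
    rw [this, LinearMap.trace_smulRight]; rfl
  have hw : ∀ w : V, QQ (fun k => r k) a b z (z * h) w = (f (h v)) ^ 2 • w := by
    intro w
    obtain ⟨x, hx⟩ : ∃ x : Module.End ℂ V, x = (f.comp h).smulRight w := ⟨_, rfl⟩
    have e1 : ∀ k, f (h (tws (a k) (b k) z w)) = r.repr x k * f (h v) := by
      intro k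
      rw [← hzh, ← tr_tws r a b h hab k x z]
      rw [LinearMap.trace_mul_comm]
      have : tws (a k) (b k) z * x = (f.comp h).smulRight (tws (a k) (b k) z w) := by
        ext y; rw [hx]; simp
      rw [this, LinearMap.trace_smulRight]; rfl
    have e2 : QQ (fun k => r k) a b z (z * h) w
        = ∑ k, f (h (tws (a k) (b k) z w)) • r k v := by
      unfold QQ
      rw [LinearMap.sum_apply]
      refine Finset.sum_congr rfl fun k _ => ?_
      have e5 : ((fun k => r k) k * (z * h) * tws (a k) (b k) z) w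
          = r k (z (h (tws (a k) (b k) z w))) := rfl
      have e6 : ∀ y, z y = f y • v := fun y => by rw [hz]; rfl
      rw [e5, e6, map_smul]
    have e3 : ∑ k, r.repr x k • r k v = x v := by
      have e7 : (∑ k, r.repr x k • r k) v = x v := by rw [r.sum_repr x]
      rw [← e7, LinearMap.sum_apply]
      rfl
    rw [e2]
    simp only [e1]
    have e4 : ∑ k, (r.repr x k * f (h v)) • r k v = f (h v) • ∑ k, r.repr x k • r k v := by
      rw [Finset.smul_sum]
      exact Finset.sum_congr rfl fun k _ => by rw [smul_smul, mul_comm]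
    rw [e4, e3, hx]
    simp [smul_smul, sq]
  refine ⟨z, fun h0 => ?_⟩
  have hv0 : v ≠ 0 := by
    intro h1; rw [h1, map_zero] at hv; exact hv rfl
  have h2 := hw v
  rw [h0, LinearMap.zero_apply] at h2
  rcases smul_eq_zero.1 h2.symm with h3 | h3
  · exact hf (pow_eq_zero_iff (two_ne_zero) |>.1 h3)
  · exact hv0 h3

end ACG
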