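import Pool.Agent.ACG.Qa
import Pool.Agent.ACG.Qb
import Pool.Agent.ACG.Qc2
import Pool.Agent.ACG.Qd1

set_option autoImplicit false

/-!
QE: a domain with a polynomial identity is, up to a nonzero factor, finitely generated over
central elements, with coefficients given by two-sided multiplications.
-/

namespace ACG

open Module

section
variable {S : Type} [Ring S] [Algebra ℂ S]

/-- the elements of the subalgebra which lie in the ideal -/
def IU (R : Submodule ℂ S) (U : Subalgebra ℂ S) : Set U := {u | (u : S) ∈ R}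

theorem rank_U (T : Set S) (hT : T.Finite) :
    Module.rank ℂ (Algebra.adjoin ℂ T) ≤ Cardinal.aleph0 := by
  refine (Algebra.rank_adjoin_le T).trans (max_le ?_ le_rfl)
  exact hT.countable.le_aleph0

theorem prod_kill {U V : Type} [Ring U] [AddCommGroup V] [Module U V] (l : List U) (a : U)
    (ha : a ∈ l) (h : ∀ v : V, a • v = 0) (v : V) : l.prod • v = 0 := by
  induction l generalizing v with
  | nil => simp at ha
  | cons b l ih =>
    rw [List.prod_cons, mul_smul]
    rcases List.mem_cons.1 ha with rfl | h1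
    · exact h _
    · rw [ih h1, smul_zero]

theorem list_prod_ne {U : Type} [Ring U] [NoZeroDivisors U] [Nontrivial U] (l : List U)
    (h : ∀ a ∈ l, a ≠ 0) : l.prod ≠ 0 := by
  induction l with
  | nil => simp
  | cons b l ih =>
    rw [List.prod_cons]
    exact mul_ne_zero (h b (by simp)) (ih fun a ha => h a (by simp [ha]))

/-- maximal left ideals `M` with `U / M` not killed by `I` and of dimension `m` -/
structure Good (R : Submodule ℂ S) (U : Subalgebra ℂ S) (m : ℕ) (M : Ideal U) : Prop where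
  mx : M.IsMaximal
  act : ∃ x ∈ IU R U, ∃ v : U ⧸ M, x • v ≠ 0
  fin : FiniteDimensional ℂ (U ⧸ M)
  rk : Module.finrank ℂ (U ⧸ M) = m

theorem Good.simple {R : Submodule ℂ S} {U : Subalgebra ℂ S} {m : ℕ} {M : Ideal U}
    (h : Good R U m M) : IsSimpleModule U (U ⧸ M) :=
  isSimpleModule_iff_isCoatom.2 (Ideal.isMaximal_def.1 h.mx)

theorem quot_schur {U : Type} [Ring U] [Algebra ℂ U] (hU : Module.rank ℂ U ≤ Cardinal.aleph0)
    (M : Ideal U) (hM : M.IsMaximal) (T : Module.End U (U ⧸ M)) :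
    ∃ m : ℂ, ∀ v, T v = m • v := by
  have : IsSimpleModule U (U ⧸ M) := isSimpleModule_iff_isCoatom.2 (Ideal.isMaximal_def.1 hM)
  refine schur ?_ T
  refine le_trans ?_ hU
  exact LinearMap.rank_le_of_surjective ((Submodule.mkQ M).restrictScalars ℂ)
    (Submodule.mkQ_surjective M)

end

section
variable {S : Type} [Ring S] [Algebra ℂ S] [NoZeroDivisors S] [Nontrivial S]
    (R : Submodule ℂ S) (hl : ∀ a : S, ∀ x ∈ R, a * x ∈ R) (hr : ∀ x ∈ R, ∀ a : S, x * a ∈ R)

include hl hr in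
theorem claimA (d : ℕ) (al : Equiv.Perm (Fin d) → ℂ) (hal : ∃ s, al s ≠ 0)
    (hid : ∀ x : Fin d → S, (∀ i, x i ∈ R) →
      ∑ s, al s • (List.ofFn fun i => x (s i)).prod = 0)
    (T : Set S) (hT : T.Finite) (h0 : ∃ x ∈ R, x ≠ 0 ∧ x ∈ T) :
    ∃ m, m ≤ d ∧ ∀ p : Algebra.adjoin ℂ T, p ≠ 0 →
      ∃ M : Ideal (Algebra.adjoin ℂ T), Good R (Algebra.adjoin ℂ T) m M ∧
        ∃ v : Algebra.adjoin ℂ T ⧸ M, p • v ≠ 0 := by
  classical
  set U : Subalgebra ℂ S := Algebra.adjoin ℂ T with hU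
  have hrk : Module.rank ℂ U ≤ Cardinal.aleph0 := rank_U T hT
  obtain ⟨r0, hr0, hr0', hr0T⟩ := h0
  let r1 : U := ⟨r0, Algebra.subset_adjoin hr0T⟩
  have hr1 : r1 ≠ 0 := fun h => hr0' (congrArg Subtype.val h)
  have hIl : ∀ a : U, ∀ x ∈ IU R U, a * x ∈ IU R U := fun a x hx => hl _ _ hx
  have hIr : ∀ x ∈ IU R U, ∀ a : U, x * a ∈ IU R U := fun x hx a => hr _ hx _
  have hidU : ∀ x : Fin d → U, (∀ i, x i ∈ IU R U) →
      ∑ s, al s • (List.ofFn fun i => x (s i)).prod = 0 := by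
    intro x hx
    apply Subtype.ext
    have h1 := hid (fun i => (x i : S)) hx
    rw [ZeroMemClass.coe_zero, ← h1, AddSubmonoidClass.coe_finsetSum]
    refine Finset.sum_congr rfl fun s _ => ?_
    have h2 : (((List.ofFn fun i => x (s i)).prod : U) : S) =
        (List.ofFn fun i => (x (s i) : S)).prod := by
      have := map_list_prod U.val (List.ofFn fun i => x (s i))
      rw [List.map_ofFn] at this
      exact this
    rw [← h2]
    rfl
  by_contra hcon
  push Not at hcon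
  choose p hp0 hp using fun m : Fin (d + 1) => hcon m.1 (Nat.lt_succ_iff.1 m.2)
  have hq : (List.ofFn p).prod * r1 ≠ 0 := by
    refine mul_ne_zero (list_prod_ne _ fun a ha => ?_) hr1
    obtain ⟨i, rfl⟩ := (List.mem_ofFn' _ _).1 ha
    exact hp0 i
  obtain ⟨M, hM, hMq⟩ := jac hrk _ hq
  have : IsSimpleModule U (U ⧸ M) := isSimpleModule_iff_isCoatom.2 (Ideal.isMaximal_def.1 hM)
  have hs := quot_schur hrk M hM
  let v0 : U ⧸ M := Submodule.Quotient.mk 1
  have hv0 : (List.ofFn p).prod • (r1 • v0) ≠ 0 := by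
    rw [← mul_smul]
    intro h
    apply hMq
    have h1 : ((List.ofFn p).prod * r1) • v0 =
        (Submodule.Quotient.mk ((List.ofFn p).prod * r1) : U ⧸ M) := by
      show (Submodule.Quotient.mk (((List.ofFn p).prod * r1) • (1 : U)) : U ⧸ M) = _
      rw [smul_eq_mul, mul_one]
    rw [h1] at h
    exact (Submodule.Quotient.mk_eq_zero M).1 h
  have hact : ∃ x ∈ IU R U, ∃ v : U ⧸ M, x • v ≠ 0 := by
    refine ⟨r1, hr0, v0, fun h => hv0 ?_⟩
    rw [h, smul_zero]
  obtain ⟨hfin, hfr⟩ := pi_bound hs (IU R U) hIl hIr hact d al hal hidU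
  have hgood : Good R U (Module.finrank ℂ (U ⧸ M)) M := ⟨hM, hact, hfin, rfl⟩
  apply hv0
  refine prod_kill _ (p ⟨Module.finrank ℂ (U ⧸ M), Nat.lt_succ_iff.2 hfr⟩) ?_ ?_ _
  · rw [List.mem_ofFn']
    exact ⟨_, rfl⟩
  · exact hp ⟨Module.finrank ℂ (U ⧸ M), Nat.lt_succ_iff.2 hfr⟩ M hgood

end

section
variable {S : Type} [Ring S] [Algebra ℂ S] {R : Submodule ℂ S}
  (hl : ∀ a : S, ∀ x ∈ R, a * x ∈ R) (hr : ∀ x ∈ R, ∀ a : S, x * a ∈ R)

/-- the representation -/
noncomputable def rho {U : Type} [Ring U] [Algebra ℂ U] (M : Ideal U) :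
    U →ₐ[ℂ] Module.End ℂ (U ⧸ M) := Algebra.lsmul ℂ ℂ (U ⧸ M)

theorem rho_apply {U : Type} [Ring U] [Algebra ℂ U] (M : Ideal U) (u : U) (v : U ⧸ M) :
    rho M u v = u • v := rfl

theorem exists_basis (V : Type) [AddCommGroup V] [Module ℂ V] [FiniteDimensional ℂ V] (m : ℕ)
    (hm : Module.finrank ℂ V = m) : Nonempty (Module.Basis (Fin m) ℂ V) :=
  ⟨Module.finBasisOfFinrankEq ℂ V hm⟩

include hl hr in
theorem Good.unit {T : Set S} (hT : T.Finite) {m : ℕ} {M : Ideal (Algebra.adjoin ℂ T)}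
    (h : Good R (Algebra.adjoin ℂ T) m M)
    (e : Module.Basis (Fin m) ℂ (Algebra.adjoin ℂ T ⧸ M)) (j : Fin m)
    (w : Algebra.adjoin ℂ T ⧸ M) :
    ∃ x ∈ IU R (Algebra.adjoin ℂ T), x • e j = w ∧ ∀ k, k ≠ j → x • e k = 0 := by
  have := h.simple
  exact RO (quot_schur (rank_U T hT) M h.mx) (IU R _) (fun a x hx => hl _ _ hx)
    (fun x hx a => hr _ hx _) h.act (fun i => e i) e.linearIndependent j w

include hl hr in
theorem Good.surj {T : Set S} (hT : T.Finite) {m : ℕ} {M : Ideal (Algebra.adjoin ℂ T)}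
    (h : Good R (Algebra.adjoin ℂ T) m M) (f : Module.End ℂ (Algebra.adjoin ℂ T ⧸ M)) :
    ∃ x ∈ IU R (Algebra.adjoin ℂ T), rho M x = f := by
  classical
  have := h.fin
  obtain ⟨e⟩ := exists_basis _ m h.rk
  choose x hx hx1 hx2 using fun j => h.unit hl hr hT e j (f (e j))
  refine ⟨∑ j, x j, ?_, ?_⟩
  · show ((∑ j, x j : Algebra.adjoin ℂ T) : S) ∈ R
    rw [AddSubmonoidClass.coe_finsetSum]
    exact R.sum_mem fun j _ => hx j
  · apply e.ext
    intro k
    rw [rho_apply, Finset.sum_smul, Finset.sum_eq_single k]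
    · exact hx1 k
    · intro j _ hjk
      exact hx2 j k (Ne.symm hjk)
    · intro hk
      exact absurd (Finset.mem_univ k) hk

end

section
variable {S : Type} [Ring S] [Algebra ℂ S] [NoZeroDivisors S] [Nontrivial S]
    (R : Submodule ℂ S)

/-- the Capelli polynomial of order `m ^ 2` does not vanish on `R` -/
def NV (m : ℕ) : Prop := ∃ (x : Fin (m * m) → S) (y : Fin (m * m + 1) → S), (∀ i, x i ∈ R) ∧
  (∀ i, y i ∈ R) ∧ cap x y ≠ 0

omit [NoZeroDivisors S] [Nontrivial S] in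
theorem NV_zero (h0 : ∃ x ∈ R, x ≠ 0) : NV R 0 := by
  obtain ⟨x, hx, hx0⟩ := h0
  refine ⟨fun _ => x, fun _ => x, fun _ => hx, fun _ => hx, ?_⟩
  have : cap (fun _ : Fin (0 * 0) => x) (fun _ => x) = x := by
    unfold cap
    simp
  rw [this]
  exact hx0


theorem cap_coe {S : Type} [Ring S] [Algebra ℂ S] (U : Subalgebra ℂ S) {N : ℕ} (x : Fin N → U)
    (y : Fin (N + 1) → U) :
    ((cap x y : U) : S) = cap (fun i => (x i : S)) (fun i => (y i : S)) :=
  cap_map (U.val : U →+* S) x y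

omit [NoZeroDivisors S] [Nontrivial S] in
theorem Good.NV (hl : ∀ a : S, ∀ x ∈ R, a * x ∈ R) (hr : ∀ x ∈ R, ∀ a : S, x * a ∈ R) {T : Set S}
    (hT : T.Finite) {m : ℕ} {M : Ideal (Algebra.adjoin ℂ T)}
    (h : Good R (Algebra.adjoin ℂ T) m M) (hm : 0 < m) : NV R m := by
  classical
  have := h.fin
  have := h.simple
  obtain ⟨e⟩ := exists_basis _ m h.rk
  obtain ⟨x, y, hx, hy, v, hv⟩ := cap_ne (V := Algebra.adjoin ℂ T ⧸ M)
    (IU R (Algebra.adjoin ℂ T)) m hm (fun i => e i)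
    (fun i => e.ne_zero i) (fun i j => h.unit hl hr hT e j (e i))
  refine ⟨fun i => (x i : S), fun i => (y i : S), hx, hy, fun h0 => hv ?_⟩
  have h1 : cap x y = 0 := by
    apply Subtype.ext
    rw [cap_coe, h0]
    rfl
  rw [h1, zero_smul]

omit [NoZeroDivisors S] [Nontrivial S] in
theorem Good.indep {T : Set S} {m : ℕ} {M : Ideal (Algebra.adjoin ℂ T)}
    (h : Good R (Algebra.adjoin ℂ T) m M) {N : ℕ} (x : Fin N → Algebra.adjoin ℂ T)
    (y : Fin (N + 1) → Algebra.adjoin ℂ T) (hxy : rho M (cap x y) ≠ 0) :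
    LinearIndependent ℂ (fun i => rho M (x i)) := by
  by_contra hcon
  apply hxy
  have h1 := cap_map (rho M : Algebra.adjoin ℂ T →+* Module.End ℂ (Algebra.adjoin ℂ T ⧸ M)) x y
  have h2 := cap_dep (fun i => rho M (x i)) (fun i => rho M (y i)) hcon
  exact h1.trans h2

omit [NoZeroDivisors S] [Nontrivial S] in
theorem Good.le {T : Set S} {m : ℕ} {M : Ideal (Algebra.adjoin ℂ T)}
    (h : Good R (Algebra.adjoin ℂ T) m M) {m' : ℕ} (x : Fin (m' * m') → Algebra.adjoin ℂ T)
    (y : Fin (m' * m' + 1) → Algebra.adjoin ℂ T) (hxy : rho M (cap x y) ≠ 0) : m' ≤ m := by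
  have := h.fin
  have h1 := (h.indep R x y hxy).fintype_card_le_finrank
  rw [Fintype.card_fin, Module.finrank_linearMap, h.rk] at h1
  by_contra hlt
  push Not at hlt
  nlinarith

/-- the key statement: a polynomial identity of the components holds -/
theorem key_zero (hl : ∀ a : S, ∀ x ∈ R, a * x ∈ R) (hr : ∀ x ∈ R, ∀ a : S, x * a ∈ R)
    (d : ℕ) (al : Equiv.Perm (Fin d) → ℂ) (hal : ∃ s, al s ≠ 0)
    (hid : ∀ x : Fin d → S, (∀ i, x i ∈ R) →
      ∑ s, al s • (List.ofFn fun i => x (s i)).prod = 0) (m : ℕ)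
    (hm : ∀ k, m < k → k ≤ d → ¬ NV R k)
    (r : Fin (m * m) → S) (y : Fin (m * m + 1) → S)
    (hry : cap r y ≠ 0) (T : Set S) (hT : T.Finite) (hrT : ∀ i, r i ∈ T) (hyT : ∀ i, y i ∈ T)
    (h0 : ∃ x ∈ R, x ≠ 0 ∧ x ∈ T) (p : Algebra.adjoin ℂ T) (hp : p ≠ 0) :
    ∃ M : Ideal (Algebra.adjoin ℂ T), Good R (Algebra.adjoin ℂ T) m M ∧ rho M p ≠ 0 ∧
      rho M (cap (fun i => (⟨r i, Algebra.subset_adjoin (hrT i)⟩ : Algebra.adjoin ℂ T))
        (fun i => ⟨y i, Algebra.subset_adjoin (hyT i)⟩)) ≠ 0 := by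
  obtain ⟨m', hm'd, hm'⟩ := claimA R hl hr d al hal hid T hT h0
  set h : Algebra.adjoin ℂ T :=
    cap (fun i => (⟨r i, Algebra.subset_adjoin (hrT i)⟩ : Algebra.adjoin ℂ T))
        (fun i => ⟨y i, Algebra.subset_adjoin (hyT i)⟩) with hh
  have hcoe : (h : S) = cap r y := cap_coe _ _ _
  have h0' : h ≠ 0 := by
    intro h1
    apply hry
    rw [← hcoe, h1]
    rfl
  obtain ⟨M, hM, v, hv⟩ := hm' (h * p) (mul_ne_zero h0' hp)
  have hhp : rho M h * rho M p ≠ 0 := by
    intro h1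
    apply hv
    rw [← map_mul] at h1
    have := congrArg (fun f => f v) h1
    exact this
  have hph : rho M p ≠ 0 := fun h1 => hhp (by rw [h1, mul_zero])
  have hhh : rho M h ≠ 0 := fun h1 => hhp (by rw [h1, zero_mul])
  have hle : m ≤ m' := hM.le R _ _ hhh
  have hme : m = m' := by
    by_contra hne
    have hlt : m < m' := lt_of_le_of_ne hle hne
    exact hm m' hlt hm'd (hM.NV R hl hr hT (by omega))
  subst hme
  exact ⟨M, hM, hph, hhh⟩

end

section
variable {S : Type} [Ring S] [Algebra ℂ S] {R : Submodule ℂ S}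

theorem QQ_map {U U' : Type} [Ring U] [Ring U'] (f : U →+* U') {N n : ℕ} (r : Fin N → U)
    (a b : Fin N → Fin n → U) (z z' : U) :
    f (QQ r a b z z') = QQ (fun k => f (r k)) (fun k j => f (a k j)) (fun k j => f (b k j)) (f z)
      (f z') := by
  unfold QQ tws
  simp only [map_sum, map_mul]

theorem tws_map {U U' : Type} [Ring U] [Ring U'] (f : U →+* U') {n : ℕ}
    (a b : Fin n → U) (z : U) :
    f (tws a b z) = tws (fun j => f (a j)) (fun j => f (b j)) (f z) := by
  unfold tws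
  simp only [map_sum, map_mul]

/-- data in a component -/
theorem comp_basis {T : Set S} {m : ℕ} {M : Ideal (Algebra.adjoin ℂ T)}
    (h : Good R (Algebra.adjoin ℂ T) m M) (r : Fin (m * m) → Algebra.adjoin ℂ T)
    (y : Fin (m * m + 1) → Algebra.adjoin ℂ T) (hry : rho M (cap r y) ≠ 0) (n : ℕ)
    (a b : Fin (m * m) → Fin n → Algebra.adjoin ℂ T)
    (hab : ∀ k l, cap (Function.update r k (r l)) y = ∑ j, a k j * r l * b k j) :
    ∃ e : Module.Basis (Fin (m * m)) ℂ (Module.End ℂ (Algebra.adjoin ℂ T ⧸ M)),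
      (∀ k, e k = rho M (r k)) ∧ ∀ k x, ∑ j, rho M (a k j) * x * rho M (b k j) =
        e.repr x k • rho M (cap r y) := by
  have := h.fin
  have hind := h.indep R r y hry
  have hcard : Fintype.card (Fin (m * m)) =
      Module.finrank ℂ (Module.End ℂ (Algebra.adjoin ℂ T ⧸ M)) := by
    rw [Fintype.card_fin, Module.finrank_linearMap, h.rk]
  rcases Nat.eq_zero_or_pos m with rfl | hm
  · exfalso
    apply hry
    have : Subsingleton (Algebra.adjoin ℂ T ⧸ M) := Module.finrank_zero_iff.1 h.rk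
    apply LinearMap.ext
    intro v
    exact Subsingleton.elim _ _
  have : Nonempty (Fin (m * m)) := ⟨⟨0, Nat.mul_pos hm hm⟩⟩
  let e := basisOfLinearIndependentOfCardEqFinrank hind hcard
  have he : ∀ k, e k = rho M (r k) := fun k => by
    show (basisOfLinearIndependentOfCardEqFinrank hind hcard) k = _
    rw [coe_basisOfLinearIndependentOfCardEqFinrank]
  refine ⟨e, he, fun k x => ?_⟩
  -- linear in `x`, check on the basis
  let f : Module.End ℂ (Algebra.adjoin ℂ T ⧸ M) →ₗ[ℂ] Module.End ℂ (Algebra.adjoin ℂ T ⧸ M) :=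
    { toFun := fun x => ∑ j, rho M (a k j) * x * rho M (b k j)
      map_add' := fun x x' => by
        simp only [mul_add, add_mul, Finset.sum_add_distrib]
      map_smul' := fun c x => by
        simp only [mul_smul_comm, smul_mul_assoc, Finset.smul_sum, RingHom.id_apply] }
  let g : Module.End ℂ (Algebra.adjoin ℂ T ⧸ M) →ₗ[ℂ] Module.End ℂ (Algebra.adjoin ℂ T ⧸ M) :=
    { toFun := fun x => e.repr x k • rho M (cap r y)
      map_add' := fun x x' => by
        rw [map_add, Finsupp.add_apply, add_smul]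
      map_smul' := fun c x => by
        rw [map_smul, Finsupp.smul_apply, smul_assoc, RingHom.id_apply] }
  have hfg : f = g := by
    apply e.ext
    intro l
    show ∑ j, rho M (a k j) * e l * rho M (b k j) = e.repr (e l) k • rho M (cap r y)
    have h1 : ∑ j, rho M (a k j) * e l * rho M (b k j) =
        rho M (cap (Function.update r k (r l)) y) := by
      rw [hab, map_sum, he]
      refine Finset.sum_congr rfl fun j _ => ?_
      rw [map_mul, map_mul]
    have h2 := cap_map (rho M : Algebra.adjoin ℂ T →+*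
      Module.End ℂ (Algebra.adjoin ℂ T ⧸ M)) (Function.update r k (r l)) y
    have h3 := cap_map (rho M : Algebra.adjoin ℂ T →+*
      Module.End ℂ (Algebra.adjoin ℂ T ⧸ M)) r y
    have h4 := cap_update e (fun i => rho M (y i)) k (e l)
    rw [h1]
    refine h2.trans ?_
    have h5 : (fun i => (rho M : Algebra.adjoin ℂ T →+* Module.End ℂ (Algebra.adjoin ℂ T ⧸ M))
        (Function.update r k (r l) i)) = Function.update (fun i => e i) k (e l) := by
      funext i
      by_cases hik : i = k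
      · subst hik
        rw [Function.update_self, Function.update_self, he]
        rfl
      · rw [Function.update_of_ne hik, Function.update_of_ne hik, he]
        rfl
    rw [h5]
    refine h4.trans ?_
    congr 1
    refine Eq.trans ?_ h3.symm
    congr 1
    funext i
    rw [he]
    rfl
  exact congrArg (fun F => F x) hfg

end

section
variable {S : Type} [Ring S] [Algebra ℂ S] [NoZeroDivisors S] [Nontrivial S]

/-- main algebraic theorem, with given parameters -/
theorem AT2 (R : Submodule ℂ S) (hl : ∀ a : S, ∀ x ∈ R, a * x ∈ R)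
    (hr : ∀ x ∈ R, ∀ a : S, x * a ∈ R)
    (h0 : ∃ x ∈ R, x ≠ 0) (d : ℕ) (al : Equiv.Perm (Fin d) → ℂ) (hal : ∃ s, al s ≠ 0)
    (hid : ∀ x : Fin d → S, (∀ i, x i ∈ R) →
      ∑ s, al s • (List.ofFn fun i => x (s i)).prod = 0) (m : ℕ)
    (hmax : ∀ k, m < k → k ≤ d → ¬ NV R k) (r : Fin (m * m) → S) (y : Fin (m * m + 1) → S)
    (n : ℕ) (a b : Fin (m * m) → Fin n → S)
    (hab : ∀ k x, cap (Function.update r k x) y = ∑ j, a k j * x * b k j)
    (hry : cap r y ≠ 0) :
    (∃ z ∈ R, QQ r a b z (z * cap r y) ≠ 0) ∧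
    (∀ z u g : S, QQ r a b z u * g = g * QQ r a b z u) ∧
    (∀ z z' x : S, QQ r a b z (z' * cap r y) * x =
      ∑ k, QQ r a b z (x * tws (a k) (b k) z') * r k) := by
  classical
  obtain ⟨r0, hr0, hr00⟩ := h0
  set h : S := cap r y with hh
  -- the general principle
  have main : ∀ (T : Set S) (hT : T.Finite) (hrT : ∀ i, r i ∈ T) (hyT : ∀ i, y i ∈ T)
      (haT : ∀ k j, a k j ∈ T) (hbT : ∀ k j, b k j ∈ T) (h0T : r0 ∈ T)
      (p : Algebra.adjoin ℂ T), p ≠ 0 →
      ∃ M : Ideal (Algebra.adjoin ℂ T), Good R (Algebra.adjoin ℂ T) m M ∧ rho M p ≠ 0 ∧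
        ∃ (r1 : Fin (m * m) → Algebra.adjoin ℂ T) (a1 b1 : Fin (m * m) → Fin n →
          Algebra.adjoin ℂ T) (h1 : Algebra.adjoin ℂ T)
          (e : Module.Basis (Fin (m * m)) ℂ (Module.End ℂ (Algebra.adjoin ℂ T ⧸ M))),
          (∀ i, (r1 i : S) = r i) ∧ (∀ k j, (a1 k j : S) = a k j) ∧
          (∀ k j, (b1 k j : S) = b k j) ∧ (h1 : S) = h ∧ rho M h1 ≠ 0 ∧
          (∀ k, e k = rho M (r1 k)) ∧ ∀ k x, ∑ j, rho M (a1 k j) * x * rho M (b1 k j) =
            e.repr x k • rho M h1 := by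
    intro T hT hrT hyT haT hbT h0T p hp
    obtain ⟨M, hM, hpM, hhM⟩ := key_zero R hl hr d al hal hid m hmax r y hry T hT hrT hyT
      ⟨r0, hr0, hr00, h0T⟩ p hp
    have hcoe : ((cap (fun i => (⟨r i, Algebra.subset_adjoin (hrT i)⟩ : Algebra.adjoin ℂ T))
        (fun i => ⟨y i, Algebra.subset_adjoin (hyT i)⟩) : Algebra.adjoin ℂ T) : S) = h :=
      cap_coe _ _ _
    obtain ⟨e, he1, he2⟩ := comp_basis hM
      (fun i => (⟨r i, Algebra.subset_adjoin (hrT i)⟩ : Algebra.adjoin ℂ T))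
      (fun i => ⟨y i, Algebra.subset_adjoin (hyT i)⟩) hhM n
      (fun k j => ⟨a k j, Algebra.subset_adjoin (haT k j)⟩)
      (fun k j => ⟨b k j, Algebra.subset_adjoin (hbT k j)⟩) (fun k l => by
        apply Subtype.ext
        rw [cap_coe, AddSubmonoidClass.coe_finsetSum]
        have h1 := hab k (r l)
        rw [← Function.update_eq_self k r] at h1
        simp only [Function.update_eq_self] at h1
        refine Eq.trans ?_ h1
        congr 1
        funext i
        by_cases hik : i = k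
        · subst hik
          rw [Function.update_self, Function.update_self]
        · rw [Function.update_of_ne hik, Function.update_of_ne hik])
    exact ⟨M, hM, hpM, _, _, _, _, e, fun i => rfl, fun k j => rfl, fun k j => rfl, hcoe, hhM,
      he1, he2⟩
  -- the finite set of parameters
  set T0 : Set S := Set.range r ∪ Set.range y ∪ Set.range (fun q : Fin (m * m) × Fin n => a q.1 q.2)
    ∪ Set.range (fun q : Fin (m * m) × Fin n => b q.1 q.2) ∪ {r0} with hT0
  have hT0f : T0.Finite := by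
    refine ((((Set.finite_range _).union (Set.finite_range _)).union
      (Set.finite_range _)).union (Set.finite_range _)).union (Set.finite_singleton _)
  have hrT : ∀ i, r i ∈ T0 := fun i => Or.inl (Or.inl (Or.inl (Or.inl ⟨i, rfl⟩)))
  have hyT : ∀ i, y i ∈ T0 := fun i => Or.inl (Or.inl (Or.inl (Or.inr ⟨i, rfl⟩)))
  have haT : ∀ k j, a k j ∈ T0 := fun k j => Or.inl (Or.inl (Or.inr ⟨(k, j), rfl⟩))
  have hbT : ∀ k j, b k j ∈ T0 := fun k j => Or.inl (Or.inr ⟨(k, j), rfl⟩)
  have h0T : r0 ∈ T0 := Or.inr rfl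
  refine ⟨?_, ?_, ?_⟩
  · obtain ⟨M, hM, -, r1, a1, b1, h1, e, hr1, ha1, hb1, hh1, hh1M, he1, he2⟩ :=
      main T0 hT0f hrT hyT haT hbT h0T 1 one_ne_zero
    have := hM.fin
    obtain ⟨z2, hz2⟩ := dual_ne e _ _ (rho M h1) he2 hh1M
    obtain ⟨z1, hz1, hz1'⟩ := hM.surj hl hr hT0f z2
    refine ⟨(z1 : S), hz1, fun hcon => hz2 ?_⟩
    have h2 : QQ r1 a1 b1 z1 (z1 * h1) = 0 := by
      apply Subtype.ext
      have h3 := QQ_map ((Algebra.adjoin ℂ T0).val : Algebra.adjoin ℂ T0 →+* S) r1 a1 b1 z1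
        (z1 * h1)
      have h4 : (fun k => ((Algebra.adjoin ℂ T0).val : Algebra.adjoin ℂ T0 →+* S) (r1 k)) = r :=
        funext hr1
      have h5 : (fun k j => ((Algebra.adjoin ℂ T0).val : Algebra.adjoin ℂ T0 →+* S) (a1 k j)) =
          a := funext fun k => funext (ha1 k)
      have h6 : (fun k j => ((Algebra.adjoin ℂ T0).val : Algebra.adjoin ℂ T0 →+* S) (b1 k j)) =
          b := funext fun k => funext (hb1 k)
      rw [h4, h5, h6] at h3
      refine h3.trans ?_
      rw [map_mul]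
      have h7 : ((Algebra.adjoin ℂ T0).val : Algebra.adjoin ℂ T0 →+* S) h1 = h := hh1
      rw [h7]
      exact hcon
    have h8 := QQ_map (rho M : Algebra.adjoin ℂ T0 →+*
      Module.End ℂ (Algebra.adjoin ℂ T0 ⧸ M)) r1 a1 b1 z1 (z1 * h1)
    rw [h2, map_zero, map_mul] at h8
    have h9 : (rho M : Algebra.adjoin ℂ T0 →+*
      Module.End ℂ (Algebra.adjoin ℂ T0 ⧸ M)) z1 = z2 := hz1'
    rw [h9] at h8
    have h10 : (fun k => e k) = fun k => (rho M : Algebra.adjoin ℂ T0 →+*
      Module.End ℂ (Algebra.adjoin ℂ T0 ⧸ M)) (r1 k) := funext he1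
    rw [h10]
    exact h8.symm
  · -- central
    intro z u g
    by_contra hne
    set T : Set S := T0 ∪ {z, u, g} with hTdef
    have hTf : T.Finite := hT0f.union (by simp)
    have hzT : z ∈ T := Or.inr (by simp)
    have hxT : u ∈ T := Or.inr (by simp)
    have hgT : g ∈ T := Or.inr (by simp)
    let z1 : Algebra.adjoin ℂ T := ⟨z, Algebra.subset_adjoin hzT⟩
    let u1 : Algebra.adjoin ℂ T := ⟨u, Algebra.subset_adjoin hxT⟩
    let g1 : Algebra.adjoin ℂ T := ⟨g, Algebra.subset_adjoin hgT⟩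
    let r2 : Fin (m * m) → Algebra.adjoin ℂ T :=
      fun i => ⟨r i, Algebra.subset_adjoin (Or.inl (hrT i))⟩
    let a2 : Fin (m * m) → Fin n → Algebra.adjoin ℂ T :=
      fun k j => ⟨a k j, Algebra.subset_adjoin (Or.inl (haT k j))⟩
    let b2 : Fin (m * m) → Fin n → Algebra.adjoin ℂ T :=
      fun k j => ⟨b k j, Algebra.subset_adjoin (Or.inl (hbT k j))⟩
    let q : Algebra.adjoin ℂ T := QQ r2 a2 b2 z1 u1
    have hq : (q : S) = QQ r a b z u :=
      QQ_map ((Algebra.adjoin ℂ T).val : Algebra.adjoin ℂ T →+* S) r2 a2 b2 z1 u1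
    have hp : q * g1 - g1 * q ≠ 0 := by
      intro h1
      apply hne
      rw [← sub_eq_zero]
      have h2 := congrArg Subtype.val h1
      have h3 : ((q * g1 - g1 * q : Algebra.adjoin ℂ T) : S) = (q : S) * g - g * (q : S) := rfl
      rw [← hq, ← h3]
      exact h2
    obtain ⟨M, hM, hpM, r1, a1, b1, h1, e, hr1, ha1, hb1, hh1, hh1M, he1, he2⟩ :=
      main T hTf (fun i => Or.inl (hrT i)) (fun i => Or.inl (hyT i))
        (fun k j => Or.inl (haT k j)) (fun k j => Or.inl (hbT k j)) (Or.inl h0T) _ hp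
    have := hM.fin
    have hr2 : r1 = r2 := funext fun i => Subtype.ext (hr1 i)
    have ha2 : a1 = a2 := funext fun k => funext fun j => Subtype.ext (ha1 k j)
    have hb2 : b1 = b2 := funext fun k => funext fun j => Subtype.ext (hb1 k j)
    apply hpM
    rw [map_sub, map_mul, map_mul, sub_eq_zero]
    have h8 := QQ_map (rho M : Algebra.adjoin ℂ T →+*
      Module.End ℂ (Algebra.adjoin ℂ T ⧸ M)) r1 a1 b1 z1 u1
    have h9 : rho M q = QQ (fun k => e k) (fun k j => rho M (a1 k j)) (fun k j => rho M (b1 k j))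
        (rho M z1) (rho M u1) := by
      have h10 : (fun k => e k) = fun k => rho M (r1 k) := funext he1
      rw [h10]
      refine Eq.trans ?_ h8
      rw [hr2, ha2, hb2]
      rfl
    rw [h9]
    exact dual_central e _ _ (rho M h1) he2 _ _ _
  · -- expansion
    intro z z' x
    by_contra hne
    set T : Set S := T0 ∪ {z, z', x} with hTdef
    have hTf : T.Finite := hT0f.union (by simp)
    have hzT : z ∈ T := Or.inr (by simp)
    have hz'T : z' ∈ T := Or.inr (by simp)
    have hxT : x ∈ T := Or.inr (by simp)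
    let z1 : Algebra.adjoin ℂ T := ⟨z, Algebra.subset_adjoin hzT⟩
    let z3 : Algebra.adjoin ℂ T := ⟨z', Algebra.subset_adjoin hz'T⟩
    let x1 : Algebra.adjoin ℂ T := ⟨x, Algebra.subset_adjoin hxT⟩
    let r2 : Fin (m * m) → Algebra.adjoin ℂ T :=
      fun i => ⟨r i, Algebra.subset_adjoin (Or.inl (hrT i))⟩
    let y2 : Fin (m * m + 1) → Algebra.adjoin ℂ T :=
      fun i => ⟨y i, Algebra.subset_adjoin (Or.inl (hyT i))⟩
    let a2 : Fin (m * m) → Fin n → Algebra.adjoin ℂ T :=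
      fun k j => ⟨a k j, Algebra.subset_adjoin (Or.inl (haT k j))⟩
    let b2 : Fin (m * m) → Fin n → Algebra.adjoin ℂ T :=
      fun k j => ⟨b k j, Algebra.subset_adjoin (Or.inl (hbT k j))⟩
    let h2 : Algebra.adjoin ℂ T := cap r2 y2
    have hh2 : (h2 : S) = h := cap_coe _ _ _
    let w2 : Fin (m * m) → Algebra.adjoin ℂ T := fun k => tws (a2 k) (b2 k) z3
    have hw2 : ∀ k, (w2 k : S) = tws (a k) (b k) z' := fun k =>
      tws_map ((Algebra.adjoin ℂ T).val : Algebra.adjoin ℂ T →+* S) (a2 k) (b2 k) z3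
    let q : Algebra.adjoin ℂ T := QQ r2 a2 b2 z1 (z3 * h2)
    have hq : (q : S) = QQ r a b z (z' * h) := by
      have h3 := QQ_map ((Algebra.adjoin ℂ T).val : Algebra.adjoin ℂ T →+* S) r2 a2 b2 z1
        (z3 * h2)
      refine h3.trans ?_
      rw [map_mul]
      have h5 : ((Algebra.adjoin ℂ T).val : Algebra.adjoin ℂ T →+* S) h2 = h := hh2
      rw [h5]
      rfl
    let qk : Fin (m * m) → Algebra.adjoin ℂ T := fun k => QQ r2 a2 b2 z1 (x1 * w2 k)
    have hqk : ∀ k, (qk k : S) = QQ r a b z (x * tws (a k) (b k) z') := by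
      intro k
      have h3 := QQ_map ((Algebra.adjoin ℂ T).val : Algebra.adjoin ℂ T →+* S) r2 a2 b2 z1
        (x1 * w2 k)
      refine h3.trans ?_
      rw [map_mul]
      have h5 : ((Algebra.adjoin ℂ T).val : Algebra.adjoin ℂ T →+* S) (w2 k) =
          tws (a k) (b k) z' := hw2 k
      rw [h5]
      rfl
    have hp : q * x1 - ∑ k, qk k * r2 k ≠ 0 := by
      intro h1
      apply hne
      rw [← sub_eq_zero]
      have h2 := congrArg Subtype.val h1
      have h3 : ((q * x1 - ∑ k, qk k * r2 k : Algebra.adjoin ℂ T) : S) =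
          (q : S) * x - ∑ k, (qk k : S) * r k := by
        rw [AddSubgroupClass.coe_sub, AddSubmonoidClass.coe_finsetSum]
        rfl
      rw [h3, hq] at h2
      simp only [hqk] at h2
      exact h2
    obtain ⟨M, hM, hpM, r1, a1, b1, h1, e, hr1, ha1, hb1, hh1, hh1M, he1, he2⟩ :=
      main T hTf (fun i => Or.inl (hrT i)) (fun i => Or.inl (hyT i))
        (fun k j => Or.inl (haT k j)) (fun k j => Or.inl (hbT k j)) (Or.inl h0T) _ hp
    have := hM.fin
    have hr2 : r1 = r2 := funext fun i => Subtype.ext (hr1 i)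
    have ha2 : a1 = a2 := funext fun k => funext fun j => Subtype.ext (ha1 k j)
    have hb2 : b1 = b2 := funext fun k => funext fun j => Subtype.ext (hb1 k j)
    have hh12 : h1 = h2 := Subtype.ext (hh1.trans hh2.symm)
    apply hpM
    rw [map_sub, map_mul, map_sum, sub_eq_zero]
    have h10 : (fun k => e k) = fun k => rho M (r1 k) := funext he1
    have h9 : ∀ u, rho M (QQ r2 a2 b2 z1 u) = QQ (fun k => e k) (fun k j => rho M (a1 k j))
        (fun k j => rho M (b1 k j)) (rho M z1) (rho M u) := by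
      intro u
      have h8 := QQ_map (rho M : Algebra.adjoin ℂ T →+*
        Module.End ℂ (Algebra.adjoin ℂ T ⧸ M)) r1 a1 b1 z1 u
      rw [h10]
      refine Eq.trans ?_ h8
      rw [hr2, ha2, hb2]
      rfl
    have h11 := dual_expand e _ _ (rho M h1) he2 (rho M z1) (rho M z3) (rho M x1)
    have h12 : rho M q = QQ (fun k => e k) (fun k j => rho M (a1 k j))
        (fun k j => rho M (b1 k j)) (rho M z1) (rho M z3 * rho M h1) := by
      rw [h9, map_mul, hh12]
    have h13 : ∀ k, rho M (qk k * r2 k) = QQ (fun k => e k) (fun k j => rho M (a1 k j))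
        (fun k j => rho M (b1 k j)) (rho M z1) (rho M x1 * tws (fun j => rho M (a1 k j))
        (fun j => rho M (b1 k j)) (rho M z3)) * e k := by
      intro k
      rw [map_mul, h9, map_mul, he1, hr2]
      have h14 := tws_map (rho M : Algebra.adjoin ℂ T →+*
        Module.End ℂ (Algebra.adjoin ℂ T ⧸ M)) (a2 k) (b2 k) z3
      have h15 : rho M (w2 k) = tws (fun j => rho M (a1 k j))
        (fun j => rho M (b1 k j)) (rho M z3) := by
        rw [ha2, hb2]
        exact h14
      rw [h15]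
    rw [h12]
    simp only [h13]
    exact h11

theorem QQ_sum {U : Type} [Ring U] {N n : ℕ} (r : Fin N → U) (a b : Fin N → Fin n → U)
    (z x w : U) : ∑ j, r j * x * (w * tws (a j) (b j) z) = QQ r a b z (x * w) := by
  unfold QQ
  refine Finset.sum_congr rfl fun j _ => ?_
  simp only [mul_assoc]

/-- main algebraic theorem -/
theorem AT (R : Submodule ℂ S) (hl : ∀ a : S, ∀ x ∈ R, a * x ∈ R)
    (hr : ∀ x ∈ R, ∀ a : S, x * a ∈ R)
    (h0 : ∃ x ∈ R, x ≠ 0) (d : ℕ) (al : Equiv.Perm (Fin d) → ℂ) (hal : ∃ s, al s ≠ 0)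
    (hid : ∀ x : Fin d → S, (∀ i, x i ∈ R) →
      ∑ s, al s • (List.ofFn fun i => x (s i)).prod = 0) :
    ∃ (c : S) (N : ℕ) (r : Fin N → S) (n : ℕ) (a b : Fin N → Fin n → S), c ∈ R ∧ c ≠ 0 ∧
      (∀ k, r k ∈ R) ∧ (∀ k j, a k j ∈ R) ∧ (∀ k j, b k j ∈ R) ∧
      (∀ k, ∀ x ∈ R, ∀ g ∈ R, (∑ j, a k j * x * b k j) * g = g * ∑ j, a k j * x * b k j) ∧
      ∀ x ∈ R, c * x = ∑ k, (∑ j, a k j * x * b k j) * r k := by
  classical
  obtain ⟨r0, hr0, hr00⟩ := h0
  set m := Nat.findGreatest (NV R) d with hmdef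
  have hmNV : NV R m := Nat.findGreatest_spec (Nat.zero_le d) (NV_zero R ⟨r0, hr0, hr00⟩)
  have hmax : ∀ k, m < k → k ≤ d → ¬ NV R k := fun k h1 h2 =>
    Nat.findGreatest_is_greatest h1 h2
  obtain ⟨r, y, hrR, hyR, hry⟩ := hmNV
  obtain ⟨n, a, b, ha, hb, hab⟩ := cap_two R.toAddSubgroup (fun u x hx => hl u x hx)
    (fun x hx u => hr x hx u) r y hyR
  have haR : ∀ k j, a k j ∈ R := ha
  have hbR : ∀ k j, b k j ∈ R := hb
  obtain ⟨⟨z, hzR, hc0⟩, hcen, hexp⟩ := AT2 R hl hr ⟨r0, hr0, hr00⟩ d al hal hid m hmax r y n a b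
    hab hry
  have hwsR : ∀ k, tws (a k) (b k) z ∈ R := by
    intro k
    show ∑ j, b k j * z * a k j ∈ R
    exact R.sum_mem fun j _ => hl _ _ (haR k j)
  refine ⟨QQ r a b z (z * cap r y), m * m, r, m * m, fun _ j => r j,
    fun k j => tws (a k) (b k) z * tws (a j) (b j) z, ?_, hc0,
    hrR, fun _ j => hrR j, fun k j => hl _ _ (hwsR j), ?_, ?_⟩
  · exact R.sum_mem fun k _ => by
      rw [mul_assoc]
      exact hr _ (hrR k) _
  · intro k x hx g hg
    rw [QQ_sum]
    exact hcen z _ g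
  · intro x hx
    simp only [QQ_sum]
    exact hexp z z x

end

end ACG
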