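import Mathlib

set_option autoImplicit false

namespace ACG

/-! ### Qf -/
section
variable {B : Type} [NonUnitalRing B] [Module ℂ B] [IsScalarTower ℂ B B] [SMulCommClass ℂ B B]

/-- left action of the unitization -/
def actl (x : Unitization ℂ B) (b : B) : B := x.fst • b + x.snd * b

/-- right action of the unitization -/
def actr (b : B) (x : Unitization ℂ B) : B := x.fst • b + b * x.snd

theorem actl_mul (x y : Unitization ℂ B) (b : B) : actl (x * y) b = actl x (actl y b) := by
  unfold actl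
  simp only [Unitization.fst_mul, Unitization.snd_mul, smul_add, mul_add, add_mul,
    smul_mul_assoc, mul_smul_comm, mul_assoc, smul_smul]
  abel

omit [IsScalarTower ℂ B B] [SMulCommClass ℂ B B] in
theorem actl_add (x y : Unitization ℂ B) (b : B) : actl (x + y) b = actl x b + actl y b := by
  unfold actl
  simp only [Unitization.fst_add, Unitization.snd_add, add_smul, add_mul]
  abel

theorem mul_actl (c : B) (x : Unitization ℂ B) (b : B) : c * actl x b = actr c x * b := by
  unfold actl actr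
  simp only [mul_add, add_mul, smul_mul_assoc, mul_smul_comm, mul_assoc]

theorem actl_mulr (x : Unitization ℂ B) (b c : B) : actl x (b * c) = actl x b * c := by
  unfold actl
  simp only [add_mul, smul_mul_assoc, mul_assoc]

omit [IsScalarTower ℂ B B] [SMulCommClass ℂ B B] in
theorem actl_mem (P : Submodule ℂ B) (hl : ∀ b x : B, x ∈ P → b * x ∈ P) (x : Unitization ℂ B)
    {b : B} (hb : b ∈ P) : actl x b ∈ P :=
  P.add_mem (P.smul_mem _ hb) (hl _ _ hb)

/-- the ideal of the unitization -/
def P1 (P : Submodule ℂ B) (hl : ∀ b x : B, x ∈ P → b * x ∈ P) : Ideal (Unitization ℂ B) where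
  carrier := {x | ∀ b, actl x b ∈ P}
  add_mem' := by
    intro x y hx hy b
    rw [actl_add]
    exact P.add_mem (hx b) (hy b)
  zero_mem' := by
    intro b
    unfold actl
    simp
  smul_mem' := by
    intro y x hx b
    rw [smul_eq_mul, actl_mul]
    exact actl_mem P hl y (hx b)

theorem mem_P1 (P : Submodule ℂ B) (hl : ∀ b x : B, x ∈ P → b * x ∈ P)
    (x : Unitization ℂ B) : x ∈ P1 P hl ↔ ∀ b, actl x b ∈ P := Iff.rfl

theorem P1_two (P : Submodule ℂ B) (hl : ∀ b x : B, x ∈ P → b * x ∈ P) :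
    (P1 P hl).IsTwoSided := by
  constructor
  intro x y hx b
  rw [actl_mul]
  exact hx _

theorem P1_prime (P : Submodule ℂ B) (hl : ∀ b x : B, x ∈ P → b * x ∈ P)
    (hr : ∀ b x : B, x ∈ P → x * b ∈ P) (hp : ∀ x y : B, x * y ∈ P → x ∈ P ∨ y ∈ P)
    (x y : Unitization ℂ B) (h : x * y ∈ P1 P hl) : x ∈ P1 P hl ∨ y ∈ P1 P hl := by
  by_contra hc
  rw [not_or] at hc
  obtain ⟨h1, h2⟩ := hc
  rw [mem_P1, not_forall] at h2
  obtain ⟨b0, hb0⟩ := h2
  apply h1
  have h3 : ∀ c : B, actr c x ∈ P := by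
    intro c
    have h4 : c * actl (x * y) b0 ∈ P := hl _ _ (h b0)
    rw [actl_mul, mul_actl] at h4
    exact (hp _ _ h4).resolve_right hb0
  intro b
  have h5 : actl x b * actl x b ∈ P := by
    rw [← actl_mulr, mul_actl]
    exact actl_mem P hl x (hr _ _ (h3 b))
  rcases hp _ _ h5 with h6 | h6 <;> exact h6

end

theorem quot_dom {B : Type} [NonUnitalRing B] [Module ℂ B] [IsScalarTower ℂ B B]
    [SMulCommClass ℂ B B] (P : Submodule ℂ B) (hl : ∀ b x : B, x ∈ P → b * x ∈ P)
    (hr : ∀ b x : B, x ∈ P → x * b ∈ P) (hp : ∀ x y : B, x * y ∈ P → x ∈ P ∨ y ∈ P)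
    (hne : P ≠ ⊤) :
    ∃ (S : Type) (_ : Ring S) (_ : Algebra ℂ S) (q : Unitization ℂ B →ₐ[ℂ] S),
      Nontrivial S ∧ NoZeroDivisors S ∧ Function.Surjective q ∧
      ∀ b : B, q (b : Unitization ℂ B) = 0 ↔ b ∈ P := by
  have h2 := P1_two P hl
  refine ⟨Unitization ℂ B ⧸ P1 P hl, inferInstance, inferInstance,
    Ideal.Quotient.mkₐ ℂ (P1 P hl), ?_, ?_, ?_, ?_⟩
  · rw [Ideal.Quotient.nontrivial_iff, Ne, Ideal.eq_top_iff_one]
    intro h
    apply hne
    rw [eq_top_iff]
    intro b _
    have := h b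
    unfold actl at this
    simpa using this
  · constructor
    intro a b hab
    obtain ⟨x, rfl⟩ := Ideal.Quotient.mk_surjective a
    obtain ⟨y, rfl⟩ := Ideal.Quotient.mk_surjective b
    rw [← map_mul, Ideal.Quotient.eq_zero_iff_mem] at hab
    rw [Ideal.Quotient.eq_zero_iff_mem, Ideal.Quotient.eq_zero_iff_mem]
    exact P1_prime P hl hr hp x y hab
  · exact Ideal.Quotient.mk_surjective
  · intro b
    rw [Ideal.Quotient.mkₐ_eq_mk, Ideal.Quotient.eq_zero_iff_mem, mem_P1]
    have e : ∀ c, actl (b : Unitization ℂ B) c = b * c := by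
      intro c
      unfold actl
      simp
    constructor
    · intro h
      have h3 := h b
      rw [e] at h3
      rcases hp _ _ h3 with h4 | h4 <;> exact h4
    · intro h c
      rw [e]
      exact hr _ _ h

end ACG
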