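import Pool.Agent.ACG.Qe
import Pool.Agent.ACG.Qf
import Pool.Agent.ACG.Pid

set_option autoImplicit false

/-!
QG: if `θ B` satisfies a polynomial identity, then `FGc θ`.
-/

namespace ACG

section
variable {A B : Type} [NonUnitalNormedRing A] [NormedSpace ℂ A] [IsScalarTower ℂ A A]
  [SMulCommClass ℂ A A] [NonUnitalNormedRing B] [NormedSpace ℂ B] [IsScalarTower ℂ B B]
  [SMulCommClass ℂ B B]

omit [IsScalarTower ℂ B B] [SMulCommClass ℂ B B] in
theorem mul_inr' (u : Unitization ℂ B) (b : B) :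
    u * (b : Unitization ℂ B) = ((u.fst • b + u.snd * b : B) : Unitization ℂ B) := by
  ext <;> simp

omit [IsScalarTower ℂ B B] [SMulCommClass ℂ B B] in
theorem inr_mul' (u : Unitization ℂ B) (b : B) :
    (b : Unitization ℂ B) * u = ((u.fst • b + b * u.snd : B) : Unitization ℂ B) := by
  ext <;> simp

/-- the extension of a homomorphism to the unitizations -/
noncomputable def um (θ : B →ₙₐ[ℂ] A) : Unitization ℂ B →ₐ[ℂ] Unitization ℂ A :=
  Unitization.lift ((Unitization.inrNonUnitalAlgHom ℂ A).comp θ)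

theorem um_eq (θ : B →ₙₐ[ℂ] A) (u : Unitization ℂ B) :
    um θ u = algebraMap ℂ (Unitization ℂ A) u.fst + ((θ u.snd : A) : Unitization ℂ A) := rfl

theorem um_inr (θ : B →ₙₐ[ℂ] A) (b : B) :
    um θ (b : Unitization ℂ B) = ((θ b : A) : Unitization ℂ A) := by
  rw [um_eq, Unitization.fst_inr, Unitization.snd_inr, map_zero, zero_add]

theorem um_zero {θ : B →ₙₐ[ℂ] A} {u : Unitization ℂ B} (h : um θ u = 0) :
    u = (u.snd : Unitization ℂ B) ∧ θ u.snd = 0 := by
  rw [um_eq, Unitization.algebraMap_eq_inl] at h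
  have h1 : u.fst = 0 := by
    have h2 : (Unitization.inl u.fst + ((θ u.snd : A) : Unitization ℂ A)).fst =
      (0 : Unitization ℂ A).fst := by rw [h]
    rwa [Unitization.fst_add, Unitization.fst_inl, Unitization.fst_inr, add_zero,
      Unitization.fst_zero] at h2
  have h3 : θ u.snd = 0 := by
    have h2 : (Unitization.inl u.fst + ((θ u.snd : A) : Unitization ℂ A)).snd =
      (0 : Unitization ℂ A).snd := by rw [h]
    rwa [Unitization.snd_add, Unitization.snd_inl, Unitization.snd_inr, zero_add,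
      Unitization.snd_zero] at h2
  refine ⟨?_, h3⟩
  conv_lhs => rw [← Unitization.inl_fst_add_inr_snd_eq u, h1, Unitization.inl_zero, zero_add]

/-- a multilinear polynomial identity of `θ B`, evaluated in the unitization of `A` -/
def MPI (θ : B →ₙₐ[ℂ] A) (d : ℕ) (al : Equiv.Perm (Fin d) → ℂ) : Prop :=
  ∀ x : Fin d → B,
      ∑ s, al s • (List.ofFn fun i => ((θ (x (s i)) : A) : Unitization ℂ A)).prod = 0

/-- data of the quotient by a completely prime ideal -/
structure QD (P : Submodule ℂ B) (S : Type) [Ring S] [Algebra ℂ S]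
    (q : Unitization ℂ B →ₐ[ℂ] S) : Prop where
  nt : Nontrivial S
  nz : NoZeroDivisors S
  sj : Function.Surjective q
  kr : ∀ b : B, q (b : Unitization ℂ B) = 0 ↔ b ∈ P

/-- the image of `B` -/
def RB {S : Type} [Ring S] [Algebra ℂ S] (q : Unitization ℂ B →ₐ[ℂ] S) : Submodule ℂ S :=
  LinearMap.range (q.toLinearMap ∘ₗ (Unitization.inrHom ℂ ℂ B))

theorem mem_RB {S : Type} [Ring S] [Algebra ℂ S] (q : Unitization ℂ B →ₐ[ℂ] S) (x : S) :
    x ∈ RB q ↔ ∃ b : B, q (b : Unitization ℂ B) = x := Iff.rfl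

theorem exists_QD (P : Submodule ℂ B) (hP : CPr P) : ∃ (S : Type) (_ : Ring S) (_ : Algebra ℂ S)
    (q : Unitization ℂ B →ₐ[ℂ] S), QD P S q := by
  obtain ⟨S, iR, iA, q, h1, h2, h3, h4⟩ := quot_dom P hP.left hP.right hP.pr hP.ne
  exact ⟨S, iR, iA, q, ⟨h1, h2, h3, h4⟩⟩

section
variable {P : Submodule ℂ B} {S : Type} [Ring S] [Algebra ℂ S] {q : Unitization ℂ B →ₐ[ℂ] S}

theorem QD.hl (h : QD P S q) : ∀ a : S, ∀ x ∈ RB q, a * x ∈ RB q := by
  rintro a _ ⟨b, rfl⟩
  obtain ⟨u, rfl⟩ := h.sj a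
  have : q u * (q.toLinearMap ∘ₗ (Unitization.inrHom ℂ ℂ B)) b =
      q (((u.fst • b + u.snd * b : B) : Unitization ℂ B)) := by
    rw [← mul_inr', map_mul]
    rfl
  rw [this]
  exact ⟨_, rfl⟩

theorem QD.hr (h : QD P S q) : ∀ x ∈ RB q, ∀ a : S, x * a ∈ RB q := by
  rintro _ ⟨b, rfl⟩ a
  obtain ⟨u, rfl⟩ := h.sj a
  have : (q.toLinearMap ∘ₗ (Unitization.inrHom ℂ ℂ B)) b * q u =
      q (((u.fst • b + b * u.snd : B) : Unitization ℂ B)) := by
    rw [← inr_mul', map_mul]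
    rfl
  rw [this]
  exact ⟨_, rfl⟩

theorem QD.h0 (h : QD P S q) (hP : CPr P) : ∃ x ∈ RB q, x ≠ 0 := by
  by_contra hcon
  push Not at hcon
  apply hP.ne
  rw [eq_top_iff]
  intro x _
  exact (h.kr x).1 (hcon _ ⟨x, rfl⟩)

theorem QD.hid (h : QD P S q) {θ : B →ₙₐ[ℂ] A} (hPk : ∀ x, θ x = 0 → x ∈ P) {d : ℕ}
    {al : Equiv.Perm (Fin d) → ℂ} (hid : MPI θ d al) : ∀ x : Fin d → S, (∀ i, x i ∈ RB q) →
      ∑ s, al s • (List.ofFn fun i => x (s i)).prod = 0 := by
  intro x hx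
  choose b hb using hx
  set w : Unitization ℂ B :=
    ∑ s, al s • (List.ofFn fun i => ((b (s i) : B) : Unitization ℂ B)).prod with hw
  have h1 : um θ w = 0 := by
    rw [← hid b, hw, map_sum]
    refine Finset.sum_congr rfl fun s _ => ?_
    rw [map_smul, map_list_prod, List.map_ofFn]
    congr 2
    congr 1
    funext i
    exact um_inr θ _
  have h2 : q w = ∑ s, al s • (List.ofFn fun i => x (s i)).prod := by
    rw [hw, map_sum]
    refine Finset.sum_congr rfl fun s _ => ?_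
    rw [map_smul, map_list_prod, List.map_ofFn]
    congr 2
    congr 1
    funext i
    exact hb (s i)
  rw [← h2]
  obtain ⟨h3, h4⟩ := um_zero h1
  rw [h3]
  exact (h.kr _).2 (hPk _ h4)

end

/-- a multilinear polynomial identity gives `FGc` -/
theorem pi_fgc (θ : B →ₙₐ[ℂ] A) (d : ℕ) (al : Equiv.Perm (Fin d) → ℂ) (hal : ∃ s, al s ≠ 0)
    (hid : MPI θ d al) : FGc θ := by
  intro P hP hPk
  obtain ⟨S, iR, iA, q, hq⟩ := exists_QD P hP
  have hnt := hq.nt
  have hnz := hq.nz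
  let f : B →ₗ[ℂ] S := q.toLinearMap ∘ₗ (Unitization.inrHom ℂ ℂ B)
  have hf : ∀ b, f b = q (b : Unitization ℂ B) := fun b => rfl
  have hfm : ∀ x y, f (x * y) = f x * f y := by
    intro x y
    rw [hf, hf, hf, Unitization.inr_mul, map_mul]
  have hf0 : ∀ x, f x = 0 ↔ x ∈ P := hq.kr
  obtain ⟨c, N, r, n, a, b, hcR, hc0, hrR, haR, hbR, hcen, hexp⟩ := AT (RB q) hq.hl hq.hr
    (hq.h0 hP) d al hal (hq.hid hPk hid)
  obtain ⟨c', hc'⟩ := hcR
  choose r' hr' using hrR
  choose a' ha' using haR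
  choose b' hb' using hbR
  have hz : ∀ k x, (∑ j, (LM (a' k j)).comp (RM (b' k j)) : B →L[ℂ] B) x =
      ∑ j, a' k j * x * b' k j := by
    intro k x
    rw [sum_apply]
    refine Finset.sum_congr rfl fun j _ => ?_
    exact (mul_assoc _ _ _).symm
  have hfz : ∀ k x, f (∑ j, a' k j * x * b' k j) = ∑ j, a k j * f x * b k j := by
    intro k x
    rw [map_sum]
    refine Finset.sum_congr rfl fun j _ => ?_
    rw [hfm, hfm, ha', hb']
  refine ⟨c', fun h => hc0 ?_, N, r', fun k => ∑ j, (LM (a' k j)).comp (RM (b' k j)), ?_, ?_, ?_⟩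
  · rw [← hc']
    exact (hf0 c').2 h
  · intro k x y
    rw [hz, ← hf0, map_sub, hfm, hfm, hfz, sub_eq_zero]
    exact hcen k _ ⟨x, rfl⟩ _ ⟨y, rfl⟩
  · intro x
    rw [← hf0, map_sub, hfm, map_sum, hc', sub_eq_zero, hexp _ ⟨x, rfl⟩]
    refine Finset.sum_congr rfl fun k _ => ?_
    rw [hfm, hz, hfz, hr']
  · intro k J hJ x hx
    rw [hz]
    exact J.sum_mem fun j _ => (hJ _ _ (hJ _ _ hx).1).2

end
end ACG
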