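import Pool.Agent.ACG.RedC

set_option autoImplicit false

/-!
QH: in a reduced ring every nonzero element is avoided by a completely prime ideal
(Andrunakievich-Ryabukhin).

PROOF.  `M` = a maximal subset of `A`, closed under products, with `0 ∉ M`, containing
`{w | w z = 0 → a z = 0}`, `a = θ b` (Zorn).  Claim: if `y ∉ M` then `m y = 0` for some `m ∈ M`.
The set `N = {w | ∃ m ∈ M, ∀ z, w z = 0 → m y z = 0}` is closed under products and contains `M` and `y`,
so `0 ∈ N` by the maximality, i.e. `m y z = 0` for all `z`; `z = m y`.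
-/

namespace ACG

namespace QhAux

variable {A : Type} [NonUnitalNormedRing A] [Red A]

/-- closed under products, without `0` -/
def Mc (M : Set A) : Prop := (∀ x ∈ M, ∀ y ∈ M, x * y ∈ M) ∧ (0 : A) ∉ M

/-- `(a z)² = 0` from `a z a = 0` -/
theorem red_aza {a z : A} (h : a * z * a = 0) : a * z = 0 := by
  apply Red.red
  rw [← mul_assoc, h, zero_mul]

theorem base_mc {a : A} (ha : a ≠ 0) : Mc {w : A | ∀ z, w * z = 0 → a * z = 0} := by
  constructor
  · intro w hw w' hw' z hz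
    rw [mul_assoc] at hz
    have h1 := hw _ hz
    have h2 := Red.comm0 h1
    rw [mul_assoc] at h2
    have h3 := hw' _ h2
    rw [← mul_assoc] at h3
    exact red_aza h3
  · intro h
    have h1 := h a (zero_mul a)
    exact ha (Red.red a h1)

theorem key {M : Set A} (hM : Mc M) (hne : M.Nonempty)
    (hmax : ∀ N : Set A, Mc N → M ⊆ N → N ⊆ M) {y : A} (hy : y ∉ M) :
    ∃ m ∈ M, m * y = 0 := by
  by_contra hno
  push Not at hno
  set N : Set A := {w : A | ∃ m ∈ M, ∀ z, w * z = 0 → m * y * z = 0} with hN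
  have hN1 : Mc N := by
    constructor
    · rintro w ⟨m, hm, hw⟩ w' ⟨m', hm', hw'⟩
      refine ⟨m' * m, hM.1 _ hm' _ hm, fun z hz => ?_⟩
      rw [mul_assoc] at hz
      have h1 := Red.comm0 (hw _ hz)
      -- w' z (m y) = 0
      rw [mul_assoc] at h1
      have h2 := hw' _ h1
      -- m' y (z (m y)) = 0
      have h3 : m' * (y * z * (m * y)) = 0 := by
        rw [← h2]
        simp only [mul_assoc]
      have h4 : m' * m * (y * z * (m * y)) = 0 := Red.mid0 h3 m
      have h5 : m' * m * y * z * (m * y) = 0 := by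
        rw [← h4]
        simp only [mul_assoc]
      have h6 : m' * m * y * z * m' * (m * y) = 0 := Red.mid0 h5 m'
      have h7 : (m' * m * y * z) * (m' * m * y * z) = 0 := by
        have e : (m' * m * y * z) * (m' * m * y * z) = m' * m * y * z * m' * (m * y) * z := by
          simp only [mul_assoc]
        rw [e, h6, zero_mul]
      exact Red.red _ h7
    · rintro ⟨m, hm, h⟩
      have h1 := h (m * y) (zero_mul _)
      exact hno m hm (Red.red _ h1)
  have hMN : M ⊆ N := by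
    intro m hm
    exact ⟨m, hm, fun z hz => Red.mid0 hz y⟩
  have hyN : y ∈ N := by
    obtain ⟨m, hm⟩ := hne
    exact ⟨m, hm, fun z hz => by rw [mul_assoc, hz, mul_zero]⟩
  exact hy (hmax N hN1 hMN hyN)

theorem exists_max {a : A} (ha : a ≠ 0) : ∃ M : Set A, Mc M ∧ a ∈ M ∧
    ∀ N : Set A, Mc N → M ⊆ N → N ⊆ M := by
  obtain ⟨M, hM1, hM2⟩ := zorn_subset_nonempty {M : Set A | Mc M} (by
    intro c hc hch hne
    refine ⟨⋃₀ c, ⟨?_, ?_⟩, fun s hs => Set.subset_sUnion_of_mem hs⟩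
    · rintro x ⟨s, hs, hx⟩ y ⟨t, ht, hy⟩
      rcases hch.total hs ht with h | h
      · exact ⟨t, ht, (hc ht).1 x (h hx) y hy⟩
      · exact ⟨s, hs, (hc hs).1 x hx y (h hy)⟩
    · rintro ⟨s, hs, h0⟩
      exact (hc hs).2 h0) _ (base_mc ha)
  exact ⟨M, hM2.1, hM1 (fun z hz => hz), fun N hN hMN => hM2.2 hN hMN⟩

end QhAux

open QhAux in
/-- In a reduced ring every nonzero element is avoided by a completely prime ideal. -/
theorem exists_cpr {A B : Type} [NonUnitalNormedRing A] [NormedSpace ℂ A] [IsScalarTower ℂ A A]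
    [SMulCommClass ℂ A A] [Red A] [NonUnitalNormedRing B] [NormedSpace ℂ B]
    [IsScalarTower ℂ B B] [SMulCommClass ℂ B B] (θ : B →ₙₐ[ℂ] A) (b : B) (hb : θ b ≠ 0) :
    ∃ P : Submodule ℂ B, (∀ x y : B, y ∈ P → x * y ∈ P) ∧ (∀ x y : B, y ∈ P → y * x ∈ P) ∧
      (∀ x y : B, x * y ∈ P → x ∈ P ∨ y ∈ P) ∧ (∀ x : B, θ x = 0 → x ∈ P) ∧ b ∉ P := by
  obtain ⟨M, hM, haM, hmax⟩ := exists_max hb
  have hk : ∀ {y : A}, y ∉ M ↔ ∃ m ∈ M, m * y = 0 := by
    intro y
    refine ⟨key hM ⟨_, haM⟩ hmax, ?_⟩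
    rintro ⟨m, hm, h⟩ hy
    exact hM.2 (h ▸ hM.1 m hm y hy)
  refine ⟨{ carrier := {x | ∃ m ∈ M, m * θ x = 0}
            zero_mem' := ⟨_, haM, by rw [map_zero, mul_zero]⟩
            add_mem' := ?_
            smul_mem' := ?_ }, ?_, ?_, ?_, ?_, ?_⟩
  · rintro x x' ⟨m, hm, h⟩ ⟨m', hm', h'⟩
    refine ⟨m * m', hM.1 _ hm _ hm', ?_⟩
    rw [map_add, mul_add, Red.mid0 h m', mul_assoc, h', mul_zero, add_zero]
  · rintro c x ⟨m, hm, h⟩
    refine ⟨m, hm, ?_⟩
    rw [map_smul, mul_smul_comm, h, smul_zero]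
  · rintro x y ⟨m, hm, h⟩
    refine ⟨m, hm, ?_⟩
    rw [map_mul, ← mul_assoc]
    exact Red.mid0 h (θ x)
  · rintro x y ⟨m, hm, h⟩
    refine ⟨m, hm, ?_⟩
    rw [map_mul, ← mul_assoc, h, zero_mul]
  · rintro x y hxy
    by_contra hno
    push Not at hno
    obtain ⟨h1, h2⟩ := hno
    have h1' : θ x ∈ M := by
      by_contra hn
      exact h1 (hk.1 hn)
    have h2' : θ y ∈ M := by
      by_contra hn
      exact h2 (hk.1 hn)
    have h3 : θ (x * y) ∉ M := hk.2 hxy
    rw [map_mul] at h3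
    exact h3 (hM.1 _ h1' _ h2')
  · intro x hx
    exact ⟨_, haM, by rw [hx, mul_zero]⟩
  · intro h
    exact (hk.2 h) haM

end ACG
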