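import Pool.Agent.ACG.Qg
import Pool.Agent.ACG.Qh

set_option autoImplicit false

/-!
QI: the values of the Capelli polynomial of top order kill the separating space.
-/

namespace ACG

open Filter Topology

section
variable {A B : Type} [NonUnitalNormedRing A] [NormedSpace ℂ A] [IsScalarTower ℂ A A]
  [SMulCommClass ℂ A A] [CompleteSpace A] [NonUnitalNormedRing B] [NormedSpace ℂ B]
  [IsScalarTower ℂ B B] [SMulCommClass ℂ B B] [CompleteSpace B]

/-- the Capelli polynomial with entries in `B` -/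
def capB {N : ℕ} (r : Fin N → B) (y : Fin (N + 1) → B) : Unitization ℂ B :=
  cap (fun i => ((r i : B) : Unitization ℂ B)) (fun i => ((y i : B) : Unitization ℂ B))

/-- the Capelli polynomial of order `k ^ 2` does not vanish on `θ B` -/
def NVB (θ : B →ₙₐ[ℂ] A) (k : ℕ) : Prop :=
  ∃ (r : Fin (k * k) → B) (y : Fin (k * k + 1) → B) (h : B), (h : Unitization ℂ B) = capB r y ∧
    θ h ≠ 0

/-- the ideal `B` of its unitization -/
def IB (B : Type) [NonUnitalNormedRing B] [NormedSpace ℂ B] [IsScalarTower ℂ B B]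
    [SMulCommClass ℂ B B] : AddSubgroup (Unitization ℂ B) where
  carrier := {u | u.fst = 0}
  zero_mem' := Unitization.fst_zero
  add_mem' := by
    intro u v hu hv
    show (u + v).fst = 0
    rw [Unitization.fst_add, hu, hv, add_zero]
  neg_mem' := by
    intro u hu
    show (-u).fst = 0
    rw [Unitization.fst_neg, hu, neg_zero]

omit [CompleteSpace B] in
theorem mem_IB (u : Unitization ℂ B) : u ∈ IB B ↔ u.fst = 0 := Iff.rfl

omit [CompleteSpace B] in
theorem IB_inr (b : B) : (b : Unitization ℂ B) ∈ IB B := Unitization.fst_inr ℂ b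

omit [CompleteSpace B] in
theorem IB_snd {u : Unitization ℂ B} (hu : u ∈ IB B) : ((u.snd : B) : Unitization ℂ B) = u := by
  conv_rhs => rw [← Unitization.inl_fst_add_inr_snd_eq u, (mem_IB u).1 hu, Unitization.inl_zero,
    zero_add]

omit [CompleteSpace B] in
theorem IB_l (a : Unitization ℂ B) : ∀ x ∈ IB B, a * x ∈ IB B := by
  intro x hx
  rw [mem_IB, Unitization.fst_mul, (mem_IB x).1 hx, mul_zero]

omit [CompleteSpace B] in
theorem IB_r : ∀ x ∈ IB B, ∀ a : Unitization ℂ B, x * a ∈ IB B := by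
  intro x hx a
  rw [mem_IB, Unitization.fst_mul, (mem_IB x).1 hx, zero_mul]

theorem cap_mem {U : Type} [Ring U] (I : AddSubgroup U) (hr : ∀ x ∈ I, ∀ a : U, x * a ∈ I) {N : ℕ}
    (r : Fin N → U) (y : Fin (N + 1) → U) (hy : ∀ i, y i ∈ I) : cap r y ∈ I := by
  unfold cap
  refine I.sum_mem fun s _ => I.zsmul_mem (hr _ (hy 0) _) _

theorem QQ_zero' {U : Type} [Ring U] {N n : ℕ} (r : Fin N → U) (a b : Fin N → Fin n → U) (z : U) :
    QQ r a b z 0 = 0 := by
  unfold QQ
  simp

theorem QQ_mem {U : Type} [Ring U] (I : AddSubgroup U) (hr : ∀ x ∈ I, ∀ a : U, x * a ∈ I)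
    {N n : ℕ} (r : Fin N → U) (hrI : ∀ k, r k ∈ I) (a b : Fin N → Fin n → U) (z z' : U) :
    QQ r a b z z' ∈ I := by
  unfold QQ
  refine I.sum_mem fun k _ => hr _ (hr _ (hrI k) _) _

theorem tws_mem {U : Type} [Ring U] (I : AddSubgroup U) (hl : ∀ a : U, ∀ x ∈ I, a * x ∈ I)
    {n : ℕ} (a b : Fin n → U) (ha : ∀ j, a j ∈ I) (z : U) : tws a b z ∈ I := by
  unfold tws
  exact I.sum_mem fun j _ => hl _ _ (ha j)

omit [CompleteSpace A] [CompleteSpace B] in
theorem QD.NV {P : Submodule ℂ B} {S : Type} [Ring S] [Algebra ℂ S]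
    {q : Unitization ℂ B →ₐ[ℂ] S} (h : QD P S q) {θ : B →ₙₐ[ℂ] A}
    (hPk : ∀ x, θ x = 0 → x ∈ P) {k : ℕ} (hk : NV (RB q) k) : NVB θ k := by
  obtain ⟨x, y, hx, hy, hne⟩ := hk
  choose r hr using hx
  choose y' hy' using hy
  have h1 : capB r y' ∈ IB B := cap_mem (IB B) IB_r _ _ fun i => IB_inr _
  refine ⟨r, y', (capB r y').snd, IB_snd h1, fun h0 => hne ?_⟩
  have h2 : q (capB r y') = 0 := by
    rw [← IB_snd h1]
    exact (h.kr _).2 (hPk _ h0)
  have h3 := cap_map (q : Unitization ℂ B →+* S) (fun i => ((r i : B) : Unitization ℂ B))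
    (fun i => ((y' i : B) : Unitization ℂ B))
  have h4 : (fun i => (q : Unitization ℂ B →+* S) ((r i : B) : Unitization ℂ B)) = x := funext hr
  have h5 : (fun i => (q : Unitization ℂ B →+* S) ((y' i : B) : Unitization ℂ B)) = y :=
    funext hy'
  rw [h4, h5] at h3
  rw [← h3]
  exact h2

theorem cap_kill (hC : PropC A) (θ : B →ₙₐ[ℂ] A) (d : ℕ) (al : Equiv.Perm (Fin d) → ℂ)
    (hal : ∃ s, al s ≠ 0) (hid : MPI θ d al) (m : ℕ)
    (hm : ∀ k, m < k → k ≤ d → ¬ NVB θ k) (r : Fin (m * m) → B) (y : Fin (m * m + 1) → B) (h : B)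
    (hh : (h : Unitization ℂ B) = capB r y) : ∀ s ∈ Sp θ, θ h * s = 0 := by
  classical
  have hred : Red A := red_of_propC hC
  have hF : FGc θ := pi_fgc θ d al hal hid
  set r1 : Fin (m * m) → Unitization ℂ B := fun i => ((r i : B) : Unitization ℂ B) with hr1
  set y1 : Fin (m * m + 1) → Unitization ℂ B := fun i => ((y i : B) : Unitization ℂ B) with hy1
  obtain ⟨n, a, b, ha, hb, hab⟩ := cap_two (IB B) IB_l IB_r r1 y1 (fun i => IB_inr _)
  have hr1I : ∀ k, r1 k ∈ IB B := fun k => IB_inr _
  set H : Unitization ℂ B := cap r1 y1 with hH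
  -- facts in the quotients
  have fact : ∀ (P : Submodule ℂ B) (S : Type) (iR : Ring S) (iA : Algebra ℂ S)
      (q : Unitization ℂ B →ₐ[ℂ] S), CPr P → (∀ x, θ x = 0 → x ∈ P) → QD P S q → q H ≠ 0 →
      (∃ z : B, q (QQ r1 a b z (z * H)) ≠ 0) ∧
      (∀ z u g : Unitization ℂ B, q (QQ r1 a b z u) * q g = q g * q (QQ r1 a b z u)) ∧
      (∀ z x : Unitization ℂ B, q (QQ r1 a b z (z * H)) * q x =
        ∑ k, q (QQ r1 a b z (x * tws (a k) (b k) z)) * q (r1 k)) := by
    intro P S iR iA q hP hPk hq hqH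
    have hnt := hq.nt
    have hnz := hq.nz
    have hcq : q H = cap (fun i => q (r1 i)) (fun i => q (y1 i)) :=
      cap_map (q : Unitization ℂ B →+* S) r1 y1
    have hQ : ∀ z z', q (QQ r1 a b z z') = QQ (fun k => q (r1 k)) (fun k j => q (a k j))
        (fun k j => q (b k j)) (q z) (q z') := fun z z' =>
      QQ_map (q : Unitization ℂ B →+* S) r1 a b z z'
    have hT : ∀ k z, q (tws (a k) (b k) z) = tws (fun j => q (a k j)) (fun j => q (b k j)) (q z) :=
      fun k z => tws_map (q : Unitization ℂ B →+* S) (a k) (b k) z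
    have habq : ∀ k x, cap (Function.update (fun i => q (r1 i)) k x) (fun i => q (y1 i)) =
        ∑ j, q (a k j) * x * q (b k j) := by
      intro k x
      obtain ⟨u, rfl⟩ := hq.sj x
      have h1 := cap_map (q : Unitization ℂ B →+* S) (Function.update r1 k u) y1
      rw [hab k u] at h1
      have h2 : (fun i => (q : Unitization ℂ B →+* S) (Function.update r1 k u i)) =
          Function.update (fun i => q (r1 i)) k (q u) := by
        funext i
        by_cases hik : i = k
        · subst hik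
          rw [Function.update_self, Function.update_self]
          rfl
        · rw [Function.update_of_ne hik, Function.update_of_ne hik]
          rfl
      rw [h2] at h1
      refine h1.symm.trans ?_
      rw [map_sum]
      refine Finset.sum_congr rfl fun j _ => ?_
      rw [map_mul, map_mul]
      rfl
    have hry : cap (fun i => q (r1 i)) (fun i => q (y1 i)) ≠ 0 := by
      rw [← hcq]
      exact hqH
    obtain ⟨⟨z, ⟨z0, hz0⟩, hzne⟩, hcen, hexp⟩ := AT2 (RB q) hq.hl hq.hr (hq.h0 hP) d al hal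
      (hq.hid hPk hid) m (fun k h1 h2 h3 => hm k h1 h2 (hq.NV hPk h3)) (fun i => q (r1 i))
      (fun i => q (y1 i)) n (fun k j => q (a k j)) (fun k j => q (b k j)) habq hry
    refine ⟨⟨z0, ?_⟩, fun z u g => ?_, fun z x => ?_⟩
    · rw [hQ, map_mul, hcq]
      have hz1 : q (z0 : Unitization ℂ B) = z := hz0
      rw [hz1]
      exact hzne
    · rw [hQ]
      exact hcen _ _ _
    · rw [hQ, map_mul, hcq, hexp]
      refine Finset.sum_congr rfl fun k _ => ?_
      rw [hQ, map_mul, hT]
  -- step A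
  have stepA : ∀ z : B, ∀ s ∈ Sp θ, θ (QQ r1 a b z (z * H)).snd * s = 0 := by
    intro z
    set C : Unitization ℂ B := QQ r1 a b z (z * H) with hCdef
    have hCI : C ∈ IB B := QQ_mem (IB B) IB_r r1 hr1I a b _ _
    set c : B := C.snd with hc
    have hcC : (c : Unitization ℂ B) = C := IB_snd hCI
    set ws : Fin (m * m) → Unitization ℂ B := fun k => tws (a k) (b k) (z : Unitization ℂ B)
      with hws
    have hwsI : ∀ k, ws k ∈ IB B := fun k => tws_mem (IB B) IB_l (a k) (b k) (ha k) _
    let A1 : Fin (m * m) → B := fun j => (C * r1 j).snd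
    have hA1 : ∀ j, ((A1 j : B) : Unitization ℂ B) = C * r1 j := fun j =>
      IB_snd (IB_l _ _ (hr1I j))
    let B1 : Fin (m * m) → Fin (m * m) → B := fun k j => (ws k * ws j).snd
    have hB1 : ∀ k j, ((B1 k j : B) : Unitization ℂ B) = ws k * ws j := fun k j =>
      IB_snd (IB_l _ _ (hwsI j))
    let Z : Fin (m * m) → B →L[ℂ] B := fun k => ∑ j, (LM (A1 j)).comp (RM (B1 k j))
    have hZ : ∀ k x, Z k x = ∑ j, A1 j * x * B1 k j := by
      intro k x
      show (∑ j, (LM (A1 j)).comp (RM (B1 k j)) : B →L[ℂ] B) x = _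
      rw [sum_apply]
      refine Finset.sum_congr rfl fun j _ => ?_
      exact (mul_assoc _ _ _).symm
    have hZ' : ∀ k x, ((Z k x : B) : Unitization ℂ B) =
        C * QQ r1 a b z ((x : Unitization ℂ B) * ws k) := by
      intro k x
      have h1 : ((Z k x : B) : Unitization ℂ B) =
          ∑ j, ((A1 j * x * B1 k j : B) : Unitization ℂ B) := by
        rw [hZ]
        exact map_sum (Unitization.inrHom ℂ ℂ B) _ _
      rw [h1, ← QQ_sum, Finset.mul_sum]
      refine Finset.sum_congr rfl fun j _ => ?_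
      rw [Unitization.inr_mul, Unitization.inr_mul, hA1, hB1]
      simp only [mul_assoc]
      rfl
    -- elements which vanish modulo all completely prime ideals over the kernel
    have van : ∀ w : B, (∀ (P : Submodule ℂ B) (S : Type) (iR : Ring S) (iA : Algebra ℂ S)
        (q : Unitization ℂ B →ₐ[ℂ] S), CPr P → (∀ x, θ x = 0 → x ∈ P) → QD P S q →
        q (w : Unitization ℂ B) = 0) → θ w = 0 := by
      intro w hw
      by_contra hne
      obtain ⟨P, hP1, hP2, hP3, hPk, hwP⟩ := exists_cpr θ w hne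
      have hP : CPr P := ⟨hP1, fun b x hx => hP2 b x hx, hP3, fun h => hwP (by rw [h]; trivial)⟩
      obtain ⟨S, iR, iA, q, hq⟩ := exists_QD P hP
      exact hwP ((hq.kr w).1 (hw P S iR iA q hP hPk hq))
    have hC0 : ∀ (S : Type) (iR : Ring S) (iA : Algebra ℂ S)
        (q : Unitization ℂ B →ₐ[ℂ] S), q H = 0 → q C = 0 := by
      intro S iR iA q hqH
      have h1 := QQ_map (q : Unitization ℂ B →+* S) r1 a b (z : Unitization ℂ B)
        ((z : Unitization ℂ B) * H)
      have h2 : (q : Unitization ℂ B →+* S) ((z : Unitization ℂ B) * H) = 0 := by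
        rw [map_mul]
        have : (q : Unitization ℂ B →+* S) H = 0 := hqH
        rw [this, mul_zero]
      rw [h2, QQ_zero'] at h1
      exact h1
    have hcen : ∀ k x, Z k x ∈ Dk θ := by
      intro k x g
      apply van
      intro P S iR iA q hP hPk hq
      have e1 : ((Z k x * g - g * Z k x : B) : Unitization ℂ B) =
          C * QQ r1 a b z ((x : Unitization ℂ B) * ws k) * (g : Unitization ℂ B) -
            (g : Unitization ℂ B) * (C * QQ r1 a b z ((x : Unitization ℂ B) * ws k)) := by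
        rw [Unitization.inr_sub, Unitization.inr_mul, Unitization.inr_mul, hZ']
      rw [e1, map_sub, map_mul, map_mul, map_mul, map_mul]
      by_cases hqH : q H = 0
      · rw [hC0 S iR iA q hqH]
        simp
      · obtain ⟨-, h2, -⟩ := fact P S iR iA q hP hPk hq hqH
        rw [mul_assoc, h2, ← mul_assoc, h2, mul_assoc, sub_self]
    have hexp : ∀ x, θ (c * c * x) = ∑ i, θ (Z i x) * θ (r i) := by
      intro x
      have h1 : θ (c * c * x - ∑ i, Z i x * r i) = 0 := by
        apply van
        intro P S iR iA q hP hPk hq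
        have e0 : ((∑ i, Z i x * r i : B) : Unitization ℂ B) =
            ∑ i, ((Z i x * r i : B) : Unitization ℂ B) :=
          map_sum (Unitization.inrHom ℂ ℂ B) _ _
        rw [Unitization.inr_sub, Unitization.inr_mul, Unitization.inr_mul, hcC, e0]
        have e2 : ∀ i, ((Z i x * r i : B) : Unitization ℂ B) =
            C * QQ r1 a b z ((x : Unitization ℂ B) * ws i) * r1 i := by
          intro i
          rw [Unitization.inr_mul, hZ']
        simp only [e2]
        rw [map_sub, map_sum, map_mul, map_mul]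
        by_cases hqH : q H = 0
        · simp only [map_mul, hC0 S iR iA q hqH, zero_mul, Finset.sum_const_zero, sub_zero]
        · obtain ⟨-, -, h3⟩ := fact P S iR iA q hP hPk hq hqH
          rw [mul_assoc, h3 (z : Unitization ℂ B) (x : Unitization ℂ B), Finset.mul_sum,
            sub_eq_zero]
          refine Finset.sum_congr rfl fun i _ => ?_
          rw [map_mul, map_mul, mul_assoc]
      rw [map_sub, sub_eq_zero, map_sum] at h1
      rw [h1]
      exact Finset.sum_congr rfl fun i _ => map_mul θ _ _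
    intro s hs
    have h1 := kill_fg hC θ hF.pro (c * c) (m * m) r Z hcen hexp s hs
    rw [map_mul, mul_assoc] at h1
    exact Red.sq0 h1
  -- step B
  intro s hs
  by_contra hne
  obtain ⟨e, he, hez, hpr⟩ := select θ (some h) ⟨s, hs, hne⟩
  have hhP := some_notMem he hez
  have hP := CPr_Pe he hpr
  obtain ⟨S, iR, iA, q, hq⟩ := exists_QD (Pe θ e) hP
  have hqH : q H ≠ 0 := by
    intro h0
    apply hhP
    rw [← hq.kr, hh]
    exact h0
  obtain ⟨⟨z, hz⟩, -, -⟩ := fact (Pe θ e) S iR iA q hP (ker_le_Pe θ e) hq hqH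
  have hCI : QQ r1 a b (z : Unitization ℂ B) ((z : Unitization ℂ B) * H) ∈ IB B :=
    QQ_mem (IB B) IB_r r1 hr1I a b _ _
  apply hz
  rw [← IB_snd hCI, hq.kr]
  intro s hs
  exact stepA z _ (opR_mem e hs)

end
end ACG
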