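import Pool.Agent.ACG.Qi

set_option autoImplicit false

/-!
QJ: the separating space satisfies the Capelli identity of top order.
-/

namespace ACG

open Filter Topology

theorem cap_tendsto {U : Type} [NormedRing U] {N : ℕ} (x : ℕ → Fin N → U)
    (y : ℕ → Fin (N + 1) → U) (s : Fin N → U) (t : Fin (N + 1) → U)
    (hx : ∀ i, Tendsto (fun n => x n i) atTop (𝓝 (s i)))
    (hy : ∀ i, Tendsto (fun n => y n i) atTop (𝓝 (t i))) :
    Tendsto (fun n => cap (x n) (y n)) atTop (𝓝 (cap s t)) := by
  unfold cap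
  refine tendsto_finsetSum _ fun σ _ => ?_
  refine Tendsto.const_smul ?_ _
  refine (hy 0).mul ?_
  simp only [List.ofFn_eq_map]
  exact tendsto_list_prod _ fun i _ => (hx _).mul (hy _)

section
variable {A B : Type} [NonUnitalNormedRing A] [NormedSpace ℂ A] [IsScalarTower ℂ A A]
  [SMulCommClass ℂ A A] [CompleteSpace A] [NonUnitalNormedRing B] [NormedSpace ℂ B]
  [IsScalarTower ℂ B B] [SMulCommClass ℂ B B] [CompleteSpace B]

/-- the identity of the unitization as a ring homomorphism to its normed version -/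
noncomputable def uw (A : Type) [NonUnitalNormedRing A] [NormedSpace ℂ A] [IsScalarTower ℂ A A]
    [SMulCommClass ℂ A A] : Unitization ℂ A →+* WithLp 1 (Unitization ℂ A) :=
  ((WithLp.unitizationAlgEquiv ℂ).symm : Unitization ℂ A ≃ₐ[ℂ] WithLp 1 (Unitization ℂ A))

omit [CompleteSpace A] in
theorem uw_inr (a : A) : uw A (a : Unitization ℂ A) = inU a := rfl

omit [CompleteSpace A] in
theorem uw_inj (u : Unitization ℂ A) (h : uw A u = 0) : u = 0 :=
  ((WithLp.unitizationAlgEquiv ℂ).symm :
    Unitization ℂ A ≃ₐ[ℂ] WithLp 1 (Unitization ℂ A)).injective (h.trans (map_zero _).symm)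

theorem prod_Sp (θ : B →ₙₐ[ℂ] A) (l : List (WithLp 1 (Unitization ℂ A)))
    (hl : ∀ u ∈ l, ∃ s ∈ Sp θ, inU s = u) (v : A) (hv : v ∈ Sp θ) :
    ∃ w ∈ Sp θ, inU w = inU v * l.prod := by
  induction l generalizing v with
  | nil => exact ⟨v, hv, by rw [List.prod_nil, mul_one]⟩
  | cons u l ih =>
    obtain ⟨s, hs, rfl⟩ := hl u (by simp)
    have h1 : v * s ∈ Sp θ := (Idl_Sp θ).mul_mem hs hv
    obtain ⟨w, hw, h⟩ := ih (fun u hu => hl u (by simp [hu])) (v * s) h1
    exact ⟨w, hw, by rw [h, List.prod_cons, inU_mul, mul_assoc]⟩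

theorem cap_S (hC : PropC A) (θ : B →ₙₐ[ℂ] A) (d : ℕ) (al : Equiv.Perm (Fin d) → ℂ)
    (hal : ∃ s, al s ≠ 0) (hid : MPI θ d al) (m : ℕ)
    (hm : ∀ k, m < k → k ≤ d → ¬ NVB θ k) (s : Fin (m * m) → A) (t : Fin (m * m + 1) → A)
    (hs : ∀ i, s i ∈ Sp θ) (ht : ∀ i, t i ∈ Sp θ) :
    cap (fun i => ((s i : A) : Unitization ℂ A)) (fun i => ((t i : A) : Unitization ℂ A)) = 0 := by
  have hred : Red A := red_of_propC hC
  -- on `θ B`
  have h1 : ∀ (r : Fin (m * m) → B) (y : Fin (m * m + 1) → B), ∀ v ∈ Sp θ,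
      cap (fun i => inU (θ (r i))) (fun i => inU (θ (y i))) * inU v = 0 := by
    intro r y v hv
    have h2 : capB r y ∈ IB B := cap_mem (IB B) IB_r _ _ fun i => IB_inr _
    have h3 := cap_kill hC θ d al hal hid m hm r y (capB r y).snd (IB_snd h2) v hv
    have h4 : um θ (capB r y) = ((θ (capB r y).snd : A) : Unitization ℂ A) := by
      conv_lhs => rw [← IB_snd h2]
      rw [um_inr]
    have h5 := cap_map (um θ : Unitization ℂ B →+* Unitization ℂ A)
      (fun i => ((r i : B) : Unitization ℂ B)) (fun i => ((y i : B) : Unitization ℂ B))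
    have h6 := cap_map (uw A)
      (fun i => (um θ : Unitization ℂ B →+* Unitization ℂ A) ((r i : B) : Unitization ℂ B))
      (fun i => (um θ : Unitization ℂ B →+* Unitization ℂ A) ((y i : B) : Unitization ℂ B))
    rw [← h5] at h6
    have h7 : (fun i => uw A
        ((um θ : Unitization ℂ B →+* Unitization ℂ A) ((r i : B) : Unitization ℂ B))) =
        fun i => inU (θ (r i)) := by
      funext i
      have : (um θ : Unitization ℂ B →+* Unitization ℂ A) ((r i : B) : Unitization ℂ B) =
        ((θ (r i) : A) : Unitization ℂ A) := um_inr θ _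
      rw [this, uw_inr]
    have h8 : (fun i => uw A
        ((um θ : Unitization ℂ B →+* Unitization ℂ A) ((y i : B) : Unitization ℂ B))) =
        fun i => inU (θ (y i)) := by
      funext i
      have : (um θ : Unitization ℂ B →+* Unitization ℂ A) ((y i : B) : Unitization ℂ B) =
        ((θ (y i) : A) : Unitization ℂ A) := um_inr θ _
      rw [this, uw_inr]
    rw [h7, h8] at h6
    rw [← h6]
    have h9 : (um θ : Unitization ℂ B →+* Unitization ℂ A)
          (cap (fun i => ((r i : B) : Unitization ℂ B)) fun i => ((y i : B) : Unitization ℂ B)) =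
          ((θ (capB r y).snd : A) : Unitization ℂ A) := h4
    rw [h9, uw_inr, ← inU_mul, h3, map_zero]
  -- limits
  choose x hx hx' using fun i => mem_Sp.1 (hs i)
  choose y hy hy' using fun i => mem_Sp.1 (ht i)
  have hcontU : Continuous (inU : A → WithLp 1 (Unitization ℂ A)) := (inUi (A := A)).continuous
  have h2 : ∀ v ∈ Sp θ, cap (fun i => inU (s i)) (fun i => inU (t i)) * inU v = 0 := by
    intro v hv
    have h3 := cap_tendsto (fun n i => inU (θ (x i n))) (fun n i => inU (θ (y i n)))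
      (fun i => inU (s i)) (fun i => inU (t i))
      (fun i => (hcontU.tendsto _).comp (hx' i)) (fun i => (hcontU.tendsto _).comp (hy' i))
    have h4 := h3.mul (tendsto_const_nhds (x := (inU v : WithLp 1 (Unitization ℂ A))))
    refine tendsto_nhds_unique h4 (tendsto_const_nhds.congr fun n => ?_)
    exact (h1 (fun i => x i n) (fun i => y i n) v hv).symm
  -- the value lies in the separating space
  have h3 : ∃ w ∈ Sp θ, inU w = cap (fun i => inU (s i)) (fun i => inU (t i)) := by
    have h4 : ∀ σ : Equiv.Perm (Fin (m * m)), ∃ w ∈ Sp θ, inU w =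
        inU (t 0) * (List.ofFn fun i => inU (s (σ i)) * inU (t i.succ)).prod := by
      intro σ
      refine prod_Sp θ _ ?_ (t 0) (ht 0)
      intro u hu
      obtain ⟨i, rfl⟩ := (List.mem_ofFn' _ _).1 hu
      exact ⟨s (σ i) * t i.succ, (Idl_Sp θ).mul_mem (ht _) (hs _), inU_mul _ _⟩
    choose w hw hw' using h4
    refine ⟨∑ σ : Equiv.Perm (Fin (m * m)), ((Equiv.Perm.sign σ : ℤˣ) : ℤ) • w σ,
      (Sp θ).sum_mem fun σ _ => (Sp θ).toAddSubgroup.zsmul_mem (hw σ) _, ?_⟩
    unfold cap
    rw [map_sum]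
    refine Finset.sum_congr rfl fun σ _ => ?_
    rw [map_zsmul, hw']
  obtain ⟨w, hw, hw'⟩ := h3
  have h4 : w = 0 := by
    apply Red.red
    apply inU_injective
    have h10 := h2 w hw
    rw [← hw'] at h10
    rw [inU_mul, map_zero]
    exact h10
  have h5 : cap (fun i => inU (s i)) (fun i => inU (t i)) = 0 := by
    rw [← hw', h4, map_zero]
  have h6 := cap_map (uw A)
      (fun i => ((s i : A) : Unitization ℂ A)) (fun i => ((t i : A) : Unitization ℂ A))
  exact uw_inj _ (h6.trans h5)

end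
end ACG
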