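import Pool.Agent.ACG.Qj

set_option autoImplicit false

/-!
QK: assembly of the statements about annihilators and identities of the separating space.
-/

namespace ACG

open Filter Topology

section
variable {A B : Type} [NonUnitalNormedRing A] [NormedSpace ℂ A] [IsScalarTower ℂ A A]
  [SMulCommClass ℂ A A] [CompleteSpace A] [NonUnitalNormedRing B] [NormedSpace ℂ B]
  [IsScalarTower ℂ B B] [SMulCommClass ℂ B B] [CompleteSpace B]

omit [CompleteSpace A] [CompleteSpace B] in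
theorem NVB_zero (θ : B →ₙₐ[ℂ] A) (h : ∃ b, θ b ≠ 0) : NVB θ 0 := by
  obtain ⟨b, hb⟩ := h
  refine ⟨fun _ => b, fun _ => b, b, ?_, hb⟩
  unfold capB cap
  simp

theorem four (hC : PropC A) (θ : B →ₙₐ[ℂ] A) (d : ℕ) (al : Equiv.Perm (Fin d) → ℂ)
    (hal : ∃ s, al s ≠ 0) (hid : MPI θ d al) (h0 : ∃ b, θ b ≠ 0) :
    (∃ b, θ b ≠ 0 ∧ ∀ s ∈ Sp θ, θ b * s = 0) ∧
    ∃ N : ℕ, (∀ (x : Fin N → A) (y : Fin (N + 1) → A), (∀ i, x i ∈ Sp θ) → (∀ i, y i ∈ Sp θ) →
        cap (fun i => ((x i : A) : Unitization ℂ A)) (fun i => ((y i : A) : Unitization ℂ A)) = 0) ∧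
      ∃ (x : Fin N → B) (y : Fin (N + 1) → B),
        cap (fun i => ((θ (x i) : A) : Unitization ℂ A))
          (fun i => ((θ (y i) : A) : Unitization ℂ A)) ≠ 0 := by
  classical
  set m := Nat.findGreatest (NVB θ) d with hmdef
  have hmNV : NVB θ m := Nat.findGreatest_spec (Nat.zero_le d) (NVB_zero θ h0)
  have hmax : ∀ k, m < k → k ≤ d → ¬ NVB θ k := fun k h1 h2 =>
    Nat.findGreatest_is_greatest h1 h2
  obtain ⟨r, y, h, hh, hne⟩ := hmNV
  refine ⟨⟨h, hne, cap_kill hC θ d al hal hid m hmax r y h hh⟩, m * m,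
    fun s t hs ht => cap_S hC θ d al hal hid m hmax s t hs ht, r, y, ?_⟩
  have h5 := cap_map (um θ : Unitization ℂ B →+* Unitization ℂ A)
    (fun i => ((r i : B) : Unitization ℂ B)) (fun i => ((y i : B) : Unitization ℂ B))
  have h7 : (fun i => (um θ : Unitization ℂ B →+* Unitization ℂ A) ((r i : B) : Unitization ℂ B)) =
      fun i => ((θ (r i) : A) : Unitization ℂ A) := funext fun i => um_inr θ _
  have h8 : (fun i => (um θ : Unitization ℂ B →+* Unitization ℂ A) ((y i : B) : Unitization ℂ B)) =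
      fun i => ((θ (y i) : A) : Unitization ℂ A) := funext fun i => um_inr θ _
  rw [h7, h8] at h5
  rw [← h5]
  have h9 : (um θ : Unitization ℂ B →+* Unitization ℂ A)
      (cap (fun i => ((r i : B) : Unitization ℂ B)) fun i => ((y i : B) : Unitization ℂ B)) =
      um θ (h : Unitization ℂ B) := by
    rw [hh]
    rfl
  rw [h9, um_inr]
  intro h10
  apply hne
  have h11 := um_inr θ h
  have h12 : um θ (h : Unitization ℂ B) = 0 := h11.trans h10
  have h13 := (um_zero h12).2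
  rwa [Unitization.snd_inr] at h13

theorem dom (hC : PropC A) (θ : B →ₙₐ[ℂ] A) (d : ℕ) (al : Equiv.Perm (Fin d) → ℂ)
    (hal : ∃ s, al s ≠ 0) (hid : MPI θ d al) (hA : ∀ x y : A, x * y = 0 → x = 0 ∨ y = 0) :
    Continuous θ := by
  have hf : Continuous (θ : B →ₗ[ℂ] A) := by
    rw [continuous_iff_Sep, eq_bot_iff]
    intro s hs
    rw [Submodule.mem_bot]
    by_cases h0 : ∃ b, θ b ≠ 0
    · obtain ⟨⟨b, hb, hbs⟩, -⟩ := four hC θ d al hal hid h0
      exact (hA _ _ (hbs s hs)).resolve_left hb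
    · push Not at h0
      have hs' : s ∈ Sp θ := hs
      obtain ⟨x, hx, h⟩ := mem_Sp.1 hs'
      refine tendsto_nhds_unique h (tendsto_const_nhds.congr fun n => (h0 _).symm)
  exact hf

end
end ACG
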