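import Pool.Agent.ACG.Pif
import Pool.Agent.ACG.Qg

set_option autoImplicit false

/-!
QL: central elements in ideals modulo a completely prime ideal with a polynomial identity in the
quotient.
-/

namespace ACG

section
variable {B : Type} [NonUnitalNormedRing B] [NormedSpace ℂ B] [IsScalarTower ℂ B B]
  [SMulCommClass ℂ B B]

/-- a multilinear identity modulo `P` -/
def MPIq (P : Submodule ℂ B) (d : ℕ) (al : Equiv.Perm (Fin d) → ℂ) : Prop :=
  ∀ x : Fin d → B, ∃ p ∈ P,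
    ∑ s, al s • (List.ofFn fun i => ((x (s i) : B) : Unitization ℂ B)).prod =
      (p : Unitization ℂ B)

theorem QD.hidq {P : Submodule ℂ B} {S : Type} [Ring S] [Algebra ℂ S]
    {q : Unitization ℂ B →ₐ[ℂ] S} (h : QD P S q) {d : ℕ}
    {al : Equiv.Perm (Fin d) → ℂ} (hid : MPIq P d al) : ∀ x : Fin d → S, (∀ i, x i ∈ RB q) →
      ∑ s, al s • (List.ofFn fun i => x (s i)).prod = 0 := by
  intro x hx
  choose b hb using hx
  obtain ⟨p, hp, hw⟩ := hid b
  have h2 : q (∑ s, al s • (List.ofFn fun i => ((b (s i) : B) : Unitization ℂ B)).prod) =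
      ∑ s, al s • (List.ofFn fun i => x (s i)).prod := by
    rw [map_sum]
    refine Finset.sum_congr rfl fun s _ => ?_
    rw [map_smul, map_list_prod, List.map_ofFn]
    congr 2
    congr 1
    funext i
    exact hb (s i)
  rw [← h2, hw]
  exact (h.kr _).2 hp

/-- a polynomial identity modulo `P` gives elements central modulo `P` in ideals -/
theorem pi_central (P : Submodule ℂ B) (hP : CPr P) (d : ℕ) (al : Equiv.Perm (Fin d) → ℂ)
    (hal : ∃ s, al s ≠ 0) (hid : MPIq P d al) (J : Submodule ℂ B)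
    (hJ : ∀ b x : B, x ∈ J → b * x ∈ J ∧ x * b ∈ J) (hJP : ¬ J ≤ P) :
    ∃ c ∈ J, c ∉ P ∧ ∀ x : B, c * x - x * c ∈ P := by
  obtain ⟨S, iR, iA, q, hq⟩ := exists_QD P hP
  have hnt := hq.nt
  have hnz := hq.nz
  let f : B →ₗ[ℂ] S := q.toLinearMap ∘ₗ (Unitization.inrHom ℂ ℂ B)
  have hf : ∀ b, f b = q (b : Unitization ℂ B) := fun b => rfl
  have hfm : ∀ x y, f (x * y) = f x * f y := by
    intro x y
    rw [hf, hf, hf, Unitization.inr_mul, map_mul]
  have hf0 : ∀ x, f x = 0 ↔ x ∈ P := hq.kr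
  obtain ⟨c, N, r, n, a, b, hcR, hc0, hrR, haR, hbR, hcen, hexp⟩ := AT (RB q) hq.hl hq.hr
    (hq.h0 hP) d al hal (hq.hidq hid)
  obtain ⟨c', hc'⟩ := hcR
  choose r' hr' using hrR
  choose a' ha' using haR
  choose b' hb' using hbR
  have hfz : ∀ k x, f (∑ j, a' k j * x * b' k j) = ∑ j, a k j * f x * b k j := by
    intro k x
    rw [map_sum]
    refine Finset.sum_congr rfl fun j _ => ?_
    rw [hfm, hfm, ha', hb']
  obtain ⟨x, hxJ, hxP⟩ := SetLike.not_le_iff_exists.1 hJP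
  by_contra hcon
  push Not at hcon
  have h1 : ∀ k, ∑ j, a' k j * x * b' k j ∈ P := by
    intro k
    by_contra hk
    obtain ⟨y, hy⟩ := hcon (∑ j, a' k j * x * b' k j)
      (J.sum_mem fun j _ => (hJ _ _ (hJ _ _ hxJ).1).2) hk
    apply hy
    rw [← hf0, map_sub, hfm, hfm, hfz, sub_eq_zero]
    exact hcen k _ ⟨x, rfl⟩ _ ⟨y, rfl⟩
  have h2 : f (c' * x) = 0 := by
    rw [hfm, hc', hexp _ ⟨x, rfl⟩]
    refine Finset.sum_eq_zero fun k _ => ?_
    have h3 := (hf0 _).2 (h1 k)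
    rw [hfz] at h3
    rw [← hr' k]
    have h4 : (q.toLinearMap ∘ₗ (Unitization.inrHom ℂ ℂ B)) x = f x := rfl
    rw [h4, h3, zero_mul]
  rcases hP.pr c' x ((hf0 _).1 h2) with h | h
  · apply hc0
    rw [← hc']
    exact (hf0 c').2 h
  · exact hxP h

end
end ACG
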