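import Pool.Agent.ACG.Qk
import Pool.Agent.ACG.Pih

set_option autoImplicit false
set_option linter.all false

/-!
QM: the continuity ideal is essential.
-/

namespace ACG

open Filter Topology

section
variable {A B : Type} [NonUnitalNormedRing A] [NormedSpace ℂ A] [IsScalarTower ℂ A A]
  [SMulCommClass ℂ A A] [CompleteSpace A] [NonUnitalNormedRing B] [NormedSpace ℂ B]
  [IsScalarTower ℂ B B] [SMulCommClass ℂ B B] [CompleteSpace B]

/-- the elements `x` with `θ x θ c = 0` for all `c` in the continuity ideal -/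
def AnnKI (θ : B →ₙₐ[ℂ] A) : Submodule ℂ B where
  carrier := {x | ∀ c ∈ KI θ, θ (x * c) = 0}
  zero_mem' := by
    intro c _
    rw [zero_mul, map_zero]
  add_mem' := by
    intro x y hx hy c hc
    rw [add_mul, map_add, hx c hc, hy c hc, add_zero]
  smul_mem' := by
    intro r x hx c hc
    rw [smul_mul_assoc, map_smul, hx c hc, smul_zero]

theorem mem_AnnKI {θ : B →ₙₐ[ℂ] A} {x : B} : x ∈ AnnKI θ ↔ ∀ c ∈ KI θ, θ (x * c) = 0 := Iff.rfl

theorem AnnKI_closed (hC : PropC A) (θ : B →ₙₐ[ℂ] A) (hB : PRo θ) :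
    IsClosed (AnnKI θ : Set B) := by
  refine IsSeqClosed.isClosed fun u v hu hv => ?_
  show v ∈ AnnKI θ
  rw [mem_AnnKI]
  intro c hc
  exact ker_closed hC θ hB _ (fun n => u n * c) (fun n => hu n c hc)
    (hv.mul tendsto_const_nhds)

theorem AnnKI_ideal [Red A] (θ : B →ₙₐ[ℂ] A) :
    ∀ b x : B, x ∈ AnnKI θ → b * x ∈ AnnKI θ ∧ x * b ∈ AnnKI θ := by
  intro b x hx
  constructor
  · intro c hc
    rw [mul_assoc, map_mul, hx c hc, mul_zero]
  · intro c hc
    rw [mul_assoc]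
    exact hx _ (KI_ideal θ b c hc).1

/-- the closed ideal generated by `b` -/
def CI (b : B) : NonUnitalSubalgebra ℂ B where
  carrier := {x | ∀ J : Submodule ℂ B, IsClosed (J : Set B) →
    (∀ y z : B, z ∈ J → y * z ∈ J ∧ z * y ∈ J) → b ∈ J → x ∈ J}
  zero_mem' := fun J _ _ _ => J.zero_mem
  add_mem' := fun hx hy J h1 h2 h3 => J.add_mem (hx J h1 h2 h3) (hy J h1 h2 h3)
  mul_mem' := fun hx _ J h1 h2 h3 => (h2 _ _ (hx J h1 h2 h3)).2
  smul_mem' := fun r _ hx J h1 h2 h3 => J.smul_mem r (hx J h1 h2 h3)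

theorem mem_CI {b x : B} : x ∈ CI b ↔ ∀ J : Submodule ℂ B, IsClosed (J : Set B) →
    (∀ y z : B, z ∈ J → y * z ∈ J ∧ z * y ∈ J) → b ∈ J → x ∈ J := Iff.rfl

theorem CI_closed (b : B) : IsClosed (CI b : Set B) := by
  refine IsSeqClosed.isClosed fun u v hu hv => ?_
  show v ∈ CI b
  rw [mem_CI]
  intro J h1 h2 h3
  exact h1.mem_of_tendsto hv (Eventually.of_forall fun n => (mem_CI.1 (hu n)) J h1 h2 h3)

theorem CI_self (b : B) : b ∈ CI b := fun _ _ _ h => h

theorem CI_right {b x : B} (hx : x ∈ CI b) (y : B) : y * x ∈ CI b :=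
  fun J h1 h2 h3 => (h2 y x (hx J h1 h2 h3)).1

/-- the continuity ideal is essential modulo the kernel -/
theorem KI_essential (hC : PropC A) (θ : B →ₙₐ[ℂ] A) (d : ℕ) (al : Equiv.Perm (Fin d) → ℂ)
    (hal : ∃ s, al s ≠ 0) (hid : MPI θ d al) (b : B) (hb : θ b ≠ 0) :
    ∃ c ∈ KI θ, θ (b * c) ≠ 0 := by
  haveI : Red A := red_of_propC hC
  have hB : PRo θ := (pi_fgc θ d al hal hid).pro
  by_contra hcon
  push Not at hcon
  have hbA : b ∈ AnnKI θ := hcon
  haveI : CompleteSpace (CI b) := (CI_closed b).completeSpace_coe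
  let θ₀ : CI b →ₙₐ[ℂ] A :=
    { toFun := fun x => θ (x : B)
      map_smul' := fun c x => map_smul θ c (x : B)
      map_zero' := map_zero θ
      map_add' := fun x y => map_add θ (x : B) y
      map_mul' := fun x y => map_mul θ (x : B) y }
  have hθ₀ : ∀ x : CI b, θ₀ x = θ (x : B) := fun _ => rfl
  have hid₀ : MPI θ₀ d al := fun x => hid fun i => (x i : B)
  obtain ⟨⟨x, hx, hxs⟩, -⟩ := four hC θ₀ d al hal hid₀ ⟨⟨b, CI_self b⟩, hb⟩
  rw [hθ₀] at hx
  -- `θ x` kills the separating space of `θ`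
  have hxK : (x : B) ∈ KI θ := by
    intro s hs
    have h1 : s * θ (x : B) ∈ Sp θ₀ := by
      obtain ⟨w, hw, hws⟩ := mem_Sp.1 hs
      refine mem_Sp.2 ⟨fun n => ⟨w n * (x : B), CI_right x.2 _⟩, ?_, ?_⟩
      · rw [tendsto_subtype_rng]
        have := hw.mul (tendsto_const_nhds (x := (x : B)))
        rwa [zero_mul] at this
      · refine (hws.mul (tendsto_const_nhds (x := θ (x : B)))).congr fun n => ?_
        exact (map_mul θ _ _).symm
    have h2 := hxs _ h1
    rw [hθ₀] at h2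
    -- `θ x * (s * θ x) = 0`
    apply Red.red
    have h3 : θ (x : B) * s * (θ (x : B) * s) = θ (x : B) * (s * θ (x : B)) * s := by
      simp only [mul_assoc]
    rw [h3, h2, zero_mul]
  have hxA : (x : B) ∈ AnnKI θ := x.2 _ (AnnKI_closed hC θ hB) (AnnKI_ideal θ) hbA
  apply hx
  apply Red.red
  have := hxA _ hxK
  rwa [map_mul] at this

end
end ACG
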