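import Pool.Agent.ACG.Pkg
import Pool.Agent.ACG.Phi

set_option autoImplicit false

/-!
RNG: construction of the package: localise the subring
`{(f, T) | ∃ w ∈ W, T = f(a) + L w}` of `WPS ℂ × Mult E` at the elements `(s, s(a))`, `s ≠ 0`.
-/

namespace ACG
open PowerSeries

section
variable {E : Type} [NonUnitalNormedCommRing E] [NormedSpace ℂ E] [IsScalarTower ℂ E E]
  [SMulCommClass ℂ E E] [CompleteSpace E] [Red E]

/-- The subring `{(f, T) | ∃ w ∈ W, T = f(a) + L w}`. -/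
noncomputable def RngR (a : Mult E) (hb : ∃ K : ℝ, ∀ n : ℕ, ‖a ^ n‖ ≤ K) :
    Subalgebra ℂ (WPS ℂ × Mult E) where
  carrier := {p | ∃ w ∈ Wsub a, p.2 = WPS.ev a hb p.1 + Mult.L w}
  mul_mem' := by
    rintro ⟨f, S⟩ ⟨g, T⟩ ⟨w, hw, h⟩ ⟨w', hw', h'⟩
    simp only at h h'
    refine ⟨(WPS.ev a hb f).ap w' + (WPS.ev a hb g).ap w + (Mult.L w).ap w',
      (Wsub a).add_mem ((Wsub a).add_mem (ap_mem_Wsub a _ hw') (ap_mem_Wsub a _ hw))
        (ap_mem_Wsub a _ hw'), ?_⟩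
    show S * T = WPS.ev a hb (f * g) + _
    rw [h, h', map_mul, map_add, map_add, ← Mult.mul_L, ← Mult.mul_L, ← Mult.mul_L]
    ring
  add_mem' := by
    rintro ⟨f, S⟩ ⟨g, T⟩ ⟨w, hw, h⟩ ⟨w', hw', h'⟩
    simp only at h h'
    refine ⟨w + w', (Wsub a).add_mem hw hw', ?_⟩
    show S + T = WPS.ev a hb (f + g) + _
    rw [h, h', map_add, map_add]
    ring
  algebraMap_mem' := by
    intro r
    refine ⟨0, (Wsub a).zero_mem, ?_⟩
    rw [map_zero, add_zero]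
    show algebraMap ℂ (Mult E) r = WPS.ev a hb (algebraMap ℂ (WPS ℂ) r)
    rw [AlgHom.commutes]

/-- the section `f ↦ (f, f(a))` -/
noncomputable def rngSec (a : Mult E) (hb : ∃ K : ℝ, ∀ n : ℕ, ‖a ^ n‖ ≤ K) :
    WPS ℂ →ₐ[ℂ] RngR a hb :=
  AlgHom.codRestrict ((AlgHom.id ℂ (WPS ℂ)).prod (WPS.ev a hb)) (RngR a hb)
    (fun f => ⟨0, (Wsub a).zero_mem, by rw [map_zero, add_zero]; rfl⟩)

/-- the submonoid of denominators -/
noncomputable def RngM (a : Mult E) (hb : ∃ K : ℝ, ∀ n : ℕ, ‖a ^ n‖ ≤ K) :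
    Submonoid (RngR a hb) :=
  (nonZeroDivisors (WPS ℂ)).map (rngSec a hb)

/-- the first projection -/
noncomputable def rngFst (a : Mult E) (hb : ∃ K : ℝ, ∀ n : ℕ, ‖a ^ n‖ ≤ K) :
    RngR a hb →ₐ[ℂ] FractionRing (WPS ℂ) :=
  (IsScalarTower.toAlgHom ℂ (WPS ℂ) (FractionRing (WPS ℂ))).comp
    ((AlgHom.fst ℂ (WPS ℂ) (Mult E)).comp (RngR a hb).val)

theorem rngFst_apply (a : Mult E) (hb : ∃ K : ℝ, ∀ n : ℕ, ‖a ^ n‖ ≤ K) (x : RngR a hb) :
    rngFst a hb x = algebraMap (WPS ℂ) (FractionRing (WPS ℂ)) x.1.1 := rfl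

/-- the local ring -/
abbrev RngL (a : Mult E) (hb : ∃ K : ℝ, ∀ n : ℕ, ‖a ^ n‖ ≤ K) : Type := Localization (RngM a hb)

theorem rngFst_unit (a : Mult E) (hb : ∃ K : ℝ, ∀ n : ℕ, ‖a ^ n‖ ≤ K) (y : RngM a hb) :
    IsUnit (rngFst a hb y) := by
  obtain ⟨y, s, hs, rfl⟩ := y
  rw [rngFst_apply]
  have hs' : s ≠ 0 := nonZeroDivisors.ne_zero hs
  rw [isUnit_iff_ne_zero]
  show algebraMap (WPS ℂ) (FractionRing (WPS ℂ)) s ≠ 0
  rw [Ne, IsFractionRing.to_map_eq_zero_iff]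
  exact hs'

/-- the residue map -/
noncomputable def rngPi (a : Mult E) (hb : ∃ K : ℝ, ∀ n : ℕ, ‖a ^ n‖ ≤ K) :
    RngL a hb →ₐ[ℂ] FractionRing (WPS ℂ) :=
  IsLocalization.liftAlgHom (M := RngM a hb) (f := rngFst a hb) (rngFst_unit a hb)

theorem rngPi_algebraMap (a : Mult E) (hb : ∃ K : ℝ, ∀ n : ℕ, ‖a ^ n‖ ≤ K) (x : RngR a hb) :
    rngPi a hb (algebraMap (RngR a hb) (RngL a hb) x) = rngFst a hb x := by
  show IsLocalization.lift (rngFst_unit a hb) _ = _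
  exact IsLocalization.lift_eq (rngFst_unit a hb) x

/-- the map `w ↦ (0, L w)` into the subring -/
noncomputable def rngJ (a : Mult E) (hb : ∃ K : ℝ, ∀ n : ℕ, ‖a ^ n‖ ≤ K) :
    Wsub a →ₗ[ℂ] RngR a hb where
  toFun w := ⟨(0, Mult.L (w : E)), w, w.2, by
    show Mult.L (w : E) = WPS.ev a hb 0 + _
    rw [map_zero, zero_add]⟩
  map_add' w w' := by
    apply Subtype.ext
    show ((0 : WPS ℂ), Mult.L ((w + w' : Wsub a) : E)) =
      ((0 : WPS ℂ) + 0, Mult.L (w : E) + Mult.L (w' : E))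
    rw [add_zero, Submodule.coe_add, map_add]
  map_smul' c w := by
    apply Subtype.ext
    show ((0 : WPS ℂ), Mult.L ((c • w : Wsub a) : E)) =
      (c • (0 : WPS ℂ), c • Mult.L (w : E))
    rw [smul_zero, Submodule.coe_smul, map_smul]

theorem rng_ext {a : Mult E} {hb : ∃ K : ℝ, ∀ n : ℕ, ‖a ^ n‖ ≤ K} {x y : RngR a hb}
    (h1 : x.1.1 = y.1.1) (h2 : x.1.2 = y.1.2) : x = y :=
  Subtype.ext (Prod.ext h1 h2)

theorem rng_decomp (a : Mult E) (hb : ∃ K : ℝ, ∀ n : ℕ, ‖a ^ n‖ ≤ K) (x : RngR a hb) :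
    ∃ w : Wsub a, x = rngSec a hb x.1.1 + rngJ a hb w := by
  obtain ⟨⟨f, T⟩, w, hw, h⟩ := x
  refine ⟨⟨w, hw⟩, rng_ext ?_ ?_⟩
  · show f = f + 0
    rw [add_zero]
  · exact h

theorem rng_sec_mul (a : Mult E) (hb : ∃ K : ℝ, ∀ n : ℕ, ‖a ^ n‖ ≤ K) (f : WPS ℂ)
    (w u : Wsub a) (h : (u : E) = (WPS.ev a hb f).ap (w : E)) :
    rngSec a hb f * rngJ a hb w = rngJ a hb u := by
  apply rng_ext
  · show f * 0 = 0
    rw [mul_zero]
  · show WPS.ev a hb f * Mult.L (w : E) = Mult.L (u : E)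
    rw [Mult.mul_L, h]

theorem rng_sec_regular (a : Mult E) (ha : QN a) (hb : ∃ K : ℝ, ∀ n : ℕ, ‖a ^ n‖ ≤ K)
    (hd : ∀ x : E, ∀ ε : ℝ, 0 < ε → ∃ y, ‖x - a.ap y‖ < ε) (s : WPS ℂ) (hs : s ≠ 0)
    (x : RngR a hb) (h : rngSec a hb s * x = 0) : x = 0 := by
  have h1 : s * x.1.1 = 0 := congrArg (fun z : RngR a hb => z.1.1) h
  have h2 : WPS.ev a hb s * x.1.2 = 0 := congrArg (fun z : RngR a hb => z.1.2) h
  apply rng_ext
  · exact (mul_eq_zero.1 h1).resolve_left hs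
  · show x.1.2 = 0
    apply Mult.ap_injective
    intro y
    rw [Mult.ap_zero]
    apply ev_inj a ha hb hd s hs
    rw [← Mult.ap_mul, h2, Mult.ap_zero]

theorem rng_MM_le (a : Mult E) (ha : QN a) (hb : ∃ K : ℝ, ∀ n : ℕ, ‖a ^ n‖ ≤ K)
    (hd : ∀ x : E, ∀ ε : ℝ, 0 < ε → ∃ y, ‖x - a.ap y‖ < ε) :
    RngM a hb ≤ nonZeroDivisors (RngR a hb) := by
  rintro _ ⟨s, hs, rfl⟩
  have hs' : s ≠ 0 := nonZeroDivisors.ne_zero hs
  rw [mem_nonZeroDivisors_iff_right]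
  intro x hx
  apply rng_sec_regular a ha hb hd s hs'
  rw [mul_comm]
  exact hx

theorem rng_mem_MM (a : Mult E) (hb : ∃ K : ℝ, ∀ n : ℕ, ‖a ^ n‖ ≤ K) (s : WPS ℂ) (hs : s ≠ 0) :
    rngSec a hb s ∈ RngM a hb :=
  ⟨s, mem_nonZeroDivisors_iff_ne_zero.2 hs, rfl⟩

theorem exists_pkg (a : Mult E) (ha : QN a) (hb : ∃ K : ℝ, ∀ n : ℕ, ‖a ^ n‖ ≤ K)
    (hd : ∀ x : E, ∀ ε : ℝ, 0 < ε → ∃ y, ‖x - a.ap y‖ < ε) :
    ∃ (L : Type) (_ : CommRing L) (_ : Algebra ℂ L) (π : L →ₐ[ℂ] FractionRing (WPS ℂ))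
      (ι : WPS ℂ →ₐ[ℂ] L) (j : Wsub a →ₗ[ℂ] L), IsPkg a hb L π ι j := by
  set A := algebraMap (RngR a hb) (RngL a hb) with hA
  have hAinj : Function.Injective A := IsLocalization.injective (RngL a hb) (rng_MM_le a ha hb hd)
  have hunit : ∀ s : WPS ℂ, s ≠ 0 → IsUnit (A (rngSec a hb s)) := fun s hs =>
    IsLocalization.map_units (RngL a hb) ⟨rngSec a hb s, rng_mem_MM a hb s hs⟩
  have hpi : ∀ x, rngPi a hb (A x) = algebraMap (WPS ℂ) (FractionRing (WPS ℂ)) x.1.1 := fun x => by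
    rw [rngPi_algebraMap, rngFst_apply]
  have hfrac : ∀ l : RngL a hb, ∃ (s : WPS ℂ) (x : RngR a hb), s ≠ 0 ∧ A (rngSec a hb s) * l = A x := by
    intro l
    obtain ⟨⟨x, ⟨_, s, hs, rfl⟩⟩, h⟩ := IsLocalization.surj (RngM a hb) l
    refine ⟨s, x, nonZeroDivisors.ne_zero hs, ?_⟩
    rw [mul_comm]
    exact h
  have hpil : ∀ (l : RngL a hb) (s : WPS ℂ) (x : RngR a hb), s ≠ 0 → A (rngSec a hb s) * l = A x →
      algebraMap (WPS ℂ) (FractionRing (WPS ℂ)) s * rngPi a hb l =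
        algebraMap (WPS ℂ) (FractionRing (WPS ℂ)) x.1.1 := by
    intro l s x hs h
    have h1 := congrArg (rngPi a hb) h
    rw [map_mul, hpi, hpi] at h1
    exact h1
  have hinj : Function.Injective (algebraMap (WPS ℂ) (FractionRing (WPS ℂ))) :=
    IsFractionRing.injective _ _
  have hne : ∀ s : WPS ℂ, s ≠ 0 → algebraMap (WPS ℂ) (FractionRing (WPS ℂ)) s ≠ 0 := fun s hs h =>
    hs (hinj (by rw [h, map_zero]))
  let jj : Wsub a →ₗ[ℂ] RngL a hb :=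
    (IsScalarTower.toAlgHom ℂ (RngR a hb) (RngL a hb)).toLinearMap.comp (rngJ a hb)
  have hjj : ∀ w, jj w = A (rngJ a hb w) := fun _ => rfl
  let ii : WPS ℂ →ₐ[ℂ] RngL a hb := (IsScalarTower.toAlgHom ℂ (RngR a hb) (RngL a hb)).comp (rngSec a hb)
  have hii : ∀ f, ii f = A (rngSec a hb f) := fun _ => rfl
  refine ⟨RngL a hb, inferInstance, inferInstance, rngPi a hb, ii, jj, ?_⟩
  refine ⟨?_, ?_, ?_, ?_, ?_, ?_, ?_, ?_, ?_⟩
  · intro f
    rw [hii, hpi]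
    rfl
  · intro w
    rw [hjj, hpi]
    show algebraMap (WPS ℂ) (FractionRing (WPS ℂ)) 0 = 0
    rw [map_zero]
  · intro z
    obtain ⟨f, s, hs, rfl⟩ := IsFractionRing.div_surjective (A := WPS ℂ) z
    have hs' : s ≠ 0 := nonZeroDivisors.ne_zero hs
    obtain ⟨u, hu⟩ := hunit s hs'
    refine ⟨(↑u⁻¹ : RngL a hb) * A (rngSec a hb f), ?_⟩
    rw [eq_div_iff (hne s hs'), mul_comm]
    have h1 := hpil ((↑u⁻¹ : RngL a hb) * A (rngSec a hb f)) s (rngSec a hb f) hs' (by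
      rw [← hu, ← mul_assoc, Units.mul_inv, one_mul])
    exact h1
  · intro l hl
    obtain ⟨s, x, hs, h⟩ := hfrac l
    have h1 := hpil l s x hs h
    rw [hl, mul_zero] at h1
    have h2 : x.1.1 = 0 := (hinj (by rw [map_zero]; exact h1)).symm
    obtain ⟨w, hw⟩ := rng_decomp a hb x
    rw [h2, map_zero, zero_add] at hw
    obtain ⟨w', hw', h3⟩ := ev_surj a ha hb hd s hs w.2
    refine ⟨⟨w', hw'⟩, ?_⟩
    rw [hjj]
    have h4 : A (rngSec a hb s) * l = A (rngSec a hb s) * A (rngJ a hb ⟨w', hw'⟩) := by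
      rw [h, hw, ← map_mul, rng_sec_mul a hb s ⟨w', hw'⟩ w h3.symm]
    exact (hunit s hs).mul_left_cancel h4
  · intro w w' h
    rw [hjj, hjj] at h
    have h1 := hAinj h
    have h2 : Mult.L (w : E) = Mult.L (w' : E) := congrArg (fun z : RngR a hb => z.1.2) h1
    exact Subtype.ext (Mult.L_injective h2)
  · intro w w' u hu
    rw [hjj, hjj, hjj, ← map_mul]
    congr 1
    apply rng_ext
    · show (0 : WPS ℂ) * 0 = 0
      rw [mul_zero]
    · show Mult.L (w : E) * Mult.L (w' : E) = Mult.L (u : E)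
      rw [← Mult.L_mul, hu]
  · intro f w u hu
    rw [hii, hjj, hjj, ← map_mul, rng_sec_mul a hb f w u hu]
  · intro l hl
    obtain ⟨s, x, hs, h⟩ := hfrac l
    have h1 := hpil l s x hs h
    have hx : x.1.1 ≠ 0 := by
      intro h2
      rw [h2, map_zero] at h1
      exact (mul_ne_zero (hne s hs) hl) h1
    obtain ⟨w, hw⟩ := rng_decomp a hb x
    obtain ⟨w', hw', h3⟩ := ev_surj a ha hb hd x.1.1 hx w.2
    -- the unit `1 + L w'`
    have hU : IsUnit (1 + Mult.L w' : Mult E) := by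
      have hq : QN (Mult.L w') := QN_L a ha hw'
      obtain ⟨C, hC⟩ := hq (1 / 2) (by norm_num)
      have hlim : Filter.Tendsto (fun n : ℕ => C * (1 / 2 : ℝ) ^ n) Filter.atTop (nhds 0) := by
        have := (tendsto_pow_atTop_nhds_zero_of_lt_one (r := (1 / 2 : ℝ)) (by norm_num)
          (by norm_num)).const_mul C
        rwa [mul_zero] at this
      obtain ⟨N, hN⟩ :=
        (hlim.eventually_lt_const (show (0 : ℝ) < 1 by norm_num)).exists_forall_of_atTop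
      have h5 : ‖(-(Mult.L w')) ^ N‖ < 1 := by
        have h6 : ‖(-(Mult.L w')) ^ N‖ = ‖(Mult.L w') ^ N‖ := by
          rcases Nat.even_or_odd N with h | h
          · rw [h.neg_pow]
          · rw [h.neg_pow, norm_neg]
        rw [h6]
        exact (hC N).trans_lt (hN N le_rfl)
      have h7 : IsUnit (1 - (-(Mult.L w')) ^ N) := isUnit_one_sub_of_norm_lt_one h5
      have h8 : (1 : Mult E) - (-(Mult.L w')) ∣ 1 ^ N - (-(Mult.L w')) ^ N :=
        sub_dvd_pow_sub_pow 1 (-(Mult.L w')) N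
      rw [one_pow, sub_neg_eq_add] at h8
      exact isUnit_of_dvd_unit h8 h7
    obtain ⟨v, hv⟩ := hU
    -- its inverse lies in the subring
    set w2 : E := -((↑v⁻¹ : Mult E).ap w') with hw2
    have hw2m : w2 ∈ Wsub a := (Wsub a).neg_mem (ap_mem_Wsub a _ hw')
    have hinv : (1 + Mult.L w') * (1 + Mult.L w2) = 1 := by
      have h9 : Mult.L w2 = -((↑v⁻¹ : Mult E) * Mult.L w') := by
        rw [hw2, map_neg, Mult.mul_L]
      rw [h9, ← hv]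
      have h10 : (v : Mult E) * (1 + -((↑v⁻¹ : Mult E) * Mult.L w')) =
          (v : Mult E) - ((v : Mult E) * (↑v⁻¹ : Mult E)) * Mult.L w' := by ring
      rw [h10, Units.mul_inv, one_mul, hv, add_sub_cancel_right]
    have hprod : (1 + rngJ a hb ⟨w', hw'⟩) * (1 + rngJ a hb ⟨w2, hw2m⟩) = 1 := by
      apply rng_ext
      · show ((1 : WPS ℂ) + 0) * (1 + 0) = 1
        rw [add_zero, mul_one]
      · exact hinv
    have hxe : x = rngSec a hb x.1.1 * (1 + rngJ a hb ⟨w', hw'⟩) := by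
      rw [mul_add, mul_one, rng_sec_mul a hb x.1.1 ⟨w', hw'⟩ w h3.symm]
      exact hw
    have hxu : IsUnit (A x) := by
      rw [hxe, map_mul]
      apply IsUnit.mul (hunit _ hx)
      apply IsUnit.of_mul_eq_one (A (1 + rngJ a hb ⟨w2, hw2m⟩))
      rw [← map_mul, hprod, map_one]
    rw [← h] at hxu
    exact isUnit_of_mul_isUnit_right hxu
  · intro l
    obtain ⟨s, x, hs, h⟩ := hfrac l
    obtain ⟨w, hw⟩ := rng_decomp a hb x
    refine ⟨s, x.1.1, w, hs, ?_⟩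
    rw [hii, hii, hjj, h, ← map_add]
    congr 1

end
end ACG
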