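import Pool.Agent.ACG.RedC
import Pool.Agent.ACG.Ker

set_option autoImplicit false

/-!
SCAL: on a closed subspace on which every `∑ α n u n` acts either as zero or with dense range,
`u 1` acts as a scalar of modulus one.
-/

namespace ACG

section ScalAux

variable {A : Type} [NonUnitalNormedRing A] [NormedSpace ℂ A]
    [IsScalarTower ℂ A A] [SMulCommClass ℂ A A] [CompleteSpace A]

private theorem scal_sum (u : ℤ → A) (K : ℝ) (hK : ∀ n, ‖u n‖ ≤ K) (α : ℤ → ℂ)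
    (hα : Summable (fun n => ‖α n‖)) : Summable (fun n => ‖α n • u n‖) := by
  refine Summable.of_nonneg_of_le (fun n => norm_nonneg _) (fun n => ?_) (hα.mul_right K)
  rw [norm_smul]
  exact mul_le_mul_of_nonneg_left (hK n) (norm_nonneg _)

private theorem scal_norm (u : ℤ → A) (K : ℝ) (hK : ∀ n, ‖u n‖ ≤ K) (α : ℤ → ℂ)
    (hα : Summable (fun n => ‖α n‖)) : ‖∑' n, α n • u n‖ ≤ (∑' n, ‖α n‖) * K := by
  refine (norm_tsum_le_tsum_norm (scal_sum u K hK α hα)).trans ?_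
  rw [← tsum_mul_right]
  refine Summable.tsum_le_tsum (fun n => ?_) (scal_sum u K hK α hα) (hα.mul_right K)
  rw [norm_smul]
  exact mul_le_mul_of_nonneg_left (hK n) (norm_nonneg _)

private theorem scal_mul (u : ℤ → A) (hu : ∀ m n, u (m + n) = u m * u n) (K : ℝ)
    (hK : ∀ n, ‖u n‖ ≤ K) (α β : ℤ → ℂ) (hα : Summable (fun n => ‖α n‖))
    (hβ : Summable (fun n => ‖β n‖)) (h : ∀ n, ∑' k, α k * β (n - k) = α n) :
    (∑' n, β n • u n) * (∑' n, α n • u n) = ∑' n, α n • u n := by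
  have hsm : Summable (fun z : ℤ × ℤ => (β z.1 • u z.1) * (α z.2 • u z.2)) :=
    Summable.of_norm_bounded ((scal_sum u K hK β hβ).mul_of_nonneg (scal_sum u K hK α hα)
      (fun _ => norm_nonneg _) (fun _ => norm_nonneg _)) (fun z => norm_mul_le _ _)
  rw [(scal_sum u K hK β hβ).of_norm.tsum_mul_tsum (scal_sum u K hK α hα).of_norm hsm]
  have h1 : ∀ z : ℤ × ℤ, (β z.1 • u z.1) * (α z.2 • u z.2) =
      (β z.1 * α z.2) • u (z.1 + z.2) := by
    intro z
    rw [smul_mul_smul_comm, hu]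
  let e : ℤ × ℤ ≃ ℤ × ℤ := ⟨fun z => (z.1 - z.2, z.2), fun z => (z.1 + z.2, z.2),
    fun z => by simp, fun z => by simp⟩
  have hs : Summable (fun z : ℤ × ℤ => (β (z.1 - z.2) * α z.2) • u z.1) := by
    have h2 := e.summable_iff.2 hsm
    refine h2.congr (fun z => ?_)
    show (β (e z).1 • u (e z).1) * (α (e z).2 • u (e z).2) = _
    rw [h1]
    show (β (z.1 - z.2) * α z.2) • u (z.1 - z.2 + z.2) = _
    rw [sub_add_cancel]
  have h3 : ∑' z : ℤ × ℤ, (β z.1 • u z.1) * (α z.2 • u z.2) =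
      ∑' z : ℤ × ℤ, (β (z.1 - z.2) * α z.2) • u z.1 := by
    rw [← e.tsum_eq]
    refine tsum_congr (fun z => ?_)
    rw [h1]
    show (β (z.1 - z.2) * α z.2) • u (z.1 - z.2 + z.2) = _
    rw [sub_add_cancel]
  rw [h3, hs.tsum_prod]
  refine tsum_congr (fun n => ?_)
  have h4 : Summable (fun k => β (n - k) * α k) := by
    refine Summable.of_norm_bounded (hα.mul_left (∑' n, ‖β n‖)) (fun k => ?_)
    rw [norm_mul]
    exact mul_le_mul_of_nonneg_right (hβ.le_tsum (n - k) (fun j _ => norm_nonneg _))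
      (norm_nonneg _)
  show ∑' k, (β (n - k) * α k) • u n = α n • u n
  rw [h4.tsum_smul_const]
  congr 1
  rw [← h n]
  exact tsum_congr (fun k => mul_comm _ _)

private theorem scal_approx (u : ℤ → A)
    (hu : ∀ m n, u (m + n) = u m * u n) (K : ℝ) (hK : ∀ n, ‖u n‖ ≤ K) (S : Submodule ℂ A)
    (hS : S ≠ ⊥) (h0 : ∀ s ∈ S, u 0 * s = s)
    (hst : ∀ α : ℤ → ℂ, Summable (fun n => ‖α n‖) →
      (∀ s ∈ S, (∑' n, α n • u n) * s = 0) ∨
      (∀ s ∈ S, ∀ ε : ℝ, 0 < ε → ∃ s' ∈ S, ‖s - (∑' n, α n • u n) * s'‖ < ε))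
    (ε : ℝ) (hε : 0 < ε) :
    ∃ w : ℂ, ‖w‖ = 1 ∧ ∀ s ∈ S, ‖u 1 * s - w • s‖ ≤ ε * K * ‖s‖ := by
  obtain ⟨α, β, hα, hβ, hconv, hα0, hβ1, -⟩ := kernels ε hε
  obtain ⟨s0, hs0, hs0'⟩ := Submodule.exists_mem_ne_zero_of_ne_bot hS
  have hαy : ∀ y : ℂ, ‖y‖ = 1 → Summable (fun n => ‖α n * y ^ n‖) := by
    intro y hy
    refine hα.congr (fun n => ?_)
    rw [norm_mul, norm_zpow, hy, one_zpow, mul_one]
  have hβy : ∀ y : ℂ, ‖y‖ = 1 → Summable (fun n => ‖β n * y ^ n‖) := by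
    intro y hy
    refine hβ.congr (fun n => ?_)
    rw [norm_mul, norm_zpow, hy, one_zpow, mul_one]
  have hK0 : 0 ≤ K := (norm_nonneg _).trans (hK 0)
  obtain ⟨y, hy, hy2⟩ : ∃ y : ℂ, ‖y‖ = 1 ∧
      ¬ (∀ s ∈ S, (∑' n, (α n * y ^ n) • u n) * s = 0) := by
    by_contra hcon
    push Not at hcon
    have h1 := coef_zero (fun n => α n • (u n * s0)) ?_ ?_
    · have h1' : α 0 • (u 0 * s0) = 0 := h1
      rw [h0 s0 hs0] at h1'
      rcases smul_eq_zero.1 h1' with h2 | h2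
      · exact hα0 h2
      · exact hs0' h2
    · refine Summable.of_nonneg_of_le (fun n => norm_nonneg _) (fun n => ?_)
        (hα.mul_right (K * ‖s0‖))
      rw [norm_smul]
      refine mul_le_mul_of_nonneg_left ?_ (norm_nonneg _)
      exact (norm_mul_le _ _).trans (mul_le_mul_of_nonneg_right (hK n) (norm_nonneg _))
    · intro y hy
      rw [← hcon y hy s0 hs0, ← (scal_sum u K hK _ (hαy y hy)).of_norm.tsum_mul_right]
      refine tsum_congr (fun n => ?_)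
      rw [smul_mul_assoc, mul_smul, smul_comm]
  have hy0 : y ≠ 0 := by
    intro h
    rw [h, norm_zero] at hy
    exact zero_ne_one hy
  have hdense := (hst _ (hαy y hy)).resolve_left hy2
  set Pp := ∑' n, (α n * y ^ n) • u n with hP
  set Q := ∑' n, (β n * y ^ n) • u n with hQ
  have hQP : Q * Pp = Pp := by
    refine scal_mul u hu K hK _ _ (hαy y hy) (hβy y hy) (fun n => ?_)
    have h1 : ∀ k, α k * y ^ k * (β (n - k) * y ^ (n - k)) = α k * β (n - k) * y ^ n := by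
      intro k
      have h2 : y ^ n = y ^ k * y ^ (n - k) := by
        rw [← zpow_add₀ hy0]
        congr 1
        ring
      rw [h2]
      ring
    rw [tsum_congr h1, tsum_mul_right, hconv n]
  -- `Q s = s`
  have hQs : ∀ s ∈ S, Q * s = s := by
    intro s hs
    have h1 : ∀ δ : ℝ, 0 < δ → ‖Q * s - s‖ ≤ 0 + δ := by
      intro δ hδ
      obtain ⟨s', hs', hlt⟩ := hdense s hs (δ / (‖Q‖ + 1)) (by positivity)
      have h2 : Q * s - s = Q * (s - Pp * s') - (s - Pp * s') := by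
        rw [mul_sub, ← mul_assoc, hQP]
        abel
      rw [h2, zero_add]
      refine (norm_sub_le _ _).trans ?_
      have h3 := norm_mul_le Q (s - Pp * s')
      have h4 : (‖Q‖ + 1) * ‖s - Pp * s'‖ ≤ (‖Q‖ + 1) * (δ / (‖Q‖ + 1)) :=
        mul_le_mul_of_nonneg_left hlt.le (by positivity)
      rw [mul_div_cancel₀ _ (by positivity)] at h4
      linarith
    have h5 := le_of_forall_pos_le_add h1
    exact sub_eq_zero.1 (norm_le_zero_iff.1 h5)
  refine ⟨y⁻¹, by rw [norm_inv, hy, inv_one], fun s hs => ?_⟩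
  -- the difference
  have hγ : Summable (fun n => ‖(β (n - 1) - β n) * y ^ (n - 1)‖) := by
    have h1 : Summable (fun n => ‖β (n - 1)‖) := by
      have := (Equiv.subRight (1 : ℤ)).summable_iff.2 hβ
      exact this
    refine Summable.of_nonneg_of_le (fun n => norm_nonneg _) (fun n => ?_) (h1.add hβ)
    rw [norm_mul, norm_zpow, hy, one_zpow, mul_one]
    exact norm_sub_le _ _
  have hu1 : u 1 * Q = ∑' n, (β (n - 1) * y ^ (n - 1)) • u n := by
    rw [hQ, ← (scal_sum u K hK _ (hβy y hy)).of_norm.tsum_mul_left,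
      ← (Equiv.subRight (1 : ℤ)).tsum_eq]
    refine tsum_congr (fun n => ?_)
    show u 1 * ((β (n - 1) * y ^ (n - 1)) • u (n - 1)) = _
    rw [mul_smul_comm, ← hu, add_sub_cancel]
  have hyQ : y⁻¹ • Q = ∑' n, (β n * y ^ (n - 1)) • u n := by
    rw [hQ, ← (scal_sum u K hK _ (hβy y hy)).of_norm.tsum_const_smul]
    refine tsum_congr (fun n => ?_)
    rw [smul_smul]
    congr 1
    rw [zpow_sub_one₀ hy0]
    ring
  have hs1 : Summable (fun n => (β (n - 1) * y ^ (n - 1)) • u n) := by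
    refine (scal_sum u K hK _ ?_).of_norm
    have := (Equiv.subRight (1 : ℤ)).summable_iff.2 (hβy y hy)
    exact this
  have hs2 : Summable (fun n => (β n * y ^ (n - 1)) • u n) := by
    refine (scal_sum u K hK _ ?_).of_norm
    refine hβ.congr (fun n => ?_)
    rw [norm_mul, norm_zpow, hy, one_zpow, mul_one]
  have hdiff : u 1 * s - y⁻¹ • s = (∑' n, ((β (n - 1) - β n) * y ^ (n - 1)) • u n) * s := by
    have h1 : u 1 * Q - y⁻¹ • Q = ∑' n, ((β (n - 1) - β n) * y ^ (n - 1)) • u n := by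
      rw [hu1, hyQ, ← hs1.tsum_sub hs2]
      refine tsum_congr (fun n => ?_)
      rw [← sub_smul, sub_mul]
    rw [← h1, sub_mul, mul_assoc, smul_mul_assoc, hQs s hs]
  rw [hdiff]
  refine (norm_mul_le _ _).trans (mul_le_mul_of_nonneg_right ?_ (norm_nonneg _))
  refine (scal_norm u K hK _ hγ).trans (mul_le_mul_of_nonneg_right ?_ hK0)
  refine le_trans (le_of_eq ?_) hβ1
  refine tsum_congr (fun n => ?_)
  rw [norm_mul, norm_zpow, hy, one_zpow, mul_one, norm_sub_rev]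

end ScalAux

theorem scalar_of_stable {A : Type} [NonUnitalNormedRing A] [NormedSpace ℂ A]
    [IsScalarTower ℂ A A] [SMulCommClass ℂ A A] [CompleteSpace A] (u : ℤ → A)
    (hu : ∀ m n, u (m + n) = u m * u n) (K : ℝ) (hK : ∀ n, ‖u n‖ ≤ K) (S : Submodule ℂ A)
    (hS : S ≠ ⊥) (hcl : IsClosed (S : Set A)) (h0 : ∀ s ∈ S, u 0 * s = s)
    (hst : ∀ α : ℤ → ℂ, Summable (fun n => ‖α n‖) →
      (∀ s ∈ S, (∑' n, α n • u n) * s = 0) ∨
      (∀ s ∈ S, ∀ ε : ℝ, 0 < ε → ∃ s' ∈ S, ‖s - (∑' n, α n • u n) * s'‖ < ε)) :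
    ∃ t : ℂ, ‖t‖ = 1 ∧ ∀ s ∈ S, u 1 * s = t • s := by
  have _ := hcl
  have key : ∀ k : ℕ, ∃ w : ℂ, ‖w‖ = 1 ∧
      ∀ s ∈ S, ‖u 1 * s - w • s‖ ≤ (1 / ((k : ℝ) + 1)) * K * ‖s‖ :=
    fun k => scal_approx u hu K hK S hS h0 hst _ (by positivity)
  choose w hw1 hw2 using key
  obtain ⟨t, ht, φ, hφ, hlim⟩ := (isCompact_sphere (0 : ℂ) 1).tendsto_subseq
    (x := w) (fun k => by rw [mem_sphere_zero_iff_norm]; exact hw1 k)
  refine ⟨t, mem_sphere_zero_iff_norm.1 ht, fun s hs => ?_⟩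
  have h1 : Filter.Tendsto (fun k => (1 / ((φ k : ℝ) + 1)) * K * ‖s‖) Filter.atTop (nhds 0) := by
    have h2 := (tendsto_one_div_add_atTop_nhds_zero_nat (𝕜 := ℝ)).comp hφ.tendsto_atTop
    have h3 := (h2.mul_const K).mul_const ‖s‖
    rw [zero_mul, zero_mul] at h3
    exact h3
  have h4 : Filter.Tendsto (fun k => ‖u 1 * s - w (φ k) • s‖) Filter.atTop
      (nhds ‖u 1 * s - t • s‖) :=
    (tendsto_const_nhds.sub (hlim.smul_const s)).norm
  have h5 : Filter.Tendsto (fun k => ‖u 1 * s - w (φ k) • s‖) Filter.atTop (nhds 0) :=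
    squeeze_zero (fun k => norm_nonneg _) (fun k => hw2 (φ k) s hs) h1
  have h6 := tendsto_nhds_unique h4 h5
  exact sub_eq_zero.1 (norm_eq_zero.1 h6)

end ACG
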