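import Pool.Agent.ACG.Allan
import Pool.Agent.ACG.Res
import Pool.Agent.ACG.Cent

set_option autoImplicit false

/-!
STAR: `θ(p)` acts as the identity on the elements of `NN θ δ t` commuting with it.
-/

namespace ACG

section
variable {A B G : Type} [NonUnitalNormedRing A] [NormedSpace ℂ A] [IsScalarTower ℂ A A]
  [SMulCommClass ℂ A A] [CompleteSpace A] [NormedRing B] [NormedAlgebra ℂ B] [CompleteSpace B]
  [Group G]

theorem cen_u (hC : PropC A) (θ : B →ₙₐ[ℂ] A) (δ : G →* B) (hδ : ∀ g, ‖δ g‖ ≤ 1) (g : G) :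
    Cen (θ (δ g)) := by
  have : Red A := red_of_propC hC
  obtain ⟨K, hK, -⟩ := restr_group hC θ δ hδ g
  have h := central_of_bdd (fun n : ℤ => θ (δ (g ^ n))) (by
    intro m n
    rw [zpow_add, map_mul, map_mul]) K hK
  simpa using h

omit [CompleteSpace A] [CompleteSpace B] in
theorem NN_mul_right {θ : B →ₙₐ[ℂ] A} {δ : G →* B} {t : G → ℂ} {y : A} (hy : y ∈ NN θ δ t)
    (a : A) : y * a ∈ NN θ δ t := by
  refine ⟨?_, fun g => ?_⟩
  · rw [← mul_assoc, hy.1]
  · rw [← mul_assoc, hy.2 g, smul_mul_assoc]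

omit [CompleteSpace A] [CompleteSpace B] in
theorem NN_mul_left {θ : B →ₙₐ[ℂ] A} {δ : G →* B} {t : G → ℂ} (hcen : ∀ g, Cen (θ (δ g)))
    {y : A} (hy : y ∈ NN θ δ t) (a : A) : a * y ∈ NN θ δ t := by
  have h1 : Cen (θ 1) := by
    have := hcen 1
    rwa [map_one] at this
  refine ⟨?_, fun g => ?_⟩
  · rw [← mul_assoc, h1, mul_assoc, hy.1]
  · rw [← mul_assoc, hcen g, mul_assoc, hy.2 g, mul_smul_comm]

omit [CompleteSpace A] [CompleteSpace B] in
theorem NN_isClosed (θ : B →ₙₐ[ℂ] A) (δ : G →* B) (t : G → ℂ) :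
    IsClosed (NN θ δ t : Set A) := by
  have h : (NN θ δ t : Set A) = {x | θ 1 * x = x} ∩ ⋂ g, {x | θ (δ g) * x = t g • x} := by
    ext x
    simp only [Set.mem_inter_iff, Set.mem_iInter, Set.mem_ofPred_eq]
    rfl
  rw [h]
  refine IsClosed.inter ?_ (isClosed_iInter fun g => ?_)
  · exact isClosed_eq (continuous_const.mul continuous_id) continuous_id
  · exact isClosed_eq (continuous_const.mul continuous_id) (continuous_const_smul _)

/-- the terms of `pos` -/
noncomputable def ptm (δ : G →* B) (t : G → ℂ) (p : ℕ → ℝ) (g : ℕ → G) (n : ℕ) : B :=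
  ((p n : ℂ) * (starRingEnd ℂ) (t (g n))) • δ (g n)

omit [CompleteSpace B] in
theorem ptm_norm {δ : G →* B} (hδ : ∀ g, ‖δ g‖ ≤ 1) {t : G → ℂ} (ht : ∀ g, ‖t g‖ = 1)
    {p : ℕ → ℝ} (hp : ∀ n, 0 ≤ p n) (g : ℕ → G) (n : ℕ) : ‖ptm δ t p g n‖ ≤ p n := by
  unfold ptm
  rw [norm_smul, norm_mul, Complex.norm_real, Real.norm_of_nonneg (hp n), RCLike.norm_conj, ht,
    mul_one]
  calc p n * ‖δ (g n)‖ ≤ p n * 1 := mul_le_mul_of_nonneg_left (hδ _) (hp n)
    _ = p n := mul_one _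

omit [CompleteSpace B] in
theorem pos_norm {δ : G →* B} (hδ : ∀ g, ‖δ g‖ ≤ 1) {t : G → ℂ} (ht : ∀ g, ‖t g‖ = 1)
    {p : ℕ → ℝ} (hp : ∀ n, 0 ≤ p n) (hs : Summable p) (g : ℕ → G) :
    ‖pos δ t p g‖ ≤ ∑' n, p n :=
  tsum_of_norm_bounded hs.hasSum (ptm_norm hδ ht hp g)

omit [CompleteSpace A] [CompleteSpace B] in
theorem theta_ptm {θ : B →ₙₐ[ℂ] A} {δ : G →* B} {t : G → ℂ} (ht : ∀ g, ‖t g‖ = 1)
    (p : ℕ → ℝ) (g : ℕ → G) {y : A} (hy : y ∈ NN θ δ t) (n : ℕ) :
    θ (ptm δ t p g n) * y = (p n : ℂ) • y := by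
  unfold ptm
  rw [map_smul, smul_mul_assoc, hy.2, smul_smul, mul_assoc]
  have h : (starRingEnd ℂ) (t (g n)) * t (g n) = 1 := by
    rw [← Complex.normSq_eq_conj_mul_self, Complex.normSq_eq_norm_sq, ht]
    norm_num
  rw [h, mul_one]

/-- the element `h_k` -/
noncomputable def hk (δ : G →* B) (t : G → ℂ) (p : ℕ → ℝ) (g : ℕ → G) (k : ℕ) : B :=
  ((∑' n, p (n + k) : ℝ) : ℂ) • 1 - ∑' n, ptm δ t p g (n + k)

omit [CompleteSpace B] in
theorem hk_norm {δ : G →* B} (hδ : ∀ g, ‖δ g‖ ≤ 1) {t : G → ℂ} (ht : ∀ g, ‖t g‖ = 1)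
    {p : ℕ → ℝ} (hp : ∀ n, 0 ≤ p n) (hs : Summable p) (g : ℕ → G) (k : ℕ) :
    ‖hk δ t p g k‖ ≤ 2 * ∑' n, p (n + k) := by
  have h1 : ‖(1 : B)‖ ≤ 1 := by
    have := hδ 1
    rwa [map_one] at this
  have h2 : Summable fun n => p (n + k) := (summable_nat_add_iff k).2 hs
  have h3 : 0 ≤ ∑' n, p (n + k) := tsum_nonneg fun n => hp _
  have h4 : ‖∑' n, ptm δ t p g (n + k)‖ ≤ ∑' n, p (n + k) :=
    tsum_of_norm_bounded h2.hasSum fun n => ptm_norm hδ ht hp g (n + k)
  unfold hk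
  refine (norm_sub_le _ _).trans ?_
  rw [norm_smul, Complex.norm_real, Real.norm_of_nonneg h3]
  nlinarith [norm_nonneg (1 : B)]

omit [CompleteSpace A] in
theorem theta_hk {θ : B →ₙₐ[ℂ] A} {δ : G →* B} (hδ : ∀ g, ‖δ g‖ ≤ 1) {t : G → ℂ}
    (ht : ∀ g, ‖t g‖ = 1) {p : ℕ → ℝ} (hp : ∀ n, 0 ≤ p n) (hs : Summable p)
    (h1 : ∑' n, p n = 1) (g : ℕ → G) {y : A} (hy : y ∈ NN θ δ t) (k : ℕ) :
    (θ 1 - θ (pos δ t p g)) * y = θ (hk δ t p g k) * y := by
  have hsum : Summable (ptm δ t p g) := Summable.of_norm_bounded hs (ptm_norm hδ ht hp g)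
  have e1 : pos δ t p g = ∑ n ∈ Finset.range k, ptm δ t p g n + ∑' n, ptm δ t p g (n + k) :=
    (hsum.sum_add_tsum_nat_add k).symm
  have e2 : (∑ n ∈ Finset.range k, p n) + ∑' n, p (n + k) = 1 := by
    rw [hs.sum_add_tsum_nat_add k, h1]
  have e3 : (∑' n, p (n + k)) = 1 - ∑ n ∈ Finset.range k, p n := by linarith
  unfold hk
  rw [e1, map_add, map_sub, map_smul, map_sum, sub_mul, sub_mul, add_mul, Finset.sum_mul,
    smul_mul_assoc, hy.1, e3]
  have e4 : ∑ n ∈ Finset.range k, θ (ptm δ t p g n) * y =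
      ((∑ n ∈ Finset.range k, p n : ℝ) : ℂ) • y := by
    rw [Finset.sum_congr rfl fun n _ => theta_ptm ht p g hy n, ← Finset.sum_smul,
      Complex.ofReal_sum]
  rw [e4, Complex.ofReal_sub, Complex.ofReal_one, sub_smul, one_smul]
  abel

theorem star (hC : PropC A) (θ : B →ₙₐ[ℂ] A) {δ : G →* B} (hG : GA B G δ) {t : G → ℂ}
    (ht : ∀ g, ‖t g‖ = 1) (p : ℕ → ℝ) (hp : ∀ n, 0 ≤ p n) (hs : Summable p)
    (h1 : ∑' n, p n = 1) (g : ℕ → G) (x : A) (hx : x ∈ NN θ δ t)
    (hc : x * θ (pos δ t p g) = θ (pos δ t p g) * x) : θ (pos δ t p g) * x = x := by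
  have hδ := hG.norm_le
  have hcen : ∀ g, Cen (θ (δ g)) := cen_u hC θ δ hδ
  have hcen1 : Cen (θ 1) := by
    have := hcen 1
    rwa [map_one] at this
  have hone : ‖(1 : B)‖ ≤ 1 := by
    have := hδ 1
    rwa [map_one] at this
  set P := pos δ t p g with hP
  set M := θ P with hM
  set T := θ 1 - M with hT
  -- powers of `P`
  have hPn : ∀ n : ℕ, ‖P ^ n‖ ≤ 1 := by
    intro n
    have hP1 : ‖P‖ ≤ 1 := (pos_norm hδ ht hp hs g).trans h1.le
    rcases n with _ | n
    · rwa [pow_zero]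
    · exact (norm_pow_le' P n.succ_pos).trans (pow_le_one₀ (norm_nonneg _) hP1)
  obtain ⟨C, hC0, hCn⟩ := restr_pow hC θ P
  have hMC : ∀ n : ℕ, ‖θ (P ^ n)‖ ≤ C := fun n =>
    (hCn n).trans (by nlinarith [hPn n])
  -- the commutant
  let Y : Submodule ℂ A :=
    { carrier := {y | y ∈ NN θ δ t ∧ ∀ w, w * M = M * w → w * x = x * w → w * y = y * w}
      zero_mem' := ⟨zero_mem _, fun w _ _ => by rw [mul_zero, zero_mul]⟩
      add_mem' := by
        rintro y y' ⟨hy, hy'⟩ ⟨hz, hz'⟩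
        exact ⟨add_mem hy hz, fun w hw hw' => by
          rw [mul_add, add_mul, hy' w hw hw', hz' w hw hw']⟩
      smul_mem' := by
        rintro c y ⟨hy, hy'⟩
        exact ⟨Submodule.smul_mem _ c hy, fun w hw hw' => by
          rw [mul_smul_comm, smul_mul_assoc, hy' w hw hw']⟩ }
  have hYmem : ∀ y, y ∈ Y ↔ y ∈ NN θ δ t ∧
      ∀ w, w * M = M * w → w * x = x * w → w * y = y * w := fun y => Iff.rfl
  have hYN : ∀ y ∈ Y, y ∈ NN θ δ t := fun y hy => hy.1
  have hYM : ∀ y ∈ Y, y * M = M * y := fun y hy => (hy.2 M rfl hc.symm).symm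
  have hYx : ∀ y ∈ Y, y * x = x * y := fun y hy => (hy.2 x hc rfl).symm
  have hYc : ∀ y ∈ Y, ∀ z ∈ Y, y * z = z * y := fun y hy z hz =>
    hz.2 y (hYM y hy) (hYx y hy)
  have hYmul : ∀ y ∈ Y, ∀ z ∈ Y, y * z ∈ Y := by
    intro y hy z hz
    refine ⟨NN_mul_right hy.1 z, fun w hw hw' => ?_⟩
    rw [← mul_assoc, hy.2 w hw hw', mul_assoc, hz.2 w hw hw', mul_assoc]
  have hYMm : ∀ y ∈ Y, M * y ∈ Y := by
    intro y hy
    refine ⟨NN_mul_left hcen hy.1 M, fun w hw hw' => ?_⟩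
    rw [← mul_assoc, hw, mul_assoc, hy.2 w hw hw', mul_assoc]
  have hTy : ∀ y ∈ NN θ δ t, T * y = y - M * y := by
    intro y hy
    rw [hT, sub_mul, hy.1]
  have hYT : ∀ y ∈ Y, T * y ∈ Y := by
    intro y hy
    rw [hTy y hy.1]
    exact sub_mem hy (hYMm y hy)
  have hxY : x ∈ Y := ⟨hx, fun w _ hw' => hw'⟩
  have hYcl : IsClosed (Y : Set A) := by
    have h : (Y : Set A) = (NN θ δ t : Set A) ∩
        ⋂ (w : A) (_ : w * M = M * w) (_ : w * x = x * w), {y | w * y = y * w} := by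
      ext y
      simp only [Set.mem_inter_iff, Set.mem_iInter, Set.mem_ofPred_eq]
      rfl
    rw [h]
    refine (NN_isClosed θ δ t).inter ?_
    refine isClosed_iInter fun w => isClosed_iInter fun _ => isClosed_iInter fun _ => ?_
    exact isClosed_eq (continuous_const.mul continuous_id) (continuous_id.mul continuous_const)
  have hYTc : ∀ y ∈ Y, T * y = y * T := by
    intro y hy
    rw [hT, sub_mul, mul_sub, hYM y hy, hcen1 y]
  -- the ideal
  let TY : Submodule ℂ A := Y.map (LinearMap.mulLeft ℂ T)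
  have hTYmem : ∀ z, z ∈ TY ↔ ∃ y ∈ Y, T * y = z := fun z => Submodule.mem_map
  let I : Submodule ℂ A := TY.topologicalClosure
  have hTYI : ∀ y ∈ Y, T * y ∈ I := fun y hy =>
    TY.le_topologicalClosure ((hTYmem _).2 ⟨y, hy, rfl⟩)
  have hIY : ∀ z ∈ I, z ∈ Y := by
    have h : I ≤ Y := by
      refine Submodule.topologicalClosure_minimal _ ?_ hYcl
      intro z hz
      obtain ⟨y, hy, rfl⟩ := (hTYmem z).1 hz
      exact hYT y hy
    exact fun z hz => h hz
  have hIcl : IsClosed (I : Set A) := Submodule.isClosed_topologicalClosure _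
  have hclos : ∀ (f : A → A), Continuous f → (∀ z ∈ TY, f z ∈ I) → ∀ z ∈ I, f z ∈ I := by
    intro f hf h z hz
    have h2 : (I : Set A) ⊆ f ⁻¹' (I : Set A) := by
      show closure (TY : Set A) ⊆ f ⁻¹' (I : Set A)
      exact closure_minimal h (hIcl.preimage hf)
    exact h2 hz
  have hzero := allan hC T I hIcl (by
    intro z hz w hw
    refine hclos (fun z => z * w) (continuous_id.mul continuous_const) ?_ z hz
    intro z' hz'
    obtain ⟨y, hy, rfl⟩ := (hTYmem z').1 hz'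
    show T * y * w ∈ I
    rw [mul_assoc]
    exact hTYI _ (hYmul y hy w (hIY w hw))) (by
    intro z hz w hw
    exact hYc z (hIY z hz) w (hIY w hw)) (by
    intro z hz
    refine hclos (fun z => T * z) (continuous_const.mul continuous_id) ?_ z hz
    intro z' hz'
    obtain ⟨y, hy, rfl⟩ := (hTYmem z').1 hz'
    exact hTYI _ (hYT y hy)) (by
    intro z hz
    exact hYTc z (hIY z hz)) (by
    intro z hz ε hε
    -- approximate `z` by `T y`
    obtain ⟨z', hz', hzz⟩ := Metric.mem_closure_iff.1 (show z ∈ closure (TY : Set A) from hz)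
      (ε / 2) (half_pos hε)
    obtain ⟨y, hy, rfl⟩ := (hTYmem z').1 hz'
    rw [dist_eq_norm] at hzz
    have hMn : ∀ n : ℕ, (fun v => M * v)^[n] y ∈ Y := by
      intro n
      induction n with
      | zero => exact hy
      | succ n ih =>
        rw [Function.iterate_succ_apply']
        exact hYMm _ ih
    have hMn' : ∀ n : ℕ, (fun v => M * v)^[n] y = θ (P ^ n) * y := by
      intro n
      induction n with
      | zero => rw [pow_zero]; exact hy.1.1.symm
      | succ n ih =>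
        rw [Function.iterate_succ_apply', ih, pow_succ', map_mul, mul_assoc]
    have hMnb : ∀ n : ℕ, ‖(fun v => M * v)^[n] y‖ ≤ C * ‖y‖ := by
      intro n
      rw [hMn']
      exact (norm_mul_le _ _).trans (mul_le_mul_of_nonneg_right (hMC n) (norm_nonneg _))
    let s : ℕ → A := fun k => ∑ j ∈ Finset.range k, (fun v => M * v)^[j] y
    have hsY : ∀ k, s k ∈ Y := fun k => sum_mem fun j _ => hMn j
    have hTs : ∀ k, T * s k = y - (fun v => M * v)^[k] y := by
      intro k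
      induction k with
      | zero => simp [s]
      | succ k ih =>
        have : s (k + 1) = s k + (fun v => M * v)^[k] y := Finset.sum_range_succ _ _
        rw [this, mul_add, ih, hTy _ (hMn k).1, Function.iterate_succ_apply']
        abel
    have hTsum : ∀ n : ℕ, T * (T * ∑ k ∈ Finset.range n, s (k + 1)) =
        (n : ℂ) • (T * y) - (M * y - (fun v => M * v)^[n + 1] y) := by
      intro n
      induction n with
      | zero => simp
      | succ n ih =>
        rw [Finset.sum_range_succ, mul_add, mul_add, ih, hTs, mul_sub, hTy _ (hMn (n + 1)).1,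
          Function.iterate_succ_apply' _ (n + 1)]
        push_cast
        rw [add_smul, one_smul]
        abel
    obtain ⟨n, hn⟩ := exists_nat_gt ((C * ‖y‖ + ‖M * y‖) / (ε / 2))
    have hn0 : 0 < (n : ℝ) := lt_of_le_of_lt (by positivity) hn
    have hnC : (n : ℂ) ≠ 0 := by exact_mod_cast hn0.ne'
    refine ⟨T * ((n : ℂ)⁻¹ • ∑ k ∈ Finset.range n, s (k + 1)), ?_, ?_⟩
    · exact hTYI _ (Submodule.smul_mem _ _ (sum_mem fun k _ => hsY (k + 1)))
    · have h2 : T * (T * ((n : ℂ)⁻¹ • ∑ k ∈ Finset.range n, s (k + 1))) =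
          T * y - (n : ℂ)⁻¹ • (M * y - (fun v => M * v)^[n + 1] y) := by
        rw [mul_smul_comm, mul_smul_comm, hTsum, smul_sub, smul_smul, inv_mul_cancel₀ hnC,
          one_smul]
      rw [h2]
      have h3 : z - (T * y - (n : ℂ)⁻¹ • (M * y - (fun v => M * v)^[n + 1] y)) =
          (z - T * y) + (n : ℂ)⁻¹ • (M * y - (fun v => M * v)^[n + 1] y) := by abel
      rw [h3]
      refine (norm_add_le _ _).trans_lt ?_
      have h4 : ‖(n : ℂ)⁻¹ • (M * y - (fun v => M * v)^[n + 1] y)‖ < ε / 2 := by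
        rw [norm_smul, norm_inv, Complex.norm_natCast, inv_mul_lt_iff₀ hn0]
        rw [div_lt_iff₀ (half_pos hε)] at hn
        refine lt_of_le_of_lt ?_ hn
        refine (norm_sub_le _ _).trans ?_
        linarith [hMnb (n + 1)]
      linarith) (by
    intro ε hε
    -- quasi-nilpotency
    have htail : Filter.Tendsto (fun k => ∑' n, p (n + k)) Filter.atTop (nhds 0) :=
      tendsto_sum_nat_add p
    obtain ⟨k, hk1⟩ := ((tendsto_order.1 htail).2 (ε / 2) (half_pos hε)).exists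
    set h := hk δ t p g k with hh
    have hhn : ‖h‖ ≤ ε := by
      have := hk_norm hδ ht hp hs g k
      linarith
    obtain ⟨D, hD0, hD⟩ := restr_pow hC θ h
    refine ⟨D, fun n y hy => ?_⟩
    have hyN : y ∈ NN θ δ t := hYN y (hIY y hy)
    have hit : ∀ n : ℕ, (fun v => T * v)^[n] y = θ (h ^ n) * y := by
      intro n
      induction n with
      | zero => rw [pow_zero]; exact hyN.1.symm
      | succ n ih =>
        rw [Function.iterate_succ_apply', ih, pow_succ', map_mul, mul_assoc]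
        exact theta_hk hδ ht hp hs h1 g (NN_mul_left hcen hyN _) k
    rw [hit]
    refine (norm_mul_le _ _).trans (mul_le_mul_of_nonneg_right ?_ (norm_nonneg _))
    refine (hD n).trans (mul_le_mul_of_nonneg_left ?_ hD0)
    rcases n with _ | n
    · rw [pow_zero, pow_zero]
      exact hone
    · exact (norm_pow_le' h n.succ_pos).trans (pow_le_pow_left₀ (norm_nonneg _) hhn _))
  have h2 : T * x ∈ I := hTYI x hxY
  rw [hzero, Submodule.mem_bot, hTy x hx, sub_eq_zero] at h2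
  exact h2.symm

end
end ACG
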