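import Pool.Agent.ACG.Stab
import Pool.Agent.ACG.Scal
import Pool.Agent.ACG.Star

set_option autoImplicit false
set_option linter.unusedSectionVars false

/-!
SING: localisation of a discontinuous homomorphism.
-/

namespace ACG

open Filter Topology

section
variable {A B G : Type} [NonUnitalNormedRing A] [NormedSpace ℂ A] [IsScalarTower ℂ A A]
  [SMulCommClass ℂ A A] [CompleteSpace A] [NormedRing B] [NormedAlgebra ℂ B] [CompleteSpace B]
  [Group G]

/-- the closure of `θ c * S(θ)` -/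
noncomputable def singS (θ : B →ₙₐ[ℂ] A) (c : B) : Submodule ℂ A :=
  ((Sep (θ : B →ₗ[ℂ] A)).map (ContinuousLinearMap.mul ℂ A (θ c)).toLinearMap).topologicalClosure

/-- the closure of `θ b * S` -/
noncomputable def singM (θ : B →ₙₐ[ℂ] A) (b : B) (S : Submodule ℂ A) : Submodule ℂ A :=
  (S.map (ContinuousLinearMap.mul ℂ A (θ b)).toLinearMap).topologicalClosure

theorem sing_one_sep (θ : B →ₙₐ[ℂ] A) {s : A} (hs : s ∈ Sep (θ : B →ₗ[ℂ] A)) :
    θ 1 * s = s := by
  obtain ⟨x, hx, hy⟩ := hs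
  have hy' : Tendsto (fun n => θ (x n)) atTop (𝓝 s) := hy
  have h1 : Tendsto (fun n => θ 1 * θ (x n)) atTop (𝓝 (θ 1 * s)) := hy'.const_mul _
  have h2 : (fun n => θ 1 * θ (x n)) = fun n => θ (x n) := by
    funext n
    rw [← map_mul, one_mul]
  rw [h2] at h1
  exact tendsto_nhds_unique h1 hy'

/-- closed condition on a closure -/
theorem sing_closure_ind (S : Submodule ℂ A) (u : A) (t : ℂ)
    (h : ∀ s ∈ S, u * s = t • s) : ∀ s ∈ S.topologicalClosure, u * s = t • s := by
  intro s hs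
  have hcl : IsClosed {s : A | u * s = t • s} :=
    isClosed_eq (continuous_const.mul continuous_id) (continuous_const_smul t)
  have : (closure (S : Set A)) ⊆ {s : A | u * s = t • s} := hcl.closure_subset_iff.2 h
  exact this hs

theorem sing_one_S (θ : B →ₙₐ[ℂ] A) (c : B) : ∀ s ∈ singS θ c, θ 1 * s = s := by
  intro s hs
  have := sing_closure_ind _ (θ 1) 1 (fun s hs => by
    obtain ⟨s', -, rfl⟩ := Submodule.mem_map.1 hs
    show θ 1 * (θ c * s') = (1 : ℂ) • (θ c * s')
    rw [one_smul, ← mul_assoc, ← map_mul, one_mul]) s hs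
  rwa [one_smul] at this

theorem singM_singS (θ : B →ₙₐ[ℂ] A) (b c : B) :
    singM θ b (singS θ c) = singS θ (b * c) := by
  apply le_antisymm
  · refine Submodule.topologicalClosure_minimal _ ?_ (Submodule.isClosed_topologicalClosure _)
    rintro _ ⟨s, hs, rfl⟩
    show (θ b * s) ∈ closure (_ : Set A)
    have hs' : s ∈ closure (((Sep (θ : B →ₗ[ℂ] A)).map
      (ContinuousLinearMap.mul ℂ A (θ c)).toLinearMap : Submodule ℂ A) : Set A) := hs
    have hcont : Continuous (fun y : A => θ b * y) := continuous_const.mul continuous_id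
    refine map_mem_closure hcont hs' ?_
    rintro _ ⟨y, hy, rfl⟩
    refine ⟨y, hy, ?_⟩
    show θ (b * c) * y = θ b * (θ c * y)
    rw [map_mul, mul_assoc]
  · refine Submodule.topologicalClosure_mono ?_
    rintro _ ⟨y, hy, rfl⟩
    refine ⟨θ c * y, ?_, ?_⟩
    · exact Submodule.le_topologicalClosure _ ⟨y, hy, rfl⟩
    · show θ b * (θ c * y) = θ (b * c) * y
      rw [map_mul, mul_assoc]

theorem singS_one (θ : B →ₙₐ[ℂ] A) (h : Sep (θ : B →ₗ[ℂ] A) ≠ ⊥) : singS θ 1 ≠ ⊥ := by
  intro h1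
  apply h
  rw [eq_bot_iff]
  intro s hs
  have : θ 1 * s ∈ singS θ 1 := Submodule.le_topologicalClosure _ ⟨s, hs, rfl⟩
  rw [h1, sing_one_sep θ hs] at this
  exact this

/-- the stabilisation -/
theorem sing_stable (θ : B →ₙₐ[ℂ] A) (h1 : Cen (θ 1)) (h : Sep (θ : B →ₗ[ℂ] A) ≠ ⊥) :
    ∃ c : B, Cen (θ c) ∧ singS θ c ≠ ⊥ ∧ ∀ b : B, Cen (θ b) →
      singM θ b (singS θ c) = ⊥ ∨ singM θ b (singS θ c) = singS θ c := by
  by_contra hcon
  push Not at hcon
  -- the recursive choice
  have step : ∀ c : {c : B // Cen (θ c) ∧ singS θ c ≠ ⊥}, ∃ b : B, Cen (θ b) ∧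
      singS θ (c.1 * b) ≠ ⊥ ∧ singS θ (c.1 * b) ≠ singS θ c.1 := by
    rintro ⟨c, hc, hc'⟩
    obtain ⟨b, hb, hb1, hb2⟩ := hcon c hc hc'
    have hcomm : singS θ (c * b) = singS θ (b * c) := by
      unfold singS
      rw [map_mul θ c b, map_mul θ b c, hc (θ b)]
    rw [singM_singS] at hb1 hb2
    exact ⟨b, hb, by rw [hcomm]; exact hb1, by rw [hcomm]; exact hb2⟩
  choose bb hbb1 hbb2 hbb3 using step
  have hcen : ∀ c b : B, Cen (θ c) → Cen (θ b) → Cen (θ (c * b)) := by
    intro c b hc hb a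
    rw [map_mul, mul_assoc, hb a, ← mul_assoc, hc a, mul_assoc]
  let seq : ℕ → {c : B // Cen (θ c) ∧ singS θ c ≠ ⊥} := fun n =>
    Nat.rec ⟨1, h1, singS_one θ h⟩
      (fun _ c => ⟨c.1 * bb c, hcen _ _ c.2.1 (hbb1 c), hbb2 c⟩) n
  have hseq0 : (seq 0).1 = 1 := rfl
  have hseq : ∀ n, (seq (n + 1)).1 = (seq n).1 * bb (seq n) := fun n => rfl
  obtain ⟨N, hN⟩ := stability (θ : B →ₗ[ℂ] A) (fun n => ContinuousLinearMap.mul ℂ B (bb (seq n)))
    (fun n => ContinuousLinearMap.mul ℂ A (θ (bb (seq n)))) (fun n x => by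
      show θ (bb (seq n) * x) = θ (bb (seq n)) * θ x
      rw [map_mul])
  have hRR : ∀ n : ℕ, ∀ y : A, θ 1 * y = y →
      RR (fun n => ContinuousLinearMap.mul ℂ A (θ (bb (seq n)))) n y = θ (seq n).1 * y := by
    intro n
    induction n with
    | zero =>
      intro y hy
      rw [hseq0, hy]
      rfl
    | succ n ih =>
      intro y hy
      show RR (fun n => ContinuousLinearMap.mul ℂ A (θ (bb (seq n)))) n
        (θ (bb (seq n)) * y) = _
      rw [ih _ (by rw [← mul_assoc, ← map_mul, one_mul]), hseq, map_mul, mul_assoc]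
  have hmap : ∀ n, ((Sep (θ : B →ₗ[ℂ] A)).map
      (RR (fun n => ContinuousLinearMap.mul ℂ A (θ (bb (seq n)))) n).toLinearMap).topologicalClosure
      = singS θ (seq n).1 := by
    intro n
    unfold singS
    congr 1
    ext y
    constructor
    · rintro ⟨s, hs, rfl⟩
      exact ⟨s, hs, (hRR n s (sing_one_sep θ hs)).symm⟩
    · rintro ⟨s, hs, rfl⟩
      exact ⟨s, hs, hRR n s (sing_one_sep θ hs)⟩
  have h2 := hN (N + 1) (Nat.le_succ N)
  rw [hmap, hmap, hseq] at h2
  exact hbb3 (seq N) h2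

theorem cen_hasSum (f : ℤ → A) (x : A) (h : ∀ n, Cen (f n)) (hx : HasSum f x) : Cen x := by
  intro a
  have h1 := hx.mul_right a
  have h2 := hx.mul_left a
  have h3 : (fun n => f n * a) = fun n => a * f n := funext (fun n => h n a)
  rw [h3] at h1
  exact h1.unique h2

theorem exists_sing (hC : PropC A) (θ : B →ₙₐ[ℂ] A) {δ : G →* B} (hG : GA B G δ)
    (hn : ¬ Continuous θ) : ∃ (z : A) (t : G → ℂ), Sing θ δ z t ∧
      ¬ Continuous (fun b => z * θ b) := by
  have hred : Red A := red_of_propC hC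
  have hcu : ∀ g, Cen (θ (δ g)) := fun g => cen_u hC θ δ hG.norm_le g
  have h1 : Cen (θ 1) := by
    have := hcu 1
    rwa [map_one] at this
  have hsep : Sep (θ : B →ₗ[ℂ] A) ≠ ⊥ := by
    intro h
    exact hn ((continuous_iff_Sep (θ : B →ₗ[ℂ] A)).2 h)
  obtain ⟨c, hc, hc0, hcs⟩ := sing_stable θ h1 hsep
  have ht : ∀ g : G, ∃ t : ℂ, ‖t‖ = 1 ∧ ∀ s ∈ singS θ c, θ (δ g) * s = t • s := by
    intro g
    obtain ⟨K, hK, hsum⟩ := restr_group hC θ δ hG.norm_le g
    obtain ⟨t, ht, hts⟩ := scalar_of_stable (fun n : ℤ => θ (δ (g ^ n)))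
      (fun m n => by
        show θ (δ (g ^ (m + n))) = θ (δ (g ^ m)) * θ (δ (g ^ n))
        rw [zpow_add, map_mul, map_mul]) K hK (singS θ c) hc0
      (Submodule.isClosed_topologicalClosure _) (fun s hs => by
        show θ (δ (g ^ (0 : ℤ))) * s = s
        rw [zpow_zero, map_one]
        exact sing_one_S θ c s hs) (fun α hα => by
        have h2 := hsum α hα
        have h3 : Cen (θ (∑' n, α n • δ (g ^ n))) := by
          refine cen_hasSum _ _ (fun n => ?_) h2
          intro a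
          rw [smul_mul_assoc, mul_smul_comm, hcu (g ^ n) a]
        rw [h2.tsum_eq]
        rcases hcs _ h3 with h4 | h4
        · left
          intro s hs
          have : θ (∑' n, α n • δ (g ^ n)) * s ∈
              singM θ (∑' n, α n • δ (g ^ n)) (singS θ c) :=
            Submodule.le_topologicalClosure _ ⟨s, hs, rfl⟩
          rw [h4] at this
          exact this
        · right
          intro s hs ε hε
          rw [← h4] at hs
          have hs' : s ∈ closure (((singS θ c).map (ContinuousLinearMap.mul ℂ A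
            (θ (∑' n, α n • δ (g ^ n)))).toLinearMap : Submodule ℂ A) : Set A) := hs
          obtain ⟨y, ⟨s', hs1, rfl⟩, hy⟩ := Metric.mem_closure_iff.1 hs' ε hε
          refine ⟨s', hs1, ?_⟩
          rw [dist_eq_norm] at hy
          exact hy)
    refine ⟨t, ht, fun s hs => ?_⟩
    have := hts s hs
    simp only [zpow_one] at this
    exact this
  choose t ht1 ht2 using ht
  have hSc : Sep ((ContinuousLinearMap.mul ℂ A (θ c)).toLinearMap ∘ₗ (θ : B →ₗ[ℂ] A)) =
      singS θ c := Sep_comp (θ : B →ₗ[ℂ] A) (ContinuousLinearMap.mul ℂ A (θ c))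
  refine ⟨θ c, t, ⟨hc, ht1, ?_⟩, ?_⟩
  · intro x y hx hy
    have hy' : y ∈ singS θ c := by
      rw [← hSc]
      exact ⟨x, hx, hy⟩
    exact ⟨sing_one_S θ c y hy', fun g => ht2 g y hy'⟩
  · intro hcont
    apply hc0
    rw [← hSc]
    exact (continuous_iff_Sep _).1 hcont

end
end ACG
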