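import Pool.Agent.ACG.Allan
import Pool.Agent.ACG.Main

set_option autoImplicit false

/-!
UNIT: property (C) passes to the unitization; the main theorem for non-unital algebras.
-/

namespace ACG

section
variable {D : Type} [NonUnitalNormedRing D] [NormedSpace ℂ D] [IsScalarTower ℂ D D]
  [SMulCommClass ℂ D D] [CompleteSpace D]

/-- characters are continuous -/
theorem char_cont (χ : D →ₙₐ[ℂ] ℂ) : Continuous χ := by
  let ψ : WithLp 1 (Unitization ℂ D) →ₐ[ℂ] ℂ :=
    (Unitization.lift χ).comp (WithLp.unitizationAlgEquiv ℂ).toAlgHom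
  have h1 : Continuous ψ := ψ.toContinuousLinearMap.continuous
  have h2 : ∀ x, χ x = ψ (inU x) := by
    intro x
    show χ x = algebraMap ℂ ℂ 0 + χ x
    rw [map_zero, zero_add]
  have h3 : (χ : D → ℂ) = fun x => ψ (inUi x) := funext h2
  rw [h3]
  exact h1.comp inUi.continuous

end

section
variable {A : Type} [NonUnitalNormedRing A] [NormedSpace ℂ A] [IsScalarTower ℂ A A]
  [SMulCommClass ℂ A A]

theorem propC_unit (hC : PropC A) : PropC (WithLp 1 (Unitization ℂ A)) := by
  intro D _ _ _ _ _ θ hcomm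
  let χ : D →ₙₐ[ℂ] ℂ := ((fsU : WithLp 1 (Unitization ℂ A) →ₐ[ℂ] ℂ) : _ →ₙₐ[ℂ] ℂ).comp θ
  have hχ : ∀ x, χ x = fsU (θ x) := fun _ => rfl
  have hχc : Continuous χ := char_cont χ
  -- the kernel
  let D₀ : NonUnitalSubalgebra ℂ D :=
    { carrier := {x | χ x = 0}
      zero_mem' := map_zero χ
      add_mem' := by
        intro x y hx hy
        simp only [Set.mem_ofPred_eq] at hx hy ⊢
        rw [map_add, hx, hy, add_zero]
      mul_mem' := by
        intro x y hx hy
        simp only [Set.mem_ofPred_eq] at hx hy ⊢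
        rw [map_mul, hx, zero_mul]
      smul_mem' := by
        intro c x hx
        simp only [Set.mem_ofPred_eq] at hx ⊢
        rw [map_smul, hx, smul_zero] }
  have hmem : ∀ x, x ∈ D₀ ↔ χ x = 0 := fun _ => Iff.rfl
  have : CompleteSpace D₀ := by
    have h : IsClosed (D₀ : Set D) := isClosed_singleton.preimage hχc
    exact h.isComplete.completeSpace_coe
  have key : ∀ x ∈ D₀, inU (snU (θ x)) = θ x := fun x hx => inU_snU _ hx
  let θ₀ : D₀ →ₙₐ[ℂ] A :=
    { toFun := fun x => snU (θ (x : D))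
      map_smul' := fun c x => by
        show snU (θ (c • (x : D))) = c • snU (θ (x : D))
        rw [map_smul, map_smul]
      map_zero' := by
        show snU (θ (0 : D)) = 0
        rw [map_zero, map_zero]
      map_add' := fun x y => by
        show snU (θ ((x : D) + y)) = _
        rw [map_add, map_add]
      map_mul' := fun x y => by
        show snU (θ ((x : D) * y)) = snU (θ (x : D)) * snU (θ (y : D))
        apply inU_injective
        rw [inU_mul, key _ x.2, key _ y.2, key _ (D₀.mul_mem x.2 y.2), map_mul] }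
  have hθ₀ : ∀ x : D₀, θ₀ x = snU (θ (x : D)) := fun _ => rfl
  have hc₀ : Continuous θ₀ := by
    refine hC D₀ θ₀ (fun x y => ?_)
    apply inU_injective
    rw [inU_mul, inU_mul, hθ₀, hθ₀, key _ x.2, key _ y.2, hcomm]
  have hc₁ : Continuous (fun x : D₀ => θ (x : D)) := by
    have h := (inUi (A := A)).continuous.comp hc₀
    refine h.congr (fun x => ?_)
    exact key _ x.2
  by_cases hz : ∀ x, χ x = 0
  · have h : Continuous (fun x : D => (⟨x, hz x⟩ : D₀)) :=
      continuous_id.subtype_mk _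
    exact hc₁.comp h
  · push Not at hz
    obtain ⟨e, he⟩ := hz
    have hm : ∀ x, x - (χ x * (χ e)⁻¹) • e ∈ D₀ := by
      intro x
      rw [hmem, map_sub, map_smul, smul_eq_mul, mul_assoc, inv_mul_cancel₀ he, mul_one, sub_self]
    have h : Continuous (fun x : D => (⟨x - (χ x * (χ e)⁻¹) • e, hm x⟩ : D₀)) := by
      refine Continuous.subtype_mk ?_ _
      exact continuous_id.sub ((hχc.mul continuous_const).smul continuous_const)
    have h2 := (hc₁.comp h).add
      ((hχc.mul (continuous_const (y := (χ e)⁻¹))).smul (continuous_const (y := θ e)))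
    refine h2.congr (fun x => ?_)
    show θ (x - (χ x * (χ e)⁻¹) • e) + (χ x * (χ e)⁻¹) • θ e = θ x
    rw [map_sub, map_smul, sub_add_cancel]

end

theorem main_nonunital (A : Type) [NonUnitalNormedRing A] [NormedSpace ℂ A] [IsScalarTower ℂ A A]
    [SMulCommClass ℂ A A] [CompleteSpace A] (hC : PropC A)
    (B : Type) [NonUnitalNormedRing B] [NormedSpace ℂ B] [IsScalarTower ℂ B B]
    [SMulCommClass ℂ B B] [CompleteSpace B] (θ : B →ₙₐ[ℂ] A)
    (U : Subgroup (WithLp 1 (Unitization ℂ B))ˣ) (K : ℝ)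
    (hK : ∀ u ∈ U, ‖(u : WithLp 1 (Unitization ℂ B))‖ ≤ K) :
    (∀ u ∈ U, ∀ a : A, θ (WithLp.ofLp (u : WithLp 1 (Unitization ℂ B))).snd * a =
      a * θ (WithLp.ofLp (u : WithLp 1 (Unitization ℂ B))).snd) ∧
    (∃ M : ℝ, ∀ u ∈ U, ‖θ (WithLp.ofLp (u : WithLp 1 (Unitization ℂ B))).snd‖ ≤ M) ∧
    (∀ (c : ℕ → ℂ) (u : ℕ → (WithLp 1 (Unitization ℂ B))ˣ), (∀ n, u n ∈ U) →
      Summable (fun n => ‖c n‖) →
      HasSum (fun n => c n • θ (WithLp.ofLp (u n : WithLp 1 (Unitization ℂ B))).snd)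
        (θ (WithLp.ofLp (∑' n, c n • (u n : WithLp 1 (Unitization ℂ B)))).snd)) ∧
    ((∀ b : B, ∃ (c : ℕ → ℂ) (u : ℕ → (WithLp 1 (Unitization ℂ B))ˣ), (∀ n, u n ∈ U) ∧
        Summable (fun n => ‖c n‖) ∧
        HasSum (fun n => c n • (u n : WithLp 1 (Unitization ℂ B)))
          (WithLp.toLp 1 (b : Unitization ℂ B))) →
      Continuous θ ∧ ∀ (b : B) (a : A), θ b * a = a * θ b) := by
  let θ₁ : WithLp 1 (Unitization ℂ B) →ₐ[ℂ] WithLp 1 (Unitization ℂ A) :=
    ((WithLp.unitizationAlgEquiv ℂ).symm.toAlgHom.comp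
      (Unitization.lift ((Unitization.inrNonUnitalAlgHom ℂ A).comp θ))).comp
      (WithLp.unitizationAlgEquiv ℂ).toAlgHom
  have hθ₁ : ∀ x, θ₁ x = algebraMap ℂ _ (fsU x) + inU (θ (snU x)) := by
    intro x
    apply WithLp.ofLp_injective
    rfl
  have hsn : ∀ x, snU (θ₁ x) = θ (snU x) := by
    intro x
    rw [hθ₁, map_add]
    have h1 : snU (algebraMap ℂ (WithLp 1 (Unitization ℂ A)) (fsU x)) = 0 := rfl
    have h2 : snU (inU (θ (snU x))) = θ (snU x) := rfl
    rw [h1, h2, zero_add]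
  obtain ⟨h1, ⟨M, hM⟩, h3, -⟩ := main (WithLp 1 (Unitization ℂ A)) (propC_unit hC)
    (WithLp 1 (Unitization ℂ B)) (θ₁ : _ →ₙₐ[ℂ] _) U K hK
  have hcen : ∀ u ∈ U, ∀ a : A, θ (snU (u : WithLp 1 (Unitization ℂ B))) * a =
      a * θ (snU (u : WithLp 1 (Unitization ℂ B))) := by
    intro u hu a
    have h := h1 u hu (inU a)
    have h' : θ₁ (u : WithLp 1 (Unitization ℂ B)) * inU a =
      inU a * θ₁ (u : WithLp 1 (Unitization ℂ B)) := h
    rw [hθ₁, add_mul, mul_add, Algebra.commutes, add_right_inj, ← inU_mul, ← inU_mul] at h'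
    exact inU_injective h'
  have hbd : ∀ u ∈ U, ‖θ (snU (u : WithLp 1 (Unitization ℂ B)))‖ ≤ M := by
    intro u hu
    rw [← hsn]
    exact (norm_snU _).trans (hM u hu)
  have hsum : ∀ (c : ℕ → ℂ) (u : ℕ → (WithLp 1 (Unitization ℂ B))ˣ), (∀ n, u n ∈ U) →
      Summable (fun n => ‖c n‖) →
      HasSum (fun n => c n • θ (snU (u n : WithLp 1 (Unitization ℂ B))))
        (θ (snU (∑' n, c n • (u n : WithLp 1 (Unitization ℂ B))))) := by
    intro c u hu hc
    have h := h3 c u hu hc
    have hcont : Continuous (snU : WithLp 1 (Unitization ℂ A) →ₗ[ℂ] A) :=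
      (LinearMap.mkContinuous (snU : WithLp 1 (Unitization ℂ A) →ₗ[ℂ] A) 1
        (fun x => by simpa using norm_snU x)).continuous
    have h' := h.map (snU : WithLp 1 (Unitization ℂ A) →ₗ[ℂ] A) hcont
    rw [← hsn]
    convert h' using 1
    · funext n
      show _ = snU (c n • θ₁ (u n : WithLp 1 (Unitization ℂ B)))
      rw [map_smul, hsn]
    · rfl
  refine ⟨hcen, ⟨M, hbd⟩, hsum, ?_⟩
  intro hspan
  have hall : ∀ (b : B) (a : A), θ b * a = a * θ b := by
    intro b a
    obtain ⟨c, u, hu, hc, hb⟩ := hspan b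
    have h := hsum c u hu hc
    rw [hb.tsum_eq] at h
    have h' : HasSum (fun n => c n • θ (snU (u n : WithLp 1 (Unitization ℂ B)))) (θ b) := h
    have e1 := h'.mul_right a
    have e2 := h'.mul_left a
    have e3 : (fun n => c n • θ (snU (u n : WithLp 1 (Unitization ℂ B))) * a) =
        fun n => a * (c n • θ (snU (u n : WithLp 1 (Unitization ℂ B)))) := by
      funext n
      rw [smul_mul_assoc, mul_smul_comm, hcen (u n) (hu n) a]
    rw [e3] at e1
    exact e1.unique e2
  exact ⟨hC B θ (fun x y => hall x _), hall⟩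

end ACG
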