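import Mathlib

set_option autoImplicit false

/-!
The Banach algebra of absolutely convergent power series over a commutative Banach algebra.
-/

namespace ACG

open PowerSeries Finset

section
variable (R : Type) [NormedCommRing R] [NormedAlgebra ℂ R]

/-- Power series with absolutely summable coefficients. -/
def wpsSub [CompleteSpace R] : Subalgebra ℂ (PowerSeries R) where
  carrier := {f | Summable fun n => ‖coeff n f‖}
  mul_mem' := by
    intro f g hf hg
    have h := summable_norm_sum_mul_antidiagonal_of_summable_norm hf hg
    simpa [coeff_mul] using h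
  add_mem' := by
    intro f g hf hg
    have hf' : Summable fun n => ‖coeff n f‖ := hf
    have hg' : Summable fun n => ‖coeff n g‖ := hg
    refine Summable.of_nonneg_of_le (fun n => norm_nonneg _) (fun n => ?_) (hf'.add hg')
    simpa using norm_add_le (coeff n f) (coeff n g)
  algebraMap_mem' := by
    intro r
    refine summable_of_ne_finset_zero (s := {0}) (fun n hn => ?_)
    have hn0 : n ≠ 0 := by simpa using hn
    have : coeff n ((algebraMap ℂ (PowerSeries R)) r) = 0 := by
      rw [PowerSeries.algebraMap_apply, coeff_C, if_neg hn0]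
    simp [this]

/-- The Banach algebra of absolutely convergent power series. -/
def WPS [CompleteSpace R] : Type := wpsSub R

end

section
variable {R : Type} [NormedCommRing R] [NormedAlgebra ℂ R] [CompleteSpace R]

noncomputable instance : CommRing (WPS R) := inferInstanceAs (CommRing (wpsSub R))
noncomputable instance : Algebra ℂ (WPS R) := inferInstanceAs (Algebra ℂ (wpsSub R))

namespace WPS

/-- the underlying power series -/
noncomputable def val : WPS R →ₐ[ℂ] PowerSeries R := (wpsSub R).val

theorem val_injective : Function.Injective (val : WPS R → PowerSeries R) :=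
  Subtype.val_injective

theorem summable_coeff (f : WPS R) : Summable fun n => ‖coeff n (val f)‖ := f.2

/-- constructor -/
noncomputable def mk (f : PowerSeries R) (h : Summable fun n => ‖coeff n f‖) : WPS R := ⟨f, h⟩

@[simp] theorem val_mk (f : PowerSeries R) (h : Summable fun n => ‖coeff n f‖) :
    val (mk f h) = f := rfl

@[ext] theorem ext {f g : WPS R} (h : ∀ n, coeff n (val f) = coeff n (val g)) : f = g :=
  val_injective (PowerSeries.ext h)

noncomputable instance : Norm (WPS R) := ⟨fun f => ∑' n, ‖coeff n (val f)‖⟩

theorem norm_def (f : WPS R) : ‖f‖ = ∑' n, ‖coeff n (val f)‖ := rfl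

theorem norm_coeff_le (f : WPS R) (n : ℕ) : ‖coeff n (val f)‖ ≤ ‖f‖ := by
  rw [norm_def]
  exact f.summable_coeff.le_tsum n (fun _ _ => norm_nonneg _)

theorem norm_mul_le' (f g : WPS R) : ‖f * g‖ ≤ ‖f‖ * ‖g‖ := by
  have hf : Summable (fun n => ‖(fun n => ‖coeff n (val f)‖ : ℕ → ℝ) n‖) := by
    simpa using f.summable_coeff
  have hg : Summable (fun n => ‖(fun n => ‖coeff n (val g)‖ : ℕ → ℝ) n‖) := by
    simpa using g.summable_coeff
  have key := tsum_mul_tsum_eq_tsum_sum_antidiagonal_of_summable_norm hf hg
  have hs := (summable_norm_sum_mul_antidiagonal_of_summable_norm hf hg).of_norm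
  have h1 : ‖f‖ * ‖g‖ = ∑' n, ∑ kl ∈ antidiagonal n,
      ‖coeff kl.1 (val f)‖ * ‖coeff kl.2 (val g)‖ := key
  rw [h1, norm_def]
  refine (f * g).summable_coeff.tsum_le_tsum (fun n => ?_) hs
  have h2 : coeff n (val (f * g)) = ∑ p ∈ antidiagonal n,
      coeff p.1 (val f) * coeff p.2 (val g) := by
    rw [map_mul, coeff_mul]
  rw [h2]
  exact (norm_sum_le _ _).trans (Finset.sum_le_sum (fun p _ => norm_mul_le _ _))

/-- the normed group structure -/
theorem core : NormedSpace.Core ℂ (WPS R) where
  norm_nonneg f := tsum_nonneg (fun _ => norm_nonneg _)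
  norm_smul c f := by
    rw [norm_def, norm_def, ← tsum_mul_left]
    refine tsum_congr (fun n => ?_)
    rw [map_smul, ← norm_smul]
    congr 1
  norm_triangle f g := by
    rw [norm_def, norm_def, norm_def, ← f.summable_coeff.tsum_add g.summable_coeff]
    refine (f + g).summable_coeff.tsum_le_tsum (fun n => ?_) (f.summable_coeff.add g.summable_coeff)
    rw [map_add, map_add]
    exact norm_add_le _ _
  norm_eq_zero_iff f := by
    constructor
    · intro h
      ext n
      have := norm_coeff_le f n
      rw [h] at this
      rw [map_zero, map_zero]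
      exact norm_le_zero_iff.1 this
    · rintro rfl
      simp [norm_def]

/-- auxiliary normed group structure (only used to build the normed ring) -/
@[reducible] noncomputable def auxNACG : NormedAddCommGroup (WPS R) :=
  { NormedAddCommGroup.ofCore (core (R := R)) with }

noncomputable instance instNCR : NormedCommRing (WPS R) :=
  { (inferInstance : CommRing (WPS R)) with
    norm := fun f => ‖f‖
    dist := fun f g => ‖-f + g‖
    dist_self := fun f => by
      show ‖-f + f‖ = 0
      rw [neg_add_cancel]
      exact ((core (R := R)).norm_eq_zero_iff 0).2 rfl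
    dist_comm := fun f g => by
      let _ : NormedAddCommGroup (WPS R) := auxNACG
      calc ‖-f + g‖ = ‖-(-f + g)‖ := (norm_neg (-f + g)).symm
        _ = ‖-g + f‖ := by congr 1; abel
    dist_triangle := fun f g h => by
      let _ : NormedAddCommGroup (WPS R) := auxNACG
      show ‖-f + h‖ ≤ ‖-f + g‖ + ‖-g + h‖
      calc ‖-f + h‖ = ‖(-f + g) + (-g + h)‖ := by congr 1; abel
        _ ≤ _ := norm_add_le _ _
    eq_of_dist_eq_zero := fun {f g} h => by
      let _ : NormedAddCommGroup (WPS R) := auxNACG
      have h' : -f + g = 0 := norm_eq_zero.1 h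
      have : g = f := by rw [← sub_eq_zero, ← h']; abel
      exact this.symm
    dist_eq := fun _ _ => rfl
    norm_mul_le := norm_mul_le' }

noncomputable instance instNA : NormedAlgebra ℂ (WPS R) :=
  { (inferInstance : Algebra ℂ (WPS R)) with
    norm_smul_le := fun c f => le_of_eq ((core (R := R)).norm_smul c f) }

-- sanity checks on instances
example : (inferInstance : CommRing (WPS R)) = (instNCR (R := R)).toCommRing := rfl

/-- the isometry onto `ℓ¹` -/
noncomputable def toLp (f : WPS R) : lp (fun _ : ℕ => R) 1 :=
  ⟨fun n => coeff n (val f), memℓp_gen (by simpa using f.summable_coeff)⟩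

theorem isometry_toLp : Isometry (toLp : WPS R → lp (fun _ : ℕ => R) 1) := by
  refine Isometry.of_dist_eq (fun f g => ?_)
  rw [dist_eq_norm, dist_eq_norm, lp.norm_eq_tsum_rpow (by norm_num)]
  simp only [ENNReal.toReal_one, Real.rpow_one, div_one]
  rw [norm_def]
  refine tsum_congr (fun n => ?_)
  rw [map_sub, map_sub]
  rfl

theorem surjective_toLp : Function.Surjective (toLp : WPS R → lp (fun _ : ℕ => R) 1) := by
  intro x
  have hx := lp.memℓp x
  rw [memℓp_gen_iff (by norm_num)] at hx
  refine ⟨mk (PowerSeries.mk fun n => x n) ?_, ?_⟩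
  · simpa using hx
  · ext n
    simp [toLp]

instance : CompleteSpace (WPS R) := by
  have e : WPS R ≃ᵢ lp (fun _ : ℕ => R) 1 :=
    { Equiv.ofBijective toLp ⟨isometry_toLp.injective, surjective_toLp⟩ with
      isometry_toFun := isometry_toLp }
  exact e.completeSpace

/-- the constant series -/
noncomputable def C : R →+* WPS R where
  toFun r := mk (PowerSeries.C r) (by
    refine summable_of_ne_finset_zero (s := {0}) (fun n hn => ?_)
    have hn0 : n ≠ 0 := by simpa using hn
    simp [coeff_C, hn0])
  map_one' := val_injective (by simp)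
  map_mul' x y := val_injective (by simp)
  map_zero' := val_injective (by simp)
  map_add' x y := val_injective (by simp)

/-- the variable -/
noncomputable def X : WPS R := mk PowerSeries.X (by
    refine summable_of_ne_finset_zero (s := {1}) (fun n hn => ?_)
    have hn0 : n ≠ 1 := by simpa using hn
    simp [coeff_X, hn0])

@[simp] theorem val_C (r : R) : val (C r) = PowerSeries.C r := rfl
@[simp] theorem val_X : val (X : WPS R) = PowerSeries.X := rfl

theorem norm_C (r : R) : ‖C r‖ = ‖r‖ := by
  rw [norm_def, tsum_eq_single 0 (fun n hn => by simp [coeff_C, hn])]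
  simp

theorem norm_X_le : ‖(X : WPS R)‖ ≤ ‖(1 : R)‖ := by
  rw [norm_def, tsum_eq_single 1 (fun n hn => by simp [coeff_X, hn])]
  simp [coeff_X]

end WPS
end
end ACG
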