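import Pool.Agent.ACG.Mult

set_option autoImplicit false
set_option linter.unusedSectionVars false

/-!
WSP: the divisible subspace `W = ⋂ range (a ^ n)` of a multiplier `a` with dense range.
-/

namespace ACG

section
variable {E : Type} [NonUnitalNormedCommRing E] [NormedSpace ℂ E] [IsScalarTower ℂ E E]
  [SMulCommClass ℂ E E]

/-- the divisible subspace -/
def Wsub (a : Mult E) : Submodule ℂ E where
  carrier := {x | ∀ n : ℕ, ∃ y, (a ^ n).ap y = x}
  zero_mem' := fun n => ⟨0, by simp⟩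
  add_mem' := by
    intro x y hx hy n
    obtain ⟨x', hx'⟩ := hx n
    obtain ⟨y', hy'⟩ := hy n
    exact ⟨x' + y', by rw [map_add, hx', hy']⟩
  smul_mem' := by
    intro c x hx n
    obtain ⟨x', hx'⟩ := hx n
    exact ⟨c • x', by rw [map_smul, hx']⟩

variable [CompleteSpace E] [Red E]

theorem ap_inj (a : Mult E) (hd : ∀ x : E, ∀ ε : ℝ, 0 < ε → ∃ y, ‖x - a.ap y‖ < ε) (x : E)
    (h : a.ap x = 0) : x = 0 := by
  have h1 : ∀ y, x * a.ap y = 0 := by
    intro y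
    rw [← a.ap_prod', a.ap_prod, h, zero_mul]
  have h2 : ∀ z, x * z = 0 := by
    intro z
    by_contra hne
    have hpos : 0 < ‖x * z‖ := norm_pos_iff.2 hne
    obtain ⟨y, hy⟩ := hd z (‖x * z‖ / (1 + ‖x‖)) (by positivity)
    have h3 : x * z = x * (z - a.ap y) := by rw [mul_sub, h1, sub_zero]
    have h4 : ‖x * z‖ ≤ ‖x‖ * ‖z - a.ap y‖ := by
      conv_lhs => rw [h3]
      exact norm_mul_le _ _
    have h5 : ‖x‖ * ‖z - a.ap y‖ ≤ ‖x‖ * (‖x * z‖ / (1 + ‖x‖)) :=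
      mul_le_mul_of_nonneg_left hy.le (norm_nonneg x)
    have h6 : ‖x‖ * (‖x * z‖ / (1 + ‖x‖)) < ‖x * z‖ := by
      rw [mul_div_assoc', div_lt_iff₀ (by positivity)]
      nlinarith [norm_nonneg x]
    linarith
  exact Red.red x (h2 x)

theorem ap_mem_Wsub (a T : Mult E) {x : E} (hx : x ∈ Wsub a) : T.ap x ∈ Wsub a := by
  intro n
  obtain ⟨y, hy⟩ := hx n
  refine ⟨T.ap y, ?_⟩
  rw [← hy, ← Mult.ap_mul, ← Mult.ap_mul, Mult.comm]

/-- Mittag-Leffler -/
theorem exists_Wsub_ne_zero (a : Mult E)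
    (hd : ∀ x : E, ∀ ε : ℝ, 0 < ε → ∃ y, ‖x - a.ap y‖ < ε) (hne : ∃ x : E, x ≠ 0) :
    ∃ w ∈ Wsub a, w ≠ 0 := by
  obtain ⟨x, hx⟩ := hne
  set K : ℝ := ‖a‖ with hK
  have hK0 : 0 ≤ K := norm_nonneg a
  set δ : ℝ := ‖x‖ / 4 with hδ
  have hx' : 0 < ‖x‖ := norm_pos_iff.2 hx
  have hδ0 : 0 < δ := by positivity
  have hε : ∀ n : ℕ, 0 < δ / (2 ^ n * (1 + K) ^ n) := fun n => by positivity
  choose g hg using fun (n : ℕ) (z : E) => hd z _ (hε n)
  let y : ℕ → E := fun n => Nat.rec x (fun n z => g n z) n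
  have hy0 : y 0 = x := rfl
  have hy : ∀ n, ‖y n - a.ap (y (n + 1))‖ < δ / (2 ^ n * (1 + K) ^ n) := fun n => hg n (y n)
  have hpow : ∀ (k : ℕ) (z : E), ‖(a ^ k).ap z‖ ≤ (1 + K) ^ k * ‖z‖ := by
    intro k
    induction k with
    | zero => intro z; simp
    | succ k ih =>
      intro z
      rw [Mult.ap_pow_succ]
      refine (ih _).trans ?_
      rw [pow_succ, mul_assoc]
      refine mul_le_mul_of_nonneg_left ?_ (by positivity)
      refine (a.norm_ap_le z).trans ?_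
      exact mul_le_mul_of_nonneg_right (by linarith) (norm_nonneg z)
  have hstep : ∀ n k, dist ((a ^ k).ap (y (n + k))) ((a ^ (k + 1)).ap (y (n + (k + 1)))) ≤
      2 * δ / 2 / 2 ^ k := by
    intro n k
    rw [dist_eq_norm, Mult.ap_pow_succ, ← map_sub]
    refine (hpow k _).trans ?_
    have h1 := (hy (n + k)).le
    have h2 : (1 + K) ^ k * (δ / (2 ^ (n + k) * (1 + K) ^ (n + k))) ≤ 2 * δ / 2 / 2 ^ k := by
      have h3 : (1 + K) ^ k * (δ / (2 ^ (n + k) * (1 + K) ^ (n + k))) =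
          δ / 2 ^ k / (2 ^ n * (1 + K) ^ n) := by
        rw [pow_add, pow_add]
        field_simp
      rw [h3]
      have h4 : 2 * δ / 2 / 2 ^ k = δ / 2 ^ k := by ring
      rw [h4]
      refine div_le_self (by positivity) ?_
      have h5 : (1 : ℝ) ≤ 2 ^ n := one_le_pow₀ (by norm_num)
      have h6 : (1 : ℝ) ≤ (1 + K) ^ n := one_le_pow₀ (by linarith)
      nlinarith
    exact (mul_le_mul_of_nonneg_left h1 (by positivity)).trans h2
  have hlim : ∀ n, ∃ z, Filter.Tendsto (fun k => (a ^ k).ap (y (n + k))) Filter.atTop (nhds z) :=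
    fun n => cauchySeq_tendsto_of_complete (cauchySeq_of_le_geometric_two (hstep n))
  choose z hz using hlim
  refine ⟨z 0, ?_, ?_⟩
  · intro n
    refine ⟨z n, ?_⟩
    have h1 : Filter.Tendsto (fun k => (a ^ n).ap ((a ^ k).ap (y (n + k)))) Filter.atTop
        (nhds ((a ^ n).ap (z n))) := ((a ^ n).ap.continuous.tendsto _).comp (hz n)
    have h2 : Filter.Tendsto (fun k => (a ^ (k + n)).ap (y (0 + (k + n)))) Filter.atTop
        (nhds (z 0)) := (hz 0).comp (Filter.tendsto_add_atTop_nat n)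
    refine tendsto_nhds_unique h1 (h2.congr fun k => ?_)
    rw [← Mult.ap_mul, ← pow_add, Nat.zero_add, Nat.add_comm k n]
  · intro h0
    have h1 := dist_le_of_le_geometric_two_of_tendsto₀ (hstep 0) (hz 0)
    rw [h0] at h1
    have h2 : (a ^ 0).ap (y (0 + 0)) = x := by simp [hy0]
    have h3 : dist ((a ^ 0).ap (y (0 + 0))) (0 : E) ≤ 2 * δ := h1
    rw [h2, dist_zero_right] at h3
    linarith

theorem Wsub_div (a : Mult E) (hd : ∀ x : E, ∀ ε : ℝ, 0 < ε → ∃ y, ‖x - a.ap y‖ < ε) {w : E}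
    (hw : w ∈ Wsub a) : ∃ w' ∈ Wsub a, a.ap w' = w := by
  choose y hy using fun n : ℕ => hw (n + 1)
  have h0 : a.ap (y 0) = w := by
    have := hy 0
    rwa [Mult.ap_pow_succ', pow_zero, Mult.ap_one] at this
  refine ⟨y 0, fun n => ⟨y n, ?_⟩, h0⟩
  have h1 : a.ap ((a ^ n).ap (y n) - y 0) = 0 := by
    rw [map_sub, ← Mult.ap_pow_succ', hy, h0, sub_self]
  exact sub_eq_zero.1 (ap_inj a hd _ h1)

theorem QN_L (a : Mult E) (ha : QN a) {w : E} (hw : w ∈ Wsub a) : QN (Mult.L w) := by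
  obtain ⟨w1, hw1⟩ := hw 1
  rw [pow_one] at hw1
  have hL : Mult.L w = a * Mult.L w1 := by rw [Mult.mul_L, hw1]
  intro ε hε
  obtain ⟨C, hC⟩ := ha (ε / (1 + ‖w1‖)) (by positivity)
  have hC0 : 0 ≤ C := by
    have h0 := hC 0
    have h0' : C * (ε / (1 + ‖w1‖)) ^ 0 = C := by rw [pow_zero, mul_one]
    rw [h0'] at h0
    exact (norm_nonneg _).trans h0
  refine ⟨C + ‖(1 : Mult E)‖, fun n => ?_⟩
  rcases Nat.eq_zero_or_pos n with rfl | hn
  · simp only [pow_zero, mul_one]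
    linarith
  · have h1 : (Mult.L w) ^ n = a ^ n * (Mult.L w1) ^ n := by
      rw [hL]
      exact mul_pow a (Mult.L w1) n
    rw [h1]
    have h2 : ‖(Mult.L w1) ^ n‖ ≤ (1 + ‖w1‖) ^ n := by
      refine (norm_pow_le' _ hn).trans ?_
      refine pow_le_pow_left₀ (norm_nonneg _) ?_ n
      have := Mult.norm_L_le w1
      linarith
    calc ‖a ^ n * (Mult.L w1) ^ n‖ ≤ ‖a ^ n‖ * ‖(Mult.L w1) ^ n‖ := norm_mul_le _ _
      _ ≤ (C * (ε / (1 + ‖w1‖)) ^ n) * (1 + ‖w1‖) ^ n :=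
        mul_le_mul (hC n) h2 (norm_nonneg _) (by positivity)
      _ = C * ε ^ n := by
        rw [div_pow]
        field_simp
      _ ≤ (C + ‖(1 : Mult E)‖) * ε ^ n := by
        refine mul_le_mul_of_nonneg_right ?_ (by positivity)
        have := norm_nonneg (1 : Mult E)
        linarith

end
end ACG
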